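import Mathlib
import Pool.Agent.Q1.M3.Pg.RingO
import Pool.Agent.H77.Q1.Open

set_option autoImplicit false
open Finset

/-! # Module M7: faces of the outward labels -/

namespace Pool.Agent.H76.M7

open Pool.Agent.H75.Perc Pool.Agent.H75.TwoArm Pool.Agent.H75.Four Pool.Agent.H69.Q1
open Pool.Agent.Q1.M3
open Pool.Agent.Q1.M3.Pg (outl outl_eq ofc ofc_succ lf2)
open Pool.Agent.H5.Q1
open Pool.Agent.H77.Q1 (lbf)

/-- the label at the beginning of a side -/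
lemma outl_zero (X Y : ℤ → ℤ) (t : (ℤ × ℤ) × ℤ) : ∃ g', IsUnit4 (g' - ofc X Y t 0) ∧
    lbf (ofc X Y t 0) g' = outl X Y t 0 := by
  refine ⟨ofc X Y t 0 - H75.Perc.dir t.2, ?_, ?_⟩
  · have h1 := isUnit4_dir t.2
    unfold IsUnit4 at h1 ⊢
    obtain ⟨d1, d2, hd⟩ : ∃ d1 d2, H75.Perc.dir t.2 = (d1, d2) := ⟨_, _, rfl⟩
    rw [hd] at h1 ⊢
    simp only [Prod.mk.injEq] at h1
    simp only [sub_sub_cancel_left, Prod.neg_mk, Prod.mk.injEq]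
    omega
  rw [outl_eq]
  unfold ofc lbf
  obtain ⟨x, y⟩ := sp X Y t 0
  have hd : (t.2 % 4 = 0 ∧ H75.Perc.dir t.2 = (1, 0) ∧ H75.Perc.dir (t.2 - 1) = (0, -1)) ∨
      (t.2 % 4 = 1 ∧ H75.Perc.dir t.2 = (0, 1) ∧ H75.Perc.dir (t.2 - 1) = (1, 0)) ∨
      (t.2 % 4 = 2 ∧ H75.Perc.dir t.2 = (-1, 0) ∧ H75.Perc.dir (t.2 - 1) = (0, 1)) ∨
      (t.2 % 4 = 3 ∧ H75.Perc.dir t.2 = (0, -1) ∧ H75.Perc.dir (t.2 - 1) = (-1, 0)) := by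
    rcases dir_cases t.2 with ⟨p, q⟩ | ⟨p, q⟩ | ⟨p, q⟩ | ⟨p, q⟩ <;>
    rcases dir_cases (t.2 - 1) with ⟨p', q'⟩ | ⟨p', q'⟩ | ⟨p', q'⟩ | ⟨p', q'⟩ <;>
    first
    | (exfalso; omega)
    | (rw [q, q']; simp; omega)
  obtain ⟨f0, f1, f2, f3⟩ := fi_oc (x, y) (t.2 + 1)
  rcases hd with ⟨e, e1, e2⟩ | ⟨e, e1, e2⟩ | ⟨e, e1, e2⟩ | ⟨e, e1, e2⟩
  · rw [f1 (by omega), e1, e2]
    simp only [Prod.mk_add_mk, Prod.mk_sub_mk, Prod.mk.injEq]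
    omega
  · rw [f2 (by omega), e1, e2]
    simp only [Prod.mk_add_mk, Prod.mk_sub_mk, Prod.mk.injEq]
    omega
  · rw [f3 (by omega), e1, e2]
    simp only [Prod.mk_add_mk, Prod.mk_sub_mk, Prod.mk.injEq]
    omega
  · rw [f0 (by omega), e1, e2]
    simp only [Prod.mk_add_mk, Prod.mk_sub_mk, Prod.mk.injEq]
    omega

/-- every outward label has a face which is an outer face of the side -/
lemma outl_face (X Y : ℤ → ℤ) (t : (ℤ × ℤ) × ℤ) {j : ℕ} (h0 : 0 < slen X Y t)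
    (hj : j ≤ slen X Y t) : ∃ j' < slen X Y t, ∃ g', IsUnit4 (g' - ofc X Y t j') ∧
      lbf (ofc X Y t j') g' = outl X Y t j := by
  rcases Nat.eq_zero_or_pos j with h | h
  · subst h
    obtain ⟨g', h1, h2⟩ := outl_zero X Y t
    exact ⟨0, h0, g', h1, h2⟩
  · obtain ⟨i, rfl⟩ : ∃ i, j = i + 1 := ⟨j - 1, by omega⟩
    obtain ⟨h1, h2⟩ := ofc_succ X Y t i
    exact ⟨i, hj, ofc X Y t (i + 1), h1, h2⟩

end Pool.Agent.H76.M7
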