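import Mathlib
import Pool.Agent.Q1.M3.Pg.RingO
import Pool.Agent.Q1.M3.Pg.Chan
import Pool.Agent.Q1.M4.DobG

set_option autoImplicit false
open Finset

/-! # Module M7: a label which leaves the lattice region is an outward label of a side -/

namespace Pool.Agent.H76.M7

open Pool.Agent.H75.Perc Pool.Agent.H75.TwoArm Pool.Agent.H75.Four Pool.Agent.H69.Q1
open Pool.Agent.Q1.M3
open Pool.Agent.Q1.M3.Pg (SD LX lty LT col box_eq col_succ RT LX_left LX_right LX_le le_LX inRect_box
  outl_eq Gen2 comp comp_adj outc adj_left adj_right adj_up adj_down)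
open Pool.Agent.Q1.M4 (nextSide tail head IsSide Adj4 inRect)
open Pool.Agent.H5.Q1 (sp slen gp)
open Pool.Agent.Q1.M5 (sV)
open Pool.Agent.H49.Q1 (onCell)

lemma dir_one {k : ℤ} (h : H75.Perc.dir k = (1, 0)) : k % 4 = 0 := by
  rcases dir_cases k with ⟨e, f⟩ | ⟨e, f⟩ | ⟨e, f⟩ | ⟨e, f⟩ <;> rw [f] at h <;>
    simp [Prod.ext_iff] at h
  exact e

lemma dir_two {k : ℤ} (h : H75.Perc.dir k = (0, 1)) : k % 4 = 1 := by
  rcases dir_cases k with ⟨e, f⟩ | ⟨e, f⟩ | ⟨e, f⟩ | ⟨e, f⟩ <;> rw [f] at h <;>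
    simp [Prod.ext_iff] at h
  exact e

lemma dir_three {k : ℤ} (h : H75.Perc.dir k = (-1, 0)) : k % 4 = 2 := by
  rcases dir_cases k with ⟨e, f⟩ | ⟨e, f⟩ | ⟨e, f⟩ | ⟨e, f⟩ <;> rw [f] at h <;>
    simp [Prod.ext_iff] at h
  exact e

lemma dir_four {k : ℤ} (h : H75.Perc.dir k = (0, -1)) : k % 4 = 3 := by
  rcases dir_cases k with ⟨e, f⟩ | ⟨e, f⟩ | ⟨e, f⟩ | ⟨e, f⟩ <;> rw [f] at h <;>
    simp [Prod.ext_iff] at h
  exact e

variable {d : SD} {o : ℂ} {δ : ℝ}

/-- **A step out of the region.** -/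
theorem exists_out (h : d.Ok) (hf : d.Fine o δ) {a b : ℤ × ℤ} (hab : IsUnit4 (b - a))
    (ha : box δ o d.K a ∈ d.R) (hb : box δ o d.K b ∉ d.R) :
    ∃ n < d.N, ∃ j ≤ d.ln o δ n, a = d.pt' o δ n j ∧ a + b = d.ol o δ n j ∧
      d.oc' n = box δ o d.K b ∧ (d.sid n).1 = box δ o d.K a := by
  have hδ := hf.hδ
  have hm := hf.hm3
  have hg := hf.gen
  have hT := h.typed
  have hX := Pg.LX_mono (K := d.K) (o := o.re) hδ hm
  have hY := Pg.LX_mono (K := d.K) (o := o.im) hδ hm
  have hR : d.R = comp (d.P \ d.H2) d.s.1 := rfl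
  have hcP := mem_sdiff.1 (SD.R_sub ha)
  have hne : box δ o d.K b ≠ box δ o d.K a := fun h1 => hb (by rw [h1]; exact ha)
  have hout : Adj4 (box δ o d.K a) (box δ o d.K b) → box δ o d.K b ∉ d.P ∨ box δ o d.K b ∈ d.H2 := by
    intro h1
    by_contra hcon
    push Not at hcon
    rw [hR] at ha hb
    exact hb (comp_adj ha (mem_sdiff.2 hcon) h1)
  -- enough: the side and the position
  have key : ∀ k : ℤ, b = a + H75.Perc.dir k → box δ o d.K b = box δ o d.K a + H75.Perc.dir k →
      (k % 4 = 0 → a.1 = LX d.K o.re δ ((box δ o d.K a).1 + 1)) →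
      (k % 4 = 1 → a.2 = LX d.K o.im δ ((box δ o d.K a).2 + 1)) →
      (k % 4 = 2 → a.1 = LX d.K o.re δ (box δ o d.K a).1) →
      (k % 4 = 3 → a.2 = LX d.K o.im δ (box δ o d.K a).2) →
      ∃ n < d.N, ∃ j ≤ d.ln o δ n, a = d.pt' o δ n j ∧ a + b = d.ol o δ n j ∧
      d.oc' n = box δ o d.K b ∧ (d.sid n).1 = box δ o d.K a := by
    intro k hk hbk g0 g1 g2 g3
    obtain ⟨n, hn, e1, e2⟩ := SD.exists_side h ha hb ⟨k, hbk⟩
    have e1' : (d.sid n).1 = box δ o d.K a := e1
    have e2' : outc (d.sid n) = box δ o d.K b := e2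
    have e3 : H75.Perc.dir ((d.sid n).2 - 1) = H75.Perc.dir k := by
      have h2 := e2'
      unfold outc at h2
      rw [e1', hbk] at h2
      exact add_left_cancel h2
    have hin := inRect_box hδ hg a
    have hs : sV (LX d.K o.re δ) (LX d.K o.im δ) (d.sid n) a := by
      unfold sV onCell Pool.Agent.H75.Perc.inB
      rw [e1']
      refine ⟨hin, ?_, ?_, ?_, ?_⟩
      · intro h4
        apply g3
        rcases dir_cases k with ⟨e, f⟩ | ⟨e, f⟩ | ⟨e, f⟩ | ⟨e, f⟩ <;> rw [f] at e3
        · have := dir_one e3; omega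
        · have := dir_two e3; omega
        · have := dir_three e3; omega
        · exact e
      · intro h4
        apply g0
        rcases dir_cases k with ⟨e, f⟩ | ⟨e, f⟩ | ⟨e, f⟩ | ⟨e, f⟩ <;> rw [f] at e3
        · exact e
        · have := dir_two e3; omega
        · have := dir_three e3; omega
        · have := dir_four e3; omega
      · intro h4
        apply g1
        rcases dir_cases k with ⟨e, f⟩ | ⟨e, f⟩ | ⟨e, f⟩ | ⟨e, f⟩ <;> rw [f] at e3
        · have := dir_one e3; omega
        · exact e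
        · have := dir_three e3; omega
        · have := dir_four e3; omega
      · intro h4
        apply g2
        rcases dir_cases k with ⟨e, f⟩ | ⟨e, f⟩ | ⟨e, f⟩ | ⟨e, f⟩ <;> rw [f] at e3
        · have := dir_one e3; omega
        · have := dir_two e3; omega
        · exact e
        · have := dir_four e3; omega
    obtain ⟨j, hj, hj2⟩ := (Pool.Agent.Q1.Dob.mem_sV hX hY).1 hs
    refine ⟨n, hn, j, hj, hj2, ?_, e2', e1'⟩
    unfold SD.ol
    rw [outl_eq, ← hj2, e3, hk]
  obtain ⟨a1, a2⟩ := a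
  obtain ⟨b1, b2⟩ := b
  have hu := unit_cases hab
  simp only at hu
  have hcP1 : (box δ o d.K (a1, a2)) ∈ d.P := hcP.1
  have hcP2 : (box δ o d.K (a1, a2)) ∉ d.H2 := hcP.2
  have hin := inRect_box (K := d.K) (o := o) hδ hg (a1, a2)
  rw [box_eq] at hcP1 hcP2 hin
  rw [box_eq, box_eq] at hne hout
  unfold inRect at hin
  simp only at hcP1 hcP2 hne hout hin key
  rw [box_eq, box_eq] at key
  simp only at key
  rw [box_eq, box_eq]
  obtain ⟨N, hN⟩ : ∃ N, col d.K o.re δ a1 = N := ⟨_, rfl⟩
  obtain ⟨M, hM⟩ : ∃ M, col d.K o.im δ a2 = M := ⟨_, rfl⟩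
  simp only [hN, hM] at hcP1 hcP2 hne hout hin key ⊢
  rcases hu with ⟨u1, u2⟩ | ⟨u1, u2⟩ | ⟨u1, u2⟩ | ⟨u1, u2⟩
  · -- right
    obtain rfl : b1 = a1 + 1 := by omega
    obtain rfl : b2 = a2 := by omega
    have hc := col_succ (K := d.K) (o := o.re) hδ hm hg.1 a1
    rw [hN] at hc
    simp only [hM] at hne hout key ⊢
    have hcc : col d.K o.re δ (a1 + 1) = N + 1 := by
      rcases hc with hc | hc
      · exact absurd (by rw [hc]) hne
      · exact hc
    rw [hcc] at key hout ⊢
    have hadj : Adj4 ((N, M) : ℤ × ℤ) (N + 1, M) := by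
      have := adj_right (N + 1) M
      rwa [add_sub_cancel_right] at this
    have k1 := hT.xO2 (N + 1) M
    have k2 := hT.xH1 (N + 1) M
    rw [add_sub_cancel_right] at k1 k2
    have ht : ¬ RT (lty (N + 1)) := by
      intro hr
      rcases hout hadj with hc | hc
      · have := k1 hcP1 hcP2 hc
        rw [this] at hr
        rcases hr with h | h <;> exact absurd h (by decide)
      · have := k2 hcP1 hcP2 hc
        rw [this] at hr
        rcases hr with h | h <;> exact absurd h (by decide)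
    have h5 : ¬ (a1 + 1 ≤ LX d.K o.re δ (N + 1)) := by
      rw [LX_left hδ hg.1 ht, hcc]; omega
    have d0 : H75.Perc.dir 0 = (1, 0) := by decide
    refine key 0 (by rw [d0]; ext <;> simp) (by rw [d0]; ext <;> simp) (fun _ => by omega)
      (fun h => by omega) (fun h => by omega) (fun h => by omega)
  · -- up
    obtain rfl : b1 = a1 := by omega
    obtain rfl : b2 = a2 + 1 := by omega
    have hc := col_succ (K := d.K) (o := o.im) hδ hm hg.2 a2
    rw [hM] at hc
    simp only [hN] at hne hout key ⊢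
    have hcc : col d.K o.im δ (a2 + 1) = M + 1 := by
      rcases hc with hc | hc
      · exact absurd (by rw [hc]) hne
      · exact hc
    rw [hcc] at key hout ⊢
    have hadj : Adj4 ((N, M) : ℤ × ℤ) (N, M + 1) := by
      have := adj_up N (M + 1)
      rwa [add_sub_cancel_right] at this
    have k1 := hT.yO2 N (M + 1)
    have k2 := hT.yH1 N (M + 1)
    rw [add_sub_cancel_right] at k1 k2
    have ht : ¬ RT (lty (M + 1)) := by
      intro hr
      rcases hout hadj with hc | hc
      · have := k1 hcP1 hcP2 hc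
        rw [this] at hr
        rcases hr with h | h <;> exact absurd h (by decide)
      · have := k2 hcP1 hcP2 hc
        rw [this] at hr
        rcases hr with h | h <;> exact absurd h (by decide)
    have h5 : ¬ (a2 + 1 ≤ LX d.K o.im δ (M + 1)) := by
      rw [LX_left hδ hg.2 ht, hcc]; omega
    have d0 : H75.Perc.dir 1 = (0, 1) := by decide
    refine key 1 (by rw [d0]; ext <;> simp) (by rw [d0]; ext <;> simp) (fun h => by omega)
      (fun _ => by omega) (fun h => by omega) (fun h => by omega)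
  · -- left
    obtain rfl : a1 = b1 + 1 := by omega
    obtain rfl : b2 = a2 := by omega
    have hc := col_succ (K := d.K) (o := o.re) hδ hm hg.1 b1
    rw [hN] at hc
    simp only [hM] at hne hout key ⊢
    have hcc : col d.K o.re δ b1 = N - 1 := by
      rcases hc with hc | hc
      · exact absurd (by rw [hc]) hne
      · omega
    rw [hcc] at key hout ⊢
    have ht : RT (lty N) := by
      rcases hout (adj_left N M) with hc | hc
      · exact Or.inl (hT.xO1 N M hcP1 hcP2 hc)
      · exact Or.inr (hT.xH2 N M hcP1 hcP2 hc)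
    have h5 : ¬ (LX d.K o.re δ N ≤ b1) := by
      rw [LX_right hδ hg.1 ht, hcc]; omega
    have d0 : H75.Perc.dir 2 = (-1, 0) := by decide
    refine key 2 (by rw [d0]; ext <;> simp) (by rw [d0]; ext <;> simp; omega)
      (fun h => by omega) (fun h => by omega) (fun _ => by omega) (fun h => by omega)
  · -- down
    obtain rfl : a2 = b2 + 1 := by omega
    obtain rfl : b1 = a1 := by omega
    have hc := col_succ (K := d.K) (o := o.im) hδ hm hg.2 b2
    rw [hM] at hc
    simp only [hN] at hne hout key ⊢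
    have hcc : col d.K o.im δ b2 = M - 1 := by
      rcases hc with hc | hc
      · exact absurd (by rw [hc]) hne
      · omega
    rw [hcc] at key hout ⊢
    have ht : RT (lty M) := by
      rcases hout (adj_down N M) with hc | hc
      · exact Or.inl (hT.yO1 N M hcP1 hcP2 hc)
      · exact Or.inr (hT.yH2 N M hcP1 hcP2 hc)
    have h5 : ¬ (LX d.K o.im δ M ≤ b2) := by
      rw [LX_right hδ hg.2 ht, hcc]; omega
    have d0 : H75.Perc.dir 3 = (0, -1) := by decide
    refine key 3 (by rw [d0]; ext <;> simp) (by rw [d0]; ext <;> simp; omega)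
      (fun h => by omega) (fun h => by omega) (fun h => by omega) (fun _ => by omega)

end Pool.Agent.H76.M7
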