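import Mathlib
import Pool.Agent.H52.Q1.RatioLim

set_option autoImplicit false
open Finset

/-! Module M7, 2.2: comparison of the one-point functions of two environments which are flat near a
boundary point, by the first scale with an open half ring. The difference is bounded by the
differences of the connection probabilities of macroscopic half rings. -/

namespace Pool.Agent.H76.M7

open Pool.Agent.H75.Perc Pool.Agent.H99.NC Pool.Agent.H47.NC Pool.Agent.H47.NC.ArchAux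
open Pool.Agent.H49.Q1 Pool.Agent.H52.Q1

/-- the constant weights `1/2` -/
noncomputable abbrev hf : ℤ × ℤ → ℝ := fun _ => (1 : ℝ) / 2

/-- No open half ring at the scales `4 ^ i * j`, `i < n`. -/
def NoR (j : ℤ) (n : ℕ) (ω : Finset (ℤ × ℤ)) : Prop := ∀ i < n, ¬ Circ (4 ^ i * j) ω

lemma Circ_inter {s k : ℤ} (hs : 1 ≤ s) (hk : 4 * s ≤ k) (ω : Finset (ℤ × ℤ)) :
    Circ s (ω ∩ HH k) ↔ Circ s ω := by
  have h : HH k ∩ AA s = AA s := inter_eq_right.2 (sdiff_subset.trans (HH_mono hk))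
  rw [← Circ_iff hs (ω ∩ HH k), ← Circ_iff hs ω, inter_assoc, h]

lemma four_pow_pos (i : ℕ) : (1 : ℤ) ≤ 4 ^ i := one_le_pow₀ (by norm_num)

lemma four_le {i n : ℕ} (h : i < n) {j : ℤ} (hj : 1 ≤ j) : 4 * (4 ^ i * j) ≤ 4 ^ n * j := by
  have h1 : (4 : ℤ) ^ (i + 1) ≤ 4 ^ n := pow_le_pow_right₀ (by norm_num) (by omega)
  have h2 : 4 * (4 ^ i * j) = 4 ^ (i + 1) * j := by rw [pow_succ]; ring
  rw [h2]
  exact mul_le_mul_of_nonneg_right h1 (by omega)

lemma le_four (n : ℕ) {j : ℤ} (hj : 1 ≤ j) : j ≤ 4 ^ n * j := by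
  have := mul_le_mul_of_nonneg_right (four_pow_pos n) (show (0 : ℤ) ≤ j by omega)
  omega

lemma one_le_four (n : ℕ) {j : ℤ} (hj : 1 ≤ j) : 1 ≤ 4 ^ n * j := hj.trans (le_four n hj)

lemma NoR_inter {j : ℤ} (hj : 1 ≤ j) {n : ℕ} {k : ℤ} (hk : 4 ^ n * j ≤ k) (ω : Finset (ℤ × ℤ)) :
    NoR j n (ω ∩ HH k) ↔ NoR j n ω := by
  unfold NoR
  refine forall₂_congr fun i hi => ?_
  rw [Circ_inter (one_le_four i hj) ((four_le hi hj).trans hk)]

lemma AS_inter' (S : Sy) {k : ℤ} {H : Finset (ℤ × ℤ)} (h : HB S k ⊆ H) (ω : Finset (ℤ × ℤ)) :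
    AS S k (ω ∩ H) ↔ AS S k ω := by
  rw [← AS_inter S k (ω ∩ H), ← AS_inter S k ω, inter_assoc, inter_eq_right.2 h]

/-! ### Telescoping over the first scale with a ring -/

lemma tele (E : Finset (ℤ × ℤ)) (A : Finset (ℤ × ℤ) → Prop) (j : ℤ) (n : ℕ) :
    Pr E A = (∑ i ∈ range n, Pr E (fun ω => A ω ∧ (Circ (4 ^ i * j) ω ∧ NoR j i ω))) +
      Pr E (fun ω => A ω ∧ NoR j n ω) := by
  induction n with
  | zero =>
    rw [range_zero, sum_empty, zero_add]
    exact Pr_congr fun ω _ => ⟨fun h => ⟨h, fun i hi => absurd hi (by omega)⟩, fun h => h.1⟩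
  | succ n ih =>
    rw [sum_range_succ, ih, add_assoc]
    congr 1
    rw [Pr_add_not (fun ω => A ω ∧ NoR j n ω) (fun ω => Circ (4 ^ n * j) ω)]
    congr 1
    · exact Pr_congr fun ω _ => by tauto
    · refine Pr_congr fun ω _ => ?_
      have : NoR j (n + 1) ω ↔ NoR j n ω ∧ ¬ Circ (4 ^ n * j) ω := by
        unfold NoR
        constructor
        · exact fun h => ⟨fun i hi => h i (by omega), h n (by omega)⟩
        · rintro ⟨h1, h2⟩ i hi
          rcases Nat.lt_succ_iff_lt_or_eq.1 hi with h | rfl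
          · exact h1 i h
          · exact h2
      rw [this]
      tauto

/-! ### The ring part -/

/-- the part with a ring and an event inside -/
lemma ring_part' {j : ℤ} (hj : 1 ≤ j) {E W : Finset (ℤ × ℤ)} {J : ℤ × ℤ → Prop}
    (hF : Far (4 * j) E W J) {x : ℤ × ℤ} (hx : inB (-j) 0 (-j) j x)
    {B : Finset (ℤ × ℤ) → Prop} (hB : ∀ ω, B (ω ∩ HH j) ↔ B ω) :
    Pr E (fun ω => CJ W J x ω ∧ (Circ j ω ∧ B ω)) =
      Ex hf (AA j) (fun ξ => ind (Circ j ξ) *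
        (Pr (HH j) (fun o => CJ ξ (fun v => v = rv j ξ) x o ∧ B o) * ww j E W J ξ)) := by
  have hA : AA j ⊆ E := sdiff_subset.trans hF.flat
  have hj4 : HH j ⊆ HH (4 * j) := HH_mono (by omega)
  rw [Pr_eq_Eh, Ex_split _ hA]
  refine Ex_congr fun ξ hξ => ?_
  by_cases hC : Circ j ξ
  · rw [ind_true hC, one_mul]
    have h1 : HH j ⊆ E \ AA j := by
      intro e he
      rw [mem_sdiff, AA, mem_sdiff]
      exact ⟨hF.flat (hj4 he), fun h => h.2 he⟩
    have h2 : E \ HH (4 * j) ⊆ E \ AA j := sdiff_subset_sdiff (subset_refl _) sdiff_subset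
    have hd : Disjoint (HH j) (E \ HH (4 * j)) := by
      rw [disjoint_left]
      intro e he h
      exact (mem_sdiff.1 h).2 (hj4 he)
    have h3 := Pr_indep h1 h2 hd (fun o => CJ ξ (fun v => v = rv j ξ) x o ∧ B o)
      (CJ (W ∪ ξ) J (rv j ξ))
    unfold ww
    rw [← h3, Pr_eq_Eh]
    refine Ex_congr fun o ho => ?_
    apply ind_congr
    have hω : ξ ∪ o ⊆ E := union_subset (hξ.trans hA) (ho.trans sdiff_subset)
    have hoA : ∀ e ∈ o, e ∉ AA j := fun e he => (mem_sdiff.1 (ho he)).2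
    have e1 : (ξ ∪ o) ∩ AA j = ξ := by
      ext e
      rw [mem_inter, mem_union]
      constructor
      · rintro ⟨h4 | h4, h5⟩
        · exact h4
        · exact absurd h5 (hoA e h4)
      · intro h4
        exact ⟨Or.inl h4, hξ h4⟩
    have e2 : (ξ ∪ o) ∩ HH j = o ∩ HH j := by
      ext e
      rw [mem_inter, mem_union, mem_inter]
      constructor
      · rintro ⟨h4 | h4, h5⟩
        · have := hξ h4
          rw [AA, mem_sdiff] at this
          exact absurd h5 this.2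
        · exact ⟨h4, h5⟩
      · rintro ⟨h4, h5⟩
        exact ⟨Or.inr h4, h5⟩
    have e3 : (ξ ∪ o) \ HH (4 * j) = o ∩ (E \ HH (4 * j)) := by
      ext e
      rw [mem_sdiff, mem_union, mem_inter, mem_sdiff]
      constructor
      · rintro ⟨h4 | h4, h5⟩
        · have := hξ h4
          rw [AA, mem_sdiff] at this
          exact absurd this.1 h5
        · exact ⟨h4, (mem_sdiff.1 (ho h4)).1, h5⟩
      · rintro ⟨h4, h5, h6⟩
        exact ⟨Or.inr h4, h6⟩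
    have hC' : Circ j ((ξ ∪ o) ∩ AA j) := by rwa [e1]
    have h5 := decouple hj hF hω hC' hx
    rw [e1, e2, e3] at h5
    have h6 : Circ j (ξ ∪ o) := Circ_inc j _ _ subset_union_left hC
    have h7 : B (ξ ∪ o) ↔ B (o ∩ HH j) := by rw [← hB (ξ ∪ o), e2]
    rw [h5, h7]
    tauto
  · rw [ind_false hC, zero_mul]
    rw [← Ex_const (fun _ => (1 : ℝ) / 2) (E \ AA j) (0 : ℝ)]
    refine Ex_congr fun o ho => ?_
    apply ind_false
    rintro ⟨-, h1, -⟩
    apply hC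
    rw [← Circ_iff hj] at h1
    refine Circ_inc j _ _ ?_ h1
    intro e he
    rw [mem_inter, mem_union] at he
    rcases he with ⟨h4 | h4, h5⟩
    · exact h4
    · exact absurd h5 (mem_sdiff.1 (ho h4)).2

/-- The weight of the first ring at the scale `s = 4 ^ i * j`. -/
noncomputable def wt1 (j : ℤ) (i : ℕ) (ξ : Finset (ℤ × ℤ)) : ℝ :=
  ind (Circ (4 ^ i * j) ξ) * Pr (HH (4 ^ i * j))
    (fun o => CJ ξ (fun v => v = rv (4 ^ i * j) ξ) (0, 0) o ∧ NoR j i o)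

lemma wt1_nonneg (j : ℤ) (i : ℕ) (ξ : Finset (ℤ × ℤ)) : 0 ≤ wt1 j i ξ :=
  mul_nonneg (ind_nonneg _) (Pr_nonneg _ _)

lemma hf_Pb : Pb hf := Pb_half

lemma ker_le {j : ℤ} (hj : 1 ≤ j) {i : ℕ} {E : Finset (ℤ × ℤ)}
    (hE : HH (4 * (4 ^ i * j)) ⊆ E) :
    Ex hf (AA (4 ^ i * j)) (wt1 j i) ≤
      Pr E (fun ω => AS (sR (0, 0)) j ω ∧ (Circ (4 ^ i * j) ω ∧ NoR j i ω)) := by
  set s : ℤ := 4 ^ i * j with hs
  have hs1 : 1 ≤ s := one_le_four i hj
  have hjs : j ≤ s := le_four i hj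
  have hss : HH s ⊆ HH (4 * s) := HH_mono (by omega)
  set c := Pr (HH s) (fun o => AS (sR (0, 0)) j o ∧ NoR j i o) with hc
  have h1 : Ex hf (AA s) (wt1 j i) ≤ Ex hf (AA s) (fun ξ => ind (Circ s ξ) * c) := by
    refine Ex_mono hf_Pb fun ξ hξ => ?_
    unfold wt1
    rw [← hs]
    by_cases hC : Circ s ξ
    · rw [ind_true hC, one_mul, one_mul]
      refine Pr_mono fun o ho h => ⟨?_, h.2⟩
      have hF := (far_ring hs1 hξ hC).mono hjs
      have h2 := h.1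
      have e0 : ((0 : ℤ), (0 : ℤ)) = (sR (0, 0)).g (0, 0) := by rw [sR_g]
      rw [e0] at h2
      exact CJ.arm (by omega) hF.flat'.1 hF.far' ho h2
    · rw [ind_false hC]; simp
  refine h1.trans (le_of_eq ?_)
  have h2 := Pr_indep (E := E) (E1 := AA s) (E2 := HH s) (sdiff_subset.trans hE) (hss.trans hE)
    sdiff_disjoint (Circ s) (fun o => AS (sR (0, 0)) j o ∧ NoR j i o)
  rw [Ex_smul', ← Pr_eq_Eh, ← h2]
  refine Pr_congr fun ω _ => ?_
  rw [Circ_iff hs1, AS_inter' _ (by rw [HB_std]; exact HH_mono hjs),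
    NoR_inter hj (by omega : 4 ^ i * j ≤ s)]
  tauto

/-! ### The part without rings -/

lemma Pr_not' (E : Finset (ℤ × ℤ)) (B : Finset (ℤ × ℤ) → Prop) :
    Pr E (fun ω => ¬ B ω) = 1 - Pr E B := by
  have h := Pr_add_not (E := E) (fun _ => True) B
  rw [Pr_true] at h
  have h1 : Pr E (fun ω => True ∧ B ω) = Pr E B := Pr_congr fun ω _ => by tauto
  have h2 : Pr E (fun ω => True ∧ ¬ B ω) = Pr E (fun ω => ¬ B ω) := Pr_congr fun ω _ => by tauto
  rw [h1, h2] at h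
  linarith

lemma inc_dec (E : Finset (ℤ × ℤ)) {A B : Finset (ℤ × ℤ) → Prop} (hA : Inc A) (hB : Inc B) :
    Pr E (fun ω => A ω ∧ ¬ B ω) ≤ Pr E A * Pr E (fun ω => ¬ B ω) := by
  have h1 := Pr_harris E hA hB
  have h2 := Pr_add_not (E := E) A B
  rw [Pr_not']
  nlinarith

lemma Pr_NoR {j : ℕ} (hj : 1 ≤ j) (n : ℕ) {E : Finset (ℤ × ℤ)} (hE : HH (4 ^ n * j) ⊆ E) :
    Pr E (NoR j n) ≤ (1 - 1 / 2 ^ 77) ^ n := by
  have hjz : (1 : ℤ) ≤ j := by exact_mod_cast hj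
  induction n generalizing E with
  | zero => rw [pow_zero]; exact Pr_le_one _ _
  | succ n ih =>
    set s : ℤ := 4 ^ n * j with hs
    have hs1 : 1 ≤ s := one_le_four n hjz
    have e4 : (4 : ℤ) ^ (n + 1) * j = 4 * s := by rw [hs, pow_succ]; ring
    rw [e4] at hE
    have hss : HH s ⊆ HH (4 * s) := HH_mono (by omega)
    have h2 := Pr_indep (E := E) (E1 := AA s) (E2 := HH s) (sdiff_subset.trans hE) (hss.trans hE)
      sdiff_disjoint (fun ω => ¬ Circ s ω) (NoR j n)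
    have h3 : Pr E (NoR j (n + 1)) ≤ Pr E (fun ω => ¬ Circ s (ω ∩ AA s) ∧ NoR j n (ω ∩ HH s)) := by
      refine Pr_mono fun ω _ h => ⟨?_, ?_⟩
      · rw [Circ_iff hs1]
        exact h n (by omega)
      · rw [NoR_inter hjz (le_refl _)]
        exact fun i hi => h i (by omega)
    rw [h2] at h3
    have h4 : Pr (AA s) (fun ω => ¬ Circ s ω) ≤ 1 - 1 / 2 ^ 77 := by
      rw [Pr_not']
      have h5 : Pr (AA s) (Circ s) = Pr E (Circ s) := by
        have h7 : AA s ⊆ E := sdiff_subset.trans hE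
        rw [← Pr_restrict h7 (Circ s)]
        exact Pr_congr fun ω _ => Circ_iff hs1 ω
      have h6 : 1 / 2 ^ 77 ≤ Pr E (Circ s) := by
        have h7 : s = ((4 ^ n * j : ℕ) : ℤ) := by rw [hs]; push_cast; ring
        have h8 := Pr_Circ' (j := 4 ^ n * j) (by
          have := Nat.one_le_pow n 4 (by norm_num)
          nlinarith) (E := E) (by rw [← h7]; exact hE)
        rw [h7]
        exact h8
      rw [h5]
      linarith
    have h5 := ih (E := HH s) (subset_refl _)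
    calc Pr E (NoR j (n + 1)) ≤ _ := h3
      _ ≤ (1 - 1 / 2 ^ 77) * (1 - 1 / 2 ^ 77) ^ n := by
        refine mul_le_mul h4 h5 (Pr_nonneg _ _) (by norm_num)
      _ = _ := by rw [pow_succ]; ring

lemma noring_le {j : ℕ} (hj : 1 ≤ j) (n : ℕ) {E W : Finset (ℤ × ℤ)} {J : ℤ × ℤ → Prop}
    (hF : Far (4 ^ n * j) E W J) :
    Pr E (fun ω => CJ W J (0, 0) ω ∧ NoR j n ω) ≤ ph (4 ^ n * j) * (1 - 1 / 2 ^ 77) ^ n := by
  have hjz : (1 : ℤ) ≤ j := by exact_mod_cast hj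
  have h1 := one_le_four n hjz
  have h2 : Pr E (fun ω => CJ W J (0, 0) ω ∧ NoR j n ω) ≤
      Pr E (fun ω => AS (sR (0, 0)) (4 ^ n * j) ω ∧ ¬ ∃ i < n, Circ (4 ^ i * j) ω) := by
    refine Pr_mono fun ω hω h => ⟨?_, ?_⟩
    · have e0 : ((0 : ℤ), (0 : ℤ)) = (sR (0, 0)).g (0, 0) := by rw [sR_g]
      have h3 := h.1
      rw [e0] at h3
      exact CJ.arm (by omega) hF.flat'.1 hF.far' hω h3
    · rintro ⟨i, hi, hi'⟩
      exact h.2 i hi hi'
  refine h2.trans ((inc_dec E (AS_inc _ _) ?_).trans ?_)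
  · rintro ω ω' hs ⟨i, hi, h⟩
    exact ⟨i, hi, Circ_inc _ _ _ hs h⟩
  · refine mul_le_mul (Pr_AS_le (by omega) E) ?_ (Pr_nonneg _ _) (by
      rw [← Pr_AS_HB (sR (0, 0)) (by omega)]; exact Pr_nonneg _ _)
    refine (Pr_mono fun ω _ h => ?_).trans (Pr_NoR hj n hF.flat)
    exact fun i hi hi' => h ⟨i, hi, hi'⟩

/-! ### The comparison -/

/-- **Comparison of one-point functions.** -/
theorem dec_compare {j : ℕ} (hj : 1 ≤ j) (n : ℕ) {E W E' W' : Finset (ℤ × ℤ)}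
    {J J' : ℤ × ℤ → Prop} (hF : Far (4 ^ n * j) E W J) (hF' : Far (4 ^ n * j) E' W' J')
    {κ : ℝ} (hκ0 : 0 ≤ κ) (hκ : ∀ i < n, ∀ ξ, ξ ⊆ AA (4 ^ i * j) → Circ (4 ^ i * j) ξ →
      |ww (4 ^ i * j) E W J ξ - ww (4 ^ i * j) E' W' J' ξ| ≤ κ) :
    |Pr E (CJ W J (0, 0)) - Pr E' (CJ W' J' (0, 0))| ≤
      κ * ph j + ph (4 ^ n * j) * (1 - 1 / 2 ^ 77) ^ n := by
  have hjz : (1 : ℤ) ≤ j := by exact_mod_cast hj
  -- the ring parts
  have key : ∀ {E W : Finset (ℤ × ℤ)} {J : ℤ × ℤ → Prop}, Far (4 ^ n * j) E W J → ∀ i < n,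
      Pr E (fun ω => CJ W J (0, 0) ω ∧ (Circ (4 ^ i * j) ω ∧ NoR j i ω)) =
        Ex hf (AA (4 ^ i * j)) (fun ξ => wt1 j i ξ * ww (4 ^ i * j) E W J ξ) := by
    intro E W J hF i hi
    have hs1 := one_le_four i hjz
    rw [ring_part' hs1 (hF.mono (four_le hi hjz)) (x := (0, 0))
      (by unfold inB; simp only; omega) (fun ω => NoR_inter hjz (le_refl _) ω)]
    refine Ex_congr fun ξ _ => ?_
    unfold wt1
    ring
  have hd : ∀ i < n,
      |Pr E (fun ω => CJ W J (0, 0) ω ∧ (Circ (4 ^ i * j) ω ∧ NoR j i ω)) -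
        Pr E' (fun ω => CJ W' J' (0, 0) ω ∧ (Circ (4 ^ i * j) ω ∧ NoR j i ω))| ≤
      κ * Pr E (fun ω => AS (sR (0, 0)) j ω ∧ (Circ (4 ^ i * j) ω ∧ NoR j i ω)) := by
    intro i hi
    rw [key hF i hi, key hF' i hi, ← Ex_sub]
    have h1 := ker_le hjz (i := i) (E := E) ((HH_mono (four_le hi hjz)).trans hF.flat)
    have h2 := mul_le_mul_of_nonneg_left h1 hκ0
    refine le_trans ?_ h2
    rw [← Ex_smul, abs_le, ← neg_one_mul, ← Ex_smul]
    constructor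
    · refine Ex_mono hf_Pb fun ξ hξ => ?_
      by_cases hC : Circ (4 ^ i * j) ξ
      · have h3 := abs_le.1 (hκ i hi ξ hξ hC)
        nlinarith [wt1_nonneg j i ξ, mul_le_mul_of_nonneg_left h3.1 (wt1_nonneg j i ξ)]
      · have : wt1 j i ξ = 0 := by unfold wt1; rw [ind_false hC, zero_mul]
        rw [this]; simp
    · refine Ex_mono hf_Pb fun ξ hξ => ?_
      by_cases hC : Circ (4 ^ i * j) ξ
      · have h3 := abs_le.1 (hκ i hi ξ hξ hC)
        nlinarith [wt1_nonneg j i ξ, mul_le_mul_of_nonneg_left h3.2 (wt1_nonneg j i ξ)]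
      · have : wt1 j i ξ = 0 := by unfold wt1; rw [ind_false hC, zero_mul]
        rw [this]; simp
  have t := tele E (CJ W J (0, 0)) j n
  have t' := tele E' (CJ W' J' (0, 0)) j n
  have ta := tele E (AS (sR (0, 0)) j) j n
  have n1 := noring_le hj n hF
  have n2 := noring_le hj n hF'
  have n3 : 0 ≤ Pr E (fun ω => CJ W J (0, 0) ω ∧ NoR j n ω) := Pr_nonneg _ _
  have n4 : 0 ≤ Pr E' (fun ω => CJ W' J' (0, 0) ω ∧ NoR j n ω) := Pr_nonneg _ _
  have n5 : 0 ≤ Pr E (fun ω => AS (sR (0, 0)) j ω ∧ NoR j n ω) := Pr_nonneg _ _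
  have ha : Pr E (AS (sR (0, 0)) j) ≤ ph j := Pr_AS_le (by omega) E
  have hs : |(∑ i ∈ range n, Pr E (fun ω => CJ W J (0, 0) ω ∧ (Circ (4 ^ i * j) ω ∧ NoR j i ω))) -
      ∑ i ∈ range n, Pr E' (fun ω => CJ W' J' (0, 0) ω ∧ (Circ (4 ^ i * j) ω ∧ NoR j i ω))| ≤
      κ * ph j := by
    rw [← sum_sub_distrib]
    refine (abs_sum_le_sum_abs _ _).trans ?_
    refine (sum_le_sum fun i hi => hd i (mem_range.1 hi)).trans ?_
    rw [← mul_sum]
    refine mul_le_mul_of_nonneg_left ?_ hκ0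
    linarith
  rw [t, t']
  rw [abs_le] at hs ⊢
  constructor <;> linarith [hs.1, hs.2]

end Pool.Agent.H76.M7
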