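import Mathlib
import Pool.Agent.H76.M7.Dec
import Pool.Agent.Q1.M5.Defs

set_option autoImplicit false
open Finset

/-! Module M7, 2.2 in general position and normalised: two environments which are flat around a
boundary point have almost the same normalised one-point function if the macroscopic half rings are
joined to the targets with almost the same probabilities. -/

namespace Pool.Agent.H76.M7

open Pool.Agent.H75.Perc Pool.Agent.H99.NC Pool.Agent.H47.NC Pool.Agent.H47.NC.ArchAux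
open Pool.Agent.H49.Q1 Pool.Agent.H52.Q1 Pool.Agent.Q1.M5

/-- The probability that the half ring in the configuration `ξ` of the annulus (standard position) is
joined to the target, position `S`. -/
noncomputable def wwS (S : Sy) (j : ℤ) (E W : Finset (ℤ × ℤ)) (J : ℤ × ℤ → Prop)
    (ξ : Finset (ℤ × ℤ)) : ℝ :=
  Pr (E \ HB S (4 * j)) (CJ (W ∪ ξ.map S.G) J (S.g (rv j ξ)))

lemma mem_map_G (S : Sy) (E : Finset (ℤ × ℤ)) (e : ℤ × ℤ) : S.G e ∈ E.map S.G ↔ e ∈ E :=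
  Finset.mem_map' S.G

lemma wwS_eq (S : Sy) (j : ℤ) (E W : Finset (ℤ × ℤ)) (J : ℤ × ℤ → Prop) (ξ : Finset (ℤ × ℤ)) :
    wwS S j E W J ξ = ww j (E.map (inv S).G) (W.map (inv S).G) (fun v => J (S.g v)) ξ := by
  unfold wwS ww
  rw [Pr_CJ_pull]
  have h1 : (E \ HB S (4 * j)).map (inv S).G = E.map (inv S).G \ HH (4 * j) := by
    ext e
    rw [mem_map_inv, mem_sdiff, mem_sdiff, mem_map_inv]
    unfold HB
    rw [mem_map_G]
  have h2 : (W ∪ ξ.map S.G).map (inv S).G = W.map (inv S).G ∪ ξ := by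
    ext e
    rw [mem_map_inv, mem_union, mem_union, mem_map_inv, mem_map_G]
  rw [h1, h2]

/-- **Comparison of one-point functions**, general position. -/
theorem dec_compare_S {S : Sy} {j : ℕ} (hj : 1 ≤ j) (n : ℕ) {E W E' W' : Finset (ℤ × ℤ)}
    {J J' : ℤ × ℤ → Prop} (hF : Flat S E W (4 ^ n * j)) (hJ : ∀ v, J v → ¬ VI S (4 ^ n * j) v)
    (hF' : Flat S E' W' (4 ^ n * j)) (hJ' : ∀ v, J' v → ¬ VI S (4 ^ n * j) v)
    {κ : ℝ} (hκ0 : 0 ≤ κ) (hκ : ∀ i < n, ∀ ξ, ξ ⊆ AA (4 ^ i * j) → Circ (4 ^ i * j) ξ →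
      |wwS S (4 ^ i * j) E W J ξ - wwS S (4 ^ i * j) E' W' J' ξ| ≤ κ) :
    |Pr E (CJ W J (S.g (0, 0))) - Pr E' (CJ W' J' (S.g (0, 0)))| ≤
      κ * ph j + ph (4 ^ n * j) * (1 - 1 / 2 ^ 77) ^ n := by
  rw [Pr_CJ_pull, Pr_CJ_pull]
  refine dec_compare hj n (far_pull hF hJ) (far_pull hF' hJ') hκ0 fun i hi ξ h1 h2 => ?_
  rw [← wwS_eq, ← wwS_eq]
  exact hκ i hi ξ h1 h2

/-- **Comparison of normalised one-point functions.** The rings have the radii `4 ^ i * j`, `i < n`,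
`j = ⌊c R / 4 ^ n⌋`. -/
theorem cmp_norm {pz : ℝ → ℝ} (hpz : StPz pz) {c ε : ℝ} (hc : 0 < c) (hε : 0 < ε) :
    ∃ (n : ℕ) (κ R0 : ℝ), 0 < κ ∧ ∀ R : ℝ, R0 ≤ R → 1 ≤ ⌊c * R / 4 ^ n⌋₊ ∧
      ((4 : ℝ) ^ n * (⌊c * R / 4 ^ n⌋₊ : ℝ) ≤ c * R) ∧
      ∀ (S : Sy) (E W E' W' : Finset (ℤ × ℤ)) (J J' : ℤ × ℤ → Prop),
        Flat S E W (4 ^ n * (⌊c * R / 4 ^ n⌋₊ : ℤ)) →
        (∀ v, J v → ¬ VI S (4 ^ n * (⌊c * R / 4 ^ n⌋₊ : ℤ)) v) →
        Flat S E' W' (4 ^ n * (⌊c * R / 4 ^ n⌋₊ : ℤ)) →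
        (∀ v, J' v → ¬ VI S (4 ^ n * (⌊c * R / 4 ^ n⌋₊ : ℤ)) v) →
        (∀ i < n, ∀ ξ, ξ ⊆ AA (4 ^ i * (⌊c * R / 4 ^ n⌋₊ : ℤ)) →
          Circ (4 ^ i * (⌊c * R / 4 ^ n⌋₊ : ℤ)) ξ →
          |wwS S (4 ^ i * (⌊c * R / 4 ^ n⌋₊ : ℤ)) E W J ξ -
            wwS S (4 ^ i * (⌊c * R / 4 ^ n⌋₊ : ℤ)) E' W' J' ξ| ≤ κ) →
        |Pr E (CJ W J (S.g (0, 0))) - Pr E' (CJ W' J' (S.g (0, 0)))| ≤ ε * pz R := by
  obtain ⟨-, c0, C', hc0, -, hp⟩ := hpz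
  obtain ⟨C, hC, hph⟩ := ph_upper
  -- choice of `n`
  set C2 : ℝ := C * (c / 2) ^ (-(1 / 3) : ℝ) with hC2
  have hC20 : 0 < C2 := by positivity
  obtain ⟨n, hn⟩ : ∃ n : ℕ, (1 - 1 / 2 ^ 77 : ℝ) ^ n < ε * c0 / (2 * C2) :=
    exists_pow_lt_of_lt_one (by positivity) (by norm_num)
  set C1 : ℝ := C * (c / (2 * 4 ^ n)) ^ (-(1 / 3) : ℝ) with hC1
  have hC10 : 0 < C1 := by positivity
  refine ⟨n, ε * c0 / (2 * C1), max 1 (2 * 4 ^ n / c), by positivity, fun R hR => ?_⟩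
  have hR1 : 1 ≤ R := (le_max_left _ _).trans hR
  have hR0 : 0 < R := by linarith
  have h4 : (0 : ℝ) < 4 ^ n := by positivity
  have hR2 : 2 ≤ c * R / 4 ^ n := by
    rw [le_div_iff₀ h4]
    have := (le_max_right _ _).trans hR
    rw [div_le_iff₀ hc] at this
    linarith
  set j : ℕ := ⌊c * R / 4 ^ n⌋₊ with hj
  have hj1 : 1 ≤ j := by
    rw [hj, Nat.one_le_floor_iff]
    linarith
  have hjle : (j : ℝ) ≤ c * R / 4 ^ n := Nat.floor_le (by linarith)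
  have hjge : c * R / 4 ^ n / 2 ≤ j := by
    have := Nat.lt_floor_add_one (c * R / 4 ^ n)
    rw [← hj] at this
    linarith
  refine ⟨hj1, ?_, ?_⟩
  · rw [le_div_iff₀ h4] at hjle
    linarith
  intro S E W E' W' J J' hF hJ hF' hJ' hκ
  have hmain := dec_compare_S hj1 n hF hJ hF' hJ' (by positivity : 0 ≤ ε * c0 / (2 * C1)) hκ
  refine hmain.trans ?_
  have hjp : (0 : ℝ) < j := by exact_mod_cast hj1
  have hRp : 0 < R ^ (-(1 / 3) : ℝ) := Real.rpow_pos_of_pos hR0 _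
  have b1 : ph (j : ℤ) ≤ C1 * R ^ (-(1 / 3) : ℝ) := by
    refine (hph j (by exact_mod_cast hj1)).trans ?_
    rw [hC1, mul_assoc]
    refine mul_le_mul_of_nonneg_left ?_ (by linarith)
    rw [← Real.mul_rpow (by positivity) hR0.le]
    refine Real.rpow_le_rpow_of_nonpos (by positivity) ?_ (by norm_num)
    push_cast
    calc c / (2 * 4 ^ n) * R = c * R / 4 ^ n / 2 := by field_simp
      _ ≤ j := hjge
  have b2 : ph (4 ^ n * (j : ℤ)) ≤ C2 * R ^ (-(1 / 3) : ℝ) := by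
    refine (hph (4 ^ n * (j : ℤ)) (one_le_four n (by exact_mod_cast hj1))).trans ?_
    rw [hC2, mul_assoc]
    refine mul_le_mul_of_nonneg_left ?_ (by linarith)
    rw [← Real.mul_rpow (by positivity) hR0.le]
    refine Real.rpow_le_rpow_of_nonpos (by positivity) ?_ (by norm_num)
    push_cast
    calc c / 2 * R = 4 ^ n * (c * R / 4 ^ n / 2) := by field_simp
      _ ≤ 4 ^ n * j := mul_le_mul_of_nonneg_left hjge h4.le
  have b3 : (0 : ℝ) ≤ (1 - 1 / 2 ^ 77 : ℝ) ^ n := pow_nonneg (by norm_num) n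
  have p1 := (hp R hR1).1
  have t1 : ε * c0 / (2 * C1) * ph (j : ℤ) ≤ ε / 2 * pz R := by
    calc ε * c0 / (2 * C1) * ph (j : ℤ) ≤ ε * c0 / (2 * C1) * (C1 * R ^ (-(1 / 3) : ℝ)) :=
          mul_le_mul_of_nonneg_left b1 (by positivity)
      _ = ε / 2 * (c0 * R ^ (-(1 / 3) : ℝ)) := by field_simp
      _ ≤ ε / 2 * pz R := mul_le_mul_of_nonneg_left p1 (by positivity)
  have t2 : ph (4 ^ n * (j : ℤ)) * (1 - 1 / 2 ^ 77 : ℝ) ^ n ≤ ε / 2 * pz R := by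
    calc ph (4 ^ n * (j : ℤ)) * (1 - 1 / 2 ^ 77 : ℝ) ^ n
        ≤ (C2 * R ^ (-(1 / 3) : ℝ)) * (ε * c0 / (2 * C2)) :=
          mul_le_mul b2 hn.le b3 (by positivity)
      _ = ε / 2 * (c0 * R ^ (-(1 / 3) : ℝ)) := by field_simp
      _ ≤ ε / 2 * pz R := mul_le_mul_of_nonneg_left p1 (by positivity)
  linarith

end Pool.Agent.H76.M7
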