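import Mathlib
import Pool.Agent.H21.Q1.CompTwo
import Pool.Agent.H49.Q1.Flat

set_option autoImplicit false
open Finset

/-! Module M7, 2.4 (S1): the one-point function changes little if a small set of labels far away is
explored. -/

namespace Pool.Agent.H76.M7

open Pool.Agent.H75.Perc Pool.Agent.H77.Q1 Pool.Agent.H49.Q1 Pool.Agent.H21.Q1

/-- `x` is joined in `ω` to an end of a label of `N`. -/
def TN (N : Finset (ℤ × ℤ)) (x : ℤ × ℤ) (ω : Finset (ℤ × ℤ)) : Prop :=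
  ∃ u v : ℤ × ℤ, IsUnit4 (v - u) ∧ u + v ∈ N ∧ Co ω x u

lemma reach_first {κ κ' N : Finset (ℤ × ℤ)} (hsub : κ' ⊆ κ ∪ N) {x y : ℤ × ℤ} (h : Co κ' x y) :
    Co κ x y ∨ TN N x κ := by
  induction h with
  | refl => exact Or.inl (Co.refl _ _)
  | @tail a b _ hab ih =>
    rcases ih with ih | ih
    · rcases mem_union.1 (hsub hab.2) with h1 | h1
      · exact Or.inl (Relation.ReflTransGen.tail ih ⟨hab.1, h1⟩)
      · exact Or.inr ⟨a, b, hab.1, h1, ih⟩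
    · exact Or.inr ih

/-- The wired labels are joined to the target. -/
def WJ (W : Finset (ℤ × ℤ)) (J : ℤ × ℤ → Prop) : Prop :=
  ∀ a b : ℤ × ℤ, IsUnit4 (b - a) → a + b ∈ W → ∃ j, J j ∧ Co W a j

lemma unW {W ω : Finset (ℤ × ℤ)} {J : ℤ × ℤ → Prop} {x u : ℤ × ℤ} (hW : WJ W J)
    (h : Co (ω ∪ W) x u) (hn : ¬ CJ W J x ω) : Co ω x u := by
  rcases reach_first (subset_refl _) h with h1 | ⟨a, b, h1, h2, h3⟩
  · exact h1
  · exfalso
    obtain ⟨j, hj, h4⟩ := hW a b h1 h2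
    exact hn ⟨j, hj, (h3.mono subset_union_left).trans (h4.mono subset_union_right)⟩

lemma s1_det {W N O ω : Finset (ℤ × ℤ)} {J : ℤ × ℤ → Prop} {x : ℤ × ℤ} (hO : O ⊆ N)
    (hW : WJ W J) (h : ¬ (CJ W J x ω ↔ CJ (W ∪ O) J x (ω \ N))) : TN N x (ω \ N) := by
  by_cases h1 : CJ W J x ω
  · have h2 : ¬ CJ (W ∪ O) J x (ω \ N) := fun h2 => h ⟨fun _ => h2, fun _ => h1⟩
    obtain ⟨v, hv, hc⟩ := h1
    have hs : ω ∪ W ⊆ (ω \ N ∪ W) ∪ N := by
      intro e he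
      simp only [mem_union, mem_sdiff] at he ⊢
      tauto
    rcases reach_first hs hc with h3 | ⟨a, b, h3, h4, h5⟩
    · exact absurd ⟨v, hv, h3.mono (union_subset_union (subset_refl _) subset_union_left)⟩ h2
    · refine ⟨a, b, h3, h4, unW hW h5 ?_⟩
      rintro ⟨v', hv', hc'⟩
      exact h2 ⟨v', hv', hc'.mono (union_subset_union (subset_refl _) subset_union_left)⟩
  · have h2 : CJ (W ∪ O) J x (ω \ N) := by
      by_contra h2
      exact h ⟨fun h3 => absurd h3 h1, fun h3 => absurd h3 h2⟩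
    obtain ⟨v, hv, hc⟩ := h2
    have hs : ω \ N ∪ (W ∪ O) ⊆ (ω \ N ∪ W) ∪ O := by
      intro e he
      simp only [mem_union, mem_sdiff] at he ⊢
      tauto
    rcases reach_first hs hc with h3 | ⟨a, b, h3, h4, h5⟩
    · exact absurd ⟨v, hv, h3.mono (union_subset_union sdiff_subset (subset_refl _))⟩ h1
    · refine ⟨a, b, h3, hO h4, unW hW h5 ?_⟩
      rintro ⟨v', hv', hc'⟩
      exact h1 ⟨v', hv', hc'.mono (union_subset_union sdiff_subset (subset_refl _))⟩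

lemma Pr_symm_diff (E : Finset (ℤ × ℤ)) (A B : Finset (ℤ × ℤ) → Prop) :
    |Pr E A - Pr E B| ≤ Pr E (fun ω => ¬ (A ω ↔ B ω)) := by
  have h1 : Pr E A ≤ Pr E B + Pr E (fun ω => ¬ (A ω ↔ B ω)) :=
    (Pr_mono fun ω _ h => by tauto).trans (Pr_or_le E _ _)
  have h2 : Pr E B ≤ Pr E A + Pr E (fun ω => ¬ (A ω ↔ B ω)) :=
    (Pr_mono fun ω _ h => by tauto).trans (Pr_or_le E _ _)
  rw [abs_le]
  constructor <;> linarith

/-- labels with both ends within less than `R` of `z` -/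
noncomputable def Nr (R : ℤ) (z : ℤ × ℤ) (E : Finset (ℤ × ℤ)) : Finset (ℤ × ℤ) :=
  E.filter fun e => |e.1 - 2 * z.1| ≤ 2 * R - 1 ∧ |e.2 - 2 * z.2| ≤ 2 * R - 1

/-- **A fresh open arm near `z` and an arm at `x`**: disjoint regions. -/
theorem two_arms {δ : ℝ} (hδ : Dcy δ) {S : Sy} {k : ℤ} (hk : 0 ≤ k) {E W : Finset (ℤ × ℤ)}
    (hE : ∀ e ∈ E, (e.1 + e.2) % 2 = 1) (hT : Thin S E W k) {z : ℤ × ℤ} {r R : ℤ} {m : ℕ}
    (hr : 1 ≤ r) (hm : 4 ^ m * r ≤ R) (hdis : ∀ e ∈ Nr R z E, e ∉ HB S k)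
    (hx : Far R z (S.g (0, 0))) (hz : ∀ v, |v.1 - z.1| ≤ r → |v.2 - z.2| ≤ r → ¬ VI S k v) :
    Pr E (fun ω => ∃ v : ℤ × ℤ, (|v.1 - z.1| ≤ r ∧ |v.2 - z.2| ≤ r) ∧ Co ω (S.g (0, 0)) v) ≤
      ph k * (1 - δ) ^ m := by
  have hT' : Thin S E ∅ k := hT.anti (subset_refl _) (empty_subset _)
  have hph : 0 ≤ ph k := by rw [← Pr_AS_HB S hk]; exact Pr_nonneg _ _
  have hd : Disjoint (E ∩ HB S k) (Nr R z E) := by
    rw [disjoint_left]
    intro e he h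
    exact hdis e h (mem_inter.1 he).2
  have h1 := Pr_indep (E := E) (E1 := E ∩ HB S k) (E2 := Nr R z E) inter_subset_left
    (filter_subset _ _) hd (AS S k) (fun ω => ∃ u v : ℤ × ℤ, |u.1 - z.1| ≤ r ∧
      |u.2 - z.2| ≤ r ∧ (4 ^ m * r ≤ |v.1 - z.1| ∨ 4 ^ m * r ≤ |v.2 - z.2|) ∧ Co ω u v)
  refine le_trans (Pr_mono ?_) (h1.le.trans (mul_le_mul (Pr_AS_le hk _) (hδ.2.2.1 _ (fun e he =>
    hE e (mem_filter.1 he).1) z r hr m) (Pr_nonneg _ _) hph))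
  rintro ω hω ⟨v, hv, hc⟩
  constructor
  · have h2 : ω ∩ (E ∩ HB S k) = ω ∩ HB S k := by
      rw [← inter_assoc, inter_eq_left.2 hω]
    rw [h2, AS_inter]
    refine CJ.arm (W := ∅) (J := fun u => u = v) hk hT' ?_ hω ⟨v, rfl, by rwa [union_empty]⟩
    rintro u rfl
    exact hz u hv.1 hv.2
  · obtain ⟨w, hw1, hw2⟩ := arm_far (κ := ω ∩ Nr R z E) (R := R) (p := z) hc.symm (by
      rintro a b ha ⟨hab1, hab2⟩
      refine ⟨hab1, mem_inter.2 ⟨hab2, mem_filter.2 ⟨hω hab2, ?_⟩⟩⟩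
      unfold Far at ha
      rw [not_or, not_le, not_le, abs_lt, abs_lt] at ha
      have h3 := unit_cases hab1
      rw [abs_le, abs_le]
      simp only [Prod.fst_add, Prod.snd_add] at h3 ⊢
      omega) hx
    exact ⟨v, w, hv.1, hv.2, hw1.imp hm.trans hm.trans, hw2⟩

/-- **(S1)**: if the labels `N` near `z` are explored (open ones: `O`) then the one-point function at
`S.g (0, 0)` changes by at most the probability of an arm at this point times the probability of a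
fresh open arm at `z`. -/
theorem s1_compare {δ : ℝ} (hδ : Dcy δ) {S : Sy} {k : ℤ} (hk : 0 ≤ k) {E W N O : Finset (ℤ × ℤ)}
    {J : ℤ × ℤ → Prop} (hE : ∀ e ∈ E, (e.1 + e.2) % 2 = 1) (hT : Thin S E W k) (hW : WJ W J)
    (hN : N ⊆ E) (hO : O ⊆ N) {z : ℤ × ℤ} {r R : ℤ} {m : ℕ} (hr : 1 ≤ r) (hm : 4 ^ m * r ≤ R)
    (hNz : ∀ a b : ℤ × ℤ, IsUnit4 (b - a) → a + b ∈ N → |a.1 - z.1| ≤ r ∧ |a.2 - z.2| ≤ r)
    (hdis : ∀ e ∈ Nr R z E, e ∉ HB S k) (hx : Far R z (S.g (0, 0)))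
    (hz : ∀ v, |v.1 - z.1| ≤ r → |v.2 - z.2| ≤ r → ¬ VI S k v) :
    |Pr E (CJ W J (S.g (0, 0))) - Pr (E \ N) (CJ (W ∪ O) J (S.g (0, 0)))| ≤
      ph k * (1 - δ) ^ m := by
  have h1 : Pr (E \ N) (CJ (W ∪ O) J (S.g (0, 0))) =
      Pr E (fun ω => CJ (W ∪ O) J (S.g (0, 0)) (ω \ N)) := by
    rw [← Pr_restrict (sdiff_subset (s := E) (t := N)) (CJ (W ∪ O) J (S.g (0, 0)))]
    refine Pr_congr fun ω hω => ?_
    have : ω ∩ (E \ N) = ω \ N := by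
      ext e
      rw [mem_inter, mem_sdiff, mem_sdiff]
      exact ⟨fun h => ⟨h.1, h.2.2⟩, fun h => ⟨h.1, hω h.1, h.2⟩⟩
    rw [this]
  rw [h1]
  refine (Pr_symm_diff E _ _).trans ?_
  refine le_trans (Pr_mono ?_) (two_arms hδ hk hE hT hr hm hdis hx hz)
  intro ω hω h
  obtain ⟨a, b, h2, h3, h4⟩ := s1_det hO hW h
  exact ⟨a, hNz a b h2 h3, h4.mono sdiff_subset⟩

end Pool.Agent.H76.M7
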