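import Mathlib
import Pool.Agent.H76.M7.S1
import Pool.Agent.H76.M7.Norm
import Pool.Agent.Q1.M3.Defs

set_option autoImplicit false
open Finset

/-! Module M7: two forms of the observable, uniform bound. -/

namespace Pool.Agent.H76.M7

open Pool.Agent.H75.Perc Pool.Agent.H49.Q1 Pool.Agent.H75.Four
open Pool.Agent.Q1.M3 (star kap mem_kap_iff)
open Pool.Agent.Q1.M5 (StPz)

lemma ends_add {a b : ℤ × ℤ} (h : IsUnit4 (b - a)) :
    ((a + b).1 + (a + b).2) % 2 = 1 ∧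
      ((eu (a + b) = a ∧ ev (a + b) = b) ∨ (eu (a + b) = b ∧ ev (a + b) = a)) := by
  obtain ⟨a1, a2⟩ := a
  obtain ⟨b1, b2⟩ := b
  have h1 := unit_cases h
  unfold eu ev
  simp only [Prod.mk_add_mk, Prod.mk.injEq] at h1 ⊢
  omega

lemma kap_ends {N : Finset (ℤ × ℤ)} {a b : ℤ × ℤ} (h : IsUnit4 (b - a)) (hk : a + b ∈ kap N) :
    a ∈ N ∧ b ∈ N := by
  obtain ⟨h1, h2⟩ := ends_add h
  rw [mem_kap_iff h1] at hk
  rcases h2 with ⟨h3, h4⟩ | ⟨h3, h4⟩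
  · rw [h3, h4] at hk; exact hk
  · rw [h3, h4] at hk; exact ⟨hk.2, hk.1⟩

lemma co_kap {κ N : Finset (ℤ × ℤ)} {x t : ℤ × ℤ} (hN : ∀ u ∈ N, ∀ v ∈ N, Co (kap N) u v)
    (ht : t ∈ N) : Co (κ ∪ kap N) x t ↔ ∃ v, v ∈ N ∧ Co κ x v := by
  constructor
  · intro h
    have key : ∀ a, Co (κ ∪ kap N) x a → Co κ x a ∨ ∃ v, v ∈ N ∧ Co κ x v := by
      intro a ha
      induction ha with
      | refl => exact Or.inl (Co.refl _ _)
      | @tail a b _ hab ih =>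
        rcases ih with ih | ih
        · rcases mem_union.1 hab.2 with h1 | h1
          · exact Or.inl (Relation.ReflTransGen.tail ih ⟨hab.1, h1⟩)
          · exact Or.inr ⟨a, (kap_ends hab.1 h1).1, ih⟩
        · exact Or.inr ih
    rcases key t h with h1 | h1
    · exact ⟨t, ht, h1⟩
    · exact h1
  · rintro ⟨v, hv, hc⟩
    exact (hc.mono subset_union_left).trans ((hN v hv t ht).mono subset_union_right)

/-- **Two forms of the observable.** -/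
theorem obs_eq {XE XW N T : Finset (ℤ × ℤ)} {x t : ℤ × ℤ}
    (hN : ∀ u ∈ N, ∀ v ∈ N, Co (kap N) u v) (ht : t ∈ N) :
    Pr XE (fun η => Co (((η ∪ XW) \ star N) ∪ (kap N ∪ T)) x t) =
      Pr (XE \ star N) (CJ ((XW \ star N) ∪ T) (fun v => v ∈ N) x) := by
  rw [← Pr_restrict (sdiff_subset (s := XE) (t := star N))
    (CJ ((XW \ star N) ∪ T) (fun v => v ∈ N) x)]
  refine Pr_congr fun ω hω => ?_
  have e : ((ω ∪ XW) \ star N) ∪ (kap N ∪ T) =
      (ω ∩ (XE \ star N) ∪ (XW \ star N ∪ T)) ∪ kap N := by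
    ext e
    have := @hω e
    simp only [mem_union, mem_inter, mem_sdiff]
    tauto
  rw [e, co_kap hN ht]
  rfl

/-- The one-point function is at most the half plane arm probability. -/
lemma obs_le {S : Sy} {k : ℤ} (hk : 0 ≤ k) {E W : Finset (ℤ × ℤ)} (hT : Thin S E W k)
    {J : ℤ × ℤ → Prop} (hJ : ∀ v, J v → ¬ VI S k v) :
    Pr E (CJ W J (S.g (0, 0))) ≤ ph k :=
  (Pr_mono fun _ hω h => CJ.arm hk hT hJ hω h).trans (Pr_AS_le hk E)

/-- **Uniform bound**: flat up to `c R`, the one-point function is at most `C pz R`. -/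
theorem obs_unif {pz : ℝ → ℝ} (hpz : StPz pz) {c : ℝ} (hc : 0 < c) : ∃ C R0 : ℝ, 0 < C ∧
    ∀ R : ℝ, R0 ≤ R → ∀ k : ℤ, c * R ≤ k → ∀ (S : Sy) (E W : Finset (ℤ × ℤ))
      (J : ℤ × ℤ → Prop), Thin S E W k → (∀ v, J v → ¬ VI S k v) →
      Pr E (CJ W J (S.g (0, 0))) ≤ C * pz R := by
  obtain ⟨-, c0, C', hc0, -, hp⟩ := hpz
  obtain ⟨C, hC, hph⟩ := ph_upper
  refine ⟨C * c ^ (-(1 / 3) : ℝ) / c0, max 1 (1 / c), by positivity, ?_⟩
  intro R hR k hk S E W J hT hJ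
  have hR1 : 1 ≤ R := (le_max_left _ _).trans hR
  have hR2 : 1 ≤ c * R := by
    have := (le_max_right _ _).trans hR
    rw [div_le_iff₀ hc] at this
    linarith
  have hk1 : (1 : ℤ) ≤ k := by
    have : (1 : ℝ) ≤ k := hR2.trans hk
    exact_mod_cast this
  refine (obs_le (by omega) hT hJ).trans ((hph k hk1).trans ?_)
  have h1 : ((k : ℤ) : ℝ) ^ (-(1 / 3) : ℝ) ≤ (c * R) ^ (-(1 / 3) : ℝ) :=
    Real.rpow_le_rpow_of_nonpos (by positivity) hk (by norm_num)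
  rw [Real.mul_rpow hc.le (by linarith)] at h1
  have h2 := (hp R hR1).1
  have hcp : 0 < c ^ (-(1 / 3) : ℝ) := Real.rpow_pos_of_pos hc _
  calc C * (k : ℝ) ^ (-(1 / 3) : ℝ) ≤ C * (c ^ (-(1 / 3) : ℝ) * R ^ (-(1 / 3) : ℝ)) :=
        mul_le_mul_of_nonneg_left h1 (by linarith)
    _ = C * c ^ (-(1 / 3) : ℝ) / c0 * (c0 * R ^ (-(1 / 3) : ℝ)) := by field_simp
    _ ≤ C * c ^ (-(1 / 3) : ℝ) / c0 * pz R := mul_le_mul_of_nonneg_left h2 (by positivity)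

end Pool.Agent.H76.M7
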