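import Mathlib
import Pool.Agent.H49.Q1.KDist
import Pool.Agent.H75.Four.Defs
import Pool.Agent.H75.TwoArm.Symm

set_option autoImplicit false
open Finset

/-! Module M7: half boxes at a side of direction `k` in integer coordinates along and across the
side; the contour along a flat piece. -/

namespace Pool.Agent.H76.M7

open Pool.Agent.H75.Perc Pool.Agent.H75.TwoArm Pool.Agent.H75.Four Pool.Agent.H49.Q1
open Pool.Agent.H75.TwoArm.SymmAux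

/-- coordinate of a vector in the direction `k` -/
def dt (k : ℤ) (v : ℤ × ℤ) : ℤ := v.1 * (H75.Perc.dir k).1 + v.2 * (H75.Perc.dir k).2

lemma dir_succ_cases (k : ℤ) :
    (k % 4 = 0 ∧ H75.Perc.dir k = (1, 0) ∧ H75.Perc.dir (k + 1) = (0, 1) ∧
      H75.Perc.dir (k - 1) = (0, -1)) ∨
    (k % 4 = 1 ∧ H75.Perc.dir k = (0, 1) ∧ H75.Perc.dir (k + 1) = (-1, 0) ∧
      H75.Perc.dir (k - 1) = (1, 0)) ∨
    (k % 4 = 2 ∧ H75.Perc.dir k = (-1, 0) ∧ H75.Perc.dir (k + 1) = (0, -1) ∧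
      H75.Perc.dir (k - 1) = (0, 1)) ∨
    (k % 4 = 3 ∧ H75.Perc.dir k = (0, -1) ∧ H75.Perc.dir (k + 1) = (1, 0) ∧
      H75.Perc.dir (k - 1) = (-1, 0)) := by
  have h : k % 4 = 0 ∨ k % 4 = 1 ∨ k % 4 = 2 ∨ k % 4 = 3 := by omega
  unfold H75.Perc.dir
  rcases h with h | h | h | h
  · left
    refine ⟨h, by simp [h], by simp [show (k + 1) % 4 = 1 by omega],
      by simp [show (k - 1) % 4 = 3 by omega]⟩
  · right; left
    refine ⟨h, by simp [h], by simp [show (k + 1) % 4 = 2 by omega],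
      by simp [show (k - 1) % 4 = 0 by omega]⟩
  · right; right; left
    refine ⟨h, by simp [h], by simp [show (k + 1) % 4 = 3 by omega],
      by simp [show (k - 1) % 4 = 1 by omega]⟩
  · right; right; right
    refine ⟨h, by simp [h], by simp [show (k + 1) % 4 = 0 by omega],
      by simp [show (k - 1) % 4 = 2 by omega]⟩

/-- membership in the full box -/
lemma FB_dt {k : ℤ} {x : ℤ × ℤ} {r : ℤ} {e : ℤ × ℤ} (h : e ∈ FB (Sd k x) r) :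
    (e.1 + e.2) % 2 = 1 ∧
      (|dt k (eu e - x)| ≤ r ∧ |dt (k + 1) (eu e - x)| ≤ r) ∧
      (|dt k (ev e - x)| ≤ r ∧ |dt (k + 1) (ev e - x)| ≤ r) := by
  rw [FB_Sd, mem_Bx] at h
  obtain ⟨e1, e2⟩ := e
  obtain ⟨x1, x2⟩ := x
  unfold dt eu ev
  rcases dir_succ_cases k with ⟨-, h1, h2, -⟩ | ⟨-, h1, h2, -⟩ | ⟨-, h1, h2, -⟩ | ⟨-, h1, h2, -⟩ <;>
    rw [h1, h2] <;> simp only [Prod.mk_sub_mk, abs_le] at h ⊢ <;> omega

/-- membership in the half box -/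
lemma HB_dt {k : ℤ} {x : ℤ × ℤ} {r : ℤ} {e : ℤ × ℤ} (h : e ∈ FB (Sd k x) r)
    (h1 : 0 ≤ dt (k + 1) (eu e - x)) (h2 : 0 ≤ dt (k + 1) (ev e - x)) : e ∈ HB (Sd k x) r := by
  rw [FB_Sd, mem_Bx] at h
  obtain ⟨e1, e2⟩ := e
  obtain ⟨x1, x2⟩ := x
  unfold dt eu ev at *
  rcases Sd_cases k (x1, x2) with ⟨hk, hS⟩ | ⟨hk, hS⟩ | ⟨hk, hS⟩ | ⟨hk, hS⟩ <;> rw [hS]
  · rw [HB_B, mem_Bx]
    rcases dir_succ_cases k with ⟨h0, -, h3, -⟩ | ⟨h0, -, h3, -⟩ | ⟨h0, -, h3, -⟩ | ⟨h0, -, h3, -⟩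
    · rw [h3] at h1 h2; simp only [Prod.mk_sub_mk] at h h1 h2 ⊢; omega
    all_goals omega
  · rw [HB_R, mem_Bx]
    rcases dir_succ_cases k with ⟨h0, -, h3, -⟩ | ⟨h0, -, h3, -⟩ | ⟨h0, -, h3, -⟩ | ⟨h0, -, h3, -⟩
    · omega
    · rw [h3] at h1 h2; simp only [Prod.mk_sub_mk] at h h1 h2 ⊢; omega
    all_goals omega
  · rw [HB_T, mem_Bx]
    rcases dir_succ_cases k with ⟨h0, -, h3, -⟩ | ⟨h0, -, h3, -⟩ | ⟨h0, -, h3, -⟩ | ⟨h0, -, h3, -⟩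
    · omega
    · omega
    · rw [h3] at h1 h2; simp only [Prod.mk_sub_mk] at h h1 h2 ⊢; omega
    · omega
  · rw [HB_L, mem_Bx]
    rcases dir_succ_cases k with ⟨h0, -, h3, -⟩ | ⟨h0, -, h3, -⟩ | ⟨h0, -, h3, -⟩ | ⟨h0, -, h3, -⟩
    · omega
    · omega
    · omega
    · rw [h3] at h1 h2; simp only [Prod.mk_sub_mk] at h h1 h2 ⊢; omega

/-- the half box in coordinates -/
lemma HB_dt' {k : ℤ} {x : ℤ × ℤ} {r : ℤ} {e : ℤ × ℤ} (h : e ∈ HB (Sd k x) r) :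
    0 ≤ dt (k + 1) (eu e - x) ∧ 0 ≤ dt (k + 1) (ev e - x) := by
  obtain ⟨e1, e2⟩ := e
  obtain ⟨x1, x2⟩ := x
  unfold dt eu ev at *
  rcases Sd_cases k (x1, x2) with ⟨hk, hS⟩ | ⟨hk, hS⟩ | ⟨hk, hS⟩ | ⟨hk, hS⟩ <;> rw [hS] at h
  · rw [HB_B, mem_Bx] at h
    rcases dir_succ_cases k with ⟨h0, -, h3, -⟩ | ⟨h0, -, h3, -⟩ | ⟨h0, -, h3, -⟩ | ⟨h0, -, h3, -⟩
    · rw [h3]; simp only [Prod.mk_sub_mk] at h ⊢; omega
    all_goals omega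
  · rw [HB_R, mem_Bx] at h
    rcases dir_succ_cases k with ⟨h0, -, h3, -⟩ | ⟨h0, -, h3, -⟩ | ⟨h0, -, h3, -⟩ | ⟨h0, -, h3, -⟩
    · omega
    · rw [h3]; simp only [Prod.mk_sub_mk] at h ⊢; omega
    all_goals omega
  · rw [HB_T, mem_Bx] at h
    rcases dir_succ_cases k with ⟨h0, -, h3, -⟩ | ⟨h0, -, h3, -⟩ | ⟨h0, -, h3, -⟩ | ⟨h0, -, h3, -⟩
    · omega
    · omega
    · rw [h3]; simp only [Prod.mk_sub_mk] at h ⊢; omega
    · omega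
  · rw [HB_L, mem_Bx] at h
    rcases dir_succ_cases k with ⟨h0, -, h3, -⟩ | ⟨h0, -, h3, -⟩ | ⟨h0, -, h3, -⟩ | ⟨h0, -, h3, -⟩
    · omega
    · omega
    · omega
    · rw [h3]; simp only [Prod.mk_sub_mk] at h ⊢; omega

/-- the vertices of the half box -/
lemma VI_dt {k : ℤ} {x v : ℤ × ℤ} {r : ℤ} (h : VI (Sd k x) r v) :
    |dt k (v - x)| ≤ r ∧ 0 ≤ dt (k + 1) (v - x) ∧ dt (k + 1) (v - x) ≤ r := by
  obtain ⟨v1, v2⟩ := v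
  obtain ⟨x1, x2⟩ := x
  unfold VI inB at h
  unfold dt
  rcases Sd_cases k (x1, x2) with ⟨hk, hS⟩ | ⟨hk, hS⟩ | ⟨hk, hS⟩ | ⟨hk, hS⟩ <;> rw [hS] at h <;>
  rcases dir_succ_cases k with ⟨h0, h3, h4, -⟩ | ⟨h0, h3, h4, -⟩ | ⟨h0, h3, h4, -⟩ | ⟨h0, h3, h4, -⟩ <;>
    first
    | omega
    | (rw [h3, h4]
       simp only [sB, sR, sT, sL, comp, syT, syX, syY, syD, Prod.mk_sub_mk, abs_le] at h ⊢
       omega)

/-! ### The contour along a flat piece -/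

/-- the corner at `t` from which the contour in the direction `k` meets the label on its left -/
def cc (k : ℤ) (t : ℤ × ℤ) : ℤ × ℤ :=
  if k % 4 = 0 then (2 * t.1, 2 * t.2 + 1) else if k % 4 = 1 then (2 * t.1, 2 * t.2)
  else if k % 4 = 2 then (2 * t.1 + 1, 2 * t.2) else (2 * t.1 + 1, 2 * t.2 + 1)

lemma cc_cases (k : ℤ) (t : ℤ × ℤ) :
    (k % 4 = 0 ∧ cc k t = (2 * t.1, 2 * t.2 + 1)) ∨ (k % 4 = 1 ∧ cc k t = (2 * t.1, 2 * t.2)) ∨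
    (k % 4 = 2 ∧ cc k t = (2 * t.1 + 1, 2 * t.2)) ∨
    (k % 4 = 3 ∧ cc k t = (2 * t.1 + 1, 2 * t.2 + 1)) := by
  have h : k % 4 = 0 ∨ k % 4 = 1 ∨ k % 4 = 2 ∨ k % 4 = 3 := by omega
  unfold cc
  rcases h with h | h | h | h
  · left; simp [h]
  · right; left; simp [h]
  · right; right; left; simp [h]
  · right; right; right; simp [h]

lemma vx_cc (k : ℤ) (t : ℤ × ℤ) : vx (cc k t) = t := by
  obtain ⟨t1, t2⟩ := t
  unfold vx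
  rcases cc_cases k (t1, t2) with ⟨-, h⟩ | ⟨-, h⟩ | ⟨-, h⟩ | ⟨-, h⟩ <;> rw [h] <;>
    simp only [Prod.mk.injEq] <;> omega

lemma plab_cc (k : ℤ) (t : ℤ × ℤ) : plab (cc k t) = t + (t + H75.Perc.dir (k + 1)) := by
  obtain ⟨t1, t2⟩ := t
  unfold plab
  rcases cc_cases k (t1, t2) with ⟨hk, h⟩ | ⟨hk, h⟩ | ⟨hk, h⟩ | ⟨hk, h⟩ <;> rw [h] <;>
  rcases dir_succ_cases k with ⟨h0, -, h4, -⟩ | ⟨h0, -, h4, -⟩ | ⟨h0, -, h4, -⟩ | ⟨h0, -, h4, -⟩ <;>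
    first
    | omega
    | (rw [h4]
       simp only [Prod.mk_add_mk]
       split_ifs <;> simp only [Prod.mk.injEq] <;> omega)

/-- the corner with given vertex and label -/
lemma eq_cc {k : ℤ} {t c : ℤ × ℤ} (h1 : vx c = t) (h2 : plab c = t + (t + H75.Perc.dir (k + 1))) :
    c = cc k t := by
  obtain ⟨t1, t2⟩ := t
  obtain ⟨a, b⟩ := c
  unfold vx at h1
  unfold plab at h2
  simp only [Prod.mk.injEq] at h1
  rcases cc_cases k (t1, t2) with ⟨hk, h⟩ | ⟨hk, h⟩ | ⟨hk, h⟩ | ⟨hk, h⟩ <;> rw [h] <;>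
  rcases dir_succ_cases k with ⟨h0, -, h4, -⟩ | ⟨h0, -, h4, -⟩ | ⟨h0, -, h4, -⟩ | ⟨h0, -, h4, -⟩ <;>
    first
    | omega
    | (rw [h4] at h2
       simp only [Prod.mk_add_mk] at h2
       split_ifs at h2 <;> simp only [Prod.mk.injEq] at h2 ⊢ <;> omega)

lemma plab_pvC_cc (k : ℤ) (t : ℤ × ℤ) : plab (pvC (cc k t)) = t + (t + H75.Perc.dir k) := by
  obtain ⟨t1, t2⟩ := t
  unfold plab pvC
  rcases cc_cases k (t1, t2) with ⟨hk, h⟩ | ⟨hk, h⟩ | ⟨hk, h⟩ | ⟨hk, h⟩ <;> rw [h] <;>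
  rcases dir_succ_cases k with ⟨h0, h4, -⟩ | ⟨h0, h4, -⟩ | ⟨h0, h4, -⟩ | ⟨h0, h4, -⟩ <;>
    first
    | omega
    | (rw [h4]
       simp only [Prod.mk_add_mk]
       split_ifs <;> simp only [Prod.mk.injEq] at * <;> omega)

lemma pvO_pvC_cc (k : ℤ) (t : ℤ × ℤ) : pvO (pvC (cc k t)) = cc k (t + H75.Perc.dir k) := by
  obtain ⟨t1, t2⟩ := t
  unfold pvO pvC
  rcases cc_cases k (t1, t2) with ⟨hk, h⟩ | ⟨hk, h⟩ | ⟨hk, h⟩ | ⟨hk, h⟩ <;> rw [h] <;>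
  rcases dir_succ_cases k with ⟨h0, h4, -⟩ | ⟨h0, h4, -⟩ | ⟨h0, h4, -⟩ | ⟨h0, h4, -⟩ <;>
    first
    | omega
    | (rw [h4]
       simp only [Prod.mk_add_mk]
       rcases cc_cases k (t1 + (H75.Perc.dir k).1, t2 + (H75.Perc.dir k).2) with
         ⟨hk', h'⟩ | ⟨hk', h'⟩ | ⟨hk', h'⟩ | ⟨hk', h'⟩ <;> rw [h4] at h' <;>
         simp only at h' <;> first | omega | (rw [h']; split_ifs <;>
           simp only [Prod.mk.injEq] at * <;> omega))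

/-- two steps of the contour along a flat piece -/
lemma pv_cc {L : Finset (ℤ × ℤ)} {k : ℤ} {t : ℤ × ℤ}
    (h1 : t + (t + H75.Perc.dir (k + 1)) ∉ L) (h2 : t + (t + H75.Perc.dir k) ∈ L) :
    pv L (pv L (cc k t)) = cc k (t + H75.Perc.dir k) := by
  rw [pv_eq L (cc k t), plab_cc, if_neg h1, pv_eq, plab_pvC_cc, if_pos h2, pvO_pvC_cc]

end Pool.Agent.H76.M7
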