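import Mathlib
import Pool.Agent.H82.Q1.M7.Iface
import Pool.Agent.H76.M7.Side
import Pool.Agent.H76.M7.Obs
import Pool.Agent.Q1.M3.FreeEv
import Pool.Agent.Q1.M3.State

set_option autoImplicit false
open Finset Filter Topology

/-! # Module M7: the lattice near the window

Coordinates `sc`, `tc` of the lattice vertices along and across the side of the window; `WinN`: for
large `n` the vertices below the side are in the barrier, those above are not, and all labels are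
free in the initial environment. -/

namespace Pool.Agent.H76.M7

open Pool.Agent.H75.Perc Pool.Agent.H75.TwoArm Pool.Agent.H75.Four Pool.Agent.H69.Q1
open Pool.Agent.H49.Q1
open Pool.Agent.H81.Q1 (pt DDomain Approx IsJordanDomain IsArcs)
open Pool.Agent.Q1.M3
open Pool.Agent.Q1.M3.Pg (SD LX gx lo hi lty LT rnd lty_loC lty_hiC rnd_bounds)
open Pool.Agent.H82.Q1.M7

section

variable {D : Set ℂ} {a b : ℂ} {A₁ A₂ : Set ℂ} {A : Approx D a b A₁ A₂} {r0 : ℝ} {B : Base A r0}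
  (w : Win B)

/-- coordinate along the side -/
noncomputable def sc (n : ℕ) (v : ℤ × ℤ) : ℝ :=
  ((pt (A.δ n) v).re - w.p.re) * (H75.Perc.dir w.k).1 +
    ((pt (A.δ n) v).im - w.p.im) * (H75.Perc.dir w.k).2

/-- height over the side -/
noncomputable def tc (n : ℕ) (v : ℤ × ℤ) : ℝ :=
  ((pt (A.δ n) v).re - w.p.re) * (H75.Perc.dir (w.k + 1)).1 +
    ((pt (A.δ n) v).im - w.p.im) * (H75.Perc.dir (w.k + 1)).2

lemma pt_sc (n : ℕ) (v : ℤ × ℤ) :
    pt (A.δ n) v = w.p + ((sc w n v : ℝ) + (tc w n v : ℝ) * Complex.I) * uv w.k := by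
  unfold sc tc uv
  rcases dir_succ_cases w.k with ⟨-, h1, h2, -⟩ | ⟨-, h1, h2, -⟩ | ⟨-, h1, h2, -⟩ | ⟨-, h1, h2, -⟩ <;>
    rw [h1, h2] <;> apply Complex.ext <;> simp

lemma sc_sub (n : ℕ) (v x : ℤ × ℤ) : sc w n v - sc w n x = A.δ n * dt w.k (v - x) := by
  unfold sc dt pt
  simp only [Prod.fst_sub, Prod.snd_sub]
  push_cast
  ring

lemma tc_sub (n : ℕ) (v x : ℤ × ℤ) : tc w n v - tc w n x = A.δ n * dt (w.k + 1) (v - x) := by
  unfold tc dt pt
  simp only [Prod.fst_sub, Prod.snd_sub]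
  push_cast
  ring

lemma tc_ne (n : ℕ) (v : ℤ × ℤ) : tc w n v ≠ 0 := by
  have h := B.gen n (w.k1 + 1)
  unfold tc Win.p gpt pt
  rcases dir_succ_cases w.k with ⟨-, h1, h2, -⟩ | ⟨-, h1, h2, -⟩ | ⟨-, h1, h2, -⟩ | ⟨-, h1, h2, -⟩ <;>
    rw [h2] <;> simp only [Int.cast_zero, Int.cast_one, mul_zero, mul_one, add_zero, zero_add,
      Int.cast_neg, mul_neg, ne_eq, neg_eq_zero, sub_eq_zero]
  · exact fun h3 => (h w.m.2 v.2).2 h3.symm
  · exact fun h3 => (h w.m.1 v.1).1 h3.symm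
  · exact fun h3 => (h w.m.2 v.2).2 h3.symm
  · exact fun h3 => (h w.m.1 v.1).1 h3.symm

/-- A lattice point of a closed fat cell is in the open fat cell. -/
lemma fat_of_cfat {n : ℕ} {q : Cell} {v : ℤ × ℤ} (h : pt (A.δ n) v ∈ cfat B.o q) :
    pt (A.δ n) v ∈ fat B.o q := by
  have hm : mesh q.1 = 3 * mesh (q.1 + 1) := by unfold mesh; rw [pow_succ]; ring
  have key : ∀ i : ℤ, (B.o.re + (i - 1 / 3 : ℝ) * mesh q.1 = B.o.re + ((3 * i - 1 : ℤ) : ℝ) *
      mesh (q.1 + 1)) ∧ (B.o.re + (i + 4 / 3 : ℝ) * mesh q.1 = B.o.re + ((3 * i + 4 : ℤ) : ℝ) *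
      mesh (q.1 + 1)) ∧ (B.o.im + (i - 1 / 3 : ℝ) * mesh q.1 = B.o.im + ((3 * i - 1 : ℤ) : ℝ) *
      mesh (q.1 + 1)) ∧ (B.o.im + (i + 4 / 3 : ℝ) * mesh q.1 = B.o.im + ((3 * i + 4 : ℤ) : ℝ) *
      mesh (q.1 + 1)) := by
    intro i
    rw [hm]
    push_cast
    refine ⟨?_, ?_, ?_, ?_⟩ <;> ring
  obtain ⟨h1, h2, h3, h4⟩ := h
  obtain ⟨k1, k2, -, -⟩ := key q.2.1
  obtain ⟨-, -, k3, k4⟩ := key q.2.2
  refine ⟨lt_of_le_of_ne h1 ?_, lt_of_le_of_ne h2 ?_, lt_of_le_of_ne h3 ?_, lt_of_le_of_ne h4 ?_⟩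
  · rw [k1]; exact (B.gen n (q.1 + 1) (3 * q.2.1 - 1) v.1).1
  · rw [k2]; exact (B.gen n (q.1 + 1) (3 * q.2.1 + 4) v.1).1.symm
  · rw [k3]; exact (B.gen n (q.1 + 1) (3 * q.2.2 - 1) v.2).2
  · rw [k4]; exact (B.gen n (q.1 + 1) (3 * q.2.2 + 4) v.2).2.symm

/-- The closed window box. -/
def WB (l' : ℝ) : Set ℂ :=
  (fun p : ℝ × ℝ => w.p + ((p.1 : ℂ) + (p.2 : ℂ) * Complex.I) * uv w.k) ''
    (Set.Icc (-l') l' ×ˢ Set.Icc (-l') l')

lemma isCompact_WB (l' : ℝ) : IsCompact (WB w l') := by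
  refine (isCompact_Icc.prod isCompact_Icc).image ?_
  fun_prop

lemma WB_sub {l' : ℝ} (h : l' < w.l) : WB w l' ⊆ D := by
  rintro _ ⟨⟨s, t⟩, ⟨⟨hs1, hs2⟩, ht1, ht2⟩, rfl⟩
  simp only at hs1 hs2 ht1 ht2 ⊢
  have hl0 := w.l0
  have hs : |s| < 2 * w.l := by rw [abs_lt]; constructor <;> linarith
  rcases lt_or_ge 0 t with h1 | h1
  · exact (w.up s t hs h1 (by linarith)).1
  · have h2 := w.dn s (-t) hs (by linarith) (by linarith)
    have h3 := (B.subQ w.M0 w.q w.hq h2).1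
    have e : w.p + ((s : ℂ) + (t : ℂ) * Complex.I) * uv w.k =
        gpt B.o w.k1 w.m + ((s : ℂ) - ((-t : ℝ) : ℂ) * Complex.I) * uv w.k := by
      unfold Win.p
      push_cast
      ring
    rw [e]
    exact h3

lemma mem_WB {n : ℕ} {v : ℤ × ℤ} {l' : ℝ} (hs : |sc w n v| ≤ l') (ht : |tc w n v| ≤ l') :
    pt (A.δ n) v ∈ WB w l' := by
  rw [abs_le] at hs ht
  exact ⟨(sc w n v, tc w n v), ⟨⟨hs.1, hs.2⟩, ht.1, ht.2⟩, (pt_sc w n v).symm⟩

/-- The lattice near the window. -/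
structure WinN (n : ℕ) (l' : ℝ) : Prop where
  /-- below the side: barrier -/
  bar : ∀ v, |sc w n v| ≤ l' → |tc w n v| ≤ l' → tc w n v < 0 →
    v ∈ B.N n ∧ pt (A.δ n) v ∈ Sbar B
  /-- above the side: not in the barrier -/
  fre : ∀ v, |sc w n v| ≤ l' → |tc w n v| ≤ l' → 0 < tc w n v → v ∉ B.N n
  /-- the labels are free -/
  lab : ∀ v, |sc w n v| ≤ l' → |tc w n v| ≤ l' → star1 v ⊆ (X0 A n).E
  /-- the final vertex is outside -/
  bet : ¬ (|sc w n (vx (X0 A n).β)| ≤ l' ∧ |tc w n (vx (X0 A n).β)| ≤ l')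
  /-- the final vertex is in the barrier -/
  betN : vx (X0 A n).β ∈ B.N n
  /-- the barrier is connected -/
  con : ∀ u ∈ B.N n, ∀ v ∈ B.N n, Co (kap (B.N n)) u v

lemma winN_eventually (hDo : IsOpen D) (hA : A₁ ⊆ frontier D) (hne : A₁.Nonempty) (hb : b ∉ D)
    {l' : ℝ} (hl : l' < w.l) : ∀ᶠ n in atTop, WinN w n l' := by
  have hl0 := w.l0
  have hK := isCompact_WB w l'
  have hKD := WB_sub w hl
  have hbK : b ∈ (WB w l')ᶜ := fun h => hb (hKD h)
  obtain ⟨s, hs, h1⟩ := Metric.isOpen_iff.1 hK.isClosed.isOpen_compl b hbK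
  obtain ⟨M, hM⟩ := (B.rlim.eventually_lt_const hs).exists
  have e1 := (Metric.tendsto_nhds.1 A.limβ) s hs
  filter_upwards [B.hN w.M0, B.hN M, free_ev_compact hDo hA hne A hK hKD, e1, B.beta, B.conn]
    with n h2 h3 h4 h5 h6 h7
  refine ⟨?_, ?_, ?_, ?_, h6, ?_⟩
  · intro v hsv htv ht
    have h8 : pt (A.δ n) v ∈ cfat B.o w.q := by
      rw [abs_le] at hsv htv
      have h9 := w.dn (sc w n v) (-tc w n v) (by rw [abs_lt]; constructor <;> linarith)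
        (by linarith) (by linarith)
      rw [pt_sc w n v]
      convert h9 using 1
      unfold Win.p
      push_cast
      ring
    constructor
    · obtain ⟨N', h9, -⟩ := h2
      rw [h9]
      refine mem_union_left _ (mem_Vn.2 ⟨w.q, w.hq, ?_⟩)
      rw [mem_verts (A.pos n)]
      exact fat_of_cfat (B := B) h8
    · exact Set.mem_iUnion.2 ⟨w.M0, Set.mem_iUnion₂.2 ⟨w.q, w.hq, h8⟩⟩
  · intro v hsv htv ht hv
    have hW := mem_WB w hsv htv
    obtain ⟨N', h9, h10⟩ := h3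
    rw [h9] at hv
    rcases mem_union.1 hv with h11 | h11
    · obtain ⟨q, hq, h12⟩ := mem_Vn.1 h11
      rw [mem_verts (A.pos n)] at h12
      rw [abs_le] at hsv htv
      have h13 := w.up (sc w n v) (tc w n v) (by rw [abs_lt]; constructor <;> linarith) ht
        (by linarith)
      apply h13.2
      have h14 := pt_sc w n v
      unfold Win.p at h14
      rw [← h14]
      exact Set.mem_iUnion.2 ⟨M, Set.mem_iUnion₂.2 ⟨q, hq, fat_sub_cfat _ _ h12⟩⟩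
    · exact h1 (Metric.ball_subset_ball hM.le (h10 v h11)) hW
  · intro v hsv htv
    exact h4 v (mem_WB w hsv htv)
  · rintro ⟨h8, h9⟩
    have h10 := mem_WB w h8 h9
    have h11 : vx (X0 A n).β = (A.X n).β.1 := by
      change vx (A.X n).toDEnv.β = _
      rw [Pool.Agent.H81.Q1.toDEnv_β, vx_cor]
    rw [h11] at h10
    exact h1 (Metric.mem_ball.2 h5) h10
  · intro u hu v hv
    exact (h7 u hu v hv).mono inter_subset_left

/-! ### The point of the window -/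

lemma perp_hi {o1 : ℝ} {m2 q2 : ℤ} {l k1 : ℕ} (hlk : l < k1)
    (h : o1 + m2 * mesh (k1 + 1) = o1 + (q2 + 4 / 3) * mesh l) :
    3 ^ (k1 + 1 - k1) * m2 = hi (k1 + 1 - l) q2 := by
  have hm := mesh_pos (k1 + 1)
  rw [mesh_le hlk.le] at h
  have h1 : (m2 : ℝ) = (3 * q2 + 4) * 3 ^ (k1 - l) := by
    have : (m2 : ℝ) * mesh (k1 + 1) = ((3 * q2 + 4) * 3 ^ (k1 - l)) * mesh (k1 + 1) := by linarith
    exact mul_right_cancel₀ hm.ne' this
  have h2 : m2 = (3 * q2 + 4) * 3 ^ (k1 - l) := by exact_mod_cast h1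
  rw [h2, show k1 + 1 - k1 = 1 by omega, show k1 + 1 - l = (k1 - l) + 1 by omega]
  unfold hi
  ring

lemma perp_lo {o1 : ℝ} {m2 q2 : ℤ} {l k1 : ℕ} (hlk : l < k1)
    (h : o1 + m2 * mesh (k1 + 1) = o1 + (q2 - 1 / 3) * mesh l) :
    3 ^ (k1 + 1 - k1) * m2 = lo (k1 + 1 - l) q2 := by
  have hm := mesh_pos (k1 + 1)
  rw [mesh_le hlk.le] at h
  have h1 : (m2 : ℝ) = (3 * q2 - 1) * 3 ^ (k1 - l) := by
    have : (m2 : ℝ) * mesh (k1 + 1) = ((3 * q2 - 1) * 3 ^ (k1 - l)) * mesh (k1 + 1) := by linarith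
    exact mul_right_cancel₀ hm.ne' this
  have h2 : m2 = (3 * q2 - 1) * 3 ^ (k1 - l) := by exact_mod_cast h1
  rw [h2, show k1 + 1 - k1 = 1 by omega, show k1 + 1 - l = (k1 - l) + 1 by omega]
  unfold lo
  ring

/-- the window point lies on a side of the cell -/
lemma up_notin {t : ℝ} (h0 : 0 < t) (h1 : t < w.l) :
    w.p + (t * Complex.I) * uv w.k ∉ cfat B.o w.q := by
  intro h
  have h2 := w.up 0 t (by rw [abs_zero]; linarith [w.l0]) h0 (by linarith [w.l0])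
  apply h2.2
  refine Set.mem_iUnion.2 ⟨w.M0, Set.mem_iUnion₂.2 ⟨w.q, w.hq, ?_⟩⟩
  convert h using 1
  unfold Win.p
  push_cast
  ring

lemma p_mem : w.p ∈ cfat B.o w.q := by
  have h := w.dn 0 0 (by rw [abs_zero]; linarith [w.l0]) le_rfl (by linarith [w.l0])
  convert h using 1
  unfold Win.p
  push_cast
  ring

/-- the perpendicular coordinate of the window -/
lemma perp_cases :
    (w.k % 4 = 0 ∧ w.p.im = B.o.im + (w.q.2.2 + 4 / 3) * mesh w.q.1) ∨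
    (w.k % 4 = 1 ∧ w.p.re = B.o.re + (w.q.2.1 - 1 / 3) * mesh w.q.1) ∨
    (w.k % 4 = 2 ∧ w.p.im = B.o.im + (w.q.2.2 - 1 / 3) * mesh w.q.1) ∨
    (w.k % 4 = 3 ∧ w.p.re = B.o.re + (w.q.2.1 + 4 / 3) * mesh w.q.1) := by
  obtain ⟨h1, h2, h3, h4⟩ := p_mem w
  have hl := w.l0
  rcases dir_succ_cases w.k with ⟨hk, e1, -, -⟩ | ⟨hk, e1, -, -⟩ | ⟨hk, e1, -, -⟩ | ⟨hk, e1, -, -⟩
  · left
    refine ⟨hk, le_antisymm h4 ?_⟩
    by_contra hc
    push Not at hc
    set t := min (w.l / 2) (B.o.im + (w.q.2.2 + 4 / 3) * mesh w.q.1 - w.p.im) with ht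
    have t0 : 0 < t := lt_min (by linarith) (by linarith)
    have t1 : t ≤ w.l / 2 := min_le_left _ _
    have t2 : t ≤ B.o.im + (w.q.2.2 + 4 / 3) * mesh w.q.1 - w.p.im := min_le_right _ _
    refine up_notin w t0 (by linarith) ⟨?_, ?_, ?_, ?_⟩ <;> unfold uv <;> rw [e1] <;> simp <;> linarith
  · right; left
    refine ⟨hk, le_antisymm ?_ h1⟩
    by_contra hc
    push Not at hc
    set t := min (w.l / 2) (w.p.re - (B.o.re + (w.q.2.1 - 1 / 3) * mesh w.q.1)) with ht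
    have t0 : 0 < t := lt_min (by linarith) (by linarith)
    have t1 : t ≤ w.l / 2 := min_le_left _ _
    have t2 : t ≤ w.p.re - (B.o.re + (w.q.2.1 - 1 / 3) * mesh w.q.1) := min_le_right _ _
    refine up_notin w t0 (by linarith) ⟨?_, ?_, ?_, ?_⟩ <;> unfold uv <;> rw [e1] <;> simp <;> linarith
  · right; right; left
    refine ⟨hk, le_antisymm ?_ h3⟩
    by_contra hc
    push Not at hc
    set t := min (w.l / 2) (w.p.im - (B.o.im + (w.q.2.2 - 1 / 3) * mesh w.q.1)) with ht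
    have t0 : 0 < t := lt_min (by linarith) (by linarith)
    have t1 : t ≤ w.l / 2 := min_le_left _ _
    have t2 : t ≤ w.p.im - (B.o.im + (w.q.2.2 - 1 / 3) * mesh w.q.1) := min_le_right _ _
    refine up_notin w t0 (by linarith) ⟨?_, ?_, ?_, ?_⟩ <;> unfold uv <;> rw [e1] <;> simp <;> linarith
  · right; right; right
    refine ⟨hk, le_antisymm h2 ?_⟩
    by_contra hc
    push Not at hc
    set t := min (w.l / 2) (B.o.re + (w.q.2.1 + 4 / 3) * mesh w.q.1 - w.p.re) with ht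
    have t0 : 0 < t := lt_min (by linarith) (by linarith)
    have t1 : t ≤ w.l / 2 := min_le_left _ _
    have t2 : t ≤ B.o.re + (w.q.2.1 + 4 / 3) * mesh w.q.1 - w.p.re := min_le_right _ _
    refine up_notin w t0 (by linarith) ⟨?_, ?_, ?_, ?_⟩ <;> unfold uv <;> rw [e1] <;> simp <;> linarith

lemma gv_fst (i : ℤ) : (w.gv (w.k1 + 1) i).1 =
    3 ^ (w.k1 + 1 - w.k1) * (w.m.1 + i * (H75.Perc.dir w.k).1) := by
  unfold Win.gv; simp; ring

lemma gv_snd (i : ℤ) : (w.gv (w.k1 + 1) i).2 =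
    3 ^ (w.k1 + 1 - w.k1) * (w.m.2 + i * (H75.Perc.dir w.k).2) := by
  unfold Win.gv; simp; ring

lemma LX_near (n : ℕ) (o1 : ℝ) (m1 : ℤ) (k1 : ℕ) :
    |A.δ n * LX (k1 + 1) o1 (A.δ n) (3 ^ (k1 + 1 - k1) * m1) - (o1 + m1 * mesh (k1 + 1))| ≤
      A.δ n := by
  have hn := A.pos n
  have h1 := rnd_bounds (lty (3 ^ (k1 + 1 - k1) * m1))
    ((o1 + ((3 ^ (k1 + 1 - k1) * m1 : ℤ) : ℝ) * mesh (k1 + 1 + 1)) / A.δ n)
  have e : o1 + ((3 ^ (k1 + 1 - k1) * m1 : ℤ) : ℝ) * mesh (k1 + 1 + 1) =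
      o1 + m1 * mesh (k1 + 1) := by
    rw [show k1 + 1 - k1 = 1 by omega]
    unfold mesh
    rw [pow_succ (1 / 3 : ℝ) (k1 + 1)]
    push_cast
    ring
  unfold LX
  rw [e] at h1 ⊢
  set r := o1 + m1 * mesh (k1 + 1) with hr
  set z := rnd (lty (3 ^ (k1 + 1 - k1) * m1)) (r / A.δ n) with hz
  have e2 : A.δ n * z - r = A.δ n * (z - r / A.δ n) := by field_simp
  rw [e2, abs_mul, abs_of_pos hn]
  have : |(z : ℝ) - r / A.δ n| ≤ 1 := by rw [abs_le]; constructor <;> linarith [h1.1, h1.2]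
  nlinarith

/-- **the window point, coordinate along the side** -/
lemma x_sc (n : ℕ) (i : ℤ) : |sc w n (w.x n i) - i * mesh (w.k1 + 1)| ≤ A.δ n := by
  have h1 := LX_near (A := A) n B.o.re (w.m.1 + i * (H75.Perc.dir w.k).1) w.k1
  have h2 := LX_near (A := A) n B.o.im (w.m.2 + i * (H75.Perc.dir w.k).2) w.k1
  unfold sc Win.x pt Win.p gpt
  rw [gv_fst, gv_snd]
  simp only
  rcases dir_succ_cases w.k with ⟨-, e1, -, -⟩ | ⟨-, e1, -, -⟩ | ⟨-, e1, -, -⟩ | ⟨-, e1, -, -⟩ <;>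
    rw [e1] at h1 h2 ⊢ <;> simp only [mul_one, mul_zero, mul_neg, add_zero] at h1 h2 ⊢ <;>
    push_cast at h1 h2 ⊢ <;> rw [abs_le] at h1 h2 ⊢ <;> constructor <;> linarith

lemma LX_hi (n : ℕ) {o1 : ℝ} {m2 q2 : ℤ} {l k1 : ℕ} (hlk : l < k1)
    (h : o1 + m2 * mesh (k1 + 1) = o1 + (q2 + 4 / 3) * mesh l) :
    0 ≤ A.δ n * LX (k1 + 1) o1 (A.δ n) (3 ^ (k1 + 1 - k1) * m2) - (o1 + m2 * mesh (k1 + 1)) := by
  have hn := A.pos n
  have e : o1 + ((3 ^ (k1 + 1 - k1) * m2 : ℤ) : ℝ) * mesh (k1 + 1 + 1) =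
      o1 + m2 * mesh (k1 + 1) := by
    rw [show k1 + 1 - k1 = 1 by omega]
    unfold mesh
    rw [pow_succ (1 / 3 : ℝ) (k1 + 1)]
    push_cast
    ring
  unfold LX
  rw [e, perp_hi hlk h, lty_hiC (by omega) rfl]
  simp only [rnd]
  have h1 := Int.le_ceil ((o1 + m2 * mesh (k1 + 1)) / A.δ n)
  rw [div_le_iff₀ hn] at h1
  linarith

lemma LX_lo (n : ℕ) {o1 : ℝ} {m2 q2 : ℤ} {l k1 : ℕ} (hlk : l < k1)
    (h : o1 + m2 * mesh (k1 + 1) = o1 + (q2 - 1 / 3) * mesh l) :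
    A.δ n * LX (k1 + 1) o1 (A.δ n) (3 ^ (k1 + 1 - k1) * m2) - (o1 + m2 * mesh (k1 + 1)) ≤ 0 := by
  have hn := A.pos n
  have e : o1 + ((3 ^ (k1 + 1 - k1) * m2 : ℤ) : ℝ) * mesh (k1 + 1 + 1) =
      o1 + m2 * mesh (k1 + 1) := by
    rw [show k1 + 1 - k1 = 1 by omega]
    unfold mesh
    rw [pow_succ (1 / 3 : ℝ) (k1 + 1)]
    push_cast
    ring
  unfold LX
  rw [e, perp_lo hlk h, lty_loC (by omega) rfl]
  simp only [rnd]
  have h1 := Int.floor_le ((o1 + m2 * mesh (k1 + 1)) / A.δ n)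
  rw [le_div_iff₀ hn] at h1
  linarith

/-- **the window point, height** -/
lemma x_tc (n : ℕ) (i : ℤ) : 0 < tc w n (w.x n i) ∧ tc w n (w.x n i) ≤ A.δ n := by
  have hne := tc_ne w n (w.x n i)
  have key : 0 ≤ tc w n (w.x n i) ∧ tc w n (w.x n i) ≤ A.δ n := by
    have h1 := LX_near (A := A) n B.o.re (w.m.1 + i * (H75.Perc.dir w.k).1) w.k1
    have h2 := LX_near (A := A) n B.o.im (w.m.2 + i * (H75.Perc.dir w.k).2) w.k1
    have hc := perp_cases w
    have g1 := fun (q2 : ℤ) => LX_hi (A := A) n (o1 := B.o.re)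
      (m2 := w.m.1 + i * (H75.Perc.dir w.k).1) (q2 := q2) w.hk1
    have g2 := fun (q2 : ℤ) => LX_lo (A := A) n (o1 := B.o.re)
      (m2 := w.m.1 + i * (H75.Perc.dir w.k).1) (q2 := q2) w.hk1
    have g3 := fun (q2 : ℤ) => LX_hi (A := A) n (o1 := B.o.im)
      (m2 := w.m.2 + i * (H75.Perc.dir w.k).2) (q2 := q2) w.hk1
    have g4 := fun (q2 : ℤ) => LX_lo (A := A) n (o1 := B.o.im)
      (m2 := w.m.2 + i * (H75.Perc.dir w.k).2) (q2 := q2) w.hk1
    unfold tc Win.x pt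
    unfold Win.p gpt at hc ⊢
    rw [gv_fst, gv_snd]
    simp only at hc ⊢
    rcases dir_succ_cases w.k with ⟨hk, e1, e2, -⟩ | ⟨hk, e1, e2, -⟩ | ⟨hk, e1, e2, -⟩ |
      ⟨hk, e1, e2, -⟩
    · obtain ⟨-, hc⟩ := hc.resolve_right (by omega)
      have g := g3 w.q.2.2
      rw [e1] at h1 h2 g ⊢
      rw [e2]
      simp only [mul_one, mul_zero, add_zero] at h1 h2 g ⊢
      have g' := g hc
      rw [abs_le] at h2
      push_cast
      constructor <;> linarith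
    · obtain ⟨-, hc⟩ := (hc.resolve_left (by omega)).resolve_right (by omega)
      have g := g2 w.q.2.1
      rw [e1] at h1 h2 g ⊢
      rw [e2]
      simp only [mul_one, mul_zero, add_zero] at h1 h2 g ⊢
      have g' := g hc
      rw [abs_le] at h1
      push_cast
      constructor <;> linarith
    · obtain ⟨-, hc⟩ := ((hc.resolve_left (by omega)).resolve_left (by omega)).resolve_right
        (by omega)
      have g := g4 w.q.2.2
      rw [e1] at h1 h2 g ⊢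
      rw [e2]
      simp only [mul_one, mul_zero, add_zero] at h1 h2 g ⊢
      have g' := g hc
      rw [abs_le] at h2
      push_cast
      constructor <;> linarith
    · obtain ⟨-, hc⟩ := ((hc.resolve_left (by omega)).resolve_left (by omega)).resolve_left
        (by omega)
      have g := g1 w.q.2.1
      rw [e1] at h1 h2 g ⊢
      rw [e2]
      simp only [mul_one, mul_zero, add_zero] at h1 h2 g ⊢
      have g' := g hc
      rw [abs_le] at h1
      push_cast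
      constructor <;> linarith
  exact ⟨lt_of_le_of_ne key.1 hne.symm, key.2⟩

end

end Pool.Agent.H76.M7
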