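import Mathlib
import Pool.Agent.H76.M7.WinG
import Pool.Agent.H28.Q1.InvD

set_option autoImplicit false
open Finset Filter Topology

/-! # Module M7: the wired labels at the barrier are away from the window point

`not_before`: the contour passes the labels of a flat row in order. `thin_state`: near the window
point every state with fresh neighbourhood of the barrier is the half plane. -/

namespace Pool.Agent.H76.M7

open Pool.Agent.H75.Perc Pool.Agent.H75.TwoArm Pool.Agent.H75.Four Pool.Agent.H69.Q1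
open Pool.Agent.H49.Q1
open Pool.Agent.H81.Q1 (pt DDomain Approx IsJordanDomain IsArcs)
open Pool.Agent.Q1.M3
open Pool.Agent.H82.Q1.M7

lemma kap_closed {K : Finset (ℤ × ℤ)} {u v : ℤ × ℤ} (hu : u ∈ K) (h : Co (kap K) u v) : v ∈ K := by
  induction h with
  | refl => exact hu
  | tail _ hbc _ => exact (kap_ends hbc.1 hbc.2).2

lemma unit_dir (k : ℤ) (u : ℤ × ℤ) : IsUnit4 (u + H75.Perc.dir k - u) := by
  unfold IsUnit4
  rcases dir_succ_cases k with ⟨-, h, -⟩ | ⟨-, h, -⟩ | ⟨-, h, -⟩ | ⟨-, h, -⟩ <;> rw [h] <;>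
    simp [Prod.ext_iff]

lemma vx_of_plab {c u v : ℤ × ℤ} (h : IsUnit4 (v - u)) (hc : plab c = u + v) :
    vx c = u ∨ vx c = v := by
  obtain ⟨h1, h2⟩ := ends_add h
  have h3 := plab_star1 c
  rw [hc, mem_star1_iff h1] at h3
  rcases h2 with ⟨h4, h5⟩ | ⟨h4, h5⟩ <;> rw [h4, h5] at h3 <;> tauto

/-- **The contour passes the labels of a flat row in order.** -/
lemma not_before {K L : Finset (ℤ × ℤ)} (hLK : L ⊆ kap K) {β t0 : ℤ × ℤ} {k : ℤ} (hβ : vx β ∈ K)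
    {J : ℕ} (hJ : 1 ≤ J)
    (hin' : ∀ e ∈ kap K, (∃ j : ℕ, j ≤ J ∧
      e ∈ star1 (t0 + (j : ℤ) • H75.Perc.dir k)) → e ∈ L)
    (hK : ∀ j : ℕ, j ≤ J → t0 + (j : ℤ) • H75.Perc.dir k ∈ K)
    (hx : ∀ j : ℕ, j ≤ J → t0 + (j : ℤ) • H75.Perc.dir k + H75.Perc.dir (k + 1) ∉ K)
    (hβ' : ∀ j : ℕ, j ≤ J → vx β ≠ t0 + (j : ℤ) • H75.Perc.dir k) {m : ℕ}
    (hm : plab ((pv L)^[m] β) = (t0 + (J : ℤ) • H75.Perc.dir k) +
      ((t0 + (J : ℤ) • H75.Perc.dir k) + H75.Perc.dir (k + 1)))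
    (hs : m ≤ sInf {i | plab ((pv L)^[i] β) = t0 + (t0 + H75.Perc.dir (k + 1))}) : False := by
  set u : ℕ → ℤ × ℤ := fun j => t0 + (j : ℤ) • H75.Perc.dir k with hu
  have hus : ∀ j : ℕ, u (j + 1) = u j + H75.Perc.dir k := by
    intro j
    rw [hu]
    ext <;> simp <;> ring
  -- labels of the row
  have hout : ∀ j ≤ J, u j + (u j + H75.Perc.dir (k + 1)) ∉ L := by
    intro j hj h
    exact hx j hj (kap_ends (unit_dir _ _) (hLK h)).2
  have hin : ∀ j, j + 1 ≤ J → u j + (u j + H75.Perc.dir k) ∈ L := by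
    intro j hj
    obtain ⟨h1, h2⟩ := ends_add (unit_dir k (u j))
    refine hin' _ ?_ ⟨j, by omega, ?_⟩
    · rw [mem_kap_iff h1]
      have h3 : u j ∈ K := hK j (by omega)
      have h4 : u j + H75.Perc.dir k ∈ K := by rw [← hus]; exact hK (j + 1) hj
      rcases h2 with ⟨h5, h6⟩ | ⟨h5, h6⟩ <;> rw [h5, h6]
      · exact ⟨h3, h4⟩
      · exact ⟨h4, h3⟩
    · rw [mem_star1_iff h1]
      rcases h2 with ⟨h5, -⟩ | ⟨-, h6⟩
      · exact Or.inl h5.symm
      · exact Or.inr h6.symm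
  have hcK : ∀ i, vx ((pv L)^[i] β) ∈ K := by
    intro i
    have h1 := (Pool.Agent.H39.Q1.side_open L β (Nat.zero_le i)).mono
      (inter_subset_left.trans hLK)
    exact kap_closed hβ h1
  have key : ∀ d ≤ J, 2 * d ≤ m ∧ (pv L)^[m - 2 * d] β = cc k (u (J - d)) := by
    intro d
    induction d with
    | zero =>
      intro _
      refine ⟨by omega, ?_⟩
      have h1 : plab ((pv L)^[m] β) = u J + (u J + H75.Perc.dir (k + 1)) := hm
      rcases vx_of_plab (unit_dir _ _) h1 with h2 | h2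
      · exact eq_cc h2 h1
      · exfalso
        have h3 := hcK m
        rw [h2] at h3
        exact hx J le_rfl h3
    | succ d ih =>
      intro hd
      obtain ⟨h1, h2⟩ := ih (by omega)
      have e1 : J - d = (J - (d + 1)) + 1 := by omega
      rw [e1, hus, ← pv_cc (hout _ (by omega)) (hin _ (by omega))] at h2
      have h3 : 2 ≤ m - 2 * d := by
        by_contra hc
        have h4 : m - 2 * d = 0 ∨ m - 2 * d = 1 := by omega
        rcases h4 with h4 | h4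
        · rw [h4, pv_cc (hout _ (by omega)) (hin _ (by omega)), ← hus, ← e1] at h2
          have h5 : vx β = u (J - d) := by
            have := congrArg vx h2
            rwa [vx_cc] at this
          exact hβ' _ (by omega) h5
        · rw [h4] at h2
          have h5 : β = pv L (cc k (u (J - (d + 1)))) := pv_inj L h2
          have h6 := (Pool.Agent.H28.Q1.fi_of_closed (L := L) (x := cc k (u (J - (d + 1))))
            (by rw [plab_cc]; exact hout _ (by omega))).1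
          rw [← h5, vx_cc] at h6
          exact hβ' _ (by omega) h6.symm
      refine ⟨by omega, ?_⟩
      have h4 : m - 2 * d = (m - 2 * (d + 1)) + 1 + 1 := by omega
      rw [h4, Function.iterate_succ_apply', Function.iterate_succ_apply'] at h2
      exact pv_inj L (pv_inj L h2)
  obtain ⟨h1, h2⟩ := key J le_rfl
  have h3 : plab ((pv L)^[m - 2 * J] β) = t0 + (t0 + H75.Perc.dir (k + 1)) := by
    rw [h2, plab_cc, Nat.sub_self]
    have : u 0 = t0 := by rw [hu]; simp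
    rw [this]
  have h4 := Nat.sInf_le (s := {i | plab ((pv L)^[i] β) = t0 + (t0 + H75.Perc.dir (k + 1))}) h3
  omega

section

variable {D : Set ℂ} {a b : ℂ} {A₁ A₂ : Set ℂ} {A : Approx D a b A₁ A₂} {r0 : ℝ} {B : Base A r0}
  (w : Win B)

lemma t_add (n : ℕ) (i : ℤ) : w.t n i + H75.Perc.dir (w.k + 1) = w.x n i := by
  unfold Win.t
  rcases dir_succ_cases w.k with ⟨-, -, h1, h2⟩ | ⟨-, -, h1, h2⟩ | ⟨-, -, h1, h2⟩ |
    ⟨-, -, h1, h2⟩ <;> rw [h1, h2] <;> ext <;> simp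

lemma t_unit (n : ℕ) (i : ℤ) : IsUnit4 (w.x n i - w.t n i) := by
  rw [← t_add w n i]; exact unit_dir _ _

lemma dt_dir_succ (k : ℤ) : dt k (H75.Perc.dir (k + 1)) = 0 ∧ dt (k + 1) (H75.Perc.dir (k + 1)) = 1 ∧
    dt k (H75.Perc.dir k) = 1 ∧ dt (k + 1) (H75.Perc.dir k) = 0 := by
  unfold dt
  rcases dir_succ_cases k with ⟨-, h, h1, -⟩ | ⟨-, h, h1, -⟩ | ⟨-, h, h1, -⟩ | ⟨-, h, h1, -⟩ <;>
    rw [h, h1] <;> simp

lemma sc_add_smul (n : ℕ) (u : ℤ × ℤ) (j : ℤ) :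
    sc w n (u + j • H75.Perc.dir w.k) = sc w n u + A.δ n * j ∧
      tc w n (u + j • H75.Perc.dir w.k) = tc w n u := by
  have h1 := sc_sub w n (u + j • H75.Perc.dir w.k) u
  have h2 := tc_sub w n (u + j • H75.Perc.dir w.k) u
  obtain ⟨-, -, h3, h4⟩ := dt_dir_succ w.k
  have e : u + j • H75.Perc.dir w.k - u = j • H75.Perc.dir w.k := by ring
  rw [e] at h1 h2
  have e1 : ∀ l, dt l (j • H75.Perc.dir w.k) = j * dt l (H75.Perc.dir w.k) := by
    intro l
    unfold dt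
    simp
    ring
  rw [e1, h3] at h1
  rw [e1, h4] at h2
  push_cast at h1 h2
  constructor <;> linarith

lemma sc_add_succ (n : ℕ) (u : ℤ × ℤ) :
    sc w n (u + H75.Perc.dir (w.k + 1)) = sc w n u ∧
      tc w n (u + H75.Perc.dir (w.k + 1)) = tc w n u + A.δ n := by
  have h1 := sc_sub w n (u + H75.Perc.dir (w.k + 1)) u
  have h2 := tc_sub w n (u + H75.Perc.dir (w.k + 1)) u
  obtain ⟨h3, h4, -, -⟩ := dt_dir_succ w.k
  rw [add_sub_cancel_left] at h1 h2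
  rw [h3] at h1
  rw [h4] at h2
  push_cast at h1 h2
  constructor <;> linarith

/-- the barrier vertex below the window point -/
lemma t_sc (n : ℕ) (i : ℤ) : |sc w n (w.t n i) - i * mesh (w.k1 + 1)| ≤ A.δ n ∧
    -A.δ n < tc w n (w.t n i) ∧ tc w n (w.t n i) < 0 := by
  have h1 := sc_add_succ w n (w.t n i)
  rw [t_add] at h1
  have h2 := x_sc w n i
  have h3 := x_tc w n i
  have h4 := tc_ne w n (w.t n i)
  refine ⟨by rw [← h1.1]; exact h2, by linarith [h3.1], lt_of_le_of_ne (by linarith [h3.2]) h4⟩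

/-- a vector with given coordinates -/
lemma eq_of_dt {k : ℤ} {u v : ℤ × ℤ} (h : dt (k + 1) (v - u) = 0) :
    v = u + dt k (v - u) • H75.Perc.dir k := by
  unfold dt at *
  rcases dir_succ_cases k with ⟨-, h1, h2, -⟩ | ⟨-, h1, h2, -⟩ | ⟨-, h1, h2, -⟩ |
    ⟨-, h1, h2, -⟩ <;> rw [h1] <;> rw [h2] at h <;> ext <;> simp at h ⊢ <;> omega

/-- a unit vector with positive height -/
lemma unit_pos {k : ℤ} {d : ℤ × ℤ} (hd : IsUnit4 d) (h : 0 < dt (k + 1) d) :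
    d = H75.Perc.dir (k + 1) := by
  unfold dt at h
  unfold IsUnit4 at hd
  obtain ⟨d1, d2⟩ := d
  rcases dir_succ_cases k with ⟨-, -, h2, -⟩ | ⟨-, -, h2, -⟩ | ⟨-, -, h2, -⟩ |
    ⟨-, -, h2, -⟩ <;> rw [h2] at h ⊢ <;> simp only [Prod.mk.injEq] at hd h ⊢ <;> omega

/-- **The wired labels at the barrier are away from the window point.** -/
lemma Tw_far {n : ℕ} {l' : ℝ} (hW : WinN w n l') {i r : ℤ} (hi : 0 < i)
    (hr : (r + 2) * A.δ n < i * mesh (w.k1 + 1)) (hr' : i * mesh (w.k1 + 1) + (r + 2) * A.δ n ≤ l')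
    {e : ℤ × ℤ} (he : e ∈ w.Tw n) : e ∉ FB (Sd w.k (w.x n i)) r := by
  intro hF
  have hδ := A.pos n
  have hmp := mesh_pos (w.k1 + 1)
  have hi1 : (1 : ℝ) ≤ i := by exact_mod_cast hi
  unfold Win.Tw at he
  rw [mem_inter, mem_image, mem_inter] at he
  obtain ⟨⟨m, hm, hme⟩, hp, -⟩ := he
  rw [mem_range] at hm
  obtain ⟨ho, ⟨hu1, hu2⟩, hv1, hv2⟩ := FB_dt hF
  rw [mem_perp_iff ho] at hp
  have hxs := x_sc w n i
  have hxt := x_tc w n i
  have him : mesh (w.k1 + 1) ≤ i * mesh (w.k1 + 1) := le_mul_of_one_le_left hmp.le hi1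
  -- coordinates of the ends
  have co : ∀ v : ℤ × ℤ, |dt w.k (v - w.x n i)| ≤ r → |dt (w.k + 1) (v - w.x n i)| ≤ r →
      |sc w n v| ≤ l' ∧ |tc w n v| ≤ l' ∧ 0 ≤ r ∧
        i * mesh (w.k1 + 1) - (r + 1) * A.δ n ≤ sc w n v ∧ sc w n v ≤
        i * mesh (w.k1 + 1) + (r + 1) * A.δ n := by
    intro v h1 h2
    have hr0 : 0 ≤ r := (abs_nonneg _).trans h1
    have e1 := sc_sub w n v (w.x n i)
    have e2 := tc_sub w n v (w.x n i)
    have h1' : |(dt w.k (v - w.x n i) : ℝ)| ≤ r := by exact_mod_cast h1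
    have h2' : |(dt (w.k + 1) (v - w.x n i) : ℝ)| ≤ r := by exact_mod_cast h2
    have h3 : |A.δ n * (dt w.k (v - w.x n i) : ℝ)| ≤ A.δ n * r := by
      rw [abs_mul, abs_of_pos hδ]; exact mul_le_mul_of_nonneg_left h1' hδ.le
    have h4 : |A.δ n * (dt (w.k + 1) (v - w.x n i) : ℝ)| ≤ A.δ n * r := by
      rw [abs_mul, abs_of_pos hδ]; exact mul_le_mul_of_nonneg_left h2' hδ.le
    rw [← e1] at h3
    rw [← e2] at h4
    have hr0' : (0 : ℝ) ≤ r := by exact_mod_cast hr0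
    have hrd : 0 ≤ (r : ℝ) * A.δ n := mul_nonneg hr0' hδ.le
    rw [abs_le] at h3 h4 hxs
    refine ⟨?_, ?_, hr0, ?_, ?_⟩
    · rw [abs_le]; constructor <;> linarith [h3.1, h3.2, hxs.1, hxs.2]
    · rw [abs_le]; constructor <;> linarith [h4.1, h4.2, hxt.1, hxt.2]
    · linarith [h3.1, h3.2, hxs.1, hxs.2]
    · linarith [h3.1, h3.2, hxs.1, hxs.2]
  obtain ⟨cu1, cu2, hr0, cu3, cu4⟩ := co _ hu1 hu2
  obtain ⟨cv1, cv2, -, cv3, cv4⟩ := co _ hv1 hv2
  -- the two ends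
  have hpair : ∃ u v : ℤ × ℤ, u ∈ B.N n ∧ v ∉ B.N n ∧ IsUnit4 (v - u) ∧ e = u + v ∧
      (|sc w n u| ≤ l' ∧ |tc w n u| ≤ l') ∧ (|sc w n v| ≤ l' ∧ |tc w n v| ≤ l') ∧
      i * mesh (w.k1 + 1) - (r + 1) * A.δ n ≤ sc w n u ∧ sc w n u ≤
        i * mesh (w.k1 + 1) + (r + 1) * A.δ n := by
    have hs : e = eu e + ev e ∧ IsUnit4 (ev e - eu e) ∧ IsUnit4 (eu e - ev e) := by
      obtain ⟨e1, e2⟩ := e
      unfold eu ev IsUnit4
      simp only [Prod.mk_add_mk, Prod.mk_sub_mk, Prod.mk.injEq] at ho ⊢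
      omega
    obtain ⟨hs1, hs2, hs3⟩ := hs
    rcases hp with ⟨h1, h2⟩ | ⟨h1, h2⟩
    · exact ⟨eu e, ev e, h1, h2, hs2, hs1, ⟨cu1, cu2⟩, ⟨cv1, cv2⟩, cu3, cu4⟩
    · exact ⟨ev e, eu e, h2, h1, hs3, by rw [add_comm]; exact hs1, ⟨cv1, cv2⟩, ⟨cu1, cu2⟩, cv3, cv4⟩
  obtain ⟨u, v, huN, hvN, huv, heq, ⟨su, tu⟩, ⟨sv, tv⟩, lu, lu'⟩ := hpair
  have htu : tc w n u < 0 := by
    by_contra hc
    exact hW.fre u su tu (lt_of_le_of_ne (not_lt.1 hc) (tc_ne w n u).symm) huN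
  have htv : 0 < tc w n v := by
    by_contra hc
    exact hvN (hW.bar v sv tv (lt_of_le_of_ne (not_lt.1 hc) (tc_ne w n v))).1
  have hd : 0 < dt (w.k + 1) (v - u) := by
    have h1 := tc_sub w n v u
    have h2 : 0 < A.δ n * (dt (w.k + 1) (v - u) : ℝ) := by rw [← h1]; linarith
    have h3 : (0 : ℝ) < dt (w.k + 1) (v - u) := pos_of_mul_pos_right h2 hδ.le
    exact_mod_cast h3
  have hv : v = u + H75.Perc.dir (w.k + 1) := by
    rw [← unit_pos huv hd]; ring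
  have htu2 : tc w n u = tc w n v - A.δ n := by
    have := (sc_add_succ w n u).2
    rw [← hv] at this
    linarith
  -- `u` is in the last row
  obtain ⟨ht0s, ht0a, ht0b⟩ := t_sc w n 0
  have hrow : dt (w.k + 1) (u - w.t n 0) = 0 := by
    have h1 := tc_sub w n u (w.t n 0)
    have h2 : |A.δ n * (dt (w.k + 1) (u - w.t n 0) : ℝ)| < A.δ n := by
      rw [← h1, abs_lt]; constructor <;> linarith
    rw [abs_mul, abs_of_pos hδ] at h2
    have h3 : |(dt (w.k + 1) (u - w.t n 0) : ℝ)| < 1 := by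
      by_contra hc
      push Not at hc
      nlinarith
    have h4 : |dt (w.k + 1) (u - w.t n 0)| < 1 := by exact_mod_cast h3
    exact Int.abs_lt_one_iff.1 h4
  have hueq := eq_of_dt hrow
  set J := dt w.k (u - w.t n 0) with hJdef
  have hsJ : sc w n u = sc w n (w.t n 0) + A.δ n * J := by
    rw [hueq]; exact (sc_add_smul w n (w.t n 0) J).1
  simp only [Int.cast_zero, zero_mul, sub_zero] at ht0s
  rw [abs_le] at ht0s
  have hJ1 : 1 ≤ J := by
    by_contra hc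
    have h1 : (J : ℝ) ≤ 0 := by exact_mod_cast (by omega : J ≤ 0)
    have h2 : A.δ n * J ≤ 0 := mul_nonpos_of_nonneg_of_nonpos hδ.le h1
    linarith [ht0s.1, ht0s.2]
  obtain ⟨Jn, hJn⟩ : ∃ Jn : ℕ, J = Jn := ⟨J.toNat, by omega⟩
  -- the row
  have hrowc : ∀ j : ℕ, j ≤ Jn → |sc w n (w.t n 0 + (j : ℤ) • H75.Perc.dir w.k)| ≤ l' ∧
      tc w n (w.t n 0 + (j : ℤ) • H75.Perc.dir w.k) = tc w n (w.t n 0) := by
    intro j hj
    obtain ⟨h1, h2⟩ := sc_add_smul w n (w.t n 0) j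
    refine ⟨?_, h2⟩
    rw [h1, abs_le]
    have h3 : ((j : ℤ) : ℝ) ≤ J := by rw [hJn]; exact_mod_cast hj
    have h4 : (0 : ℝ) ≤ ((j : ℤ) : ℝ) := by positivity
    have h5 : A.δ n * ((j : ℤ) : ℝ) ≤ A.δ n * J := mul_le_mul_of_nonneg_left h3 hδ.le
    have h6 : 0 ≤ A.δ n * ((j : ℤ) : ℝ) := by positivity
    have hr0' : (0 : ℝ) ≤ r := by exact_mod_cast hr0
    have hrd : 0 ≤ (r : ℝ) * A.δ n := mul_nonneg hr0' hδ.le
    constructor <;> linarith [ht0s.1, ht0s.2]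
  have hδl : A.δ n ≤ l' := by
    have hr0' : (0 : ℝ) ≤ r := by exact_mod_cast hr0
    have hrd : 0 ≤ (r : ℝ) * A.δ n := mul_nonneg hr0' hδ.le
    linarith
  refine not_before (K := B.N n) (L := kap (B.N n) ∩ ((X0 A n).E ∪ (X0 A n).W)) inter_subset_left
    (β := (X0 A n).β) (t0 := w.t n 0) (k := w.k) hW.betN (J := Jn)
    (by omega) ?_ ?_ ?_ ?_ (m := m) ?_ ?_
  · rintro e he ⟨j, hj, hs⟩
    obtain ⟨h1, h2⟩ := hrowc j hj
    exact mem_inter.2 ⟨he, mem_union_left _ (hW.lab _ h1 (by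
      rw [h2, abs_le]; constructor <;> linarith) hs)⟩
  · intro j hj
    obtain ⟨h1, h2⟩ := hrowc j hj
    exact (hW.bar _ h1 (by rw [h2, abs_le]; constructor <;> linarith) (by rw [h2]; exact ht0b)).1
  · intro j hj
    obtain ⟨h1, h2⟩ := hrowc j hj
    obtain ⟨h3, h4⟩ := sc_add_succ w n (w.t n 0 + (j : ℤ) • H75.Perc.dir w.k)
    refine hW.fre _ (by rw [h3]; exact h1) ?_ ?_
    · rw [h4, h2, abs_le]; constructor <;> linarith
    · rw [h4, h2]; linarith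
  · intro j hj h
    obtain ⟨h1, h2⟩ := hrowc j hj
    apply hW.bet
    rw [h]
    exact ⟨h1, by rw [h2, abs_le]; constructor <;> linarith⟩
  · rw [← hJn, ← hueq, ← hv, ← heq]
    exact hme
  · rw [t_add, add_comm]
    exact Nat.lt_succ_iff.1 hm

end

end Pool.Agent.H76.M7
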