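import Mathlib
import Pool.Agent.H76.M7.WinT

set_option autoImplicit false
open Finset Filter Topology

/-! # Module M7: the flat row at the window -/

namespace Pool.Agent.H76.M7

open Pool.Agent.H75.Perc Pool.Agent.H75.TwoArm Pool.Agent.H75.Four Pool.Agent.H69.Q1
open Pool.Agent.H49.Q1
open Pool.Agent.H75.TwoArm.SymmAux
open Pool.Agent.H81.Q1 (pt DDomain Approx IsJordanDomain IsArcs)
open Pool.Agent.Q1.M3
open Pool.Agent.H82.Q1.M7

lemma Sd_row (k : ℤ) (x : ℤ × ℤ) (y : ℤ) : (Sd k x).g (0, y) = x + y • H75.Perc.dir k ∨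
    (Sd k x).g (0, y) = x + (-y) • H75.Perc.dir k := by
  rcases Sd_cases k x with ⟨hk, h⟩ | ⟨hk, h⟩ | ⟨hk, h⟩ | ⟨hk, h⟩ <;> rw [h] <;>
  rcases dir_succ_cases k with ⟨h0, h3, -, -⟩ | ⟨h0, h3, -, -⟩ | ⟨h0, h3, -, -⟩ | ⟨h0, h3, -, -⟩ <;>
    first
    | omega
    | (rw [h3]
       simp only [sB, sR, sT, sL, comp, syT, syX, syY, syD, Prod.ext_iff, Prod.fst_add,
         Prod.snd_add, Prod.smul_fst, Prod.smul_snd, smul_eq_mul]
       simp
       omega)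

section

variable {D : Set ℂ} {a b : ℂ} {A₁ A₂ : Set ℂ} {A : Approx D a b A₁ A₂} {r0 : ℝ} {B : Base A r0}
  (w : Win B)

/-- the vertices of the last row of the barrier at the window -/
noncomputable def ru (n : ℕ) (m : ℤ) : ℤ × ℤ := w.t n 0 + m • H75.Perc.dir w.k

/-- the labels across the row -/
noncomputable def rw' (n : ℕ) (m : ℤ) : ℤ × ℤ := ru w n m + (ru w n m + H75.Perc.dir (w.k + 1))

lemma ru_add (n : ℕ) (m m' : ℤ) : ru w n (m + m') = ru w n m + m' • H75.Perc.dir w.k := by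
  unfold ru
  rw [add_smul, add_assoc]

lemma ru_succ (n : ℕ) (m : ℤ) : ru w n (m + 1) = ru w n m + H75.Perc.dir w.k := by
  rw [ru_add, one_smul]

lemma ru_zero (n : ℕ) : ru w n 0 = w.t n 0 := by unfold ru; simp

lemma ru_zero' (n : ℕ) : ru w n 0 + H75.Perc.dir (w.k + 1) = w.x n 0 := by
  rw [ru_zero, t_add]

/-- A good row position. -/
structure RowOk (n : ℕ) (m : ℤ) : Prop where
  inN : ru w n m ∈ B.N n
  out : ru w n m + H75.Perc.dir (w.k + 1) ∉ B.N n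
  free : star1 (ru w n m) ⊆ (X0 A n).E
  free' : star1 (ru w n m + H75.Perc.dir (w.k + 1)) ⊆ (X0 A n).E
  bet : vx (X0 A n).β ≠ ru w n m

lemma ru_sc (n : ℕ) (m : ℤ) : |sc w n (ru w n m) - A.δ n * m| ≤ A.δ n ∧
    -A.δ n < tc w n (ru w n m) ∧ tc w n (ru w n m) < 0 := by
  obtain ⟨h1, h2⟩ := sc_add_smul w n (w.t n 0) m
  obtain ⟨h3, h4, h5⟩ := t_sc w n 0
  unfold ru
  rw [h1, h2]
  simp only [Int.cast_zero, zero_mul, sub_zero] at h3
  exact ⟨by rw [add_sub_cancel_right]; exact h3, h4, h5⟩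

lemma rowOk {n : ℕ} {l' : ℝ} (hW : WinN w n l') {m : ℤ}
    (hm : |(m : ℝ)| * A.δ n + 3 * A.δ n ≤ l') : RowOk w n m := by
  have hδ := A.pos n
  obtain ⟨h1, h2, h3⟩ := ru_sc w n m
  obtain ⟨h4, h5⟩ := sc_add_succ w n (ru w n m)
  have hmm : |A.δ n * (m : ℝ)| ≤ |(m : ℝ)| * A.δ n := by
    rw [abs_mul, abs_of_pos hδ, mul_comm]
  rw [abs_le] at h1 hmm
  have hm0 : 0 ≤ |(m : ℝ)| * A.δ n := mul_nonneg (abs_nonneg _) hδ.le
  have s1 : |sc w n (ru w n m)| ≤ l' := by rw [abs_le]; constructor <;> linarith [h1.1, h1.2]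
  have s2 : |tc w n (ru w n m)| ≤ l' := by rw [abs_le]; constructor <;> linarith
  have s3 : |sc w n (ru w n m + H75.Perc.dir (w.k + 1))| ≤ l' := by rw [h4]; exact s1
  have s4 : |tc w n (ru w n m + H75.Perc.dir (w.k + 1))| ≤ l' := by
    rw [h5, abs_le]; constructor <;> linarith
  refine ⟨(hW.bar _ s1 s2 h3).1, hW.fre _ s3 s4 (by rw [h5]; linarith), hW.lab _ s1 s2,
    hW.lab _ s3 s4, ?_⟩
  intro h
  apply hW.bet
  rw [h]
  exact ⟨s1, s2⟩

/-- the window point is in the row -/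
lemma t_ru (n : ℕ) (i : ℤ) : ∃ m : ℤ, w.t n i = ru w n m ∧
    |A.δ n * m - i * mesh (w.k1 + 1)| ≤ 2 * A.δ n := by
  have hδ := A.pos n
  obtain ⟨h1, h2, h3⟩ := t_sc w n i
  obtain ⟨h4, h5, h6⟩ := t_sc w n 0
  have hrow : dt (w.k + 1) (w.t n i - w.t n 0) = 0 := by
    have g1 := tc_sub w n (w.t n i) (w.t n 0)
    have g2 : |A.δ n * (dt (w.k + 1) (w.t n i - w.t n 0) : ℝ)| < A.δ n := by
      rw [← g1, abs_lt]; constructor <;> linarith
    rw [abs_mul, abs_of_pos hδ] at g2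
    have g3 : |(dt (w.k + 1) (w.t n i - w.t n 0) : ℝ)| < 1 := by
      by_contra hc
      push Not at hc
      nlinarith
    have g4 : |dt (w.k + 1) (w.t n i - w.t n 0)| < 1 := by exact_mod_cast g3
    exact Int.abs_lt_one_iff.1 g4
  refine ⟨dt w.k (w.t n i - w.t n 0), eq_of_dt hrow, ?_⟩
  have g1 := sc_sub w n (w.t n i) (w.t n 0)
  rw [← g1]
  simp only [Int.cast_zero, zero_mul, sub_zero] at h4
  rw [abs_le] at h1 h4 ⊢
  constructor <;> linarith [h1.1, h1.2, h4.1, h4.2]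

/-- The end of a half ring around the window point. -/
lemma end_row (n : ℕ) (i y : ℤ) : ∃ m : ℤ, (Sd w.k (w.x n i)).g (0, y) =
      ru w n m + H75.Perc.dir (w.k + 1) ∧
    |A.δ n * m - i * mesh (w.k1 + 1)| ≤ |(y : ℝ)| * A.δ n + 2 * A.δ n := by
  have hδ := A.pos n
  obtain ⟨m, h1, h2⟩ := t_ru w n i
  have key : ∀ z : ℤ, |(z : ℝ)| = |(y : ℝ)| → (Sd w.k (w.x n i)).g (0, y) =
      w.x n i + z • H75.Perc.dir w.k → ∃ m : ℤ, (Sd w.k (w.x n i)).g (0, y) =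
      ru w n m + H75.Perc.dir (w.k + 1) ∧
    |A.δ n * m - i * mesh (w.k1 + 1)| ≤ |(y : ℝ)| * A.δ n + 2 * A.δ n := by
    intro z hz h
    refine ⟨m + z, ?_, ?_⟩
    · rw [h, ← t_add w n i, h1, ru_add]
      ring
    · have e1 : |A.δ n * (z : ℝ)| = |(y : ℝ)| * A.δ n := by
        rw [abs_mul, abs_of_pos hδ, hz, mul_comm]
      have e2 : |A.δ n * (z : ℝ)| ≤ |(y : ℝ)| * A.δ n := e1.le
      push_cast
      rw [abs_le] at h2 e2 ⊢
      constructor <;> linarith [h2.1, h2.2, e2.1, e2.2]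
  rcases Sd_row w.k (w.x n i) y with h | h
  · exact key y rfl h
  · exact key (-y) (by push_cast; rw [abs_neg]) h

end

end Pool.Agent.H76.M7
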