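import Mathlib
import Pool.Agent.H76.M7.Row
import Pool.Agent.Q1.M3.Pg.RingO
import Pool.Agent.H77.Q1.K3d

set_option autoImplicit false
open Finset Filter Topology

/-! # Module M7: positions on the ring of the barrier near the window -/

namespace Pool.Agent.H76.M7

open Pool.Agent.H75.Perc Pool.Agent.H75.TwoArm Pool.Agent.H75.Four Pool.Agent.H69.Q1
open Pool.Agent.H49.Q1
open Pool.Agent.H28.Q1 (Inv ClJ fi_of_closed)
open Pool.Agent.H21.Q1 (Sol kp rl rc per rc_per per_pos kp_kap kp_star perp_notkp rc_succ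
  Root exists_root ring_notW)
open Pool.Agent.H81.Q1 (pt DDomain Approx IsJordanDomain IsArcs)
open Pool.Agent.Q1.M3
open Pool.Agent.Q1.M3.Pg (SD LX gx lo hi lty LT rnd Tied RPos ringE outl_eq)
open Pool.Agent.H82.Q1.M7
open Pool.Agent.Q1.M4 (nextSide tail head)
open Pool.Agent.H5.Q1 (sp sp_zero sp_succ sp_len slen gp)

/-! ### The grid of the window inside finer grids -/

lemma lty_pow3 (a : ℕ) (x : ℤ) : lty (3 ^ a * (3 * x)) = lty (3 * x) := by
  have key : ∀ z : ℤ, ¬ (∃ i, 3 * z = lo 0 i) ∧ ¬ (∃ i, 3 * z = hi 0 i) := by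
    intro z
    unfold lo hi
    constructor <;> rintro ⟨i, hi⟩ <;> omega
  have e : (3 : ℤ) ^ a * (3 * x) = 3 * (3 ^ a * x) := by ring
  have h1 : (∃ d i, 1 ≤ d ∧ (3 : ℤ) ^ a * (3 * x) = lo d i) ↔ ∃ d i, 1 ≤ d ∧ 3 * x = lo d i := by
    constructor
    · rintro ⟨d, i, hd, h⟩
      unfold lo at h
      have h2 : (3 : ℤ) ^ (a + 1) * x = 3 ^ d * (3 * i - 1) := by rw [← h]; ring
      rcases le_or_gt (a + 1) d with h3 | h3
      · refine ⟨d - a, i, by omega, ?_⟩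
        unfold lo
        have h4 : (3 : ℤ) ^ a ≠ 0 := by positivity
        apply mul_left_cancel₀ h4
        rw [h, ← mul_assoc, ← pow_add]
        congr 2
        omega
      · exfalso
        obtain ⟨c, hc⟩ : ∃ c, a + 1 = d + (c + 1) := ⟨a - d, by omega⟩
        rw [hc, pow_add, mul_assoc] at h2
        have h4 := mul_left_cancel₀ (show (3 : ℤ) ^ d ≠ 0 by positivity) h2
        rw [pow_succ] at h4
        have : (3 : ℤ) ∣ 3 * i - 1 := ⟨3 ^ c * x, by rw [← h4]; ring⟩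
        omega
    · rintro ⟨d, i, hd, h⟩
      refine ⟨a + d, i, by omega, ?_⟩
      rw [h]; unfold lo; rw [pow_add]; ring
  have h2 : (∃ d i, 1 ≤ d ∧ (3 : ℤ) ^ a * (3 * x) = hi d i) ↔ ∃ d i, 1 ≤ d ∧ 3 * x = hi d i := by
    constructor
    · rintro ⟨d, i, hd, h⟩
      unfold hi at h
      have h2 : (3 : ℤ) ^ (a + 1) * x = 3 ^ d * (3 * i + 4) := by rw [← h]; ring
      rcases le_or_gt (a + 1) d with h3 | h3
      · refine ⟨d - a, i, by omega, ?_⟩
        unfold hi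
        have h4 : (3 : ℤ) ^ a ≠ 0 := by positivity
        apply mul_left_cancel₀ h4
        rw [h, ← mul_assoc, ← pow_add]
        congr 2
        omega
      · exfalso
        obtain ⟨c, hc⟩ : ∃ c, a + 1 = d + (c + 1) := ⟨a - d, by omega⟩
        rw [hc, pow_add, mul_assoc] at h2
        have h4 := mul_left_cancel₀ (show (3 : ℤ) ^ d ≠ 0 by positivity) h2
        rw [pow_succ] at h4
        have : (3 : ℤ) ∣ 3 * i + 4 := ⟨3 ^ c * x, by rw [← h4]; ring⟩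
        omega
    · rintro ⟨d, i, hd, h⟩
      refine ⟨a + d, i, by omega, ?_⟩
      rw [h]; unfold hi; rw [pow_add]; ring
  unfold lty
  rw [if_neg (by rw [e]; exact (key _).1), if_neg (by rw [e]; exact (key _).2),
    if_neg (key x).1, if_neg (key x).2]
  by_cases c1 : ∃ d i, 1 ≤ d ∧ 3 * x = lo d i
  · rw [if_pos (h1.2 c1), if_pos c1]
  · rw [if_neg (fun h => c1 (h1.1 h)), if_neg c1]
    by_cases c2 : ∃ d i, 1 ≤ d ∧ 3 * x = hi d i
    · rw [if_pos (h2.2 c2), if_pos c2]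
    · rw [if_neg (fun h => c2 (h2.1 h)), if_neg c2]

section

variable {D : Set ℂ} {a b : ℂ} {A₁ A₂ : Set ℂ} {A : Approx D a b A₁ A₂} {r0 : ℝ} {B : Base A r0}
  (w : Win B)

lemma LX_fine {k1 K : ℕ} (hK : k1 + 1 ≤ K) (o1 δ : ℝ) (z : ℤ) :
    LX K o1 δ (3 ^ (K - k1) * z) = LX (k1 + 1) o1 δ (3 ^ (k1 + 1 - k1) * z) := by
  unfold LX
  have e1 : (3 : ℤ) ^ (K - k1) * z = 3 ^ (K - (k1 + 1)) * (3 * z) := by
    rw [show K - k1 = (K - (k1 + 1)) + 1 by omega, pow_succ]; ring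
  have e2 : (3 : ℤ) ^ (k1 + 1 - k1) * z = 3 * z := by
    rw [show k1 + 1 - k1 = 1 by omega]; ring
  rw [e1, e2, lty_pow3]
  congr 2
  have e3 : ((3 ^ (K - (k1 + 1)) * (3 * z) : ℤ) : ℝ) * mesh (K + 1) =
      ((3 * z : ℤ) : ℝ) * mesh (k1 + 1 + 1) := by
    have h1 : mesh (k1 + 1 + 1) = 3 ^ (K - (k1 + 1)) * mesh (K + 1) := by
      unfold mesh
      have h2 : K + 1 = (k1 + 1 + 1) + (K - (k1 + 1)) := by omega
      rw [h2, pow_add]
      have h3 : (3 : ℝ) ^ (K - (k1 + 1)) * (1 / 3) ^ (K - (k1 + 1)) = 1 := by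
        rw [← mul_pow]; norm_num
      have h4 : k1 + 1 + 1 + (K - (k1 + 1)) - (k1 + 1 + 1) = K - (k1 + 1) := by omega
      linear_combination (-(1 / 3 : ℝ) ^ (k1 + 1 + 1)) * h3
    rw [h1]
    push_cast
    ring
  rw [e3]

lemma gp_gv {K : ℕ} (hK : w.k1 + 1 ≤ K) (n : ℕ) (i : ℤ) :
    gp (LX K B.o.re (A.δ n)) (LX K B.o.im (A.δ n)) (w.gv K i) = w.x n i := by
  unfold gp Win.x Win.gv
  have h1 := fun o1 => LX_fine (k1 := w.k1) (K := K) hK o1 (A.δ n)
    (w.m + i • H75.Perc.dir w.k).1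
  have h2 := fun o1 => LX_fine (k1 := w.k1) (K := K) hK o1 (A.δ n)
    (w.m + i • H75.Perc.dir w.k).2
  simp only [Prod.smul_fst, Prod.smul_snd, smul_eq_mul]
  exact Prod.ext (h1 _) (h2 _)

end

end Pool.Agent.H76.M7
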