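import Mathlib
import Pool.Agent.H76.M7.Pos
import Pool.Agent.Q1.M3.Pg.Chan

set_option autoImplicit false
open Finset Filter Topology

/-! # Module M7: positions on the ring of the barrier near the window, 2 -/

namespace Pool.Agent.H76.M7

open Pool.Agent.H75.Perc Pool.Agent.H75.TwoArm Pool.Agent.H75.Four Pool.Agent.H69.Q1
open Pool.Agent.H49.Q1
open Pool.Agent.H28.Q1 (Inv ClJ fi_of_closed)
open Pool.Agent.H21.Q1 (Sol kp rl rc per rc_per per_pos kp_kap kp_star perp_notkp rc_succ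
  Root exists_root ring_notW)
open Pool.Agent.H81.Q1 (pt DDomain Approx IsJordanDomain IsArcs)
open Pool.Agent.Q1.M3
open Pool.Agent.Q1.M3.Pg (SD LX gx lo hi lty LT rnd Tied RPos ringE outl_eq dir_congr)
open Pool.Agent.H82.Q1.M7
open Pool.Agent.Q1.M4 (nextSide tail head)
open Pool.Agent.H5.Q1 (sp sp_zero sp_succ sp_len slen gp)

section

variable {D : Set ℂ} {a b : ℂ} {A₁ A₂ : Set ℂ} {A : Approx D a b A₁ A₂} {r0 : ℝ} {B : Base A r0}

/-- The hypotheses of the position lemmas. -/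
structure PosH (w : Win B) (n : ℕ) (l' : ℝ) (d : SD) (nb : ℕ) (X Y : DEnv) (τ A' : Finset (ℤ × ℤ))
    (p0 : ℕ) : Prop where
  win : WinN w n l'
  td : Tied d B.o (A.δ n) X Y (B.N n) τ A' p0
  hb : IsB B w d nb
  kpe : kp X (B.N n) = kap (B.N n) ∩ ((X0 A n).E ∪ (X0 A n).W)
  beta : X.β = (X0 A n).β
  lev : w.k1 + 1 ≤ d.K
  mar : 8 * A.δ n ≤ l'
  YE : Y.E ⊆ (X0 A n).E
  YW : (X0 A n).W ⊆ Y.W
  inv : Inv X
  alphaN : vx X.α ∉ B.N n

namespace PosH

variable {w : Win B} {n : ℕ} {l' : ℝ} {d : SD} {nb : ℕ} {X Y : DEnv} {τ A' : Finset (ℤ × ℤ)}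
  {p0 : ℕ} (H : PosH w n l' d nb X Y τ A' p0)

include H

lemma monoX : StrictMono (LX d.K B.o.re (A.δ n)) := Pg.LX_mono H.td.fine.hδ H.td.fine.hm3

lemma monoY : StrictMono (LX d.K B.o.im (A.δ n)) := Pg.LX_mono H.td.fine.hδ H.td.fine.hm3

lemma nb_pos : 0 < nb := by have := H.hb.lo; omega

lemma sol : Sol X (B.N n) := by
  refine ⟨H.inv, ?_, ?_, H.alphaN⟩
  · unfold kp
    rw [H.td.kp]
    exact H.td.ctx.conn
  · rw [H.beta]; exact H.win.betN

lemma ringE_eq (i : ℕ) : ringE (X0 A n) (B.N n) i = rl X (B.N n) i := by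
  unfold ringE rl rc
  rw [H.kpe, H.beta]

/-- the first point of the side `nb` -/
lemma pt0 : d.pt' B.o (A.δ n) nb 0 = w.x n 0 := by
  unfold SD.pt' SD.sid Pg.sd
  rw [sp_zero, H.hb.tail]
  exact gp_gv w H.lev n 0

lemma dirb : H75.Perc.dir (d.sid nb).2 = H75.Perc.dir w.k := by
  refine dir_congr ?_
  have := H.hb.dir
  unfold SD.sid Pg.sd
  omega

lemma dirb' : H75.Perc.dir (d.sid (nb - 1)).2 = H75.Perc.dir w.k := by
  refine dir_congr ?_
  have := H.hb.dir'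
  unfold SD.sid Pg.sd
  omega

/-- the last point of the side `nb - 1` -/
lemma pt_last : d.pt' B.o (A.δ n) (nb - 1) (d.ln B.o (A.δ n) (nb - 1)) = w.x n 0 := by
  have h0 := H.nb_pos
  unfold SD.pt' SD.ln
  rw [sp_len H.monoX H.monoY, ← Pool.Agent.Q1.M4.head_eq_tail_next (Q := d.R)]
  have e : nextSide d.R (d.sid (nb - 1)) = (nextSide d.R)^[nb] d.s := by
    unfold SD.sid Pg.sd
    rw [← Function.iterate_succ_apply' (nextSide d.R), show (nb - 1).succ = nb by omega]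
  rw [e, H.hb.tail]
  exact gp_gv w H.lev n 0

lemma pt_last' : d.pt' B.o (A.δ n) (nb - 1) (d.ln B.o (A.δ n) (nb - 1) - 1) =
    ru w n (-1) + H75.Perc.dir (w.k + 1) := by
  have h3 := SD.three_ln H.td.fine (nb - 1)
  have h1 := H.pt_last
  obtain ⟨j, hj⟩ : ∃ j, d.ln B.o (A.δ n) (nb - 1) = j + 1 := ⟨_, (Nat.sub_add_cancel (by omega)).symm⟩
  rw [hj] at h1 ⊢
  rw [Nat.add_sub_cancel]
  unfold SD.pt' at h1 ⊢
  rw [sp_succ, H.dirb'] at h1
  have h2 := ru_zero' w n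
  have h4 := ru_add w n (-1) 1
  rw [neg_add_cancel, one_smul] at h4
  have e : w.x n 0 = ru w n (-1) + H75.Perc.dir w.k + H75.Perc.dir (w.k + 1) := by rw [← h4, h2]
  have e2 : sp (LX d.K B.o.re (A.δ n)) (LX d.K B.o.im (A.δ n)) (d.sid (nb - 1)) j =
      w.x n 0 - H75.Perc.dir w.k := by rw [← h1]; abel
  rw [e2, e]
  abel

lemma pt1 : d.pt' B.o (A.δ n) nb 1 = ru w n 1 + H75.Perc.dir (w.k + 1) := by
  have h1 := H.pt0
  unfold SD.pt' at h1 ⊢
  rw [sp_succ, h1, H.dirb, ← ru_zero' w n]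
  have h4 := ru_add w n 0 1
  rw [zero_add, one_smul] at h4
  rw [h4]
  abel

/-- a label across the row -/
lemma across (m : ℤ) : (ru w n m + H75.Perc.dir (w.k + 1)) +
    (ru w n m + H75.Perc.dir (w.k + 1) + H75.Perc.dir (w.k - 1)) = rw' w n m := by
  unfold rw'
  have : H75.Perc.dir (w.k + 1) + H75.Perc.dir (w.k - 1) = 0 := by
    rcases dir_succ_cases w.k with ⟨-, -, h1, h2⟩ | ⟨-, -, h1, h2⟩ | ⟨-, -, h1, h2⟩ |
      ⟨-, -, h1, h2⟩ <;> rw [h1, h2] <;> rfl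
  rw [add_assoc (ru w n m) (H75.Perc.dir (w.k + 1)) (H75.Perc.dir (w.k - 1)), this, add_zero]
  abel

lemma ol1 : d.ol B.o (A.δ n) nb 1 = rw' w n 1 := by
  have h1 := H.pt1
  have e : H75.Perc.dir ((d.sid nb).2 - 1) = H75.Perc.dir (w.k - 1) := by
    refine dir_congr ?_
    have := H.hb.dir
    unfold SD.sid Pg.sd
    omega
  unfold SD.ol
  rw [outl_eq, e]
  unfold SD.pt' at h1
  rw [h1]
  exact H.across 1

lemma ol_last : d.ol B.o (A.δ n) (nb - 1) (d.ln B.o (A.δ n) (nb - 1) - 1) = rw' w n (-1) := by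
  have h1 := H.pt_last'
  have e : H75.Perc.dir ((d.sid (nb - 1)).2 - 1) = H75.Perc.dir (w.k - 1) := by
    refine dir_congr ?_
    have := H.hb.dir'
    unfold SD.sid Pg.sd
    omega
  unfold SD.ol
  rw [outl_eq, e]
  unfold SD.pt' at h1
  rw [h1]
  exact H.across (-1)

lemma rw_perp {m : ℤ} (h : RowOk w n m) : rw' w n m ∈ perp (B.N n) := by
  have hu : IsUnit4 (ru w n m + H75.Perc.dir (w.k + 1) - ru w n m) := by
    rw [add_sub_cancel_left]; exact isUnit4_dir _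
  obtain ⟨h3, h4⟩ := Pool.Agent.H42.Q1.ends_add hu
  unfold rw'
  rw [mem_perp_iff h3]
  rcases h4 with ⟨e1, e2⟩ | ⟨e1, e2⟩
  · rw [e1, e2]; exact Or.inl ⟨h.inN, h.out⟩
  · rw [e1, e2]; exact Or.inr ⟨h.out, h.inN⟩

/-- the corner of the ring at a label across the row -/
lemma rc_of_rl {i : ℕ} {m : ℤ} (h : RowOk w n m) (hi : rl X (B.N n) i = rw' w n m) :
    rc X (B.N n) i = cc w.k (ru w n m) := by
  have hv : vx (rc X (B.N n) i) ∈ B.N n := H.sol.vx_rc i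
  have h1 : vx (rc X (B.N n) i) = eu (rl X (B.N n) i) ∨ vx (rc X (B.N n) i) = ev (rl X (B.N n) i) :=
    Pool.Agent.H21.Q1.end_plab' _
  have hu : IsUnit4 (ru w n m + H75.Perc.dir (w.k + 1) - ru w n m) := by
    rw [add_sub_cancel_left]; exact isUnit4_dir _
  obtain ⟨h3, h4⟩ := Pool.Agent.H42.Q1.ends_add hu
  have h5 : vx (rc X (B.N n) i) = ru w n m := by
    rw [hi] at h1
    unfold rw' at h1
    rcases h4 with ⟨e1, e2⟩ | ⟨e1, e2⟩ <;> rw [e1, e2] at h1 <;> rcases h1 with h1 | h1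
    · exact h1
    · exact absurd (h1 ▸ hv) h.out
    · exact absurd (h1 ▸ hv) h.out
    · exact h1
  exact eq_cc h5 hi

/-- two steps of the ring along the row -/
lemma row_step {i : ℕ} {m : ℤ} (h : RowOk w n m) (h' : RowOk w n (m + 1))
    (hi : i < per X (B.N n)) (hc : rc X (B.N n) i = cc w.k (ru w n m)) :
    i + 2 < per X (B.N n) ∧ rc X (B.N n) (i + 2) = cc w.k (ru w n (m + 1)) := by
  have h1 : ru w n m + (ru w n m + H75.Perc.dir (w.k + 1)) ∉ kp X (B.N n) :=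
    perp_notkp (H.rw_perp h)
  have h2 : ru w n m + (ru w n m + H75.Perc.dir w.k) ∈ kp X (B.N n) := by
    rw [← ru_succ, H.kpe, mem_inter]
    have hu : IsUnit4 (ru w n (m + 1) - ru w n m) := by
      rw [ru_succ, add_sub_cancel_left]; exact isUnit4_dir _
    obtain ⟨h3, h4⟩ := Pool.Agent.H42.Q1.ends_add hu
    constructor
    · rw [mem_kap_iff h3]
      rcases h4 with ⟨e1, e2⟩ | ⟨e1, e2⟩ <;> rw [e1, e2]
      · exact ⟨h.inN, h'.inN⟩
      · exact ⟨h'.inN, h.inN⟩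
    · refine mem_union_left _ (h.free ?_)
      rw [mem_star1_iff h3]
      rcases h4 with ⟨e1, e2⟩ | ⟨e1, e2⟩ <;> rw [e1, e2]
      · exact Or.inl rfl
      · exact Or.inr rfl
  have h3 : rc X (B.N n) (i + 2) = cc w.k (ru w n (m + 1)) := by
    rw [show i + 2 = (i + 1) + 1 by omega, rc_succ, rc_succ, hc, pv_cc h1 h2, ru_succ]
  have h4 : vx (rc X (B.N n) (i + 1)) = ru w n m := by
    rw [rc_succ, hc, ← (fi_of_closed (L := kp X (B.N n)) (x := cc w.k (ru w n m))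
      (by rw [plab_cc]; exact h1)).1, vx_cc]
  refine ⟨?_, h3⟩
  by_contra hcon
  have h5 : per X (B.N n) = i + 1 ∨ per X (B.N n) = i + 2 := by omega
  have h6 := rc_per (X := X) (K := B.N n)
  rcases h5 with h5 | h5
  · rw [h5] at h6
    rw [h6, H.beta] at h4
    exact h.bet h4
  · rw [h5, h3] at h6
    have h7 := congrArg vx h6
    rw [vx_cc, H.beta] at h7
    exact h'.bet h7.symm

lemma row_iter {i : ℕ} {m : ℤ} (k : ℕ) (h : ∀ j : ℕ, j ≤ k → RowOk w n (m + j))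
    (hi : i < per X (B.N n)) (hc : rc X (B.N n) i = cc w.k (ru w n m)) :
    i + 2 * k < per X (B.N n) ∧ rc X (B.N n) (i + 2 * k) = cc w.k (ru w n (m + k)) := by
  induction k with
  | zero => simpa using ⟨hi, hc⟩
  | succ k ih =>
    obtain ⟨h1, h2⟩ := ih (fun j hj => h j (by omega))
    have h3 := h k (by omega)
    have h4 := h (k + 1) le_rfl
    have h5 := H.row_step h3 (by rw [add_assoc]; exact_mod_cast h4) h1 h2
    rw [show i + 2 * (k + 1) = i + 2 * k + 2 by ring]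
    refine ⟨h5.1, ?_⟩
    rw [h5.2]
    congr 2
    push_cast
    ring

lemma rowOk1 {m : ℤ} (hm : |m| ≤ 2) : RowOk w n m := by
  refine rowOk w H.win ?_
  have h1 := H.mar
  have h2 := A.pos n
  have h3 : |(m : ℝ)| ≤ 2 := by exact_mod_cast hm
  nlinarith

/-- **The position of the label at `b''`.** -/
theorem exists_ib : ∃ i, i + 4 < per X (B.N n) ∧ rl X (B.N n) i = rw' w n (-1) ∧
    rl X (B.N n) (i + 2) = rw' w n 0 ∧ rl X (B.N n) (i + 4) = rw' w n 1 ∧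
    rc X (B.N n) (i + 2) = cc w.k (ru w n 0) ∧
    sInf {i | ringE (X0 A n) (B.N n) i = w.x n 0 + w.t n 0} = i + 2 := by
  have h3 := SD.three_ln H.td.fine (nb - 1)
  have hm1 : RowOk w n (-1) := H.rowOk1 (by norm_num)
  have hp0 : RowOk w n 0 := H.rowOk1 (by norm_num)
  have hp1 : RowOk w n 1 := H.rowOk1 (by norm_num)
  obtain ⟨i, hi, hi2⟩ := H.td.exists_ring (n := nb - 1) (j := d.ln B.o (A.δ n) (nb - 1) - 1)
    (by omega) (by omega) (by rw [H.ol_last]; exact H.rw_perp hm1)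
  rw [H.ol_last] at hi2
  have hc := H.rc_of_rl hm1 hi2
  obtain ⟨g1, g2⟩ := H.row_step hm1 (by simpa using hp0) hi hc
  have e0 : (-1 + 1 : ℤ) = 0 := by norm_num
  rw [e0] at g2
  obtain ⟨g3, g4⟩ := H.row_step hp0 (by simpa using hp1) g1 g2
  have e1 : (0 + 1 : ℤ) = 1 := by norm_num
  rw [e1] at g4
  have r0' : rl X (B.N n) (i + 2) = rw' w n 0 := by
    unfold rl; rw [g2, plab_cc]; rfl
  refine ⟨i, g3, hi2, r0', ?_, g2, ?_⟩
  · unfold rl; rw [g4, plab_cc]; rfl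
  · have e : w.x n 0 + w.t n 0 = rw' w n 0 := by
      unfold rw'
      rw [ru_zero, t_add]
      abel
    rw [e]
    have hmem : (i + 2) ∈ {i | ringE (X0 A n) (B.N n) i = rw' w n 0} := by
      rw [Set.mem_setOf_eq, H.ringE_eq, r0']
    have h1 := Nat.sInf_mem (s := {i | ringE (X0 A n) (B.N n) i = rw' w n 0}) ⟨_, hmem⟩
    have h2 := Nat.sInf_le hmem
    rw [Set.mem_setOf_eq, H.ringE_eq] at h1
    exact H.sol.rl_inj (by omega) g1 (h1.trans r0'.symm) (by rw [h1]; exact H.rw_perp hp0)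

/-- labels of `Tw` -/
lemma mem_Tw {e : ℤ × ℤ} : e ∈ w.Tw n ↔ e ∈ perp (B.N n) ∧ e ∈ (X0 A n).E ∧
    ∃ i ≤ sInf {i | ringE (X0 A n) (B.N n) i = w.x n 0 + w.t n 0}, rl X (B.N n) i = e := by
  unfold Win.Tw
  rw [mem_inter, mem_inter, mem_image]
  constructor
  · rintro ⟨⟨i, h1, h2⟩, h3, h4⟩
    refine ⟨h3, h4, i, by rw [mem_range] at h1; omega, by rw [← H.ringE_eq]; exact h2⟩
  · rintro ⟨h3, h4, i, h1, h2⟩
    refine ⟨⟨i, by rw [mem_range]; omega, by rw [H.ringE_eq]; exact h2⟩, h3, h4⟩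

/-- position of the elements of `Tw` -/
lemma Tw_pos {i : ℕ} (hi : i < per X (B.N n)) (h : rl X (B.N n) i ∈ w.Tw n) :
    i ≤ sInf {i | ringE (X0 A n) (B.N n) i = w.x n 0 + w.t n 0} := by
  obtain ⟨h1, -, j, h2, h3⟩ := H.mem_Tw.1 h
  obtain ⟨ib, g1, -, -, -, -, g2⟩ := H.exists_ib
  have := H.sol.rl_inj hi (by omega) h3.symm h1
  omega

/-- **(a)** The labels across the run before `b''` are in `Tw`. -/
theorem mem_Tw_of {m j : ℕ} (hm0 : 0 < m) (hm : m < nb) (hj : 0 < j) (hj' : j < d.ln B.o (A.δ n) m)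
    (hp : d.ol B.o (A.δ n) m j ∈ perp (B.N n)) (hE : d.ol B.o (A.δ n) m j ∈ (X0 A n).E) :
    d.ol B.o (A.δ n) m j ∈ w.Tw n := by
  obtain ⟨ib, g1, g2, -, -, -, g3⟩ := H.exists_ib
  obtain ⟨i, hi, hi2⟩ := H.td.exists_ring hj hj' hp
  rw [H.mem_Tw]
  refine ⟨hp, hE, i, ?_, hi2⟩
  rw [g3]
  have h3 := SD.three_ln H.td.fine (nb - 1)
  have hN : nb < d.N := lt_of_lt_of_le H.hb.hi H.hb.n2
  have hm1 : RowOk w n (-1) := H.rowOk1 (by norm_num)
  by_cases hlt : m < nb - 1 ∨ (m = nb - 1 ∧ j < d.ln B.o (A.δ n) (nb - 1) - 1)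
  · have := H.td.ring_mono (n := m) (j := j) (n' := nb - 1)
      (j' := d.ln B.o (A.δ n) (nb - 1) - 1) hm0 (by omega) (by omega) hj hj' (by omega) (by omega) hp
      (by rw [H.ol_last]; exact H.rw_perp hm1) hlt hi (by omega : ib < _) hi2
      (by rw [H.ol_last]; exact g2)
    omega
  · have e1 : m = nb - 1 := by omega
    subst e1
    have e2 : j = d.ln B.o (A.δ n) (nb - 1) - 1 := by omega
    rw [e2, H.ol_last] at hi2
    have := H.sol.rl_inj hi (by omega) (hi2.trans g2.symm) (by rw [hi2]; exact H.rw_perp hm1)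
    omega

/-- **(b)** The labels across the sides after `b''` are not in `Tw`. -/
theorem notMem_Tw_of {m j : ℕ} (hm : nb ≤ m) (hmN : m < d.N) (hj : 0 < j)
    (hj' : j < d.ln B.o (A.δ n) m) : d.ol B.o (A.δ n) m j ∉ w.Tw n := by
  intro hT
  obtain ⟨ib, g1, -, -, g2, -, g3⟩ := H.exists_ib
  obtain ⟨hp, -, -⟩ := H.mem_Tw.1 hT
  obtain ⟨i, hi, hi2⟩ := H.td.exists_ring hj hj' hp
  have h4 := H.Tw_pos hi (by rw [hi2]; exact hT)
  rw [g3] at h4
  have h3 := SD.three_ln H.td.fine nb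
  have hN : nb < d.N := lt_of_lt_of_le H.hb.hi H.hb.n2
  have hp1 : RowOk w n 1 := H.rowOk1 (by norm_num)
  have h0 := H.nb_pos
  by_cases hlt : nb < m ∨ (nb = m ∧ 1 < j)
  · have := H.td.ring_mono (n := nb) (j := 1) (n' := m) (j' := j) h0 hN hmN one_pos (by omega) hj hj'
      (by rw [H.ol1]; exact H.rw_perp hp1) hp hlt g1 hi (by rw [H.ol1]; exact g2) hi2
    omega
  · have e1 : m = nb := by omega
    subst e1
    have e2 : j = 1 := by omega
    rw [e2, H.ol1] at hi2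
    have := H.sol.rl_inj hi g1 (hi2.trans g2.symm) (by rw [hi2]; exact H.rw_perp hp1)
    omega

/-- The labels across the row after `b''` are not in `Tw`. -/
theorem rw_notTw {m : ℕ} (hm : 0 < m) (h : ∀ j : ℕ, j ≤ m → RowOk w n j) :
    rw' w n m ∉ w.Tw n := by
  intro hT
  obtain ⟨ib, g1, -, -, -, g2, g3⟩ := H.exists_ib
  obtain ⟨h1, h2⟩ := H.row_iter (m := 0) m (fun j hj => by rw [zero_add]; exact h j hj)
    (by omega : ib + 2 < _) g2
  rw [zero_add] at h2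
  have h3 : rl X (B.N n) (ib + 2 + 2 * m) = rw' w n m := by
    unfold rl; rw [h2, plab_cc]; rfl
  have := H.Tw_pos h1 (by rw [h3]; exact hT)
  omega

end PosH

end

end Pool.Agent.H76.M7
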