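import Mathlib
import Pool.Agent.H76.M7.Pos2

set_option autoImplicit false
open Finset Filter Topology

/-! # Module M7: the root of the environment is before the window; the closed path from the row to `β` -/

namespace Pool.Agent.H76.M7

open Pool.Agent.H75.Perc Pool.Agent.H75.TwoArm Pool.Agent.H75.Four Pool.Agent.H69.Q1
open Pool.Agent.H49.Q1
open Pool.Agent.H28.Q1 (Inv ClJ fi_of_closed)
open Pool.Agent.H21.Q1 (Sol kp rl rc per rc_per per_pos kp_kap kp_star perp_notkp rc_succ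
  Root exists_root ring_notW Wt)
open Pool.Agent.H77.Q1 (Fac fac_z)
open Pool.Agent.H81.Q1 (pt DDomain Approx IsJordanDomain IsArcs)
open Pool.Agent.Q1.M3
open Pool.Agent.Q1.M3.Pg (SD LX gx lo hi lty LT rnd Tied RPos ringE outl_eq dir_congr LPol Ctx CC sd
  outl SS_pos cz Vl CC_first)
open Pool.Agent.H82.Q1.M7
open Pool.Agent.Q1.M4 (nextSide tail head)
open Pool.Agent.H5.Q1 (sp sp_zero sp_succ sp_len slen gp SS)

/-- **The root is before the labels across the walk.** -/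
theorem root_before {Q : Finset (ℤ × ℤ)} {X Y : ℤ → ℤ} {s : (ℤ × ℤ) × ℤ} {N p0 : ℕ}
    (h : LPol Q X Y s N p0) {Yn : DEnv} {K τ A : Finset (ℤ × ℤ)}
    (hc : Ctx Yn K (gs X Y Q) τ A (CC Q X Y s p0)) {j0 : ℕ} {t0 : ℤ × ℤ}
    (hR : Root Yn K j0 t0) (hRP : RPos Yn K (rl Yn K j0) j0)
    {n' j' : ℕ} (hn0 : 0 < n') (hn' : n' < N) (hj' : 0 < j') (hj1' : j' < slen X Y (sd Q s n'))
    (hp' : outl X Y (sd Q s n') j' ∈ perp K) {i' : ℕ}
    (hi' : RPos Yn K (outl X Y (sd Q s n') j') i') : j0 < i' := by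
  set L := SS Q X Y s N with hL
  have hlen := SS_pos (Q := Q) (X := X) (Y := Y) (s := s) hn' hj1'
  have htip : p0 ≤ SS Q X Y s n' := h.lenle hn0
  have hj10 := h.p0pos
  obtain ⟨m, hm, hm2⟩ : ∃ m, p0 + L - (m + 2) = SS Q X Y s n' + 2 * j' - 1 ∧
      m + 2 ≤ p0 + L := ⟨p0 + L - 2 - (SS Q X Y s n' + 2 * j' - 1), by omega, by omega⟩
  have hpm : plab (cz (gs X Y Q) (CC Q X Y s p0) m) = outl X Y (sd Q s n') j' := by
    rw [h.plab_cz hm2, hm]
    obtain ⟨i, rfl⟩ : ∃ i, j' = i + 1 := ⟨j' - 1, by omega⟩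
    have h3 := CC_first (Q := Q) h.monoX h.monoY h.side n' (j := i) (by omega)
    rw [show SS Q X Y s n' + 2 * (i + 1) - 1 = SS Q X Y s n' + (2 * i + 1) by omega, h3]
    rfl
  refine hc.ring_lt (q := m) (by rw [hpm]; exact hp') hR.perp (mem_union_right _ hR.wir)
    ?_ hR.ends ?_ (by rw [hpm]; exact hi') hRP
  · intro t ht
    constructor
    · intro h5
      have := h.cz_e1 (t := t) (by omega) h5
      omega
    · intro h5
      have h6 := hc.free_cz t
      rw [h5] at h6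
      exact (disjoint_left.1 Yn.disj) h6 hR.wir
  · refine hR.conn.mono ?_
    intro e he
    obtain ⟨h1, h2⟩ := mem_sdiff.1 he
    exact mem_sdiff.2 ⟨mem_union_right _ h1, h2⟩

section

variable {D : Set ℂ} {a b : ℂ} {A₁ A₂ : Set ℂ} {A : Approx D a b A₁ A₂} {r0 : ℝ} {B : Base A r0}

namespace PosH

variable {w : Win B} {n : ℕ} {l' : ℝ} {d : SD} {nb : ℕ} {X Y : DEnv} {τ A' : Finset (ℤ × ℤ)}
  {p0 : ℕ} (H : PosH w n l' d nb X Y τ A' p0)

include H

lemma rc_Y (i : ℕ) : rc Y (B.N n) i = rc X (B.N n) i := by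
  unfold rc kp
  rw [H.td.kp, H.td.beta]

lemma rl_Y (i : ℕ) : rl Y (B.N n) i = rl X (B.N n) i := by
  unfold rl
  rw [H.rc_Y]

lemma kp_Y : kp Y (B.N n) = kp X (B.N n) := by
  unfold kp
  rw [H.td.kp]

lemma per_Y : per Y (B.N n) = per X (B.N n) := by
  refine le_antisymm (Pool.Agent.H21.Q1.per_le per_pos ?_)
    (Pool.Agent.H21.Q1.per_le per_pos ?_)
  · rw [H.rc_Y, rc_per, H.td.beta]
  · rw [← H.rc_Y, rc_per, H.td.beta]

/-- **No wired label of `X0` after `b''`.** -/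
theorem notW0 {i : ℕ} (hi : sInf {i | ringE (X0 A n) (B.N n) i = w.x n 0 + w.t n 0} ≤ i)
    (hi2 : i < per X (B.N n)) (hk : rl X (B.N n) i ∉ kp X (B.N n)) :
    rl X (B.N n) i ∉ (X0 A n).W := by
  obtain ⟨ib, g1, g2, -, -, -, g3⟩ := H.exists_ib
  rw [g3] at hi
  obtain ⟨j0, t0, hR⟩ := exists_root H.td.sol
  have h3 := SD.three_ln H.td.fine (nb - 1)
  have hN : nb < d.N := lt_of_lt_of_le H.hb.hi H.hb.n2
  have h1 := H.hb.lo
  have h2 : 0 < d.n1 := H.hb.ok.mark.pos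
  have hm1 : RowOk w n (-1) := H.rowOk1 (by norm_num)
  have hlt := hR.lt
  rw [H.per_Y] at hlt
  have hj : j0 < ib := by
    refine root_before (SD.lpol H.td.ok H.td.fine H.td.p0pos H.td.p0le H.td.out) H.td.ctx hR ?_
      (n' := nb - 1) (j' := d.ln B.o (A.δ n) (nb - 1) - 1) (by omega) (by omega) (by omega)
      (Nat.sub_lt (by omega) one_pos) ?_ ?_
    · rw [H.td.rpos_iff, H.rl_Y]
      exact ⟨rfl, hlt⟩
    · have := H.rw_perp hm1
      rw [← H.ol_last] at this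
      exact this
    · have := H.td.rpos_iff (e := d.ol B.o (A.δ n) (nb - 1) (d.ln B.o (A.δ n) (nb - 1) - 1)) (i := ib)
      exact this.2 ⟨by rw [H.ol_last]; exact g2, by omega⟩
  intro hW
  have h5 := ring_notW H.td.sol hR (p := i) (by omega) (by rw [H.per_Y]; exact hi2)
    (by rw [H.rl_Y, H.kp_Y]; exact hk)
  rw [H.rl_Y] at h5
  exact h5 (H.YW hW)

/-- **The closed path from the row to the starting face.** -/
theorem closed_path {m : ℕ} (hm : 0 < m) (h : ∀ j : ℕ, j ≤ m → RowOk w n j) :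
    ∃ f1 f2, Fac (rw' w n m) f1 f2 ∧ (∃ z, vx z = ru w n m ∧ fi z = f2) ∧
    ∀ G : Finset (ℤ × ℤ), G ⊆ X.E ∪ X.W →
      (∀ e ∈ G, e ∈ star (B.N n) → e = rw' w n m ∨ e ∈ w.Tw n ∨ e ∈ (X0 A n).W ∨
        e ∈ kp X (B.N n)) →
      ∀ f, ClJ X (fi X.α) f → ∃ F, Co (du F G) f2 f := by
  obtain ⟨ib, g1, -, -, -, g2, g3⟩ := H.exists_ib
  obtain ⟨h1, h2⟩ := H.row_iter (m := 0) m (fun j hj => by rw [zero_add]; exact h j hj)
    (by omega : ib + 2 < _) g2
  rw [zero_add] at h2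
  set i := ib + 2 + 2 * m with hi
  have h3 : plab (rc X (B.N n) i) = rw' w n m := by rw [h2, plab_cc]; rfl
  have hp : rw' w n m ∈ perp (B.N n) := H.rw_perp (h m le_rfl)
  have hk : plab (rc X (B.N n) i) ∉ kp X (B.N n) := by rw [h3]; exact perp_notkp hp
  have h4 := fi_of_closed hk
  rw [← rc_succ] at h4
  have h5 := fac_z (rc X (B.N n) (i + 1))
  rw [Pool.Agent.H21.Q1.lab_rc_succ] at h5
  refine ⟨fi (opc (rc X (B.N n) (i + 1))), fi (rc X (B.N n) (i + 1)), ?_, ?_, ?_⟩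
  · have h6 : rl X (B.N n) i = rw' w n m := h3
    rw [h6] at h5
    exact h5.symm
  · exact ⟨rc X (B.N n) (i + 1), by rw [← h4.1, h2, vx_cc], rfl⟩
  · intro G hG hGs f hf
    have h6 := Pool.Agent.H39.Q1.side_dual (kp X (B.N n)) X.β (i := i + 1) (j := per X (B.N n))
      (by omega)
    have h7 : Co (du (Pool.Agent.H39.Q1.met (kp X (B.N n)) X.β (i + 1) (per X (B.N n))) G)
        (fi (rc X (B.N n) (i + 1))) (fi (rc X (B.N n) (per X (B.N n)))) := by
      refine h6.mono (Pool.Agent.H28.Q1.du_sub_of fun e he hn hG' => ?_)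
      obtain ⟨k, ⟨k1, k2⟩, rfl⟩ := Pool.Agent.H39.Q1.mem_met.1 he
      have hst : rl X (B.N n) k ∈ star (B.N n) := H.sol.rl_star k
      rcases hGs _ hG' hst with h8 | h8 | h8 | h8
      · have h8' : rl X (B.N n) k = rw' w n m := h8
        have := H.sol.rl_inj k2 h1 (h8'.trans h3.symm) (by rw [h8']; exact hp)
        omega
      · have := H.Tw_pos k2 h8
        omega
      · exact H.notW0 (by rw [g3]; omega) k2 hn h8
      · exact hn h8
    rw [rc_per] at h7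
    obtain ⟨F, hF⟩ := H.inv.clJ
    obtain ⟨F', hF'⟩ := hf
    refine ⟨Pool.Agent.H39.Q1.met (kp X (B.N n)) X.β (i + 1) (per X (B.N n)) ∪ F ∪ F',
      (h7.mono (du_mono_left ?_)).trans (((hF.mono (du_anti hG)).mono (du_mono_left ?_)).trans
        ((hF'.mono (du_anti hG)).mono (du_mono_left ?_)))⟩
    · exact subset_union_left.trans subset_union_left
    · exact subset_union_right.trans subset_union_left
    · exact subset_union_right

end PosH

end

end Pool.Agent.H76.M7
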