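import Mathlib
import Pool.Agent.H76.M7.S1
import Pool.Agent.Q1.M3.Defs

set_option autoImplicit false
open Finset

/-! Module M7, 2.5: comparison of the connection probability of a half ring in an environment and in a
lattice region, from the comparison lemmas (opening the ties of the wired arc, closing the labels
which leave the region at the other boundary vertices). -/

namespace Pool.Agent.H76.M7

open Pool.Agent.H75.Perc Pool.Agent.H49.Q1 Pool.Agent.H75.Four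
open Pool.Agent.Q1.M3 (star)

/-- Data of the comparison. `E`: random labels of the environment (off the barrier `N` and off the
half ball `Hb`), `W0`: its fixed open labels, `ξ`: the ring, `q`: a vertex of the ring, `p`: the end of
the ring next to the vertex `t` of the barrier; `V`: the vertices of the region, `L`: its labels, `TV`:
the vertices of the wired arc, `WL`: its labels, `O`: opened labels, `C`: closed labels. -/
structure Glue (E Hb W0 ξ : Finset (ℤ × ℤ)) (q p t : ℤ × ℤ) (V TV : ℤ × ℤ → Prop)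
    (L WL O C : Finset (ℤ × ℤ)) : Prop where
  ring : Co ξ q p
  pV : V p
  qV : V q
  tV : ¬ V t
  sub : L ⊆ E ∪ Hb
  dis : Disjoint E Hb
  xi : ξ ⊆ Hb
  xiV : ∀ a b : ℤ × ℤ, IsUnit4 (b - a) → a + b ∈ ξ → V a → V b
  Lmem : ∀ a b : ℤ × ℤ, IsUnit4 (b - a) → V a → V b → a + b ∈ L
  LV : ∀ a b : ℤ × ℤ, IsUnit4 (b - a) → a + b ∈ L → V a
  W0L : Disjoint W0 L
  W0V : ∀ a b : ℤ × ℤ, IsUnit4 (b - a) → a + b ∈ W0 → V a → TV a
  WLL : WL ⊆ L
  WLT : ∀ a b : ℤ × ℤ, IsUnit4 (b - a) → a + b ∈ WL → TV a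
  WLH : Disjoint WL Hb
  tie : ∀ v, TV v → Co (O ∪ (W0 ∪ ξ)) v t
  cl : ∀ a b : ℤ × ℤ, IsUnit4 (b - a) → a + b ∈ E → V a → ¬ TV a → ¬ V b → a + b ∈ C

namespace Glue

variable {E Hb W0 ξ : Finset (ℤ × ℤ)} {q p t : ℤ × ℤ} {V TV : ℤ × ℤ → Prop}
  {L WL O C : Finset (ℤ × ℤ)} (g : Glue E Hb W0 ξ q p t V TV L WL O C)

include g

/-- The polygon event implies the event of the environment with the ties opened. -/
lemma detA {ω : Finset (ℤ × ℤ)} (h : CJ (WL ∪ ξ) TV q (ω ∩ L)) : Co (ω ∪ O ∪ (W0 ∪ ξ)) p t := by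
  obtain ⟨v, hv, hc⟩ := h
  have key : ∀ a, Co (ω ∩ L ∪ (WL ∪ ξ)) q a → Co (ω ∪ O ∪ (W0 ∪ ξ)) q a ∨
      ∃ z, TV z ∧ Co (ω ∪ O ∪ (W0 ∪ ξ)) q z := by
    intro a ha
    induction ha with
    | refl => exact Or.inl (Co.refl _ _)
    | @tail a b _ hab ih =>
      rcases ih with ih | ih
      · obtain ⟨h1, h2⟩ := hab
        rw [mem_union, mem_union, mem_inter] at h2
        rcases h2 with h2 | h2 | h2
        · exact Or.inl (Relation.ReflTransGen.tail ih ⟨h1, mem_union_left _ (mem_union_left _ h2.1)⟩)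
        · exact Or.inr ⟨a, g.WLT a b h1 h2, ih⟩
        · exact Or.inl (Relation.ReflTransGen.tail ih ⟨h1, mem_union_right _ (mem_union_right _ h2)⟩)
      · exact Or.inr ih
  have hz : ∃ z, TV z ∧ Co (ω ∪ O ∪ (W0 ∪ ξ)) q z := by
    rcases key v hc with h1 | h1
    · exact ⟨v, hv, h1⟩
    · exact h1
  obtain ⟨z, hz, hqz⟩ := hz
  have h1 : Co (ω ∪ O ∪ (W0 ∪ ξ)) p q :=
    g.ring.symm.mono (subset_union_right.trans subset_union_right)
  refine (h1.trans hqz).trans ((g.tie z hz).mono ?_)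
  exact union_subset_union subset_union_right (subset_refl _)

/-- The event of the environment with the labels `C` closed implies the polygon event. -/
lemma detB {ω : Finset (ℤ × ℤ)} (hω : ω ⊆ E) (h : Co (ω \ C ∪ (W0 ∪ ξ)) p t) :
    CJ (WL ∪ ξ) TV q (ω ∩ L) := by
  have key : ∀ a, Co (ω \ C ∪ (W0 ∪ ξ)) p a → (V a ∧ Co (ω ∩ L ∪ (WL ∪ ξ)) q a) ∨
      CJ (WL ∪ ξ) TV q (ω ∩ L) := by
    intro a ha
    induction ha with
    | refl => exact Or.inl ⟨g.pV, g.ring.mono (subset_union_right.trans subset_union_right)⟩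
    | @tail a b _ hab ih =>
      rcases ih with ⟨hV, ih⟩ | ih
      · by_cases hT : TV a
        · exact Or.inr ⟨a, hT, ih⟩
        obtain ⟨h1, h2⟩ := hab
        rw [mem_union, mem_union, mem_sdiff] at h2
        by_cases hb : V b
        · have hL := g.Lmem a b h1 hV hb
          left
          refine ⟨hb, Relation.ReflTransGen.tail ih ⟨h1, ?_⟩⟩
          rcases h2 with h2 | h2 | h2
          · exact mem_union_left _ (mem_inter.2 ⟨h2.1, hL⟩)
          · exact absurd hL (disjoint_left.1 g.W0L h2)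
          · exact mem_union_right _ (mem_union_right _ h2)
        · exfalso
          rcases h2 with h2 | h2 | h2
          · exact h2.2 (g.cl a b h1 (hω h2.1) hV hT hb)
          · exact hT (g.W0V a b h1 h2 hV)
          · exact hb (g.xiV a b h1 h2 hV)
      · exact Or.inr ih
  rcases key t h with h1 | h1
  · exact absurd h1.1 g.tV
  · exact h1

/-- The polygon probability in terms of the environment. -/
lemma polyP : Pr ((L \ WL) \ Hb) (CJ (WL ∪ ξ) TV q) = Pr E (fun ω => CJ (WL ∪ ξ) TV q (ω ∩ L)) := by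
  have hs : (L \ WL) \ Hb ⊆ E := by
    intro e he
    obtain ⟨h1, h2⟩ := mem_sdiff.1 he
    exact (mem_union.1 (g.sub (mem_sdiff.1 h1).1)).resolve_right h2
  rw [← Pr_restrict hs (CJ (WL ∪ ξ) TV q)]
  refine Pr_congr fun ω hω => ?_
  have : ω ∩ ((L \ WL) \ Hb) ∪ (WL ∪ ξ) = ω ∩ L ∪ (WL ∪ ξ) := by
    ext e
    have h1 : e ∈ ω → e ∉ Hb := fun h => disjoint_left.1 g.dis (hω h)
    simp only [mem_union, mem_inter, mem_sdiff]
    tauto
  unfold CJ
  rw [this]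

/-- **The comparison.** -/
theorem compare {a b : ℝ}
    (hA : Pr E (fun ω => Co (ω ∪ O ∪ (W0 ∪ ξ)) p t ∧ ¬ Co (ω ∪ (W0 ∪ ξ)) p t) ≤ a)
    (hB : Pr E (fun ω => Co (ω ∪ (W0 ∪ ξ)) p t ∧ ¬ Co (ω \ C ∪ (W0 ∪ ξ)) p t) ≤ b) :
    |Pr E (fun ω => Co (ω ∪ (W0 ∪ ξ)) p t) - Pr ((L \ WL) \ Hb) (CJ (WL ∪ ξ) TV q)| ≤ max a b := by
  rw [g.polyP]
  have h1 : Pr E (fun ω => CJ (WL ∪ ξ) TV q (ω ∩ L)) ≤
      Pr E (fun ω => Co (ω ∪ (W0 ∪ ξ)) p t) + a := by
    refine (Pr_mono (B := fun ω => Co (ω ∪ (W0 ∪ ξ)) p t ∨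
      (Co (ω ∪ O ∪ (W0 ∪ ξ)) p t ∧ ¬ Co (ω ∪ (W0 ∪ ξ)) p t)) ?_).trans
      ((Pr_or_le E _ _).trans (add_le_add le_rfl hA))
    intro ω _ h
    by_cases h2 : Co (ω ∪ (W0 ∪ ξ)) p t
    · exact Or.inl h2
    · exact Or.inr ⟨g.detA h, h2⟩
  have h2 : Pr E (fun ω => Co (ω ∪ (W0 ∪ ξ)) p t) ≤
      Pr E (fun ω => CJ (WL ∪ ξ) TV q (ω ∩ L)) + b := by
    refine (Pr_mono (B := fun ω => CJ (WL ∪ ξ) TV q (ω ∩ L) ∨
      (Co (ω ∪ (W0 ∪ ξ)) p t ∧ ¬ Co (ω \ C ∪ (W0 ∪ ξ)) p t)) ?_).trans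
      ((Pr_or_le E _ _).trans (add_le_add le_rfl hB))
    intro ω hω h
    by_cases h3 : Co (ω \ C ∪ (W0 ∪ ξ)) p t
    · exact Or.inl (g.detB hω h3)
    · exact Or.inr ⟨h, h3⟩
  rw [abs_le]
  have e1 := le_max_left a b
  have e2 := le_max_right a b
  constructor <;> linarith

end Glue

end Pool.Agent.H76.M7
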