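import Mathlib
import Pool.Agent.H76.M7.Obs
import Pool.Agent.H76.M7.Glue

set_option autoImplicit false
open Finset

/-! Module M7, 2.5: the ends of a half ring on the flat row, root form of the connection probability
of the ring. -/

namespace Pool.Agent.H76.M7

open Pool.Agent.H75.Perc Pool.Agent.H99.NC Pool.Agent.H47.NC Pool.Agent.H47.NC.ArchAux
open Pool.Agent.H49.Q1 Pool.Agent.H52.Q1
open Pool.Agent.Q1.M3 (star kap mem_kap_iff)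

/-- The half ring reaches the flat row above the centre. -/
lemma ring_top {s : ℤ} (hs : 1 ≤ s) {ξ : Finset (ℤ × ℤ)} (hC : Circ s ξ) :
    ∃ y, 2 * s ≤ y ∧ y ≤ 4 * s ∧ Co ξ (rv s ξ) (0, y) := by
  obtain ⟨hv, hv2, v', hv2', hvv⟩ := rv_spec hC
  obtain ⟨t, t', t1, t2, t3, t4⟩ := hC.1.2
  have s1 : ξ ∩ Bx (-(4 * s)) (-(2 * s)) (-(4 * s)) (4 * s) ⊆
      Bx (-(4 * s)) 0 (-(4 * s)) (4 * s) :=
    inter_subset_right.trans (Bx_sub le_rfl (by omega) le_rfl le_rfl)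
  have s2 : ξ ∩ Bx (-(4 * s)) 0 (2 * s) (4 * s) ⊆ Bx (-(4 * s)) 0 (-(4 * s)) (4 * s) :=
    inter_subset_right.trans (Bx_sub le_rfl le_rfl (by omega) le_rfl)
  obtain ⟨r, r1, r2⟩ := cross_co s2 s1 (by unfold inB at t1 ⊢; omega)
    (by unfold inB at hv ⊢; omega) t4 hvv t2 t3 hv2 hv2'
  have hin := t4.inB inter_subset_right t1
  unfold inB at hin
  refine ⟨t'.2, hin.2.1, hin.2.2, ?_⟩
  have e : ((0 : ℤ), t'.2) = t' := by ext <;> simp [t3]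
  rw [e]
  exact (r2.mono inter_subset_left).trans ((r1.symm.trans t4).mono inter_subset_left)

/-- The half ring reaches the flat row below the centre. -/
lemma ring_bot {s : ℤ} (hs : 1 ≤ s) {ξ : Finset (ℤ × ℤ)} (hC : Circ s ξ) :
    ∃ y, -(4 * s) ≤ y ∧ y ≤ -(2 * s) ∧ Co ξ (rv s ξ) (0, y) := by
  obtain ⟨hv, hv2, v', hv2', hvv⟩ := rv_spec hC
  obtain ⟨b, b', b1, b2, b3, b4⟩ := hC.2
  have s1 : ξ ∩ Bx (-(4 * s)) (-(2 * s)) (-(4 * s)) (4 * s) ⊆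
      Bx (-(4 * s)) 0 (-(4 * s)) (4 * s) :=
    inter_subset_right.trans (Bx_sub le_rfl (by omega) le_rfl le_rfl)
  have s3 : ξ ∩ Bx (-(4 * s)) 0 (-(4 * s)) (-(2 * s)) ⊆ Bx (-(4 * s)) 0 (-(4 * s)) (4 * s) :=
    inter_subset_right.trans (Bx_sub le_rfl le_rfl le_rfl (by omega))
  obtain ⟨r, r1, r2⟩ := cross_co s3 s1 (by unfold inB at b1 ⊢; omega)
    (by unfold inB at hv ⊢; omega) b4 hvv b2 b3 hv2 hv2'
  have hin := b4.inB inter_subset_right b1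
  unfold inB at hin
  refine ⟨b'.2, hin.2.1, hin.2.2, ?_⟩
  have e : ((0 : ℤ), b'.2) = b' := by ext <;> simp [b3]
  rw [e]
  exact (r2.mono inter_subset_left).trans ((r1.symm.trans b4).mono inter_subset_left)

/-- The image of a connection under a symmetry. -/
lemma co_map (S : Sy) {ξ : Finset (ℤ × ℤ)} {u v : ℤ × ℤ} (h : Co ξ u v) :
    Co (ξ.map S.G) (S.g u) (S.g v) := (S.co_iff _ _ _).2 h

/-- **Root form** of the connection probability of the ring. -/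
theorem wwS_root {S : Sy} {s : ℤ} {E W N ξ : Finset (ℤ × ℤ)} {p t : ℤ × ℤ}
    (hN : ∀ u ∈ N, ∀ v ∈ N, Co (kap N) u v) (ht : t ∈ N)
    (hp : Co (ξ.map S.G) (S.g (rv s ξ)) p) :
    wwS S s E W (fun v => v ∈ N) ξ =
      Pr (E \ HB S (4 * s)) (fun ω => Co (ω ∪ ((W ∪ kap N) ∪ ξ.map S.G)) p t) := by
  unfold wwS
  refine Pr_congr fun ω _ => ?_
  have e : ω ∪ ((W ∪ kap N) ∪ ξ.map S.G) = (ω ∪ (W ∪ ξ.map S.G)) ∪ kap N := by
    ext e
    simp only [mem_union]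
    tauto
  rw [e, co_kap hN ht]
  have h1 : Co (ω ∪ (W ∪ ξ.map S.G)) (S.g (rv s ξ)) p :=
    hp.mono (subset_union_right.trans subset_union_right)
  constructor
  · rintro ⟨v, hv, hc⟩
    exact ⟨v, hv, h1.symm.trans hc⟩
  · rintro ⟨v, hv, hc⟩
    exact ⟨v, hv, h1.trans hc⟩

/-- **Comparison of the ring probabilities.** -/
theorem ring_compare {S : Sy} {s : ℤ} {E W N ξ : Finset (ℤ × ℤ)} {p t : ℤ × ℤ}
    (hN : ∀ u ∈ N, ∀ v ∈ N, Co (kap N) u v) (ht : t ∈ N)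
    {V TV : ℤ × ℤ → Prop} {L WL O C : Finset (ℤ × ℤ)} {a b : ℝ}
    (g : Glue (E \ HB S (4 * s)) (HB S (4 * s)) (W ∪ kap N) (ξ.map S.G) (S.g (rv s ξ)) p t V TV
      L WL O C)
    (hA : Pr (E \ HB S (4 * s)) (fun ω => Co (ω ∪ O ∪ ((W ∪ kap N) ∪ ξ.map S.G)) p t ∧
      ¬ Co (ω ∪ ((W ∪ kap N) ∪ ξ.map S.G)) p t) ≤ a)
    (hB : Pr (E \ HB S (4 * s)) (fun ω => Co (ω ∪ ((W ∪ kap N) ∪ ξ.map S.G)) p t ∧
      ¬ Co (ω \ C ∪ ((W ∪ kap N) ∪ ξ.map S.G)) p t) ≤ b) :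
    |wwS S s E W (fun v => v ∈ N) ξ - wwS S s (L \ WL) WL TV ξ| ≤ max a b := by
  rw [wwS_root hN ht g.ring]
  exact g.compare hA hB

end Pool.Agent.H76.M7
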