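import Mathlib
import Pool.Agent.H76.M7.Root

set_option autoImplicit false
open Finset

/-! Module M7, 2.5: comparison of the connection probability of a half ring in an environment and in a
lattice region, with a zone `Z` of labels (near the tip, near `b`, near the grid vertices of the
barrier) which is treated by insensitivity. -/

namespace Pool.Agent.H76.M7

open Pool.Agent.H75.Perc Pool.Agent.H49.Q1 Pool.Agent.H75.Four
open Pool.Agent.Q1.M3 (star)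

lemma unit4_symm {u v : ℤ × ℤ} (h : IsUnit4 (v - u)) : IsUnit4 (u - v) := by
  unfold IsUnit4 at h ⊢
  obtain ⟨a, b⟩ := u
  obtain ⟨c, d⟩ := v
  simp only [Prod.mk_sub_mk, Prod.mk.injEq] at h ⊢
  omega

/-- Data of the comparison. `E`: random labels of the environment (off the barrier `N` and off the
half ball `Hb`), `W0`: its fixed open labels, `ξ`: the ring, `Z`: the zone, `q`: a vertex of the ring,
`p`: the end of the ring next to the vertex `t` of the barrier; `V`: the vertices of the region, `L`: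
its labels, `TV`: the vertices of the wired arc, `WL`: its labels, `O`: opened labels, `C`: closed
labels, `G0`: exceptional vertices. -/
structure GlueZ (E Hb W0 ξ Z : Finset (ℤ × ℤ)) (q p t : ℤ × ℤ) (V TV G0 : ℤ × ℤ → Prop)
    (L WL O C : Finset (ℤ × ℤ)) : Prop where
  ring : Co ξ q p
  pV : V p
  qV : V q
  tV : ¬ V t
  sub : L ⊆ E ∪ Hb
  dis : Disjoint E Hb
  xi : ξ ⊆ Hb
  xiV : ∀ a b : ℤ × ℤ, IsUnit4 (b - a) → a + b ∈ ξ → V a → V b
  Lmem : ∀ a b : ℤ × ℤ, IsUnit4 (b - a) → V a → V b → a + b ∈ L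
  LV : ∀ a b : ℤ × ℤ, IsUnit4 (b - a) → a + b ∈ L → V a
  W0L : Disjoint W0 L
  W0V : ∀ a b : ℤ × ℤ, IsUnit4 (b - a) → a + b ∈ W0 → V a → TV a ∨ G0 a
  W0t : ∀ a b : ℤ × ℤ, IsUnit4 (b - a) → a + b ∈ W0 → Co W0 a t
  WLL : WL ⊆ L
  WLT : ∀ a b : ℤ × ℤ, IsUnit4 (b - a) → a + b ∈ WL → TV a
  WLH : Disjoint WL Hb
  G0Z : ∀ a b : ℤ × ℤ, IsUnit4 (b - a) → G0 a → a + b ∈ E → a + b ∈ Z
  G0x : ∀ a b : ℤ × ℤ, IsUnit4 (b - a) → G0 a → a + b ∉ ξ
  G0p : ¬ G0 p
  tie : ∀ v, TV v → Co (O ∪ (E ∩ Z) ∪ (W0 ∪ ξ)) v t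
  cl : ∀ a b : ℤ × ℤ, IsUnit4 (b - a) → a + b ∈ E → V a → ¬ TV a → ¬ V b → a + b ∈ C ∪ Z

/-- vertices at the labels of the zone -/
def Zv (E Z : Finset (ℤ × ℤ)) (v : ℤ × ℤ) : Prop := ∃ u, IsUnit4 (u - v) ∧ v + u ∈ E ∩ Z

namespace GlueZ

variable {E Hb W0 ξ Z : Finset (ℤ × ℤ)} {q p t : ℤ × ℤ} {V TV G0 : ℤ × ℤ → Prop}
  {L WL O C : Finset (ℤ × ℤ)} (g : GlueZ E Hb W0 ξ Z q p t V TV G0 L WL O C)

include g

/-- The polygon event implies the event of the environment with the ties and the zone opened. -/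
lemma detA {ω : Finset (ℤ × ℤ)} (h : CJ (WL ∪ ξ) TV q (ω ∩ L)) :
    Co (ω ∪ (O ∪ (E ∩ Z)) ∪ (W0 ∪ ξ)) p t := by
  obtain ⟨v, hv, hc⟩ := h
  set U := ω ∪ (O ∪ (E ∩ Z)) ∪ (W0 ∪ ξ) with hU
  have key : ∀ a, Co (ω ∩ L ∪ (WL ∪ ξ)) q a → Co U q a ∨ ∃ z, TV z ∧ Co U q z := by
    intro a ha
    induction ha with
    | refl => exact Or.inl (Co.refl _ _)
    | @tail a b _ hab ih =>
      rcases ih with ih | ih
      · obtain ⟨h1, h2⟩ := hab
        rw [mem_union, mem_union, mem_inter] at h2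
        rcases h2 with h2 | h2 | h2
        · exact Or.inl (Relation.ReflTransGen.tail ih ⟨h1, mem_union_left _ (mem_union_left _ h2.1)⟩)
        · exact Or.inr ⟨a, g.WLT a b h1 h2, ih⟩
        · exact Or.inl (Relation.ReflTransGen.tail ih ⟨h1, mem_union_right _ (mem_union_right _ h2)⟩)
      · exact Or.inr ih
  have hz : ∃ z, TV z ∧ Co U q z := by
    rcases key v hc with h1 | h1
    · exact ⟨v, hv, h1⟩
    · exact h1
  obtain ⟨z, hz, hqz⟩ := hz
  have h1 : Co U p q := g.ring.symm.mono (subset_union_right.trans subset_union_right)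
  refine (h1.trans hqz).trans ((g.tie z hz).mono ?_)
  exact union_subset_union subset_union_right (subset_refl _)

/-- The event of the environment with the labels `C` and the zone closed implies the polygon event. -/
lemma detB {ω : Finset (ℤ × ℤ)} (hω : ω ⊆ E) (h : Co (ω \ (C ∪ Z) ∪ (W0 ∪ ξ)) p t) :
    CJ (WL ∪ ξ) TV q (ω ∩ L) := by
  have key : ∀ a, Co (ω \ (C ∪ Z) ∪ (W0 ∪ ξ)) p a →
      (V a ∧ ¬ G0 a ∧ Co (ω ∩ L ∪ (WL ∪ ξ)) q a) ∨ CJ (WL ∪ ξ) TV q (ω ∩ L) := by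
    intro a ha
    induction ha with
    | refl => exact Or.inl ⟨g.pV, g.G0p, g.ring.mono (subset_union_right.trans subset_union_right)⟩
    | @tail a b _ hab ih =>
      rcases ih with ⟨hV, hG, ih⟩ | ih
      · by_cases hT : TV a
        · exact Or.inr ⟨a, hT, ih⟩
        obtain ⟨h1, h2⟩ := hab
        rw [mem_union, mem_union, mem_sdiff, mem_union] at h2
        have hba : IsUnit4 (a - b) := unit4_symm h1
        by_cases hb : V b
        · have hL := g.Lmem a b h1 hV hb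
          left
          refine ⟨hb, fun hGb => ?_, Relation.ReflTransGen.tail ih ⟨h1, ?_⟩⟩
          · rcases h2 with h2 | h2 | h2
            · refine h2.2 (Or.inr ?_)
              have := g.G0Z b a hba hGb (by rw [add_comm]; exact hω h2.1)
              rwa [add_comm] at this
            · exact disjoint_left.1 g.W0L h2 hL
            · exact g.G0x b a hba hGb (by rw [add_comm]; exact h2)
          · rcases h2 with h2 | h2 | h2
            · exact mem_union_left _ (mem_inter.2 ⟨h2.1, hL⟩)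
            · exact absurd hL (disjoint_left.1 g.W0L h2)
            · exact mem_union_right _ (mem_union_right _ h2)
        · exfalso
          rcases h2 with h2 | h2 | h2
          · exact h2.2 (mem_union.1 (g.cl a b h1 (hω h2.1) hV hT hb))
          · rcases g.W0V a b h1 h2 hV with h3 | h3
            · exact hT h3
            · exact hG h3
          · exact hb (g.xiV a b h1 h2 hV)
      · exact Or.inr ih
  rcases key t h with h1 | h1
  · exact absurd h1.1 g.tV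
  · exact h1

/-- The polygon probability in terms of the environment. -/
lemma polyP : Pr ((L \ WL) \ Hb) (CJ (WL ∪ ξ) TV q) = Pr E (fun ω => CJ (WL ∪ ξ) TV q (ω ∩ L)) := by
  have hs : (L \ WL) \ Hb ⊆ E := by
    intro e he
    obtain ⟨h1, h2⟩ := mem_sdiff.1 he
    exact (mem_union.1 (g.sub (mem_sdiff.1 h1).1)).resolve_right h2
  rw [← Pr_restrict hs (CJ (WL ∪ ξ) TV q)]
  refine Pr_congr fun ω hω => ?_
  have : ω ∩ ((L \ WL) \ Hb) ∪ (WL ∪ ξ) = ω ∩ L ∪ (WL ∪ ξ) := by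
    ext e
    have h1 : e ∈ ω → e ∉ Hb := fun h => disjoint_left.1 g.dis (hω h)
    simp only [mem_union, mem_inter, mem_sdiff]
    tauto
  unfold CJ
  rw [this]

/-- Opening the zone matters only if it is joined to the ring. -/
lemma insA {ω : Finset (ℤ × ℤ)} (h : Co (ω ∪ (W0 ∪ ξ ∪ (E ∩ Z))) p t) :
    Co (ω ∪ (W0 ∪ ξ)) p t ∨ ∃ v, Zv E Z v ∧ Co (ω ∪ ξ) p v := by
  have key : ∀ a, Co (ω ∪ (W0 ∪ ξ ∪ (E ∩ Z))) p a → Co (ω ∪ ξ) p a ∨
      Co (ω ∪ (W0 ∪ ξ)) p t ∨ ∃ v, Zv E Z v ∧ Co (ω ∪ ξ) p v := by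
    intro a ha
    induction ha with
    | refl => exact Or.inl (Co.refl _ _)
    | @tail a b _ hab ih =>
      rcases ih with ih | ih
      · obtain ⟨h1, h2⟩ := hab
        rw [mem_union, mem_union, mem_union] at h2
        rcases h2 with h2 | (h2 | h2) | h2
        · exact Or.inl (Relation.ReflTransGen.tail ih ⟨h1, mem_union_left _ h2⟩)
        · refine Or.inr (Or.inl ?_)
          refine (ih.mono ?_).trans ((g.W0t a b h1 h2).mono ?_)
          · exact union_subset_union (subset_refl _) subset_union_right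
          · exact subset_union_left.trans subset_union_right
        · exact Or.inl (Relation.ReflTransGen.tail ih ⟨h1, mem_union_right _ h2⟩)
        · exact Or.inr (Or.inr ⟨a, ⟨b, h1, h2⟩, ih⟩)
      · exact Or.inr ih
  rcases key t h with h1 | h1
  · exact Or.inl (h1.mono (union_subset_union (subset_refl _) subset_union_right))
  · exact h1

/-- Closing the zone matters only if it is joined to the ring. -/
lemma insB {ω : Finset (ℤ × ℤ)} (hω : ω ⊆ E) (h : Co (ω ∪ (W0 ∪ ξ)) p t) :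
    Co (ω \ Z ∪ (W0 ∪ ξ)) p t ∨ ∃ v, Zv E Z v ∧ Co (ω ∪ ξ) p v := by
  have key : ∀ a, Co (ω ∪ (W0 ∪ ξ)) p a → Co (ω \ Z ∪ ξ) p a ∨
      Co (ω \ Z ∪ (W0 ∪ ξ)) p t ∨ ∃ v, Zv E Z v ∧ Co (ω ∪ ξ) p v := by
    intro a ha
    induction ha with
    | refl => exact Or.inl (Co.refl _ _)
    | @tail a b _ hab ih =>
      rcases ih with ih | ih
      · obtain ⟨h1, h2⟩ := hab
        rw [mem_union, mem_union] at h2
        rcases h2 with h2 | h2 | h2
        · by_cases hZ : a + b ∈ Z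
          · refine Or.inr (Or.inr ⟨a, ⟨b, h1, mem_inter.2 ⟨hω h2, hZ⟩⟩, ih.mono ?_⟩)
            exact union_subset_union sdiff_subset (subset_refl _)
          · exact Or.inl (Relation.ReflTransGen.tail ih
              ⟨h1, mem_union_left _ (mem_sdiff.2 ⟨h2, hZ⟩)⟩)
        · refine Or.inr (Or.inl ?_)
          refine (ih.mono ?_).trans ((g.W0t a b h1 h2).mono ?_)
          · exact union_subset_union (subset_refl _) subset_union_right
          · exact subset_union_left.trans subset_union_right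
        · exact Or.inl (Relation.ReflTransGen.tail ih ⟨h1, mem_union_right _ h2⟩)
      · exact Or.inr ih
  rcases key t h with h1 | h1
  · exact Or.inl (h1.mono (union_subset_union (subset_refl _) subset_union_right))
  · exact h1

/-- **The comparison.** -/
theorem compare {a b z : ℝ}
    (hA : Pr (E \ Z) (fun ω => Co (ω ∪ O ∪ (W0 ∪ ξ ∪ (E ∩ Z))) p t ∧
      ¬ Co (ω ∪ (W0 ∪ ξ ∪ (E ∩ Z))) p t) ≤ a)
    (hB : Pr (E \ Z) (fun ω => Co (ω ∪ (W0 ∪ ξ)) p t ∧ ¬ Co ((ω \ C) ∪ (W0 ∪ ξ)) p t) ≤ b)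
    (hz : Pr E (fun ω => ∃ v, Zv E Z v ∧ Co (ω ∪ ξ) p v) ≤ z) :
    |Pr E (fun ω => Co (ω ∪ (W0 ∪ ξ)) p t) - Pr ((L \ WL) \ Hb) (CJ (WL ∪ ξ) TV q)| ≤
      max a b + z := by
  rw [g.polyP]
  -- transfer to `E`
  have hs : E \ Z ⊆ E := sdiff_subset
  have hA' : Pr E (fun ω => Co (ω ∪ O ∪ (W0 ∪ ξ ∪ (E ∩ Z))) p t ∧
      ¬ Co (ω ∪ (W0 ∪ ξ ∪ (E ∩ Z))) p t) ≤ a := by
    refine le_trans (le_of_eq ?_) hA
    rw [← Pr_restrict hs (fun ω => Co (ω ∪ O ∪ (W0 ∪ ξ ∪ (E ∩ Z))) p t ∧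
      ¬ Co (ω ∪ (W0 ∪ ξ ∪ (E ∩ Z))) p t)]
    refine Pr_congr fun ω hω => ?_
    have e1 : ω ∩ (E \ Z) ∪ O ∪ (W0 ∪ ξ ∪ (E ∩ Z)) = ω ∪ O ∪ (W0 ∪ ξ ∪ (E ∩ Z)) := by
      ext e
      have := @hω e
      simp only [mem_union, mem_inter, mem_sdiff]
      tauto
    have e2 : ω ∩ (E \ Z) ∪ (W0 ∪ ξ ∪ (E ∩ Z)) = ω ∪ (W0 ∪ ξ ∪ (E ∩ Z)) := by
      ext e
      have := @hω e
      simp only [mem_union, mem_inter, mem_sdiff]
      tauto
    rw [e1, e2]
  have hB' : Pr E (fun ω => Co (ω \ Z ∪ (W0 ∪ ξ)) p t ∧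
      ¬ Co (ω \ (C ∪ Z) ∪ (W0 ∪ ξ)) p t) ≤ b := by
    refine le_trans (le_of_eq ?_) hB
    rw [← Pr_restrict hs (fun ω => Co (ω ∪ (W0 ∪ ξ)) p t ∧ ¬ Co ((ω \ C) ∪ (W0 ∪ ξ)) p t)]
    refine Pr_congr fun ω hω => ?_
    have e1 : ω ∩ (E \ Z) = ω \ Z := by
      ext e
      have := @hω e
      simp only [mem_inter, mem_sdiff]
      tauto
    have e2 : ω \ (C ∪ Z) = (ω \ Z) \ C := by
      ext e
      simp only [mem_union, mem_sdiff]
      tauto
    rw [e1, e2]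
  have h1 : Pr E (fun ω => CJ (WL ∪ ξ) TV q (ω ∩ L)) ≤
      Pr E (fun ω => Co (ω ∪ (W0 ∪ ξ)) p t) + (a + z) := by
    refine (Pr_mono (B := fun ω => Co (ω ∪ (W0 ∪ ξ)) p t ∨
      ((Co (ω ∪ O ∪ (W0 ∪ ξ ∪ (E ∩ Z))) p t ∧ ¬ Co (ω ∪ (W0 ∪ ξ ∪ (E ∩ Z))) p t) ∨
      ∃ v, Zv E Z v ∧ Co (ω ∪ ξ) p v)) ?_).trans
      ((Pr_or_le E _ _).trans (add_le_add le_rfl ((Pr_or_le E _ _).trans (add_le_add hA' hz))))
    intro ω _ h
    have h2 := g.detA h
    have e : ω ∪ (O ∪ (E ∩ Z)) ∪ (W0 ∪ ξ) = ω ∪ O ∪ (W0 ∪ ξ ∪ (E ∩ Z)) := by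
      ext e
      simp only [mem_union]
      tauto
    rw [e] at h2
    by_cases h3 : Co (ω ∪ (W0 ∪ ξ ∪ (E ∩ Z))) p t
    · rcases g.insA h3 with h4 | h4
      · exact Or.inl h4
      · exact Or.inr (Or.inr h4)
    · exact Or.inr (Or.inl ⟨h2, h3⟩)
  have h2 : Pr E (fun ω => Co (ω ∪ (W0 ∪ ξ)) p t) ≤
      Pr E (fun ω => CJ (WL ∪ ξ) TV q (ω ∩ L)) + (b + z) := by
    refine (Pr_mono (B := fun ω => CJ (WL ∪ ξ) TV q (ω ∩ L) ∨
      ((Co (ω \ Z ∪ (W0 ∪ ξ)) p t ∧ ¬ Co (ω \ (C ∪ Z) ∪ (W0 ∪ ξ)) p t) ∨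
      ∃ v, Zv E Z v ∧ Co (ω ∪ ξ) p v)) ?_).trans
      ((Pr_or_le E _ _).trans (add_le_add le_rfl ((Pr_or_le E _ _).trans (add_le_add hB' hz))))
    intro ω hω h
    rcases g.insB hω h with h3 | h3
    · by_cases h4 : Co (ω \ (C ∪ Z) ∪ (W0 ∪ ξ)) p t
      · exact Or.inl (g.detB hω h4)
      · exact Or.inr (Or.inl ⟨h3, h4⟩)
    · exact Or.inr (Or.inr h3)
  rw [abs_le]
  have e1 := le_max_left a b
  have e2 := le_max_right a b
  constructor <;> linarith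

end GlueZ

end Pool.Agent.H76.M7
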