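import Mathlib
import Pool.Agent.H76.M7.Zone
import Pool.Agent.H21.Q1.Quad

set_option autoImplicit false
open Finset

/-! Module M7, 2.5: the two comparison lemmas for a half ring. `p` = end of the ring, `t` = vertex of
the barrier below, `p + t` = root label, `f1`, `f2` its faces. `ring_open`: opening the ties `O`;
`ring_dual`: closing the labels `C`. -/

namespace Pool.Agent.H76.M7

open Pool.Agent.H75.Perc Pool.Agent.H75.TwoArm Pool.Agent.H75.Four Pool.Agent.H49.Q1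
open Pool.Agent.H21.Q1
open Pool.Agent.H69.Q1 (du_mono_left)
open Pool.Agent.H77.Q1 (lbf mem_du' Fac Ends Dc Exit ad_dc)

section

variable {E W0 ξ Z : Finset (ℤ × ℤ)} {p t f1 f2 : ℤ × ℤ}

/-- Faces of the closed labels. -/
def Scl (E W0 ξ : Finset (ℤ × ℤ)) (f2 g : ℤ × ℤ) : Prop :=
  g = f2 ∨ ∃ g', IsUnit4 (g' - g) ∧ lbf g g' ∉ E ∧ lbf g g' ∉ W0 ∪ ξ

/-- Ends of the fixed open labels. -/
def Sop (W0 ξ : Finset (ℤ × ℤ)) (t h : ℤ × ℤ) : Prop :=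
  h = t ∨ ∃ h', IsUnit4 (h' - h) ∧ h + h' ∈ W0 ∪ ξ

lemma ends_of_unit (h : IsUnit4 (t - p)) : Ends (p + t) p t := by
  unfold Ends
  rcases (Pool.Agent.H42.Q1.ends_add h).2 with ⟨h1, h2⟩ | ⟨h1, h2⟩
  · exact Or.inl ⟨h1.symm, h2.symm⟩
  · exact Or.inr ⟨h1.symm, h2.symm⟩

/-- **Opening the ties.** -/
theorem ring_open {δ : ℝ} (hδ : Dcy δ) (hpt : IsUnit4 (t - p))
    (hE : ∀ e ∈ E, (e.1 + e.2) % 2 = 1) (hW : ∀ e ∈ W0, (e.1 + e.2) % 2 = 1)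
    (hx : ∀ e ∈ ξ, (e.1 + e.2) % 2 = 1) (h0E : p + t ∉ E) (h0W : p + t ∉ W0) (h0x : p + t ∉ ξ)
    (W0t : ∀ a b : ℤ × ℤ, IsUnit4 (b - a) → a + b ∈ W0 → Co W0 a t)
    (hf : Fac (p + t) f1 f2) {k : ℕ} {O : Finset (ℤ × ℤ)} (hO : O ⊆ E \ Z)
    (hTie : ∀ v, (∃ o ∈ O, v = eu o ∨ v = ev o) → ∃ (T : Finset (ℤ × ℤ)) (c : ℤ × ℤ) (r D : ℤ),
      1 ≤ r ∧ 4 ^ k * r ≤ D ∧ T ⊆ O ∧
      (∀ m ∈ T, |m.1 - 2 * c.1| ≤ 2 * r - 2 ∧ |m.2 - 2 * c.2| ≤ 2 * r - 2) ∧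
      Co (T ∪ W0) v t ∧
      ∀ z z' g, IsUnit4 (z' - z) → lbf z z' ∈ T →
        CoX (du (E \ Z) ∅) (fun u => ¬ Pool.Agent.H77.Q1.Far D c u) z g → ¬ Scl E W0 ξ f2 g) :
    Pr (E \ Z) (fun ω => Co (ω ∪ O ∪ (W0 ∪ ξ ∪ (E ∩ Z))) p t ∧
      ¬ Co (ω ∪ (W0 ∪ ξ ∪ (E ∩ Z))) p t) ≤ (1 - δ) ^ k := by
  classical
  set G := W0 ∪ ξ ∪ (E ∩ Z) with hG
  have he0 : ((p + t).1 + (p + t).2) % 2 = 1 := (Pool.Agent.H42.Q1.ends_add hpt).1
  have hGo : ∀ e ∈ G, (e.1 + e.2) % 2 = 1 := by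
    intro e he
    rw [hG, mem_union, mem_union, mem_inter] at he
    rcases he with (he | he) | he
    · exact hW e he
    · exact hx e he
    · exact hE e he.1
  obtain ⟨M, hM⟩ := exists_BB (insert (p + t) (E ∪ G)) (by
    intro e he
    rw [mem_insert, mem_union] at he
    rcases he with rfl | he | he
    · exact he0
    · exact hE e he
    · exact hGo e he)
  have hM' : ∀ A, A ⊆ insert (p + t) (E ∪ G) → A ⊆ H75.TwoArm.BB (M + 1 - 1) := fun A hA => by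
    rw [add_sub_cancel_right]; exact hA.trans hM
  refine comp_open0 (M := M + 1) (W := W0) (f1 := f1) (f2 := f2) hδ
    (S := Scl E W0 ξ f2) he0
    (hM' _ (subset_refl _) (mem_insert_self _ _))
    (hM' _ (sdiff_subset.trans (subset_union_left.trans (subset_insert _ _))))
    (hM' _ (subset_union_right.trans (subset_insert _ _)))
    (fun h => h0E (mem_sdiff.1 h).1) ?_ hO
    (subset_union_left.trans subset_union_left) hf (ends_of_unit hpt) ?_ (Or.inl rfl) ?_ ?_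
  · rw [hG, mem_union, mem_union, mem_inter]
    rintro ((h | h) | h)
    · exact h0W h
    · exact h0x h
    · exact h0E h.1
  · intro w hw
    obtain ⟨h1, h2⟩ := Pool.Agent.H42.Q1.eu_ev_step (hW w hw)
    exact W0t _ _ h1 (by rw [h2]; exact hw)
  · intro g g' _ _ h3 h4 h5 _
    refine Or.inr ⟨g', h3, ?_, ?_⟩
    · intro h
      by_cases hZ : lbf g g' ∈ Z
      · exact h5 (mem_union_right _ (mem_inter.2 ⟨h, hZ⟩))
      · exact h4 (mem_sdiff.2 ⟨h, hZ⟩)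
    · intro h
      exact h5 (mem_union_left _ h)
  · intro v hv
    obtain ⟨T, c, r, D, h1, h2, h3, h4, h5, h6⟩ := hTie v hv.1
    exact ⟨T, c, r, D, h1, h2, h3, h4, h5, h6⟩

/-- **Closing the labels which leave the region.** -/
theorem ring_dual {δ : ℝ} (hδ : Dcy δ) (hpt : IsUnit4 (t - p))
    (hE : ∀ e ∈ E, (e.1 + e.2) % 2 = 1) (hW : ∀ e ∈ W0, (e.1 + e.2) % 2 = 1)
    (hx : ∀ e ∈ ξ, (e.1 + e.2) % 2 = 1) (h0E : p + t ∉ E) (h0W : p + t ∉ W0) (h0x : p + t ∉ ξ)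
    (hEG : Disjoint E (W0 ∪ ξ))
    (hf : Fac (p + t) f1 f2) {k : ℕ} {C : Finset (ℤ × ℤ)} (hC : C ⊆ E \ Z)
    (hTie : ∀ g g', IsUnit4 (g' - g) → lbf g g' ∈ C → ∃ (T : Finset (ℤ × ℤ)) (c : ℤ × ℤ) (r D : ℤ)
      (f : ℤ × ℤ), 1 ≤ r ∧ 4 ^ k * r ≤ D ∧ T ⊆ C ∧
      (∀ m ∈ T, |m.1 - 2 * c.1| ≤ 2 * r - 3 ∧ |m.2 - 2 * c.2| ≤ 2 * r - 3) ∧
      Co (du T ∅) g f ∧ (∃ F, Co (du F (insert (p + t) (E ∪ (W0 ∪ ξ)))) f2 f) ∧
      ∀ v v' h, IsUnit4 (v' - v) → v + v' ∈ T →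
        CoX (E \ Z) (fun u => ¬ Pool.Agent.H77.Q1.Far (D + 1) c u) v h → ¬ Sop W0 ξ t h) :
    Pr (E \ Z) (fun ω => Co (ω ∪ (W0 ∪ ξ)) p t ∧ ¬ Co ((ω \ C) ∪ (W0 ∪ ξ)) p t) ≤
      (1 - δ) ^ k := by
  classical
  set G := W0 ∪ ξ with hG
  have he0 : ((p + t).1 + (p + t).2) % 2 = 1 := (Pool.Agent.H42.Q1.ends_add hpt).1
  have hGo : ∀ e ∈ G, (e.1 + e.2) % 2 = 1 := by
    intro e he
    rw [hG, mem_union] at he
    rcases he with he | he
    · exact hW e he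
    · exact hx e he
  have hTie' : ∀ g, (∃ g', IsUnit4 (g' - g) ∧ lbf g g' ∈ C) → ∃ (T : Finset (ℤ × ℤ)) (c : ℤ × ℤ)
      (r D : ℤ) (f : ℤ × ℤ) (F : Finset (ℤ × ℤ)), 1 ≤ r ∧ 4 ^ k * r ≤ D ∧ T ⊆ C ∧
      (∀ m ∈ T, |m.1 - 2 * c.1| ≤ 2 * r - 3 ∧ |m.2 - 2 * c.2| ≤ 2 * r - 3) ∧
      Co (du T ∅) g f ∧ Co (du F (insert (p + t) (E ∪ G))) f2 f ∧
      ∀ v v' h, IsUnit4 (v' - v) → v + v' ∈ T →
        CoX (E \ Z) (fun u => ¬ Pool.Agent.H77.Q1.Far (D + 1) c u) v h → ¬ Sop W0 ξ t h := by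
    rintro g ⟨g', h1, h2⟩
    obtain ⟨T, c, r, D, f, a1, a2, a3, a4, a5, ⟨F, a6⟩, a7⟩ := hTie g g' h1 h2
    exact ⟨T, c, r, D, f, F, a1, a2, a3, a4, a5, a6, a7⟩
  choose! T c r D f F hT1 hT2 hT3 hT4 hT5 hT6 hT7 using hTie'
  set faces : Finset (ℤ × ℤ) := C.biUnion fun e => {eu (sh1 e), ev (sh1 e)} with hfaces
  have hmf : ∀ g g', IsUnit4 (g' - g) → lbf g g' ∈ C → g ∈ faces := by
    intro g g' h1 h2
    rw [hfaces, mem_biUnion]
    refine ⟨_, h2, ?_⟩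
    have h3 := unit_cases h1
    obtain ⟨a, b⟩ := g
    obtain ⟨a', b'⟩ := g'
    unfold lbf eu ev sh1
    simp only [Function.Embedding.coeFn_mk, mem_insert, mem_singleton, Prod.mk_add_mk,
      Prod.mk_sub_mk, Prod.mk.injEq]
    simp only at h3
    omega
  set U0 : Finset (ℤ × ℤ) := ((faces.biUnion F) \ (insert (p + t) (E ∪ G))).filter
    (fun e => (e.1 + e.2) % 2 = 1) with hU0
  obtain ⟨M, hM⟩ := exists_BB (insert (p + t) (E ∪ G ∪ U0)) (by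
    intro e he
    rw [mem_insert, mem_union, mem_union] at he
    rcases he with rfl | (he | he) | he
    · exact he0
    · exact hE e he
    · exact hGo e he
    · exact (mem_filter.1 he).2)
  have hM' : ∀ A, A ⊆ insert (p + t) (E ∪ G ∪ U0) →
      A ⊆ H75.TwoArm.BB (M + 1 - 1) := fun A hA => by
    rw [add_sub_cancel_right]; exact hA.trans hM
  set C0 := rch U0 f2 with hC0
  have hCU : C0 ⊆ U0 := rch_sub
  have hU0n : ∀ e ∈ U0, e ∉ insert (p + t) (E ∪ G) :=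
    fun e he => (mem_sdiff.1 (mem_filter.1 he).1).2
  refine comp_dual (M := M + 1) (C := C0) (f1 := f1) (f2 := f2) hδ
    (S := Sop W0 ξ t) he0
    (hM' _ (subset_refl _) (mem_insert_self _ _))
    (hM' _ (sdiff_subset.trans (subset_union_left.trans (subset_union_left.trans
      (subset_insert _ _)))))
    (hM' _ (subset_union_right.trans (subset_union_left.trans (subset_insert _ _))))
    (hEG.mono_left sdiff_subset) (fun h => h0E (mem_sdiff.1 h).1)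
    ?_ hC ?_ (fun g g' h1 h2 => rch_face h1 h2)
    hf (ends_of_unit hpt) (Or.inl rfl) ?_ ?_
  · rw [hG, mem_union]
    rintro (h | h)
    · exact h0W h
    · exact h0x h
  · intro e he
    have h1 := hU0n e (hCU he)
    rw [mem_insert, mem_union] at h1
    refine ⟨BB_mono (by omega) (hM (mem_insert_of_mem (mem_union_right _ (hCU he)))), ?_, ?_, ?_⟩
    · exact fun h => h1 (Or.inr (Or.inl (mem_sdiff.1 h).1))
    · exact fun h => h1 (Or.inr (Or.inr h))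
    · exact fun h => h1 (Or.inl h)
  · intro v v' _ _ h3 h4
    exact Or.inr ⟨v', h3, h4⟩
  · intro g g' h1 h2
    have hg : ∃ g', IsUnit4 (g' - g) ∧ lbf g g' ∈ C := ⟨g', h1, h2⟩
    refine ⟨T g, c g, r g, D g, hT1 g hg, hT2 g hg, hT3 g hg, hT4 g hg, ?_, ?_⟩
    · have h3 : Co (du U0 ∅) f2 (f g) := by
        refine Relation.ReflTransGen.mono ?_ _ _ (hT6 g hg)
        intro a b hab
        obtain ⟨hab1, hab2⟩ := hab
        rw [mem_du'] at hab2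
        refine ad_du0.2 ⟨hab1, ?_⟩
        rw [hU0, mem_filter, mem_sdiff, mem_biUnion]
        exact ⟨⟨⟨g, hmf g g' h1 h2, hab2.1⟩, hab2.2⟩, odd_lbf hab1⟩
      have h4 := rch_co h3
      rw [← hC0] at h4
      refine ((hT5 g hg).mono (du_mono_left subset_union_left)).trans
        (h4.symm.mono (du_mono_left subset_union_right))
    · intro v v' h a1 a2 a3
      exact hT7 g hg v v' h a1 a2 a3

end

end Pool.Agent.H76.M7
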