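import Mathlib
import Pool.Agent.H76.M7.Quad
import Pool.Agent.H42.Q1.Small

set_option autoImplicit false
open Finset

/-! Module M7, 2.5: isolation of the ties in the two forms needed for the comparison. -/

namespace Pool.Agent.H76.M7

open Pool.Agent.H75.Perc Pool.Agent.H75.TwoArm Pool.Agent.H75.Four Pool.Agent.H69.Q1
open Pool.Agent.H77.Q1 (lbf mem_du' Far)
open Pool.Agent.H21.Q1 (ad_du0 InvL)
open Pool.Agent.H42.Q1 (RB co_ends)
open Pool.Agent.H28.Q1

/-- No tie inside the box is joined by a dual path of free labels inside the box to the closed side. -/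
def NoCut (X : DEnv) (p q r s : ℤ) : Prop :=
  ∀ T : Finset (ℤ × ℤ), T ⊆ X.E → (∀ e ∈ T, RB p q r s (eu e) ∧ RB p q r s (ev e)) →
    (∀ e ∈ T, Co (T ∪ X.W) (vx X.β) (eu e)) → ∀ z z' f : ℤ × ℤ, IsUnit4 (z' - z) → lbf z z' ∈ T →
    RB (p + 1) q (r + 1) s z → CoX (du X.E ∅) (RB (p + 1) q (r + 1) s) z f →
    ¬ ClJ X (fi X.α) f

/-- The box of radius `D` around `c`. -/
def NoCutC (X : DEnv) (c : ℤ × ℤ) (D : ℤ) : Prop :=
  NoCut X (c.1 - D) (c.1 + D) (c.2 - D) (c.2 + D)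

variable {X : DEnv} {c : ℤ × ℤ} {D : ℤ}

lemma coX_mono {κ κ' : Finset (ℤ × ℤ)} {P P' : ℤ × ℤ → Prop} (hκ : κ ⊆ κ') (hP : ∀ v, P v → P' v)
    {u v : ℤ × ℤ} (h : CoX κ P u v) : CoX κ' P' u v :=
  Relation.ReflTransGen.mono (fun _ _ hab => ⟨⟨hab.1.1, hκ hab.1.2⟩, hP _ hab.2⟩) _ _ h

lemma coX_last {κ : Finset (ℤ × ℤ)} {P : ℤ × ℤ → Prop} {u v : ℤ × ℤ} (h : CoX κ P u v) :
    v = u ∨ P v := by
  rcases Relation.ReflTransGen.cases_tail h with h1 | ⟨w, -, h1⟩
  · exact Or.inl h1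
  · exact Or.inr h1.2

lemma not_far {v : ℤ × ℤ} : ¬ Far D c v ↔ |v.1 - c.1| < D ∧ |v.2 - c.2| < D := by
  unfold Far
  rw [not_or, not_le, not_le]

/-- **Isolation of primal ties.** -/
theorem iso_open (hN : NoCutC X c D) {E T : Finset (ℤ × ℤ)} (hE : E ⊆ X.E) (hT : T ⊆ X.E)
    (hTc : ∀ e ∈ T, ¬ Far D c (eu e) ∧ ¬ Far D c (ev e))
    (hTb : ∀ z z' : ℤ × ℤ, IsUnit4 (z' - z) → lbf z z' ∈ T → ¬ Far D c z)
    (hTv : ∀ e ∈ T, Co (T ∪ X.W) (vx X.β) (eu e)) {z z' g : ℤ × ℤ} (hz : IsUnit4 (z' - z))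
    (hzT : lbf z z' ∈ T) (hp : CoX (du E ∅) (fun u => ¬ Far D c u) z g) :
    ¬ ClJ X (fi X.α) g := by
  refine hN T hT ?_ hTv z z' g hz hzT ?_ (coX_mono ?_ ?_ hp)
  · intro e he
    obtain ⟨h1, h2⟩ := hTc e he
    rw [not_far, abs_lt, abs_lt] at h1 h2
    unfold RB
    omega
  · have h1 := hTb z z' hz hzT
    rw [not_far, abs_lt, abs_lt] at h1
    unfold RB
    omega
  · exact Pool.Agent.H69.Q1.du_mono_left hE
  · intro v hv
    rw [not_far, abs_lt, abs_lt] at hv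
    unfold RB
    omega

/-- **Isolation of dual ties.** -/
theorem iso_dual (hN : NoCutC X c D) {E T : Finset (ℤ × ℤ)} (hE : E ⊆ X.E) (hT : T ⊆ X.E)
    (hTc : ∀ v v' : ℤ × ℤ, IsUnit4 (v' - v) → v + v' ∈ T → ¬ Far D c v)
    (hTb : ∀ z z' : ℤ × ℤ, IsUnit4 (z' - z) → lbf z z' ∈ T → ¬ Far D c z ∧
      ∃ f, Co (du T ∅) z f ∧ ClJ X (fi X.α) f)
    {v v' h : ℤ × ℤ} (hv : IsUnit4 (v' - v)) (hvT : v + v' ∈ T)
    (hp : CoX E (fun u => ¬ Far D c u) v h) : ¬ Co X.W (vx X.β) h := by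
  classical
  intro hW
  have hv0 : ¬ Far D c v := hTc v v' hv hvT
  have hv1 : ¬ Far D c v' := hTc v' v (unit4_symm hv) (by rw [add_comm]; exact hvT)
  set Eb := E.filter (fun e => ¬ Far D c (eu e) ∧ ¬ Far D c (ev e)) with hEb
  have h1 : ∀ b, CoX E (fun u => ¬ Far D c u) v b → Co Eb v b := by
    intro b hp
    unfold CoX at hp
    induction hp with
    | refl => exact Co.refl _ _
    | @tail a b ha hab ih =>
      have haF : ¬ Far D c a := by
        rcases coX_last ha with h1 | h1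
        · rw [h1]; exact hv0
        · exact h1
      refine Relation.ReflTransGen.tail ih ⟨hab.1.1, ?_⟩
      rw [hEb, mem_filter]
      refine ⟨hab.1.2, ?_⟩
      rcases (Pool.Agent.H42.Q1.ends_add hab.1.1).2 with ⟨h2, h3⟩ | ⟨h2, h3⟩ <;> rw [h2, h3]
      · exact ⟨haF, hab.2⟩
      · exact ⟨hab.2, haF⟩
  set T2 := insert (v + v') (Eb.filter (fun e => Co Eb v (eu e))) with hT2
  have h2 : ∀ b, Co Eb v b → Co T2 v b := by
    intro b hb
    induction hb with
    | refl => exact Co.refl _ _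
    | @tail a b ha hab ih =>
      refine Relation.ReflTransGen.tail ih ⟨hab.1, ?_⟩
      rw [hT2, mem_insert, mem_filter]
      refine Or.inr ⟨hab.2, ?_⟩
      rcases (Pool.Agent.H42.Q1.ends_add hab.1).2 with ⟨h2, h3⟩ | ⟨h2, h3⟩ <;> rw [h2]
      · exact ha
      · exact Relation.ReflTransGen.tail ha hab
  have hvv : Co T2 v v' := Relation.ReflTransGen.single ⟨hv, mem_insert_self _ _⟩
  have hbv : Co (T2 ∪ X.W) (vx X.β) v :=
    (hW.mono subset_union_right).trans ((h2 h (h1 h hp)).symm.mono subset_union_left)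
  -- a face of the label `v + v'`
  have ho := (Pool.Agent.H42.Q1.ends_add hv).1
  obtain ⟨z, z', hz, hzz⟩ : ∃ z z' : ℤ × ℤ, IsUnit4 (z' - z) ∧ lbf z z' = v + v' := by
    have ho' : ((sh1 (v + v')).1 + (sh1 (v + v')).2) % 2 = 1 := by
      unfold sh1
      simp only [Function.Embedding.coeFn_mk]
      omega
    obtain ⟨h3, h4⟩ := Pool.Agent.H42.Q1.eu_ev_step ho'
    refine ⟨_, _, h3, ?_⟩
    unfold lbf
    rw [h4]
    unfold sh1
    simp only [Function.Embedding.coeFn_mk, Prod.mk_sub_mk, Prod.ext_iff]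
    omega
  have h3 := hTb z z' hz (by rw [hzz]; exact hvT)
  obtain ⟨h4, f, hf1, hf2⟩ := h3
  refine hN T2 ?_ ?_ ?_ z z' f hz (by rw [hzz]; exact mem_insert_self _ _) ?_ ?_ hf2
  · intro e he
    rw [hT2, mem_insert, mem_filter, hEb, mem_filter] at he
    rcases he with rfl | he
    · exact hT hvT
    · exact hE he.1.1
  · intro e he
    have : ¬ Far D c (eu e) ∧ ¬ Far D c (ev e) := by
      rw [hT2, mem_insert, mem_filter, hEb, mem_filter] at he
      rcases he with rfl | he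
      · rcases (Pool.Agent.H42.Q1.ends_add hv).2 with ⟨h2, h3⟩ | ⟨h2, h3⟩ <;> rw [h2, h3]
        · exact ⟨hv0, hv1⟩
        · exact ⟨hv1, hv0⟩
      · exact he.1.2
    obtain ⟨h1, h2⟩ := this
    rw [not_far, abs_lt, abs_lt] at h1 h2
    unfold RB
    omega
  · intro e he
    rw [hT2, mem_insert, mem_filter] at he
    refine hbv.trans (Co.mono subset_union_left ?_)
    rcases he with rfl | he
    · rcases (Pool.Agent.H42.Q1.ends_add hv).2 with ⟨h2, h3⟩ | ⟨h2, h3⟩ <;> rw [h2]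
      · exact Co.refl _ _
      · exact hvv
    · exact h2 _ he.2
  · rw [not_far, abs_lt, abs_lt] at h4
    unfold RB
    omega
  · -- the path of the tie
    have h5 : ∀ b, Co (du T ∅) z b → CoX (du X.E ∅) (fun u => ¬ Far D c u) z b := by
      intro b hb
      induction hb with
      | refl => exact Relation.ReflTransGen.refl
      | @tail a b ha hab ih =>
        have h6 := ad_du0.1 hab
        refine Relation.ReflTransGen.tail ih ⟨ad_du0.2 ⟨h6.1, hT h6.2⟩, ?_⟩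
        refine (hTb b a (unit4_symm h6.1) ?_).1
        rw [Pool.Agent.H77.Q1.lbf_comm]
        exact h6.2
    refine coX_mono (subset_refl _) ?_ (h5 f hf1)
    intro v hv
    rw [not_far, abs_lt, abs_lt] at hv
    unfold RB
    omega

end Pool.Agent.H76.M7
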