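import Mathlib
import Pool.Agent.H76.M7.Quad

set_option autoImplicit false
open Finset

/-! Module M7, 2.5: comparison of the ring probabilities with zones; arms to the zones. -/

namespace Pool.Agent.H76.M7

open Pool.Agent.H75.Perc Pool.Agent.H75.Four Pool.Agent.H49.Q1 Pool.Agent.H52.Q1
open Pool.Agent.H21.Q1 (Dcy arm_far)
open Pool.Agent.H77.Q1 (Far)
open Pool.Agent.Q1.M3 (star kap mem_kap_iff)

lemma co_kp {κ N Kp : Finset (ℤ × ℤ)} {x t : ℤ × ℤ} (hK : Kp ⊆ kap N)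
    (hN : ∀ u ∈ N, ∀ v ∈ N, Co Kp u v) (ht : t ∈ N) :
    Co (κ ∪ Kp) x t ↔ ∃ v, v ∈ N ∧ Co κ x v := by
  constructor
  · intro h
    refine (co_kap (fun u hu v hv => (hN u hu v hv).mono hK) ht).1 (h.mono ?_)
    exact union_subset_union (subset_refl _) hK
  · rintro ⟨v, hv, hc⟩
    exact (hc.mono subset_union_left).trans ((hN v hv t ht).mono subset_union_right)

/-- **Root form** of the connection probability of the ring. -/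
theorem wwS_root' {S : Sy} {s : ℤ} {E W N Kp ξ : Finset (ℤ × ℤ)} {p t : ℤ × ℤ}
    (hK : Kp ⊆ kap N) (hN : ∀ u ∈ N, ∀ v ∈ N, Co Kp u v) (ht : t ∈ N)
    (hp : Co (ξ.map S.G) (S.g (rv s ξ)) p) :
    wwS S s E W (fun v => v ∈ N) ξ =
      Pr (E \ HB S (4 * s)) (fun ω => Co (ω ∪ ((W ∪ Kp) ∪ ξ.map S.G)) p t) := by
  unfold wwS
  refine Pr_congr fun ω _ => ?_
  have e : ω ∪ ((W ∪ Kp) ∪ ξ.map S.G) = (ω ∪ (W ∪ ξ.map S.G)) ∪ Kp := by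
    ext e
    simp only [mem_union]
    tauto
  rw [e, co_kp hK hN ht]
  have h1 : Co (ω ∪ (W ∪ ξ.map S.G)) (S.g (rv s ξ)) p :=
    hp.mono (subset_union_right.trans subset_union_right)
  constructor
  · rintro ⟨v, hv, hc⟩
    exact ⟨v, hv, h1.symm.trans hc⟩
  · rintro ⟨v, hv, hc⟩
    exact ⟨v, hv, h1.trans hc⟩

/-- **Comparison of the ring probabilities.** -/
theorem ring_compareZ {S : Sy} {s : ℤ} {E W N Kp ξ Z : Finset (ℤ × ℤ)} {p t : ℤ × ℤ}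
    (hK : Kp ⊆ kap N) (hN : ∀ u ∈ N, ∀ v ∈ N, Co Kp u v) (ht : t ∈ N)
    {V TV G0 : ℤ × ℤ → Prop} {L WL O C : Finset (ℤ × ℤ)} {a b z : ℝ}
    (g : GlueZ (E \ HB S (4 * s)) (HB S (4 * s)) (W ∪ Kp) (ξ.map S.G) Z (S.g (rv s ξ)) p t V TV G0
      L WL O C)
    (hA : Pr ((E \ HB S (4 * s)) \ Z)
      (fun ω => Co (ω ∪ O ∪ ((W ∪ Kp) ∪ ξ.map S.G ∪ ((E \ HB S (4 * s)) ∩ Z))) p t ∧
      ¬ Co (ω ∪ ((W ∪ Kp) ∪ ξ.map S.G ∪ ((E \ HB S (4 * s)) ∩ Z))) p t) ≤ a)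
    (hB : Pr ((E \ HB S (4 * s)) \ Z) (fun ω => Co (ω ∪ ((W ∪ Kp) ∪ ξ.map S.G)) p t ∧
      ¬ Co ((ω \ C) ∪ ((W ∪ Kp) ∪ ξ.map S.G)) p t) ≤ b)
    (hz : Pr (E \ HB S (4 * s)) (fun ω => ∃ v, Zv (E \ HB S (4 * s)) Z v ∧
      Co (ω ∪ ξ.map S.G) p v) ≤ z) :
    |wwS S s E W (fun v => v ∈ N) ξ - wwS S s (L \ WL) WL TV ξ| ≤ max a b + z := by
  rw [wwS_root' hK hN ht g.ring]
  exact g.compare hA hB hz

lemma Pr_exists_le {ι : Type} {E : Finset (ℤ × ℤ)} (I : Finset ι)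
    (S : ι → Finset (ℤ × ℤ) → Prop) {a : ι → ℝ} (h : ∀ i ∈ I, Pr E (S i) ≤ a i) :
    Pr E (fun ω => ∃ i ∈ I, S i ω) ≤ ∑ i ∈ I, a i := by
  classical
  induction I using Finset.induction_on with
  | empty =>
    rw [Finset.sum_empty]
    refine le_of_eq ?_
    unfold Pr
    simp
  | @insert i I hi ih =>
    rw [Finset.sum_insert hi]
    refine (Pr_mono (B := fun ω => S i ω ∨ ∃ j ∈ I, S j ω) ?_).trans
      ((Pr_or_le E _ _).trans (add_le_add (h i (mem_insert_self _ _))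
        (ih fun j hj => h j (mem_insert_of_mem hj))))
    rintro ω _ ⟨j, hj, hS⟩
    rcases mem_insert.1 hj with rfl | hj
    · exact Or.inl hS
    · exact Or.inr ⟨j, hj, hS⟩

/-- **Arms from the ring to the zones.** -/
theorem zone_arm {δ : ℝ} (hδ : Dcy δ) {ι : Type} {E ξ Z : Finset (ℤ × ℤ)} {p : ℤ × ℤ}
    (hE : ∀ e ∈ E, (e.1 + e.2) % 2 = 1) (I : Finset ι) (c : ι → ℤ × ℤ) (ρ R : ι → ℤ) (k : ι → ℕ)
    (h1 : ∀ i ∈ I, 1 ≤ ρ i) (h4 : ∀ i ∈ I, 4 ^ k i * ρ i ≤ R i)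
    (hZ : ∀ v, Zv E Z v → ∃ i ∈ I, |v.1 - (c i).1| ≤ ρ i ∧ |v.2 - (c i).2| ≤ ρ i)
    (hp : ∀ i ∈ I, Far (R i) (c i) p)
    (hξ : ∀ a b : ℤ × ℤ, IsUnit4 (b - a) → a + b ∈ ξ → ∀ i ∈ I, Far (R i) (c i) a) :
    Pr E (fun ω => ∃ v, Zv E Z v ∧ Co (ω ∪ ξ) p v) ≤ ∑ i ∈ I, (1 - δ) ^ k i := by
  refine (Pr_mono (B := fun ω => ∃ i ∈ I, ∃ u v : ℤ × ℤ, |u.1 - (c i).1| ≤ ρ i ∧
    |u.2 - (c i).2| ≤ ρ i ∧ (4 ^ k i * ρ i ≤ |v.1 - (c i).1| ∨ 4 ^ k i * ρ i ≤ |v.2 - (c i).2|) ∧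
    Co ω u v) ?_).trans (Pr_exists_le I _ fun i hi => hδ.2.2.1 E hE (c i) (ρ i) (h1 i hi) (k i))
  rintro ω _ ⟨v, hv, hc⟩
  obtain ⟨i, hi, h2, h3⟩ := hZ v hv
  obtain ⟨w, hw1, hw2⟩ := arm_far (κ := ω) (R := R i) (p := c i) hc.symm (by
    rintro a b ha ⟨hab1, hab2⟩
    refine ⟨hab1, ?_⟩
    rcases mem_union.1 hab2 with h | h
    · exact h
    · exact absurd (hξ a b hab1 h i hi) ha) (hp i hi)
  exact ⟨i, hi, v, w, h2, h3, hw1.imp (h4 i hi).trans (h4 i hi).trans, hw2⟩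

end Pool.Agent.H76.M7
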