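import Mathlib
import Pool.Agent.H76.M7.RingZ

set_option autoImplicit false
open Finset

/-! Module M7, 2.5: comparison of the connection probability of a half ring in an environment and in a
lattice region, with exceptional vertices `Zo` (near the tip, near `b`, grid vertices of the barrier)
which are treated by open arms. -/

namespace Pool.Agent.H76.M7

open Pool.Agent.H75.Perc Pool.Agent.H75.TwoArm Pool.Agent.H75.Four Pool.Agent.H49.Q1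
open Pool.Agent.H52.Q1
open Pool.Agent.H21.Q1 (Dcy arm_far)
open Pool.Agent.H77.Q1 (lbf Far Fac)
open Pool.Agent.Q1.M3 (star kap mem_kap_iff)

/-- Data of the comparison. `E`: random labels of the environment (off the barrier and off the
half ball `Hb`), `W0`: its fixed open labels, `ξ`: the ring, `q`: a vertex of the ring,
`p`: the end of the ring next to the vertex `t` of the barrier; `V`: the vertices of the region, `L`: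
its labels, `TV`: the vertices of the wired arc, `WL`: its labels, `O`: opened labels, `C`: closed
labels, `Zo`: exceptional vertices. -/
structure GlueV (E Hb W0 ξ : Finset (ℤ × ℤ)) (q p t : ℤ × ℤ) (V TV Zo : ℤ × ℤ → Prop)
    (L WL O C : Finset (ℤ × ℤ)) : Prop where
  ring : Co ξ q p
  pV : V p
  tV : ¬ V t
  sub : L ⊆ E ∪ Hb
  dis : Disjoint E Hb
  xiV : ∀ a b : ℤ × ℤ, IsUnit4 (b - a) → a + b ∈ ξ → V a → V b
  Lmem : ∀ a b : ℤ × ℤ, IsUnit4 (b - a) → V a → V b → a + b ∈ L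
  W0L : Disjoint W0 L
  W0V : ∀ a b : ℤ × ℤ, IsUnit4 (b - a) → a + b ∈ W0 → V a → TV a ∨ Zo a
  WLT : ∀ a b : ℤ × ℤ, IsUnit4 (b - a) → a + b ∈ WL → TV a
  tie : ∀ v, TV v → Zo v ∨ Co (O ∪ (W0 ∪ ξ)) v t
  cl : ∀ a b : ℤ × ℤ, IsUnit4 (b - a) → a + b ∈ E → V a → ¬ TV a → ¬ V b → a + b ∈ C ∨ Zo a

namespace GlueV

variable {E Hb W0 ξ : Finset (ℤ × ℤ)} {q p t : ℤ × ℤ} {V TV Zo : ℤ × ℤ → Prop}
  {L WL O C : Finset (ℤ × ℤ)} (g : GlueV E Hb W0 ξ q p t V TV Zo L WL O C)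

include g

/-- The polygon event implies the event of the environment with the ties opened. -/
lemma detA {ω : Finset (ℤ × ℤ)} (hω : ω ⊆ E) (h : CJ (WL ∪ ξ) TV q (ω ∩ L)) :
    Co (ω ∪ O ∪ (W0 ∪ ξ)) p t ∨ ∃ v, Zo v ∧ Co (ω ∪ ξ) p v := by
  obtain ⟨v, hv, hc⟩ := h
  have key : ∀ a, Co (ω ∩ L ∪ (WL ∪ ξ)) q a → Co (ω ∪ ξ) q a ∨ ∃ z, TV z ∧ Co (ω ∪ ξ) q z := by
    intro a ha
    induction ha with
    | refl => exact Or.inl (Co.refl _ _)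
    | @tail a b _ hab ih =>
      rcases ih with ih | ih
      · obtain ⟨h1, h2⟩ := hab
        rw [mem_union, mem_union, mem_inter] at h2
        rcases h2 with h2 | h2 | h2
        · exact Or.inl (Relation.ReflTransGen.tail ih ⟨h1, mem_union_left _ h2.1⟩)
        · exact Or.inr ⟨a, g.WLT a b h1 h2, ih⟩
        · exact Or.inl (Relation.ReflTransGen.tail ih ⟨h1, mem_union_right _ h2⟩)
      · exact Or.inr ih
  have hz : ∃ z, TV z ∧ Co (ω ∪ ξ) q z := by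
    rcases key v hc with h1 | h1
    · exact ⟨v, hv, h1⟩
    · exact h1
  obtain ⟨z, hz, hqz⟩ := hz
  have h1 : Co (ω ∪ ξ) p z := (g.ring.symm.mono subset_union_right).trans hqz
  rcases g.tie z hz with h2 | h2
  · exact Or.inr ⟨z, h2, h1⟩
  · refine Or.inl ((h1.mono ?_).trans (h2.mono ?_))
    · exact union_subset_union subset_union_left subset_union_right
    · exact union_subset_union subset_union_right (subset_refl _)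

/-- The event of the environment with the labels `C` closed implies the polygon event. -/
lemma detB {ω : Finset (ℤ × ℤ)} (hω : ω ⊆ E) (h : Co (ω \ C ∪ (W0 ∪ ξ)) p t) :
    CJ (WL ∪ ξ) TV q (ω ∩ L) ∨ ∃ v, Zo v ∧ Co (ω ∪ ξ) p v := by
  have e1 : ω ∩ L ∪ ξ ⊆ ω ∩ L ∪ (WL ∪ ξ) := union_subset_union (subset_refl _) subset_union_right
  have e2 : ω ∩ L ∪ ξ ⊆ ω ∪ ξ := union_subset_union inter_subset_left (subset_refl _)
  have key : ∀ a, Co (ω \ C ∪ (W0 ∪ ξ)) p a →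
      (V a ∧ Co (ω ∩ L ∪ ξ) q a) ∨ (CJ (WL ∪ ξ) TV q (ω ∩ L) ∨ ∃ v, Zo v ∧ Co (ω ∪ ξ) p v) := by
    intro a ha
    induction ha with
    | refl => exact Or.inl ⟨g.pV, g.ring.mono subset_union_right⟩
    | @tail a b _ hab ih =>
      rcases ih with ⟨hV, ih⟩ | ih
      · by_cases hT : TV a
        · exact Or.inr (Or.inl ⟨a, hT, ih.mono e1⟩)
        by_cases hZ : Zo a
        · exact Or.inr (Or.inr ⟨a, hZ, (g.ring.symm.mono subset_union_right).trans (ih.mono e2)⟩)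
        obtain ⟨h1, h2⟩ := hab
        rw [mem_union, mem_union, mem_sdiff] at h2
        by_cases hb : V b
        · have hL := g.Lmem a b h1 hV hb
          left
          refine ⟨hb, Relation.ReflTransGen.tail ih ⟨h1, ?_⟩⟩
          rcases h2 with h2 | h2 | h2
          · exact mem_union_left _ (mem_inter.2 ⟨h2.1, hL⟩)
          · exact absurd hL (disjoint_left.1 g.W0L h2)
          · exact mem_union_right _ h2
        · exfalso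
          rcases h2 with h2 | h2 | h2
          · rcases g.cl a b h1 (hω h2.1) hV hT hb with h3 | h3
            · exact h2.2 h3
            · exact hZ h3
          · rcases g.W0V a b h1 h2 hV with h3 | h3
            · exact hT h3
            · exact hZ h3
          · exact hb (g.xiV a b h1 h2 hV)
      · exact Or.inr ih
  rcases key t h with h1 | h1
  · exact absurd h1.1 g.tV
  · exact h1

/-- The polygon probability in terms of the environment. -/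
lemma polyP : Pr ((L \ WL) \ Hb) (CJ (WL ∪ ξ) TV q) = Pr E (fun ω => CJ (WL ∪ ξ) TV q (ω ∩ L)) := by
  have hs : (L \ WL) \ Hb ⊆ E := by
    intro e he
    obtain ⟨h1, h2⟩ := mem_sdiff.1 he
    exact (mem_union.1 (g.sub (mem_sdiff.1 h1).1)).resolve_right h2
  rw [← Pr_restrict hs (CJ (WL ∪ ξ) TV q)]
  refine Pr_congr fun ω hω => ?_
  have : ω ∩ ((L \ WL) \ Hb) ∪ (WL ∪ ξ) = ω ∩ L ∪ (WL ∪ ξ) := by
    ext e
    have h1 : e ∈ ω → e ∉ Hb := fun h => disjoint_left.1 g.dis (hω h)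
    simp only [mem_union, mem_inter, mem_sdiff]
    tauto
  unfold CJ
  rw [this]

/-- **The comparison.** -/
theorem compare {a b z : ℝ}
    (hA : Pr E (fun ω => Co (ω ∪ O ∪ (W0 ∪ ξ)) p t ∧ ¬ Co (ω ∪ (W0 ∪ ξ)) p t) ≤ a)
    (hB : Pr E (fun ω => Co (ω ∪ (W0 ∪ ξ)) p t ∧ ¬ Co ((ω \ C) ∪ (W0 ∪ ξ)) p t) ≤ b)
    (hz : Pr E (fun ω => ∃ v, Zo v ∧ Co (ω ∪ ξ) p v) ≤ z) :
    |Pr E (fun ω => Co (ω ∪ (W0 ∪ ξ)) p t) - Pr ((L \ WL) \ Hb) (CJ (WL ∪ ξ) TV q)| ≤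
      max a b + z := by
  rw [g.polyP]
  have h1 : Pr E (fun ω => CJ (WL ∪ ξ) TV q (ω ∩ L)) ≤
      Pr E (fun ω => Co (ω ∪ (W0 ∪ ξ)) p t) + (a + z) := by
    refine (Pr_mono (B := fun ω => Co (ω ∪ (W0 ∪ ξ)) p t ∨
      ((Co (ω ∪ O ∪ (W0 ∪ ξ)) p t ∧ ¬ Co (ω ∪ (W0 ∪ ξ)) p t) ∨
      ∃ v, Zo v ∧ Co (ω ∪ ξ) p v)) ?_).trans
      ((Pr_or_le E _ _).trans (add_le_add le_rfl ((Pr_or_le E _ _).trans (add_le_add hA hz))))
    intro ω hω h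
    rcases g.detA hω h with h2 | h2
    · by_cases h3 : Co (ω ∪ (W0 ∪ ξ)) p t
      · exact Or.inl h3
      · exact Or.inr (Or.inl ⟨h2, h3⟩)
    · exact Or.inr (Or.inr h2)
  have h2 : Pr E (fun ω => Co (ω ∪ (W0 ∪ ξ)) p t) ≤
      Pr E (fun ω => CJ (WL ∪ ξ) TV q (ω ∩ L)) + (b + z) := by
    refine (Pr_mono (B := fun ω => CJ (WL ∪ ξ) TV q (ω ∩ L) ∨
      ((Co (ω ∪ (W0 ∪ ξ)) p t ∧ ¬ Co (ω \ C ∪ (W0 ∪ ξ)) p t) ∨
      ∃ v, Zo v ∧ Co (ω ∪ ξ) p v)) ?_).trans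
      ((Pr_or_le E _ _).trans (add_le_add le_rfl ((Pr_or_le E _ _).trans (add_le_add hB hz))))
    intro ω hω h
    by_cases h4 : Co (ω \ C ∪ (W0 ∪ ξ)) p t
    · rcases g.detB hω h4 with h3 | h3
      · exact Or.inl h3
      · exact Or.inr (Or.inr h3)
    · exact Or.inr (Or.inl ⟨h, h4⟩)
  rw [abs_le]
  have e1 := le_max_left a b
  have e2 := le_max_right a b
  constructor <;> linarith

end GlueV

/-- **Comparison of the ring probabilities.** -/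
theorem ring_compareV {S : Sy} {s : ℤ} {E W N Kp ξ : Finset (ℤ × ℤ)} {p t : ℤ × ℤ}
    (hK : Kp ⊆ kap N) (hN : ∀ u ∈ N, ∀ v ∈ N, Co Kp u v) (ht : t ∈ N)
    {V TV Zo : ℤ × ℤ → Prop} {L WL O C : Finset (ℤ × ℤ)} {a b z : ℝ}
    (g : GlueV (E \ HB S (4 * s)) (HB S (4 * s)) (W ∪ Kp) (ξ.map S.G) (S.g (rv s ξ)) p t V TV Zo
      L WL O C)
    (hA : Pr (E \ HB S (4 * s)) (fun ω => Co (ω ∪ O ∪ ((W ∪ Kp) ∪ ξ.map S.G)) p t ∧
      ¬ Co (ω ∪ ((W ∪ Kp) ∪ ξ.map S.G)) p t) ≤ a)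
    (hB : Pr (E \ HB S (4 * s)) (fun ω => Co (ω ∪ ((W ∪ Kp) ∪ ξ.map S.G)) p t ∧
      ¬ Co ((ω \ C) ∪ ((W ∪ Kp) ∪ ξ.map S.G)) p t) ≤ b)
    (hz : Pr (E \ HB S (4 * s)) (fun ω => ∃ v, Zo v ∧ Co (ω ∪ ξ.map S.G) p v) ≤ z) :
    |wwS S s E W (fun v => v ∈ N) ξ - wwS S s (L \ WL) WL TV ξ| ≤ max a b + z := by
  rw [wwS_root' hK hN ht g.ring]
  exact g.compare hA hB hz

/-- **Arms from the ring to the exceptional vertices.** -/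
theorem zone_armV {δ : ℝ} (hδ : Dcy δ) {ι : Type} {E ξ : Finset (ℤ × ℤ)} {p : ℤ × ℤ}
    {Zo : ℤ × ℤ → Prop}
    (hE : ∀ e ∈ E, (e.1 + e.2) % 2 = 1) (I : Finset ι) (c : ι → ℤ × ℤ) (ρ R : ι → ℤ) (k : ι → ℕ)
    (h1 : ∀ i ∈ I, 1 ≤ ρ i) (h4 : ∀ i ∈ I, 4 ^ k i * ρ i ≤ R i)
    (hZ : ∀ v, Zo v → ∃ i ∈ I, |v.1 - (c i).1| ≤ ρ i ∧ |v.2 - (c i).2| ≤ ρ i)
    (hp : ∀ i ∈ I, Far (R i) (c i) p)
    (hξ : ∀ a b : ℤ × ℤ, IsUnit4 (b - a) → a + b ∈ ξ → ∀ i ∈ I, Far (R i) (c i) a) :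
    Pr E (fun ω => ∃ v, Zo v ∧ Co (ω ∪ ξ) p v) ≤ ∑ i ∈ I, (1 - δ) ^ k i := by
  refine (Pr_mono (B := fun ω => ∃ i ∈ I, ∃ u v : ℤ × ℤ, |u.1 - (c i).1| ≤ ρ i ∧
    |u.2 - (c i).2| ≤ ρ i ∧ (4 ^ k i * ρ i ≤ |v.1 - (c i).1| ∨ 4 ^ k i * ρ i ≤ |v.2 - (c i).2|) ∧
    Co ω u v) ?_).trans (Pr_exists_le I _ fun i hi => hδ.2.2.1 E hE (c i) (ρ i) (h1 i hi) (k i))
  rintro ω _ ⟨v, hv, hc⟩
  obtain ⟨i, hi, h2, h3⟩ := hZ v hv
  obtain ⟨w, hw1, hw2⟩ := arm_far (κ := ω) (R := R i) (p := c i) hc.symm (by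
    rintro a b ha ⟨hab1, hab2⟩
    refine ⟨hab1, ?_⟩
    rcases mem_union.1 hab2 with h | h
    · exact h
    · exact absurd (hξ a b hab1 h i hi) ha) (hp i hi)
  exact ⟨i, hi, v, w, h2, h3, hw1.imp (h4 i hi).trans (h4 i hi).trans, hw2⟩

/-- **Opening the ties.** -/
theorem ring_open0 {E W0 ξ : Finset (ℤ × ℤ)} {p t f1 f2 : ℤ × ℤ} {δ : ℝ} (hδ : Dcy δ)
    (hpt : IsUnit4 (t - p))
    (hE : ∀ e ∈ E, (e.1 + e.2) % 2 = 1) (hW : ∀ e ∈ W0, (e.1 + e.2) % 2 = 1)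
    (hx : ∀ e ∈ ξ, (e.1 + e.2) % 2 = 1) (h0E : p + t ∉ E) (h0W : p + t ∉ W0) (h0x : p + t ∉ ξ)
    (W0t : ∀ a b : ℤ × ℤ, IsUnit4 (b - a) → a + b ∈ W0 → Co W0 a t)
    (hf : Fac (p + t) f1 f2) {k : ℕ} {O : Finset (ℤ × ℤ)} (hO : O ⊆ E)
    (hTie : ∀ v, (∃ o ∈ O, v = eu o ∨ v = ev o) → ∃ (T : Finset (ℤ × ℤ)) (c : ℤ × ℤ) (r D : ℤ),
      1 ≤ r ∧ 4 ^ k * r ≤ D ∧ T ⊆ O ∧
      (∀ m ∈ T, |m.1 - 2 * c.1| ≤ 2 * r - 2 ∧ |m.2 - 2 * c.2| ≤ 2 * r - 2) ∧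
      Co (T ∪ W0) v t ∧
      ∀ z z' g, IsUnit4 (z' - z) → lbf z z' ∈ T →
        CoX (du E ∅) (fun u => ¬ Far D c u) z g → ¬ Scl E W0 ξ f2 g) :
    Pr E (fun ω => Co (ω ∪ O ∪ (W0 ∪ ξ)) p t ∧ ¬ Co (ω ∪ (W0 ∪ ξ)) p t) ≤ (1 - δ) ^ k := by
  have h := ring_open (Z := ∅) hδ hpt hE hW hx h0E h0W h0x W0t hf (k := k) (O := O)
    (by rw [sdiff_empty]; exact hO) (by rw [sdiff_empty]; exact hTie)
  rwa [sdiff_empty, inter_empty, union_empty] at h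

/-- **Closing the labels which leave the region.** -/
theorem ring_dual0 {E W0 ξ : Finset (ℤ × ℤ)} {p t f1 f2 : ℤ × ℤ} {δ : ℝ} (hδ : Dcy δ)
    (hpt : IsUnit4 (t - p))
    (hE : ∀ e ∈ E, (e.1 + e.2) % 2 = 1) (hW : ∀ e ∈ W0, (e.1 + e.2) % 2 = 1)
    (hx : ∀ e ∈ ξ, (e.1 + e.2) % 2 = 1) (h0E : p + t ∉ E) (h0W : p + t ∉ W0) (h0x : p + t ∉ ξ)
    (hEG : Disjoint E (W0 ∪ ξ))
    (hf : Fac (p + t) f1 f2) {k : ℕ} {C : Finset (ℤ × ℤ)} (hC : C ⊆ E)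
    (hTie : ∀ g g', IsUnit4 (g' - g) → lbf g g' ∈ C → ∃ (T : Finset (ℤ × ℤ)) (c : ℤ × ℤ) (r D : ℤ)
      (f : ℤ × ℤ), 1 ≤ r ∧ 4 ^ k * r ≤ D ∧ T ⊆ C ∧
      (∀ m ∈ T, |m.1 - 2 * c.1| ≤ 2 * r - 3 ∧ |m.2 - 2 * c.2| ≤ 2 * r - 3) ∧
      Co (du T ∅) g f ∧ (∃ F, Co (du F (insert (p + t) (E ∪ (W0 ∪ ξ)))) f2 f) ∧
      ∀ v v' h, IsUnit4 (v' - v) → v + v' ∈ T →
        CoX E (fun u => ¬ Far (D + 1) c u) v h → ¬ Sop W0 ξ t h) :
    Pr E (fun ω => Co (ω ∪ (W0 ∪ ξ)) p t ∧ ¬ Co ((ω \ C) ∪ (W0 ∪ ξ)) p t) ≤ (1 - δ) ^ k := by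
  have h := ring_dual (Z := ∅) hδ hpt hE hW hx h0E h0W h0x hEG hf (k := k) (C := C)
    (by rw [sdiff_empty]; exact hC) (by rw [sdiff_empty]; exact hTie)
  rwa [sdiff_empty] at h

end Pool.Agent.H76.M7
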