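import Mathlib
import Pool.Agent.H76.M7.Cut
import Pool.Agent.H76.M7.GlueV
import Pool.Agent.H76.M7.Side

set_option autoImplicit false
open Finset

/-! Module M7, 2.5: families of primal and dual ties of a state. -/

namespace Pool.Agent.H76.M7

open Pool.Agent.H75.Perc Pool.Agent.H75.TwoArm Pool.Agent.H75.Four Pool.Agent.H69.Q1
open Pool.Agent.H77.Q1 (lbf Far Fac near_label co_strong)
open Pool.Agent.H21.Q1 (ad_du0 InvL rch rch_sub rch_co rch_face)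
open Pool.Agent.H42.Q1 (RB co_ends)
open Pool.Agent.H28.Q1 (Inv ClJ)
open Pool.Agent.Q1.M3 (star mem_star_iff)

/-- A state with its fixed open labels `W0` (off the half ball `Hb`, with the ring `ξ`). -/
structure StV (X : DEnv) (N Hb W0 ξ : Finset (ℤ × ℤ)) (t : ℤ × ℤ) : Prop where
  inv : Inv X
  invL : InvL X
  odd : ∀ e ∈ X.E, (e.1 + e.2) % 2 = 1
  WW : X.W ⊆ W0
  WN : ∀ e ∈ W0, e ∈ X.W ∨ e ∈ star N
  xi : ξ ⊆ Hb
  bt : Co W0 (vx X.β) t
  tN : t ∈ N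

/-- The box of radius `D` around `c` is away from the barrier and the half ball, and is not cut. -/
structure BoxOk (X : DEnv) (N Hb : Finset (ℤ × ℤ)) (f2 c : ℤ × ℤ) (D : ℤ) : Prop where
  cut : NoCutC X c (D + 1)
  nN : ∀ v ∈ N, Far (D + 3) c v
  nH : ∀ e ∈ Hb, Far (D + 3) c (eu e) ∧ Far (D + 3) c (ev e)
  nf : Far (D + 3) c f2

lemma far_mono {c v : ℤ × ℤ} {D D' : ℤ} (h : D' ≤ D) (hf : Far D c v) : Far D' c v := by
  unfold Far at hf ⊢
  omega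

/-- a label with an end in the box -/
lemma BoxOk.lab {X : DEnv} {N Hb : Finset (ℤ × ℤ)} {f2 c : ℤ × ℤ} {D : ℤ}
    (h : BoxOk X N Hb f2 c D) {a b : ℤ × ℤ} (hab : IsUnit4 (b - a)) (ha : ¬ Far (D + 1) c a) :
    a + b ∉ star N ∧ a + b ∉ Hb := by
  have hb : ¬ Far (D + 3) c b := by
    intro h1
    apply ha
    have h2 := unit_cases hab
    unfold Far at h1 ⊢
    rw [le_abs, le_abs] at h1 ⊢
    omega
  have ha' : ¬ Far (D + 3) c a := fun h1 => ha (far_mono (by omega) h1)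
  obtain ⟨h1, h2⟩ := Pool.Agent.H42.Q1.ends_add hab
  constructor
  · rw [mem_star_iff h1]
    rintro (h3 | h3)
    · have := h.nN _ h3
      rcases h2 with ⟨h4, h5⟩ | ⟨h4, h5⟩
      · exact ha' (by rw [← h4]; exact this)
      · exact hb (by rw [← h4]; exact this)
    · have := h.nN _ h3
      rcases h2 with ⟨h4, h5⟩ | ⟨h4, h5⟩
      · exact hb (by rw [← h5]; exact this)
      · exact ha' (by rw [← h5]; exact this)
  · intro h3
    have := (h.nH _ h3).1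
    rcases h2 with ⟨h4, h5⟩ | ⟨h4, h5⟩
    · exact ha' (by rw [← h4]; exact this)
    · exact hb (by rw [← h4]; exact this)

/-- a label with a face in the box -/
lemma BoxOk.fac {X : DEnv} {N Hb : Finset (ℤ × ℤ)} {f2 c : ℤ × ℤ} {D : ℤ}
    (h : BoxOk X N Hb f2 c D) {g g' : ℤ × ℤ} (hg : IsUnit4 (g' - g)) (ha : ¬ Far D c g) :
    lbf g g' ∉ star N ∧ lbf g g' ∉ Hb := by
  have ho : ((lbf g g').1 + (lbf g g').2) % 2 = 1 := Pool.Agent.H21.Q1.odd_lbf hg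
  obtain ⟨h1, h2⟩ := Pool.Agent.H42.Q1.eu_ev_step ho
  have h3 : ¬ Far (D + 1) c (eu (lbf g g')) := by
    intro h3
    apply ha
    have h4 := unit_cases hg
    unfold Far eu lbf at h3
    unfold Far
    simp only [Prod.fst_sub, Prod.fst_add, Prod.snd_sub, Prod.snd_add] at h3
    rw [le_abs, le_abs] at h3 ⊢
    omega
  have h4 := h.lab h1 h3
  rwa [h2] at h4

lemma exists_cor {h h' : ℤ × ℤ} (hu : IsUnit4 (h' - h)) : ∃ z, plab z = h + h' ∧ vx z = h := by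
  obtain ⟨k, hk⟩ : ∃ k : ℤ, h' = h + H75.Perc.dir (k + 1) := by
    have h1 := unit_cases hu
    obtain ⟨a, b⟩ := h
    obtain ⟨a', b'⟩ := h'
    simp only at h1
    rcases h1 with h1 | h1 | h1 | h1
    · refine ⟨-1, ?_⟩
      have : H75.Perc.dir (-1 + 1) = (1, 0) := by decide
      rw [this, Prod.ext_iff]; simp only [Prod.fst_add, Prod.snd_add]; omega
    · refine ⟨0, ?_⟩
      have : H75.Perc.dir (0 + 1) = (0, 1) := by decide
      rw [this, Prod.ext_iff]; simp only [Prod.fst_add, Prod.snd_add]; omega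
    · refine ⟨1, ?_⟩
      have : H75.Perc.dir (1 + 1) = (-1, 0) := by decide
      rw [this, Prod.ext_iff]; simp only [Prod.fst_add, Prod.snd_add]; omega
    · refine ⟨2, ?_⟩
      have : H75.Perc.dir (2 + 1) = (0, -1) := by decide
      rw [this, Prod.ext_iff]; simp only [Prod.fst_add, Prod.snd_add]; omega
  exact ⟨cc k h, by rw [plab_cc, hk], vx_cc _ _⟩

/-- a label in the small box -/
lemma small_ends {T : Finset (ℤ × ℤ)} {c e : ℤ × ℤ} {r D : ℤ} (hr : r ≤ D)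
    (hT : ∀ m ∈ T, |m.1 - 2 * c.1| ≤ 2 * r - 3 ∧ |m.2 - 2 * c.2| ≤ 2 * r - 3) (he : e ∈ T) :
    ¬ Far D c (eu e) ∧ ¬ Far D c (ev e) := by
  obtain ⟨h1, h2⟩ := hT e he
  unfold Far eu ev
  rw [abs_le] at h1 h2
  simp only [not_or, not_le, abs_lt]
  omega

lemma small_face {T : Finset (ℤ × ℤ)} {c z z' : ℤ × ℤ} {r D : ℤ} (hr : r ≤ D)
    (hT : ∀ m ∈ T, |m.1 - 2 * c.1| ≤ 2 * r - 3 ∧ |m.2 - 2 * c.2| ≤ 2 * r - 3)
    (hz : IsUnit4 (z' - z)) (he : lbf z z' ∈ T) : ¬ Far D c z := by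
  obtain ⟨h1, h2⟩ := hT _ he
  have h3 := unit_cases hz
  unfold lbf at h1 h2
  simp only [Prod.fst_sub, Prod.fst_add, Prod.snd_sub, Prod.snd_add] at h1 h2
  unfold Far
  rw [abs_le] at h1 h2
  simp only [not_or, not_le, abs_lt]
  omega

lemma small_vert {T : Finset (ℤ × ℤ)} {c v v' : ℤ × ℤ} {r D : ℤ} (hr : r ≤ D)
    (hT : ∀ m ∈ T, |m.1 - 2 * c.1| ≤ 2 * r - 3 ∧ |m.2 - 2 * c.2| ≤ 2 * r - 3)
    (hz : IsUnit4 (v' - v)) (he : v + v' ∈ T) : ¬ Far D c v := by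
  obtain ⟨h1, h2⟩ := hT _ he
  have h3 := unit_cases hz
  simp only [Prod.fst_add, Prod.snd_add] at h1 h2
  unfold Far
  rw [abs_le] at h1 h2
  simp only [not_or, not_le, abs_lt]
  omega

section

variable {X : DEnv} {N Hb W0 ξ : Finset (ℤ × ℤ)} {t f2 : ℤ × ℤ} {r D : ℤ}

/-- **Primal tie** of the vertex `v`. -/
def PT (X : DEnv) (N Hb : Finset (ℤ × ℤ)) (f2 : ℤ × ℤ) (r D : ℤ) (v : ℤ × ℤ) : Prop :=
  ∃ (T : Finset (ℤ × ℤ)) (c : ℤ × ℤ), T ⊆ X.E ∧ BoxOk X N Hb f2 c D ∧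
    (∀ m ∈ T, |m.1 - 2 * c.1| ≤ 2 * r - 3 ∧ |m.2 - 2 * c.2| ≤ 2 * r - 3) ∧
    Co (T ∪ X.W) v (vx X.β)

/-- **Dual tie** of the label `l`. -/
def DT (X : DEnv) (N Hb : Finset (ℤ × ℤ)) (f2 : ℤ × ℤ) (r D : ℤ) (l : ℤ × ℤ) : Prop :=
  ∃ (T : Finset (ℤ × ℤ)) (c g g' f : ℤ × ℤ), T ⊆ X.E ∧ BoxOk X N Hb f2 c D ∧
    (∀ m ∈ T, |m.1 - 2 * c.1| ≤ 2 * r - 3 ∧ |m.2 - 2 * c.2| ≤ 2 * r - 3) ∧
    IsUnit4 (g' - g) ∧ lbf g g' = l ∧ l ∈ T ∧ Co (du T ∅) g f ∧ ClJ X (fi X.α) f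

lemma tie_sub {c : ℤ × ℤ} {T : Finset (ℤ × ℤ)} (hX : StV X N Hb W0 ξ t) (hr : r ≤ D)
    (hT : T ⊆ X.E) (hB : BoxOk X N Hb f2 c D)
    (hTc : ∀ m ∈ T, |m.1 - 2 * c.1| ≤ 2 * r - 3 ∧ |m.2 - 2 * c.2| ≤ 2 * r - 3) :
    T ⊆ (X.E \ star N) \ Hb := by
  intro e he
  have h1 := hT he
  obtain ⟨h2, h3⟩ := Pool.Agent.H42.Q1.eu_ev_step (hX.odd e h1)
  have h4 := hB.lab h2 (fun h5 => (small_ends hr hTc he).1 (far_mono (by omega) h5))
  rw [h3] at h4
  exact mem_sdiff.2 ⟨mem_sdiff.2 ⟨h1, h4.1⟩, h4.2⟩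

/-- **The union of the primal ties.** -/
theorem exists_O (hX : StV X N Hb W0 ξ t) {k : ℕ} (hr : 1 ≤ r) (hD : 4 ^ k * r ≤ D)
    (VA : Finset (ℤ × ℤ)) (hVA : ∀ v ∈ VA, PT X N Hb f2 r D v) :
    ∃ O : Finset (ℤ × ℤ), O ⊆ (X.E \ star N) \ Hb ∧
      (∀ v, (∃ o ∈ O, v = eu o ∨ v = ev o) → ∃ (T : Finset (ℤ × ℤ)) (c : ℤ × ℤ) (r D : ℤ),
      1 ≤ r ∧ 4 ^ k * r ≤ D ∧ T ⊆ O ∧
      (∀ m ∈ T, |m.1 - 2 * c.1| ≤ 2 * r - 2 ∧ |m.2 - 2 * c.2| ≤ 2 * r - 2) ∧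
      Co (T ∪ W0) v t ∧
      ∀ z z' g, IsUnit4 (z' - z) → lbf z z' ∈ T →
        CoX (du ((X.E \ star N) \ Hb) ∅) (fun u => ¬ Far D c u) z g →
          ¬ Scl ((X.E \ star N) \ Hb) W0 ξ f2 g) ∧
      ∀ v ∈ VA, Co (O ∪ W0) v t := by
  classical
  have hrD : r ≤ D := by
    have h1 : (1 : ℤ) ≤ 4 ^ k := one_le_pow₀ (by norm_num)
    nlinarith
  choose! T c h1 h2 h3 h4 using hVA
  set T' : ℤ × ℤ → Finset (ℤ × ℤ) := fun v =>
    (T v).filter fun l => Co (T v ∪ X.W) (eu l) (vx X.β) with hT'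
  have hsub : ∀ v, T' v ⊆ T v := fun v => filter_subset _ _
  have hstr : ∀ v w, Co (T v ∪ X.W) w (vx X.β) → Co (T' v ∪ X.W) w (vx X.β) :=
    fun v w hw => co_strong hw _ fun _ _ h => h
  have hto : ∀ v w, Co (T' v ∪ X.W) w (vx X.β) → Co (T' v ∪ W0) w t := fun v w hw =>
    (hw.mono (union_subset_union (subset_refl _) hX.WW)).trans (hX.bt.mono subset_union_right)
  refine ⟨VA.biUnion T', ?_, ?_, ?_⟩
  · intro e he
    obtain ⟨v, hv, he⟩ := mem_biUnion.1 he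
    exact tie_sub hX hrD (h1 v hv) (h2 v hv) (h3 v hv) (hsub v he)
  · rintro w ⟨o, ho, hw⟩
    obtain ⟨v, hv, ho⟩ := mem_biUnion.1 ho
    have hoo : (o.1 + o.2) % 2 = 1 := hX.odd _ (h1 v hv (hsub v ho))
    refine ⟨T' v, c v, r, D, hr, hD, subset_biUnion_of_mem T' hv, ?_, ?_, ?_⟩
    · intro m hm
      obtain ⟨a1, a2⟩ := h3 v hv m (hsub v hm)
      exact ⟨by omega, by omega⟩
    · have h8 : Co (T' v ∪ X.W) (eu o) (vx X.β) := hstr v _ (mem_filter.1 ho).2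
      refine hto v w ?_
      rcases hw with rfl | rfl
      · exact h8
      · exact (co_ends hoo (mem_union_left _ ho)).symm.trans h8
    · intro z z' g hz hzT hp
      have hz0 : ¬ Far D (c v) z := small_face hrD (h3 v hv) hz (hsub v hzT)
      have hgF : ¬ Far D (c v) g := by
        rcases coX_last hp with h5 | h5
        · rw [h5]; exact hz0
        · exact h5
      have hno := iso_open (E := (X.E \ star N) \ Hb) (T := T' v) (h2 v hv).cut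
        (sdiff_subset.trans sdiff_subset) ((hsub v).trans (h1 v hv)) (fun e he => by
          obtain ⟨a1, a2⟩ := small_ends hrD (h3 v hv) (hsub v he)
          exact ⟨fun h => a1 (far_mono (by omega) h), fun h => a2 (far_mono (by omega) h)⟩)
        (fun z z' hz hzT h => small_face hrD (h3 v hv) hz (hsub v hzT) (far_mono (by omega) h))
        (fun e he => (hstr v _ (mem_filter.1 he).2).symm) hz hzT
        (coX_mono (subset_refl _) (fun u hu h => hu (far_mono (by omega) h)) hp)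
      rintro (h5 | ⟨g', hg', h5, h6⟩)
      · rw [h5] at hgF
        exact hgF (far_mono (by omega) (h2 v hv).nf)
      · apply hno
        obtain ⟨h7, h8⟩ := (h2 v hv).fac hg' hgF
        refine hX.invL g g' hg' ?_ ?_
        · intro h9
          exact h5 (mem_sdiff.2 ⟨mem_sdiff.2 ⟨h9, h7⟩, h8⟩)
        · intro h9
          exact h6 (mem_union_left _ (hX.WW h9))
  · intro v hv
    exact (hto v v (hstr v v (h4 v hv))).mono
      (union_subset_union (subset_biUnion_of_mem T' hv) (subset_refl _))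

/-- **The union of the dual ties.** -/
theorem exists_C (hX : StV X N Hb W0 ξ t) {k : ℕ} (hr : 1 ≤ r) (hD : 4 ^ k * r ≤ D)
    (L0 : Finset (ℤ × ℤ)) (hL0 : ∀ l ∈ L0, DT X N Hb f2 r D l) {G : Finset (ℤ × ℤ)}
    (hcl : ∀ f, ClJ X (fi X.α) f → ∃ F, Co (du F G) f2 f) :
    ∃ C : Finset (ℤ × ℤ), C ⊆ (X.E \ star N) \ Hb ∧ L0 ⊆ C ∧
      (∀ g g', IsUnit4 (g' - g) → lbf g g' ∈ C → ∃ (T : Finset (ℤ × ℤ)) (c : ℤ × ℤ) (r D : ℤ)
      (f : ℤ × ℤ), 1 ≤ r ∧ 4 ^ k * r ≤ D ∧ T ⊆ C ∧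
      (∀ m ∈ T, |m.1 - 2 * c.1| ≤ 2 * r - 3 ∧ |m.2 - 2 * c.2| ≤ 2 * r - 3) ∧
      Co (du T ∅) g f ∧ (∃ F, Co (du F G) f2 f) ∧
      ∀ v v' h, IsUnit4 (v' - v) → v + v' ∈ T →
        CoX ((X.E \ star N) \ Hb) (fun u => ¬ Far (D + 1) c u) v h → ¬ Sop W0 ξ t h) := by
  classical
  have hrD : r ≤ D := by
    have h1 : (1 : ℤ) ≤ 4 ^ k := one_le_pow₀ (by norm_num)
    nlinarith
  choose! T c g g' f h1 h2 h3 h4 h5 h6 h7 h8 using hL0
  set T' : ℤ × ℤ → Finset (ℤ × ℤ) := fun l => rch (T l) (g l) with hT'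
  have hsub : ∀ l, T' l ⊆ T l := fun l => rch_sub
  have hgf : ∀ l ∈ L0, Co (du (T' l) ∅) (g l) (f l) := fun l hl => rch_co (h7 l hl)
  refine ⟨L0.biUnion T', ?_, ?_, ?_⟩
  · intro e he
    obtain ⟨l, hl, he⟩ := mem_biUnion.1 he
    exact tie_sub hX hrD (h1 l hl) (h2 l hl) (h3 l hl) (hsub l he)
  · intro l hl
    refine mem_biUnion.2 ⟨l, hl, ?_⟩
    rw [hT']
    unfold rch
    rw [mem_filter]
    exact ⟨h6 l hl, g l, g' l, h4 l hl, h5 l hl, Co.refl _ _⟩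
  · intro z z' hz hzC
    obtain ⟨l, hl, hzT⟩ := mem_biUnion.1 hzC
    refine ⟨T' l, c l, r, D, f l, hr, hD, subset_biUnion_of_mem T' hl, ?_, ?_, hcl _ (h8 l hl), ?_⟩
    · intro m hm
      exact h3 l hl m (hsub l hm)
    · exact (rch_face hz hzT).trans (hgf l hl)
    · intro v v' h hv hvT hp
      have hno := iso_dual (E := (X.E \ star N) \ Hb) (T := T' l) (h2 l hl).cut
        (sdiff_subset.trans sdiff_subset) ((hsub l).trans (h1 l hl))
        (fun v v' hv hvT h => small_vert hrD (h3 l hl) hv (hsub l hvT) (far_mono (by omega) h))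
        (fun z z' hz hzT => ⟨fun h => small_face hrD (h3 l hl) hz (hsub l hzT)
          (far_mono (by omega) h), f l, (rch_face hz hzT).trans (hgf l hl), h8 l hl⟩)
        hv hvT hp
      have hv0 : ¬ Far (D + 1) (c l) v := fun h =>
        small_vert hrD (h3 l hl) hv (hsub l hvT) (far_mono (by omega) h)
      have hhF : ¬ Far (D + 1) (c l) h := by
        rcases coX_last hp with h9 | h9
        · rw [h9]; exact hv0
        · exact h9
      rintro (h9 | ⟨h', hh', h9⟩)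
      · rw [h9] at hhF
        exact hhF (far_mono (by omega) ((h2 l hl).nN _ hX.tN))
      · obtain ⟨h10, h11⟩ := (h2 l hl).lab hh' hhF
        rcases mem_union.1 h9 with h12 | h12
        · rcases hX.WN _ h12 with h13 | h13
          · -- a wired label is joined to the final vertex
            apply hno
            obtain ⟨o1, o2⟩ := Pool.Agent.H42.Q1.ends_add hh'
            obtain ⟨z, hz1, hz2⟩ := exists_cor hh'
            have h14 := hX.inv.co_of_mem (c := z) (by rw [hz1]; exact h13)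
            rwa [hz2] at h14
          · exact h10 h13
        · exact h11 (hX.xi h12)

end

end Pool.Agent.H76.M7
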