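import Mathlib
import Pool.Agent.H76.M7.Pos3
import Pool.Agent.H76.M7.OutL
import Pool.Agent.H76.M7.TieV

set_option autoImplicit false
open Finset Filter Topology

/-! # Module M7, 2.5: comparison of the ring probabilities for one state -/

namespace Pool.Agent.H76.M7

open Pool.Agent.H75.Perc Pool.Agent.H75.TwoArm Pool.Agent.H75.Four Pool.Agent.H69.Q1
open Pool.Agent.H49.Q1 Pool.Agent.H52.Q1
open Pool.Agent.H28.Q1 (Inv ClJ fi_of_closed)
open Pool.Agent.H21.Q1 (Sol kp rl rc per rc_per per_pos kp_kap kp_star perp_notkp rc_succ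
  Root exists_root ring_notW Wt Dcy)
open Pool.Agent.H77.Q1 (Fac fac_z Far lbf)
open Pool.Agent.H81.Q1 (pt DDomain Approx IsJordanDomain IsArcs)
open Pool.Agent.Q1.M3
open Pool.Agent.Q1.M3.Pg (SD LX gx lo hi lty LT rnd Tied RPos ringE outl_eq dir_congr LPol Ctx CC sd
  outl SS_pos cz Vl CC_first NB Fr Nr flat)
open Pool.Agent.H82.Q1.M7
open Pool.Agent.Q1.M4 (nextSide tail head)
open Pool.Agent.H5.Q1 (sp sp_zero sp_succ sp_len slen gp SS)

section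

variable {D : Set ℂ} {a b : ℂ} {A₁ A₂ : Set ℂ} {A : Approx D a b A₁ A₂} {r0 : ℝ} {B : Base A r0}

/-- The window of radius `c` around the point `i`. -/
def Wd (w : Win B) (n : ℕ) (i : ℤ) (c : ℝ) (v : ℤ × ℤ) : Prop :=
  |sc w n v - i * mesh (w.k1 + 1)| ≤ c ∧ |tc w n v| ≤ c

/-- The steps change the coordinates by at most `δ`. -/
lemma step_sc (w : Win B) (n : ℕ) {u v : ℤ × ℤ} (h : IsUnit4 (v - u)) :
    |sc w n v - sc w n u| ≤ A.δ n ∧ |tc w n v - tc w n u| ≤ A.δ n := by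
  have hδ := A.pos n
  rw [sc_sub, tc_sub, abs_mul, abs_mul, abs_of_pos hδ]
  have key : |dt w.k (v - u)| ≤ 1 ∧ |dt (w.k + 1) (v - u)| ≤ 1 := by
    unfold dt
    unfold IsUnit4 at h
    obtain ⟨d1, d2, hd⟩ : ∃ d1 d2, v - u = (d1, d2) := ⟨_, _, rfl⟩
    rw [hd] at h ⊢
    rcases dir_succ_cases w.k with ⟨-, h1, h2, -⟩ | ⟨-, h1, h2, -⟩ | ⟨-, h1, h2, -⟩ |
      ⟨-, h1, h2, -⟩ <;> rw [h1, h2] <;> simp only [Prod.mk.injEq] at h ⊢ <;> simp only [abs_le] <;>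
      omega
  have k1 : |(dt w.k (v - u) : ℝ)| ≤ 1 := by exact_mod_cast key.1
  have k2 : |(dt (w.k + 1) (v - u) : ℝ)| ≤ 1 := by exact_mod_cast key.2
  constructor <;> nlinarith

lemma Wd.step {w : Win B} {n : ℕ} {i : ℤ} {c : ℝ} {u v : ℤ × ℤ} (h : Wd w n i c u)
    (huv : IsUnit4 (v - u)) : Wd w n i (c + A.δ n) v := by
  obtain ⟨h1, h2⟩ := step_sc w n huv
  obtain ⟨h3, h4⟩ := h
  unfold Wd
  rw [abs_le] at h1 h2 h3 h4 ⊢
  rw [abs_le]
  constructor <;> constructor <;> linarith [h1.1, h1.2, h2.1, h2.2, h3.1, h3.2, h4.1, h4.2]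

lemma Wd.mono {w : Win B} {n : ℕ} {i : ℤ} {c c' : ℝ} (hc : c ≤ c') {u : ℤ × ℤ} (h : Wd w n i c u) :
    Wd w n i c' u := ⟨h.1.trans hc, h.2.trans hc⟩

/-- inside the window -/
lemma Wd.win {w : Win B} {n : ℕ} {i : ℤ} (hi : 0 ≤ i) {c l' : ℝ} (hc : i * mesh (w.k1 + 1) + c ≤ l')
    {u : ℤ × ℤ} (h : Wd w n i c u) : |sc w n u| ≤ l' ∧ |tc w n u| ≤ l' := by
  obtain ⟨h3, h4⟩ := h
  have h5 : 0 ≤ (i : ℝ) * mesh (w.k1 + 1) := by
    have := mesh_pos (w.k1 + 1)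
    have h6 : (0 : ℝ) ≤ i := by exact_mod_cast hi
    positivity
  rw [abs_le] at h3 h4 ⊢
  rw [abs_le]
  constructor <;> constructor <;> linarith [h3.1, h3.2, h4.1, h4.2]

/-- **A label from the barrier to the outside in the window is across the row.** -/
lemma row_of {w : Win B} {n : ℕ} {l' : ℝ} (hW : WinN w n l') {i : ℤ} (hi : 0 ≤ i) {c : ℝ}
    (hc1 : c + 4 * A.δ n ≤ i * mesh (w.k1 + 1)) (hc2 : i * mesh (w.k1 + 1) + c + 5 * A.δ n ≤ l')
    {u v : ℤ × ℤ} (huN : u ∈ B.N n) (hvN : v ∉ B.N n) (huv : IsUnit4 (v - u)) (hv : Wd w n i c v) :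
    ∃ m : ℕ, 0 < m ∧ (∀ j : ℕ, j ≤ m → RowOk w n j) ∧ u = ru w n m ∧
      v = ru w n m + H75.Perc.dir (w.k + 1) ∧ u + v = rw' w n m ∧
      i * mesh (w.k1 + 1) - c - 2 * A.δ n ≤ A.δ n * m := by
  have hδ := A.pos n
  have hu : Wd w n i (c + A.δ n) u := hv.step (unit4_symm huv)
  obtain ⟨su, tu⟩ := hu.win hi (l' := l') (by linarith)
  obtain ⟨sv, tv⟩ := hv.win hi (l' := l') (by linarith)
  have htu : tc w n u < 0 := by
    by_contra hc
    exact hW.fre u su tu (lt_of_le_of_ne (not_lt.1 hc) (tc_ne w n u).symm) huN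
  have htv : 0 < tc w n v := by
    by_contra hc
    exact hvN (hW.bar v sv tv (lt_of_le_of_ne (not_lt.1 hc) (tc_ne w n v))).1
  have hd : 0 < dt (w.k + 1) (v - u) := by
    have h1 := tc_sub w n v u
    have h2 : 0 < A.δ n * (dt (w.k + 1) (v - u) : ℝ) := by rw [← h1]; linarith
    have h3 : (0 : ℝ) < dt (w.k + 1) (v - u) := pos_of_mul_pos_right h2 hδ.le
    exact_mod_cast h3
  have hv' : v = u + H75.Perc.dir (w.k + 1) := by
    rw [← unit_pos huv hd]; ring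
  have htu2 : tc w n u = tc w n v - A.δ n := by
    have := (sc_add_succ w n u).2
    rw [← hv'] at this
    linarith
  obtain ⟨ht0s, ht0a, ht0b⟩ := t_sc w n 0
  have hrow : dt (w.k + 1) (u - w.t n 0) = 0 := by
    have h1 := tc_sub w n u (w.t n 0)
    have h2 : |A.δ n * (dt (w.k + 1) (u - w.t n 0) : ℝ)| < A.δ n := by
      rw [← h1, abs_lt]; constructor <;> linarith
    rw [abs_mul, abs_of_pos hδ] at h2
    have h3 : |(dt (w.k + 1) (u - w.t n 0) : ℝ)| < 1 := by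
      by_contra hc
      push Not at hc
      nlinarith
    have h4 : |dt (w.k + 1) (u - w.t n 0)| < 1 := by exact_mod_cast h3
    exact Int.abs_lt_one_iff.1 h4
  have hueq := eq_of_dt hrow
  set J := dt w.k (u - w.t n 0) with hJdef
  have hsJ : sc w n u = sc w n (w.t n 0) + A.δ n * J := by
    rw [hueq]; exact (sc_add_smul w n (w.t n 0) J).1
  simp only [Int.cast_zero, zero_mul, sub_zero] at ht0s
  have hus := hu.1
  rw [abs_le] at ht0s hus
  have hlow : i * mesh (w.k1 + 1) - c - 2 * A.δ n ≤ A.δ n * J := by linarith [hus.1, ht0s.2]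
  have hhigh : A.δ n * J ≤ i * mesh (w.k1 + 1) + c + 2 * A.δ n := by linarith [hus.2, ht0s.1]
  have hJ1 : 1 ≤ J := by
    by_contra hc
    have h1 : (J : ℝ) ≤ 0 := by exact_mod_cast (by omega : J ≤ 0)
    have h2 : A.δ n * J ≤ 0 := mul_nonpos_of_nonneg_of_nonpos hδ.le h1
    linarith
  obtain ⟨m, hm⟩ : ∃ m : ℕ, J = m := ⟨J.toNat, by omega⟩
  have hur : u = ru w n m := by
    rw [← hm]; exact hueq
  refine ⟨m, by omega, fun j hj => ?_, hur, by rw [hv', hur], ?_, ?_⟩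
  · refine rowOk w hW ?_
    have h1 : ((j : ℤ) : ℝ) ≤ J := by rw [hm]; exact_mod_cast hj
    have h2 : (0 : ℝ) ≤ ((j : ℤ) : ℝ) := by positivity
    rw [abs_of_nonneg h2]
    nlinarith
  · unfold rw'
    rw [hv', hur]
  · have : ((J : ℤ) : ℝ) = (m : ℝ) := by rw [hm]; norm_num
    rw [← this]; exact hlow

/-- Geometry of a state at the window. -/
structure CoreH (w : Win B) (n : ℕ) (l' : ℝ) (d : SD) (nb : ℕ) (X Y : DEnv) (τ A' : Finset (ℤ × ℤ))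
    (p0 : ℕ) (i : ℤ) (c0 : ℝ) : Prop where
  pos : PosH w n l' d nb X Y τ A' p0
  hi : 0 < i
  c00 : 0 ≤ c0
  c1 : c0 + 8 * A.δ n ≤ i * mesh (w.k1 + 1)
  c2 : i * mesh (w.k1 + 1) + c0 + 8 * A.δ n ≤ l'
  vwin : ∀ v, Wd w n i (c0 + 2 * A.δ n) v → 0 < tc w n v → box (A.δ n) B.o d.K v ∈ d.R
  nfl : ∀ v ∈ B.N n, box (A.δ n) B.o d.K v ∈ flat d.K d.C ∨ box (A.δ n) B.o d.K v ∈ Pg.fc d.K d.B
  fln : ∀ v, box (A.δ n) B.o d.K v ∈ flat d.K d.C → v ∈ B.N n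
  bbw : ∀ v, |sc w n v| ≤ l' → |tc w n v| ≤ l' → box (A.δ n) B.o d.K v ∉ Pg.fc d.K d.B
  WN : ∀ e ∈ X.W, e ∈ star (B.N n) → e ∈ (X0 A n).W
  W0 : (X0 A n).W ⊆ X.W
  TwE : w.Tw n ⊆ X.E

namespace CoreH

variable {w : Win B} {n : ℕ} {l' : ℝ} {d : SD} {nb : ℕ} {X Y : DEnv} {τ A' : Finset (ℤ × ℤ)}
  {p0 : ℕ} {i : ℤ} {c0 : ℝ} (H : CoreH w n l' d nb X Y τ A' p0 i c0)

include H

lemma notN {v : ℤ × ℤ} (h : box (A.δ n) B.o d.K v ∈ d.R) : v ∉ B.N n := fun h1 =>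
  H.pos.td.free.hK v h1 h

/-- the vertex behind a point of a side -/
lemma ol_eq (m j : ℕ) : d.ol B.o (A.δ n) m j = d.pt' B.o (A.δ n) m j +
    (d.pt' B.o (A.δ n) m j + H75.Perc.dir ((d.sid m).2 - 1)) := outl_eq _ _

/-- an interior point near a point of a side -/
lemma near_int (m : ℕ) {j : ℕ} (hj : j ≤ d.ln B.o (A.δ n) m) : ∃ j', 0 < j' ∧
    j' < d.ln B.o (A.δ n) m ∧ (j' = j ∨ IsUnit4 (d.pt' B.o (A.δ n) m j' - d.pt' B.o (A.δ n) m j)) := by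
  have h3 := SD.three_ln H.pos.td.fine m
  rcases Nat.eq_zero_or_pos j with h | h
  · subst h
    exact ⟨1, one_pos, by omega, Or.inr (Pg.sp_unit _ _ _ _)⟩
  · rcases Nat.lt_or_ge j (d.ln B.o (A.δ n) m) with h1 | h1
    · exact ⟨j, h, h1, Or.inl rfl⟩
    · obtain ⟨i, rfl⟩ : ∃ i, j = i + 1 := ⟨j - 1, by omega⟩
      exact ⟨i, by omega, by omega, Or.inr (unit4_symm (Pg.sp_unit _ _ _ _))⟩

/-- **The sides in the window are the sides of the run after `b''`.** -/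
theorem side_win {m j : ℕ} (hm : m < d.N) (hj : j ≤ d.ln B.o (A.δ n) m)
    (hW : Wd w n i c0 (d.pt' B.o (A.δ n) m j)) : nb ≤ m ∧ m < d.n2 := by
  have hδ := A.pos n
  have hP := H.pos
  have c1 := H.c1
  have c2 := H.c2
  obtain ⟨j', h1, h2, h3⟩ := H.near_int m hj
  have hW' : Wd w n i (c0 + A.δ n) (d.pt' B.o (A.δ n) m j') := by
    rcases h3 with h3 | h3
    · rw [h3]; exact hW.mono (by linarith)
    · exact hW.step h3
  obtain ⟨b1, b2⟩ := SD.side_box' hP.td.ok hP.td.fine h1 h2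
  have hside := SD.isSide hP.td.ok m
  set v := d.pt' B.o (A.δ n) m j' with hv
  set u := v + H75.Perc.dir ((d.sid m).2 - 1) with hu
  have huv : IsUnit4 (u - v) := by rw [hu, add_sub_cancel_left]; exact isUnit4_dir _
  have hWu : Wd w n i (c0 + A.δ n + A.δ n) u := hW'.step huv
  obtain ⟨su, tu⟩ := hWu.win H.hi.le (l' := l') (by linarith)
  have hoc : d.oc' m ∉ d.R := hside.2
  have htu : tc w n u < 0 := by
    by_contra hc
    have := H.vwin u (hWu.mono (by linarith)) (lt_of_le_of_ne (not_lt.1 hc) (tc_ne w n u).symm)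
    rw [b2] at this
    exact hoc this
  have huN : u ∈ B.N n := (hP.win.bar u su tu htu).1
  have hfl : d.oc' m ∈ flat d.K d.C := by
    rcases H.nfl u huN with h4 | h4
    · rwa [b2] at h4
    · exact absurd h4 (H.bbw u su tu)
  have hrun := (hP.td.ok.mark.run m hm).1 (hP.td.ok.flat_sub hfl)
  refine ⟨?_, hrun.2⟩
  by_contra hnb
  rw [not_le] at hnb
  have hvN : v ∉ B.N n := H.notN (by rw [b1]; exact hside.1)
  obtain ⟨m', g1, g2, g3, g4, g5, -⟩ := row_of hP.win H.hi.le (c := c0 + A.δ n) (l' := l')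
    (by linarith) (by linarith) huN hvN (unit4_symm huv) hW'
  have hol : d.ol B.o (A.δ n) m j' = rw' w n m' := by
    rw [H.ol_eq, ← g5, add_comm]
  refine hP.rw_notTw g1 g2 ?_
  rw [← hol]
  have hr := g2 m' le_rfl
  refine hP.mem_Tw_of (lt_of_lt_of_le hP.td.ok.mark.pos hrun.1) hnb h1 h2
    (by rw [hol]; exact hP.rw_perp hr) ?_
  rw [hol, ← g5]
  refine hr.free ?_
  rw [← g3, mem_star1_iff (Pool.Agent.H42.Q1.ends_add (unit4_symm huv)).1]
  rcases (Pool.Agent.H42.Q1.ends_add (unit4_symm huv)).2 with ⟨e1, e2⟩ | ⟨e1, e2⟩ <;> rw [e1, e2] <;>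
    tauto

end CoreH

end

end Pool.Agent.H76.M7
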