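import Mathlib
import Pool.Agent.H76.M7.Core

set_option autoImplicit false
open Finset Filter Topology

/-! # Module M7: the wired arc of the type with the vertex `0` at `b''` -/

namespace Pool.Agent.H76.M7

open Pool.Agent.H75.Perc Pool.Agent.H75.TwoArm Pool.Agent.H75.Four Pool.Agent.H69.Q1
open Pool.Agent.H49.Q1 Pool.Agent.H52.Q1
open Pool.Agent.H81.Q1 (pt DDomain Approx IsJordanDomain IsArcs)
open Pool.Agent.Q1.M3
open Pool.Agent.Q1.M3.Pg (SD LX iter_shift)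
open Pool.Agent.H82.Q1.M7
open Pool.Agent.Q1.M4 (nextSide tail head PType)
open Pool.Agent.H5.Q1 (sp slen gp)
open Pool.Agent.Q1.M5 (TV WL EL sV)

section

variable {D : Set ℂ} {a b : ℂ} {A₁ A₂ : Set ℂ} {A : Approx D a b A₁ A₂} {r0 : ℝ} {B : Base A r0}
  {w : Win B} {d : SD} {nb : ℕ} (hb : IsB B w d nb)

include hb

lemma T_side {m : ℕ} : hb.T.side (d.N - nb + m) = ((d.sid m).1, (d.sid m).2 + 4) := by
  have h1 := hb.hi
  have h2 := hb.n2
  have h3 := iter_shift hb.ok.mark.walk m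
  change (nextSide d.R)^[d.N - nb + m] ((nextSide d.R)^[nb] d.s) = _
  rw [← Function.iterate_add_apply, show d.N - nb + m + nb = m + d.N by omega, h3]
  rfl

lemma T_side0 {m : ℕ} (hm : nb ≤ m) : hb.T.side (m - nb) = d.sid m := by
  change (nextSide d.R)^[m - nb] ((nextSide d.R)^[nb] d.s) = _
  rw [← Function.iterate_add_apply, show m - nb + nb = m by omega]
  rfl

lemma T_m : hb.T.m = d.N - nb := rfl

lemma T_N : hb.T.N = d.N := rfl

lemma sV_four {X Y : ℤ → ℤ} {c : ℤ × ℤ} {k : ℤ} {v : ℤ × ℤ} :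
    sV X Y (c, k + 4) v ↔ sV X Y (c, k) v := by
  unfold sV onCell
  simp only
  have e : (k + 4) % 4 = k % 4 := by omega
  rw [e]

/-- **The vertices of the wired arc.** -/
theorem TV_iff {o : ℂ} {δ : ℝ} (hf : d.Fine o δ) {v : ℤ × ℤ} :
    TV hb.T (LX d.K o.re δ) (LX d.K o.im δ) v ↔ ∃ m < nb, ∃ j ≤ d.ln o δ m, v = d.pt' o δ m j := by
  have hX := Pg.LX_mono (K := d.K) (o := o.re) hf.hδ hf.hm3
  have hY := Pg.LX_mono (K := d.K) (o := o.im) hf.hδ hf.hm3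
  have h1 := hb.hi
  have h2 := hb.n2
  unfold TV
  constructor
  · rintro ⟨m, hm, hm', hv⟩
    rw [T_m] at hm
    rw [T_N] at hm'
    obtain ⟨m', rfl⟩ : ∃ m', m = d.N - nb + m' := ⟨m - (d.N - nb), by omega⟩
    rw [T_side, sV_four hb] at hv
    obtain ⟨j, hj, hj2⟩ := (Pool.Agent.Q1.Dob.mem_sV hX hY).1 hv
    exact ⟨m', by omega, j, hj, hj2⟩
  · rintro ⟨m, hm, j, hj, hj2⟩
    refine ⟨d.N - nb + m, by rw [T_m]; omega, by rw [T_N]; omega, ?_⟩
    rw [T_side, sV_four hb]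
    exact (Pool.Agent.Q1.Dob.mem_sV hX hY).2 ⟨j, hj, hj2⟩

/-- the ends of the labels of the wired arc -/
theorem WL_TV {o : ℂ} {δ : ℝ} (hf : d.Fine o δ) {u v : ℤ × ℤ} (huv : IsUnit4 (v - u))
    (h : u + v ∈ WL hb.T (LX d.K o.re δ) (LX d.K o.im δ)) :
    TV hb.T (LX d.K o.re δ) (LX d.K o.im δ) u := by
  have hX := Pg.LX_mono (K := d.K) (o := o.re) hf.hδ hf.hm3
  have hY := Pg.LX_mono (K := d.K) (o := o.im) hf.hδ hf.hm3
  obtain ⟨n, h1, h2, j, hj, he⟩ := (Pool.Agent.Q1.Dob.mem_WL hX hY).1 h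
  have hu : u = sp (LX d.K o.re δ) (LX d.K o.im δ) (hb.T.side n) j ∨
      u = sp (LX d.K o.re δ) (LX d.K o.im δ) (hb.T.side n) (j + 1) := by
    have h3 := Pg.sp_unit (LX d.K o.re δ) (LX d.K o.im δ) (hb.T.side n) j
    obtain ⟨g1, g2⟩ := Pool.Agent.H42.Q1.ends_add h3
    obtain ⟨k1, k2⟩ := Pool.Agent.H42.Q1.ends_add huv
    have e : u + v = sp (LX d.K o.re δ) (LX d.K o.im δ) (hb.T.side n) j +
      sp (LX d.K o.re δ) (LX d.K o.im δ) (hb.T.side n) (j + 1) := he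
    rw [← e] at g2
    rcases g2 with ⟨g2, g3⟩ | ⟨g2, g3⟩ <;> rcases k2 with ⟨k2, k3⟩ | ⟨k2, k3⟩ <;>
      first
      | exact Or.inl (k2.symm.trans g2)
      | exact Or.inr (k2.symm.trans g2)
      | exact Or.inl (k3.symm.trans g3)
      | exact Or.inr (k3.symm.trans g3)
  refine ⟨n, h1, h2, ?_⟩
  rcases hu with hu | hu
  · exact (Pool.Agent.Q1.Dob.mem_sV hX hY).2 ⟨j, hj.le, hu⟩
  · exact (Pool.Agent.Q1.Dob.mem_sV hX hY).2 ⟨j + 1, hj, hu⟩

end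

end Pool.Agent.H76.M7
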