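import Mathlib
import Pool.Agent.H76.M7.Tb
import Pool.Agent.H76.M7.Faces

set_option autoImplicit false
open Finset Filter Topology

/-! # Module M7, 2.5: comparison of the ring probabilities for one state, 2 -/

namespace Pool.Agent.H76.M7

open Pool.Agent.H75.Perc Pool.Agent.H75.TwoArm Pool.Agent.H75.Four Pool.Agent.H69.Q1
open Pool.Agent.H49.Q1 Pool.Agent.H52.Q1 Pool.Agent.H47.NC.ArchAux
open Pool.Agent.H28.Q1 (Inv ClJ fi_of_closed)
open Pool.Agent.H21.Q1 (Sol kp rl rc per rc_per per_pos kp_kap kp_star perp_notkp rc_succ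
  Root exists_root ring_notW Wt Dcy InvL)
open Pool.Agent.H77.Q1 (Fac fac_z Far lbf)
open Pool.Agent.H81.Q1 (pt DDomain Approx IsJordanDomain IsArcs)
open Pool.Agent.Q1.M3
open Pool.Agent.Q1.M3.Pg (SD LX gx lo hi lty LT rnd Tied RPos ringE outl_eq dir_congr LPol Ctx CC sd
  outl SS_pos cz Vl CC_first NB Fr Nr flat)
open Pool.Agent.H82.Q1.M7
open Pool.Agent.Q1.M4 (nextSide tail head)
open Pool.Agent.H5.Q1 (sp sp_zero sp_succ sp_len slen gp SS)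
open Pool.Agent.Q1.M5 (TV WL EL sV)

section

variable {D : Set ℂ} {a b : ℂ} {A₁ A₂ : Set ℂ} {A : Approx D a b A₁ A₂} {r0 : ℝ} {B : Base A r0}

/-- the half ball is in the window, above the side -/
lemma hb_win (w : Win B) (n : ℕ) (i : ℤ) {r : ℤ} {c : ℝ} (hr : ((r : ℝ) + 1) * A.δ n ≤ c)
    (hr0 : 0 ≤ r) {e u : ℤ × ℤ} (he : e ∈ HB (Sd w.k (w.x n i)) r) (hu : u = eu e ∨ u = ev e) :
    Wd w n i c u ∧ 0 < tc w n u := by
  have hδ := A.pos n
  obtain ⟨-, ⟨h1, h2⟩, h3, h4⟩ := FB_dt (HB_sub_FB _ hr0 he)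
  obtain ⟨h5, h6⟩ := HB_dt' he
  have hxs := x_sc w n i
  have hxt := x_tc w n i
  have key : ∀ u : ℤ × ℤ, |dt w.k (u - w.x n i)| ≤ r → |dt (w.k + 1) (u - w.x n i)| ≤ r →
      0 ≤ dt (w.k + 1) (u - w.x n i) → Wd w n i c u ∧ 0 < tc w n u := by
    intro u g1 g2 g3
    have e1 := sc_sub w n u (w.x n i)
    have e2 := tc_sub w n u (w.x n i)
    have g1' : |(dt w.k (u - w.x n i) : ℝ)| ≤ r := by exact_mod_cast g1
    have g2' : |(dt (w.k + 1) (u - w.x n i) : ℝ)| ≤ r := by exact_mod_cast g2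
    have g3' : (0 : ℝ) ≤ dt (w.k + 1) (u - w.x n i) := by exact_mod_cast g3
    have k1 : |A.δ n * (dt w.k (u - w.x n i) : ℝ)| ≤ A.δ n * r := by
      rw [abs_mul, abs_of_pos hδ]; exact mul_le_mul_of_nonneg_left g1' hδ.le
    have k2 : |A.δ n * (dt (w.k + 1) (u - w.x n i) : ℝ)| ≤ A.δ n * r := by
      rw [abs_mul, abs_of_pos hδ]; exact mul_le_mul_of_nonneg_left g2' hδ.le
    have k3 : 0 ≤ A.δ n * (dt (w.k + 1) (u - w.x n i) : ℝ) := mul_nonneg hδ.le g3'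
    rw [← e1] at k1
    rw [← e2] at k2 k3
    unfold Wd
    rw [abs_le] at k1 k2 hxs
    refine ⟨⟨?_, ?_⟩, by linarith [hxt.1]⟩
    · rw [abs_le]; constructor <;> nlinarith [k1.1, k1.2, hxs.1, hxs.2]
    · rw [abs_le]; constructor <;> nlinarith [k2.1, k2.2, hxt.1, hxt.2]
  rcases hu with rfl | rfl
  · exact key _ h1 h2 h5
  · exact key _ h3 h4 h6

/-- **The end of the half ring.** -/
lemma ring_end {w : Win B} {n : ℕ} {l' : ℝ} (hW : WinN w n l') {i s : ℤ} (hi : 0 < i) {c0 : ℝ}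
    (hs : 1 ≤ s) (hsc : (4 * (s : ℝ) + 3) * A.δ n ≤ c0) (c1 : c0 + 8 * A.δ n ≤ i * mesh (w.k1 + 1))
    (c2 : i * mesh (w.k1 + 1) + c0 + 8 * A.δ n ≤ l') {ξ : Finset (ℤ × ℤ)} (hC : Circ s ξ) :
    ∃ m : ℕ, 0 < m ∧ (∀ j : ℕ, j ≤ m → RowOk w n j) ∧
      Co (ξ.map (Sd w.k (w.x n i)).G) ((Sd w.k (w.x n i)).g (rv s ξ))
        (ru w n m + H75.Perc.dir (w.k + 1)) ∧
      Wd w n i ((4 * (s : ℝ) + 3) * A.δ n) (ru w n m + H75.Perc.dir (w.k + 1)) ∧
      0 < tc w n (ru w n m + H75.Perc.dir (w.k + 1)) ∧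
      (∃ e ∈ ξ.map (Sd w.k (w.x n i)).G, ru w n m + H75.Perc.dir (w.k + 1) = eu e ∨
        ru w n m + H75.Perc.dir (w.k + 1) = ev e) := by
  have hδ := A.pos n
  obtain ⟨y, hy1, hy2, hy⟩ := ring_top hs hC
  obtain ⟨m, hm1, hm2⟩ := end_row w n i y
  have hco := co_map (Sd w.k (w.x n i)) hy
  rw [hm1] at hco
  have hy1' : (2 * (s : ℝ)) ≤ y := by exact_mod_cast hy1
  have hy2' : (y : ℝ) ≤ 4 * s := by exact_mod_cast hy2
  have hs' : (1 : ℝ) ≤ s := by exact_mod_cast hs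
  have hyabs : |(y : ℝ)| ≤ 4 * s := by rw [abs_le]; constructor <;> linarith
  have hyd : |(y : ℝ)| * A.δ n ≤ 4 * s * A.δ n := mul_le_mul_of_nonneg_right hyabs hδ.le
  have hm3 := hm2
  rw [abs_le] at hm3
  have hmp : 0 < m := by
    by_contra hc
    have h1 : (m : ℝ) ≤ 0 := by exact_mod_cast (by omega : m ≤ 0)
    have h2 : A.δ n * m ≤ 0 := mul_nonpos_of_nonneg_of_nonpos hδ.le h1
    nlinarith [hm3.1, hm3.2]
  obtain ⟨k, hk⟩ : ∃ k : ℕ, m = k := ⟨m.toNat, by omega⟩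
  subst hk
  obtain ⟨g1, g2, g3⟩ := ru_sc w n (k : ℤ)
  obtain ⟨g4, g5⟩ := sc_add_succ w n (ru w n (k : ℤ))
  refine ⟨k, by omega, fun j hj => ?_, hco, ?_, by rw [g5]; linarith, ?_⟩
  · refine rowOk w hW ?_
    have h1 : ((j : ℤ) : ℝ) ≤ ((k : ℤ) : ℝ) := by exact_mod_cast hj
    have h2 : (0 : ℝ) ≤ ((j : ℤ) : ℝ) := by positivity
    rw [abs_of_nonneg h2]
    nlinarith [hm3.2]
  · unfold Wd
    rw [g4, g5]
    rw [abs_le] at g1
    constructor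
    · rw [abs_le]; constructor <;> nlinarith [hm3.1, hm3.2, g1.1, g1.2]
    · rw [abs_le]; constructor <;> nlinarith
  · -- the end of the last label
    have hne : ¬ ((0 : ℤ), y) = rv s ξ := by
      intro h
      obtain ⟨hv, hv2, -⟩ := rv_spec hC
      rw [← h] at hv2
      simp only at hv2
      omega
    rcases Relation.ReflTransGen.cases_tail hco with h | ⟨b, -, hb⟩
    · exfalso
      rw [← hm1] at h
      have h' := congrArg (Sd w.k (w.x n i)).g' h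
      rw [(Sd w.k (w.x n i)).g'g, (Sd w.k (w.x n i)).g'g] at h'
      exact hne h'
    · refine ⟨_, hb.2, ?_⟩
      rcases (Pool.Agent.H42.Q1.ends_add hb.1).2 with ⟨e1, e2⟩ | ⟨e1, e2⟩
      · exact Or.inr e2.symm
      · exact Or.inl e1.symm

end

end Pool.Agent.H76.M7
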