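import Mathlib
import Pool.Agent.H76.M7.CoreT

set_option autoImplicit false
open Finset Filter Topology

/-! # Module M7, 2.5: comparison of the ring probabilities for one state, main theorem -/

namespace Pool.Agent.H76.M7

open Pool.Agent.H75.Perc Pool.Agent.H75.TwoArm Pool.Agent.H75.Four Pool.Agent.H69.Q1
open Pool.Agent.H49.Q1 Pool.Agent.H47.NC.ArchAux
open Pool.Agent.H52.Q1 hiding Far
open Pool.Agent.H28.Q1 (Inv ClJ fi_of_closed)
open Pool.Agent.H21.Q1 (Sol kp rl rc per rc_per per_pos kp_kap kp_star perp_notkp rc_succ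
  Root exists_root ring_notW Wt Dcy InvL)
open Pool.Agent.H77.Q1 (Fac fac_z Far lbf)
open Pool.Agent.H81.Q1 (pt DDomain Approx IsJordanDomain IsArcs)
open Pool.Agent.Q1.M3
open Pool.Agent.Q1.M3.Pg (SD LX gx lo hi lty LT rnd Tied RPos ringE outl_eq dir_congr LPol Ctx CC sd
  outl SS_pos cz Vl CC_first NB Fr Nr flat)
open Pool.Agent.H82.Q1.M7
open Pool.Agent.Q1.M4 (nextSide tail head)
open Pool.Agent.H5.Q1 (sp sp_zero sp_succ sp_len slen gp SS)
open Pool.Agent.Q1.M5 (TV WL EL sV)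

section

variable {D : Set ℂ} {a b : ℂ} {A₁ A₂ : Set ℂ} {A : Approx D a b A₁ A₂} {r0 : ℝ} {B : Base A r0}

/-- A good side: free labels around, the box of radius `Dd` is not cut and away from the barrier
and the window. -/
def GoodS (w : Win B) (n : ℕ) (d : SD) (X : DEnv) (τ A' : Finset (ℤ × ℤ)) (i : ℤ) (c0 : ℝ)
    (r Dd : ℤ) (m : ℕ) : Prop :=
  Fr d.K B.o (A.δ n) d.P (B.N n) τ A' X.E (d.oc' m) ∧ ∃ c : ℤ × ℤ, NoCutC X c (Dd + 1) ∧
    (∀ v ∈ B.N n, Far (Dd + 4) c v) ∧ (∀ v, Wd w n i c0 v → Far (Dd + 4) c v) ∧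
    (∀ v, NB 9 (d.oc' m) (box (A.δ n) B.o d.K v) → |v.1 - c.1| ≤ r - 2 ∧ |v.2 - c.2| ≤ r - 2)

/-- A state with exceptional vertices `Zo`. -/
structure CoreZ (w : Win B) (n : ℕ) (l' : ℝ) (d : SD) (nb : ℕ) (X Y : DEnv) (τ A' : Finset (ℤ × ℤ))
    (p0 : ℕ) (i : ℤ) (c0 : ℝ) (Zo : ℤ × ℤ → Prop) (r Dd : ℤ) : Prop where
  core : CoreH w n l' d nb X Y τ A' p0 i c0
  odd : ∀ e ∈ X.E, (e.1 + e.2) % 2 = 1
  invL : InvL X
  zt : ∀ v, Vl τ v → Zo v
  z0 : ∀ j ≤ d.ln B.o (A.δ n) 0, Zo (d.pt' B.o (A.δ n) 0 j)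
  zb : ∀ m < d.N, d.oc' m ∈ Pg.fc d.K d.B → ∀ j ≤ d.ln B.o (A.δ n) m, Zo (d.pt' B.o (A.δ n) m j)
  zc : ∀ m, d.n1 ≤ m → m < d.n2 → ∀ j, (j = 0 ∨ j = d.ln B.o (A.δ n) m) →
    ¬ Wd w n i c0 (d.pt' B.o (A.δ n) m j) → Zo (d.pt' B.o (A.δ n) m j)
  zg : ∀ m < d.N, ¬ (d.n1 ≤ m ∧ m < d.n2) → (∀ j ≤ d.ln B.o (A.δ n) m,
    Zo (d.pt' B.o (A.δ n) m j)) ∨ GoodS w n d X τ A' i c0 r Dd m

/-- the fixed open labels -/
noncomputable def WW (w : Win B) (n : ℕ) (X : DEnv) : Finset (ℤ × ℤ) :=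
  (X.W \ star (B.N n)) ∪ (w.Tw n ∪ ((X0 A n).W ∩ star (B.N n)))

namespace CoreZ

variable {w : Win B} {n : ℕ} {l' : ℝ} {d : SD} {nb : ℕ} {X Y : DEnv} {τ A' : Finset (ℤ × ℤ)}
  {p0 : ℕ} {i : ℤ} {c0 : ℝ} {Zo : ℤ × ℤ → Prop} {r Dd : ℤ}
  (H : CoreZ w n l' d nb X Y τ A' p0 i c0 Zo r Dd)

include H

lemma kpN : ∀ u ∈ B.N n, ∀ v ∈ B.N n, Co (kp X (B.N n)) u v := H.core.pos.sol.conn

lemma W0_sub : WW w n X ∪ kp X (B.N n) ⊆ X.E ∪ X.W := by
  intro e he
  unfold WW at he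
  simp only [Finset.mem_union, Finset.mem_sdiff, Finset.mem_inter] at he
  rcases he with (he | he | he) | he
  · exact mem_union_right _ he.1
  · exact mem_union_left _ (H.core.TwE he)
  · exact mem_union_right _ (H.core.W0 he.1)
  · exact (mem_inter.1 he).2

lemma W0_star {e : ℤ × ℤ} (he : e ∈ WW w n X ∪ kp X (B.N n)) (hs : e ∈ star (B.N n)) :
    e ∈ w.Tw n ∨ e ∈ (X0 A n).W ∨ e ∈ kp X (B.N n) := by
  unfold WW at he
  simp only [Finset.mem_union, Finset.mem_sdiff, Finset.mem_inter] at he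
  tauto

lemma W0_or {e : ℤ × ℤ} (he : e ∈ WW w n X ∪ kp X (B.N n)) : e ∈ X.W ∨ e ∈ star (B.N n) := by
  unfold WW at he
  simp only [Finset.mem_union, Finset.mem_sdiff, Finset.mem_inter] at he
  rcases he with (he | he | he) | he
  · exact Or.inl he.1
  · exact Or.inr (Pool.Agent.H21.Q1.perp_star (H.core.pos.mem_Tw.1 he).1)
  · exact Or.inr he.2
  · exact Or.inr (kp_star he)

lemma W_W0 : X.W ⊆ WW w n X ∪ kp X (B.N n) := by
  intro e he
  unfold WW
  simp only [Finset.mem_union, Finset.mem_sdiff, Finset.mem_inter]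
  by_cases hs : e ∈ star (B.N n)
  · exact Or.inl (Or.inr (Or.inr ⟨H.core.WN e he hs, hs⟩))
  · exact Or.inl (Or.inl ⟨he, hs⟩)

lemma odd_W {e : ℤ × ℤ} (he : e ∈ X.W) : (e.1 + e.2) % 2 = 1 := by
  obtain ⟨m, -, -, -, -, h⟩ := H.core.pos.inv.back
  obtain ⟨k, -, rfl⟩ := h e he
  exact Pool.Agent.H39.Q1.odd_plab _

lemma odd_W0 {e : ℤ × ℤ} (he : e ∈ WW w n X ∪ kp X (B.N n)) : (e.1 + e.2) % 2 = 1 := by
  rcases mem_union.1 (H.W0_sub he) with h | h
  · exact H.odd e h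
  · exact H.odd_W h

/-- the vertices of the region are free -/
lemma free_V {v : ℤ × ℤ} (hv : box (A.δ n) B.o d.K v ∈ d.R) : star1 v ⊆ Y.E :=
  H.core.pos.td.free.fresh v hv

/-- a label between two vertices of the region -/
lemma mem_G {u v : ℤ × ℤ} (huv : IsUnit4 (v - u)) (hu : box (A.δ n) B.o d.K u ∈ d.R)
    (hv : box (A.δ n) B.o d.K v ∈ d.R) : u + v ∈ d.G B.o (A.δ n) := by
  obtain ⟨h1, h2⟩ := Pool.Agent.H42.Q1.ends_add huv
  rw [SD.mem_G H.core.pos.td.ok H.core.pos.td.fine h1]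
  rcases h2 with ⟨e1, e2⟩ | ⟨e1, e2⟩ <;> rw [e1, e2] <;> exact ⟨by assumption, by assumption⟩

/-- a label at a vertex of the region is a label of `X` or of the tip path -/
lemma lab_V {u v : ℤ × ℤ} (huv : IsUnit4 (v - u)) (hu : box (A.δ n) B.o d.K u ∈ d.R) :
    u + v ∈ Y.E ∧ (u + v ∈ X.E ∨ u + v ∈ τ) := by
  obtain ⟨h1, h2⟩ := Pool.Agent.H42.Q1.ends_add huv
  have h3 : u + v ∈ Y.E := by
    refine H.free_V hu ?_
    rw [mem_star1_iff h1]
    rcases h2 with ⟨e1, e2⟩ | ⟨e1, e2⟩ <;> rw [e1, e2] <;> tauto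
  exact ⟨h3, mem_union.1 (H.core.pos.td.EY h3)⟩

/-- a wired label at a vertex of the region ends at an exceptional vertex -/
lemma W_V {u v : ℤ × ℤ} (huv : IsUnit4 (v - u)) (hu : box (A.δ n) B.o d.K u ∈ d.R)
    (hW : u + v ∈ X.W) : Zo u := by
  rcases (H.lab_V huv hu).2 with h | h
  · exact absurd hW (disjoint_left.1 X.disj h)
  · refine H.zt u ⟨_, h, ?_⟩
    rcases (Pool.Agent.H42.Q1.ends_add huv).2 with ⟨e1, e2⟩ | ⟨e1, e2⟩ <;> rw [e1, e2] <;> tauto

/-- every label of the fixed set is joined to the barrier -/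
lemma W0t {u v t : ℤ × ℤ} (huv : IsUnit4 (v - u)) (ht : t ∈ B.N n)
    (h : u + v ∈ WW w n X ∪ kp X (B.N n)) : Co (WW w n X ∪ kp X (B.N n)) u t := by
  have hK : ∀ x ∈ B.N n, Co (WW w n X ∪ kp X (B.N n)) x t := fun x hx =>
    (H.kpN x hx t ht).mono subset_union_right
  obtain ⟨h1, h2⟩ := Pool.Agent.H42.Q1.ends_add huv
  rcases H.W0_or h with h3 | h3
  · obtain ⟨z, hz1, hz2⟩ := exists_cor huv
    have h4 := H.core.pos.inv.co_of_mem (c := z) (by rw [hz1]; exact h3)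
    rw [hz2] at h4
    have h5 : vx X.β ∈ B.N n := H.core.pos.sol.beta
    exact (h4.mono H.W_W0).symm.trans (hK _ h5)
  · have h4 : u ∈ B.N n ∨ v ∈ B.N n := by
      rw [mem_star_iff h1] at h3
      rcases h2 with ⟨e1, e2⟩ | ⟨e1, e2⟩ <;> rw [e1, e2] at h3 <;> tauto
    rcases h4 with h4 | h4
    · exact hK u h4
    · exact (Relation.ReflTransGen.single ⟨huv, h⟩ : Co _ u v).trans (hK v h4)

/-- **(W0V)** -/
lemma W0V {u v : ℤ × ℤ} (huv : IsUnit4 (v - u)) (h : u + v ∈ WW w n X ∪ kp X (B.N n))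
    (hu : box (A.δ n) B.o d.K u ∈ d.R) :
    (∃ m < nb, ∃ j ≤ d.ln B.o (A.δ n) m, u = d.pt' B.o (A.δ n) m j) ∨ Zo u := by
  have hP := H.core.pos
  obtain ⟨h1, h2⟩ := Pool.Agent.H42.Q1.ends_add huv
  have huN : u ∉ B.N n := H.core.notN hu
  have hYX : u + v ∈ (X0 A n).E := hP.YE (H.lab_V huv hu).1
  by_cases hs : u + v ∈ star (B.N n)
  · rcases H.W0_star h hs with h3 | h3 | h3
    · -- `Tw`
      have hvN : v ∈ B.N n := by
        rw [mem_star_iff h1] at hs
        rcases h2 with ⟨e1, e2⟩ | ⟨e1, e2⟩ <;> rw [e1, e2] at hs <;> tauto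
      have hvR : box (A.δ n) B.o d.K v ∉ d.R := fun h4 => H.core.notN h4 hvN
      obtain ⟨m, hm, j, hj, e1, e2, e3, e4⟩ := exists_out hP.td.ok hP.td.fine huv hu hvR
      by_cases hmnb : m < nb
      · exact Or.inl ⟨m, hmnb, j, hj, e1⟩
      rw [not_lt] at hmnb
      right
      rcases H.core.nfl v hvN with h5 | h5
      · -- a side of the run
        rw [← e3] at h5
        have hrun := (hP.td.ok.mark.run m hm).1 (hP.td.ok.flat_sub h5)
        by_cases hj0 : j = 0 ∨ j = d.ln B.o (A.δ n) m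
        · by_cases hWd : Wd w n i c0 u
          · exfalso
            have hδ := A.pos n
            have c1 := H.core.c1
            have c2 := H.core.c2
            obtain ⟨m', g1, g2, g3, g4, g5, -⟩ := row_of hP.win H.core.hi.le (c := c0) (l' := l')
              (by linarith) (by linarith) hvN huN (unit4_symm huv) hWd
            refine hP.rw_notTw g1 g2 ?_
            rw [← g5, add_comm]
            exact h3
          · rw [e1] at hWd ⊢
            exact H.zc m hrun.1 hrun.2 j hj0 hWd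
        · exfalso
          push Not at hj0
          exact hP.notMem_Tw_of hmnb hm (by omega : 0 < j) (by omega) (by rw [← e2]; exact h3)
      · rw [← e3] at h5
        rw [e1]
        exact H.zb m hm h5 j hj
    · exact absurd h3 (disjoint_left.1 (X0 A n).disj hYX)
    · exfalso
      have h4 := mem_kap_iff (K := B.N n) h1 |>.1 (kp_kap h3)
      rcases h2 with ⟨e1, e2⟩ | ⟨e1, e2⟩ <;> rw [e1, e2] at h4
      · exact huN h4.1
      · exact huN h4.2
  · rcases H.W0_or h with h3 | h3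
    · exact Or.inr (H.W_V huv hu h3)
    · exact absurd h3 hs

/-- bounds for a label with both ends near the side -/
lemma lab_bd {m : ℕ} {c : ℤ × ℤ}
    (hc : ∀ v, NB 9 (d.oc' m) (box (A.δ n) B.o d.K v) → |v.1 - c.1| ≤ r - 2 ∧ |v.2 - c.2| ≤ r - 2)
    {e : ℤ × ℤ} (h1 : NB 9 (d.oc' m) (box (A.δ n) B.o d.K (eu e)))
    (h2 : NB 9 (d.oc' m) (box (A.δ n) B.o d.K (ev e))) :
    |e.1 - 2 * c.1| ≤ 2 * r - 3 ∧ |e.2 - 2 * c.2| ≤ 2 * r - 3 := by
  obtain ⟨a1, a2⟩ := hc _ h1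
  obtain ⟨a3, a4⟩ := hc _ h2
  unfold eu at a1 a2
  unfold ev at a3 a4
  simp only [abs_le] at a1 a2 a3 a4 ⊢
  omega

/-- the box of a good side is good for every ring -/
lemma boxOk {c : ℤ × ℤ} (h1 : NoCutC X c (Dd + 1)) (h2 : ∀ v ∈ B.N n, Far (Dd + 4) c v)
    (h3 : ∀ v, Wd w n i c0 v → Far (Dd + 4) c v) {s : ℤ} (hs0 : 0 ≤ s)
    (hsc : (4 * (s : ℝ) + 3) * A.δ n ≤ c0) {z : ℤ × ℤ} (hz : vx z ∈ B.N n) :
    BoxOk X (B.N n) (HB (Sd w.k (w.x n i)) (4 * s)) (fi z) c Dd := by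
  have hδ := A.pos n
  refine ⟨h1, fun v hv => far_mono (by omega) (h2 v hv), fun e he => ?_, ?_⟩
  · have hsc' : (((4 * s : ℤ) : ℝ) + 1) * A.δ n ≤ c0 := by push_cast; linarith
    exact ⟨far_mono (by omega) (h3 _ (hb_win w n i hsc' (by omega) he (Or.inl rfl)).1),
      far_mono (by omega) (h3 _ (hb_win w n i hsc' (by omega) he (Or.inr rfl)).1)⟩
  · have h4 := h2 _ hz
    unfold Far vx at h4
    unfold Far fi
    rw [le_abs, le_abs] at h4 ⊢
    simp only at h4 ⊢
    omega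

/-- **Primal ties.** -/
lemma tiePT {m : ℕ} (hm0 : 0 < m) (hm : m < d.n1) (hG : GoodS w n d X τ A' i c0 r Dd m) {s : ℤ}
    (hs0 : 0 ≤ s) (hsc : (4 * (s : ℝ) + 3) * A.δ n ≤ c0) {z : ℤ × ℤ} (hz : vx z ∈ B.N n) {j : ℕ}
    (hj : j ≤ d.ln B.o (A.δ n) m) :
    PT X (B.N n) (HB (Sd w.k (w.x n i)) (4 * s)) (fi z) r Dd (d.pt' B.o (A.δ n) m j) := by
  obtain ⟨hF, c, g1, g2, g3, g4⟩ := hG
  obtain ⟨T, hT, hco⟩ := H.core.pos.td.TA hm0 hm hF hj
  refine ⟨T, c, hT.sub, H.boxOk g1 g2 g3 hs0 hsc hz, fun e he => ?_, ?_⟩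
  · obtain ⟨n1, n2⟩ := hT.near e he
    exact H.lab_bd g4 n1 n2
  · refine (hco.mono (union_subset_union (subset_refl _) Pool.Agent.H21.Q1.Wt_W)).trans ?_
    exact H.core.pos.inv.co_W.symm.mono subset_union_right

/-- **Dual ties.** -/
lemma tieDT {m : ℕ} (hm : d.n2 ≤ m) (hmN : m < d.N) (hG : GoodS w n d X τ A' i c0 r Dd m) {s : ℤ}
    (hs0 : 0 ≤ s) (hsc : (4 * (s : ℝ) + 3) * A.δ n ≤ c0) {z : ℤ × ℤ} (hz : vx z ∈ B.N n) {j : ℕ}
    (hj : j ≤ d.ln B.o (A.δ n) m) {u v : ℤ × ℤ} (huv : IsUnit4 (v - u))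
    (e2 : u + v = d.ol B.o (A.δ n) m j) (e3 : d.oc' m = box (A.δ n) B.o d.K v)
    (e4 : (d.sid m).1 = box (A.δ n) B.o d.K u) (hE : u + v ∈ X.E) :
    DT X (B.N n) (HB (Sd w.k (w.x n i)) (4 * s)) (fi z) r Dd (u + v) := by
  obtain ⟨hF, c, g1, g2, g3, g4⟩ := hG
  have h3 := SD.three_ln H.core.pos.td.fine m
  obtain ⟨j', hj', g', hu, hl⟩ := outl_face (LX d.K B.o.re (A.δ n)) (LX d.K B.o.im (A.δ n))
    (d.sid m) (j := j) (lt_of_lt_of_le (by norm_num) h3) hj
  obtain ⟨T, hT, f, hco, hcl⟩ := H.core.pos.td.TL hm hmN hF (j := j') hj'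
  have hl' : lbf (d.of' B.o (A.δ n) m j') g' = u + v := by rw [e2]; exact hl
  refine ⟨insert (u + v) T, c, d.of' B.o (A.δ n) m j', g', f, ?_, H.boxOk g1 g2 g3 hs0 hsc hz,
    fun e he => ?_, hu, hl', mem_insert_self _ _,
    hco.mono (du_mono_left (subset_insert _ _)), hcl⟩
  · exact insert_subset_iff.2 ⟨hE, hT.sub⟩
  · rcases mem_insert.1 he with rfl | he
    · have nv : NB 9 (d.oc' m) (box (A.δ n) B.o d.K v) := by rw [← e3]; exact NB.refl (by norm_num) _
      have nu : NB 9 (d.oc' m) (box (A.δ n) B.o d.K u) := by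
        rw [← e4]
        exact (NB.of_adj ⟨(d.sid m).2 - 1, rfl⟩).symm.mono (by norm_num)
      rcases (Pool.Agent.H42.Q1.ends_add huv).2 with ⟨k1, k2⟩ | ⟨k1, k2⟩
      · exact H.lab_bd g4 (by rw [k1]; exact nu) (by rw [k2]; exact nv)
      · exact H.lab_bd g4 (by rw [k1]; exact nv) (by rw [k2]; exact nu)
    · obtain ⟨n1, n2⟩ := hT.near e he
      exact H.lab_bd g4 n1 n2

/-- the outer cell of a side of the run -/
lemma run_cases {m : ℕ} (hm : m < d.N) (h1 : d.n1 ≤ m) (h2 : m < d.n2) :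
    d.oc' m ∈ flat d.K d.C ∨ d.oc' m ∈ Pg.fc d.K d.B := by
  have h3 := (H.core.pos.td.ok.mark.run m hm).2 ⟨h1, h2⟩
  have h4 : d.oc' m ∈ flat d.K d.C ∪ (Pg.fc d.K d.B ∩ d.P) := SD.H_sub_H2 h3
  rcases mem_union.1 h4 with h5 | h5
  · exact Or.inl h5
  · exact Or.inr (mem_inter.1 h5).1

open Classical in
/-- **Comparison of the ring probabilities.** -/
theorem ring_cmp {δ0 : ℝ} (hδ0 : Dcy δ0) {k : ℕ} (hr : 1 ≤ r) (hD : 4 ^ k * r ≤ Dd) {s : ℤ}
    (hs : 1 ≤ s) (hsc : (4 * (s : ℝ) + 3) * A.δ n ≤ c0) {ξ : Finset (ℤ × ℤ)} (hξ : ξ ⊆ AA s)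
    (hC : Circ s ξ) {z : ℝ}
    (hz : ∀ p, Wd w n i ((4 * (s : ℝ) + 3) * A.δ n) p → 0 < tc w n p →
      Pr ((X.E \ star (B.N n)) \ HB (Sd w.k (w.x n i)) (4 * s))
        (fun ω => ∃ v, Zo v ∧ Co (ω ∪ ξ.map (Sd w.k (w.x n i)).G) p v) ≤ z) :
    |wwS (Sd w.k (w.x n i)) s (X.E \ star (B.N n)) (WW w n X) (fun v => v ∈ B.N n) ξ -
      wwS (Sd w.k (w.x n i)) s
        (EL H.core.pos.hb.T (LX d.K B.o.re (A.δ n)) (LX d.K B.o.im (A.δ n)))
        (WL H.core.pos.hb.T (LX d.K B.o.re (A.δ n)) (LX d.K B.o.im (A.δ n)))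
        (TV H.core.pos.hb.T (LX d.K B.o.re (A.δ n)) (LX d.K B.o.im (A.δ n))) ξ| ≤
      (1 - δ0) ^ k + z := by
  have hδ := A.pos n
  have hP := H.core.pos
  have c1 := H.core.c1
  have c2 := H.core.c2
  have hs0 : (0 : ℤ) ≤ s := by omega
  set S := Sd w.k (w.x n i) with hS
  set N := B.N n with hN
  set Hb := HB S (4 * s) with hHb
  set ξ' := ξ.map S.G with hξ'
  set W0 := WW w n X ∪ kp X N with hW0
  obtain ⟨m, hm0, hrow, hco, hpW, hpt, -⟩ := ring_end hP.win H.core.hi hs hsc c1 c2 hC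
  obtain ⟨f1, f2, hf, ⟨z0, hz1, hz2⟩, hcl⟩ := hP.closed_path hm0 hrow
  set p := ru w n m + H75.Perc.dir (w.k + 1) with hp
  set t := ru w n m with ht
  have hro := hrow m le_rfl
  have htN : t ∈ N := hro.inN
  have hpN : p ∉ N := hro.out
  have hpt' : IsUnit4 (t - p) := by
    apply unit4_symm
    rw [hp, add_sub_cancel_left]; exact isUnit4_dir _
  have hept : p + t = rw' w n m := by rw [add_comm]; rfl
  have hzN : vx z0 ∈ N := by rw [hz1]; exact htN
  -- the region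
  set V : ℤ × ℤ → Prop := fun v => box (A.δ n) B.o d.K v ∈ d.R with hV
  have hwin : ∀ u, Wd w n i c0 u → 0 < tc w n u → V u := by
    intro u h1 h2
    exact H.core.vwin u (h1.mono (by linarith)) h2
  have hsc' : (((4 * s : ℤ) : ℝ) + 1) * A.δ n ≤ c0 := by push_cast; linarith
  have hHbV : ∀ u v : ℤ × ℤ, IsUnit4 (v - u) → u + v ∈ Hb → V u ∧ V v := by
    intro u v huv he
    have h1 := hb_win w n i hsc' (by omega) he (Or.inl rfl)
    have h2 := hb_win w n i hsc' (by omega) he (Or.inr rfl)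
    have h1' := hwin _ h1.1 h1.2
    have h2' := hwin _ h2.1 h2.2
    rcases (Pool.Agent.H42.Q1.ends_add huv).2 with ⟨e1, e2⟩ | ⟨e1, e2⟩ <;> rw [e1] at h1' <;>
      rw [e2] at h2'
    · exact ⟨h1', h2'⟩
    · exact ⟨h2', h1'⟩
  have hpV : V p := hwin p (hpW.mono hsc) hpt
  have htV : ¬ V t := fun h => H.core.notN h htN
  have hxiHb : ξ' ⊆ Hb := by
    rw [hξ', hHb]
    unfold HB
    exact Finset.map_subset_map.2 (hξ.trans (sdiff_subset))
  obtain ⟨hGE, hGst⟩ := hP.td.G_nr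
  -- labels of the half ball
  have hHbo : ∀ e ∈ Hb, (e.1 + e.2) % 2 = 1 := fun e he => (FB_dt (HB_sub_FB _ (by omega) he)).1
  have hHbG : ∀ e ∈ Hb, e ∈ d.G B.o (A.δ n) := by
    intro e he
    obtain ⟨h1, h2⟩ := Pool.Agent.H42.Q1.eu_ev_step (hHbo e he)
    have h3 := hHbV _ _ h1 (by rw [h2]; exact he)
    have h4 := H.mem_G h1 h3.1 h3.2
    rwa [h2] at h4
  have hHbst : ∀ e ∈ Hb, e ∉ star N := fun e he => hGst e (hHbG e he)
  -- the label at the end of the ring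
  have h0st : p + t ∈ star N := by
    rw [hept]; exact Pool.Agent.H21.Q1.perp_star (hP.rw_perp hro)
  have h0XE : p + t ∈ X.E := by
    rcases (H.lab_V hpt' hpV).2 with h | h
    · exact h
    · exact absurd h0st (hP.td.ctx.τst _ h)
  have h0E : p + t ∉ (X.E \ star N) \ Hb := fun h => (Finset.mem_sdiff.1 (Finset.mem_sdiff.1 h).1).2 h0st
  have h0x : p + t ∉ ξ' := fun h => hHbst _ (hxiHb h) h0st
  have h0W : p + t ∉ W0 := by
    intro h
    rcases H.W0_star h h0st with h3 | h3 | h3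
    · rw [hept] at h3
      exact hP.rw_notTw hm0 hrow h3
    · exact (disjoint_left.1 X.disj h0XE) (H.core.W0 h3)
    · rw [hept] at h3
      exact perp_notkp (hP.rw_perp hro) h3
  have hEG : Disjoint ((X.E \ star N) \ Hb) (W0 ∪ ξ') := by
    rw [disjoint_left]
    intro e he h
    obtain ⟨he1, he2⟩ := Finset.mem_sdiff.1 he
    obtain ⟨he3, he4⟩ := Finset.mem_sdiff.1 he1
    rcases mem_union.1 h with h | h
    · rcases H.W0_or h with h5 | h5
      · exact (disjoint_left.1 X.disj he3) h5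
      · exact he4 h5
    · exact he2 (hxiHb h)
  have hEo : ∀ e ∈ (X.E \ star N) \ Hb, (e.1 + e.2) % 2 = 1 := fun e he =>
    H.odd e (Finset.mem_sdiff.1 (Finset.mem_sdiff.1 he).1).1
  -- the state
  have hSt : StV X N Hb W0 ξ' t :=
    ⟨hP.inv, H.invL, H.odd, H.W_W0, fun e he => H.W0_or he, hxiHb,
      (H.kpN _ hP.sol.beta _ htN).mono subset_union_right, htN⟩
  -- the primal ties
  set VA : Finset (ℤ × ℤ) := ((range d.N).biUnion fun m =>
    (range (d.ln B.o (A.δ n) m + 1)).image (d.pt' B.o (A.δ n) m)).filter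
      (fun v => PT X N Hb f2 r Dd v) with hVA
  obtain ⟨O, hOE, hOT, hOc⟩ := exists_O hSt (f2 := f2) hr hD VA (fun v hv => (mem_filter.1 hv).2)
  -- the dual ties
  set L0 : Finset (ℤ × ℤ) := ((X.E \ star N) \ Hb).filter (fun l => DT X N Hb f2 r Dd l) with hL0
  have hG' : insert (p + t) ((X.E \ star N) \ Hb ∪ (W0 ∪ ξ')) ⊆ X.E ∪ X.W := by
    intro e he
    rw [mem_insert, mem_union, mem_union] at he
    rcases he with rfl | he | he | he
    · exact mem_union_left _ h0XE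
    · exact mem_union_left _ (Finset.mem_sdiff.1 (Finset.mem_sdiff.1 he).1).1
    · exact H.W0_sub he
    · exact mem_union_left _ (hGE (hHbG e (hxiHb he)))
  have hcl' := hcl (insert (p + t) ((X.E \ star N) \ Hb ∪ (W0 ∪ ξ'))) hG' (by
    intro e he hst
    rw [mem_insert, mem_union, mem_union] at he
    rcases he with rfl | he | he | he
    · exact Or.inl hept
    · exact absurd hst (Finset.mem_sdiff.1 (Finset.mem_sdiff.1 he).1).2
    · exact Or.inr (H.W0_star he hst)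
    · exact absurd hst (hHbst e (hxiHb he)))
  obtain ⟨Cc, hCE, hLC, hCT⟩ := exists_C hSt (f2 := f2) hr hD L0
    (fun l hl => (mem_filter.1 hl).2) hcl'
  -- the glue
  have g : GlueV ((X.E \ star N) \ Hb) Hb W0 ξ' (S.g (rv s ξ)) p t V
      (TV hP.hb.T (LX d.K B.o.re (A.δ n)) (LX d.K B.o.im (A.δ n))) Zo (d.G B.o (A.δ n))
      (WL hP.hb.T (LX d.K B.o.re (A.δ n)) (LX d.K B.o.im (A.δ n))) O Cc := by
    refine ⟨hco, hpV, htV, ?_, ?_, ?_, ?_, ?_, ?_, ?_, ?_, ?_⟩
    · intro e he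
      by_cases h : e ∈ Hb
      · exact mem_union_right _ h
      · exact mem_union_left _ (Finset.mem_sdiff.2 ⟨Finset.mem_sdiff.2 ⟨hGE he, hGst e he⟩, h⟩)
    · exact sdiff_disjoint
    · intro u v huv h _
      exact (hHbV u v huv (hxiHb h)).2
    · intro u v huv hu hv
      exact H.mem_G huv hu hv
    · rw [disjoint_left]
      intro e he h
      rcases H.W0_or he with h5 | h5
      · exact (disjoint_left.1 X.disj (hGE h)) h5
      · exact hGst e h h5
    · intro u v huv h hu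
      rcases H.W0V huv h hu with ⟨m', h1, j, h2, h3⟩ | h1
      · exact Or.inl ((TV_iff hP.hb hP.td.fine).2 ⟨m', h1, j, h2, h3⟩)
      · exact Or.inr h1
    · intro u v huv h
      exact WL_TV hP.hb hP.td.fine huv h
    · -- ties
      intro v hv
      obtain ⟨m', h1, j, h2, h3⟩ := (TV_iff hP.hb hP.td.fine).1 hv
      have hm'N : m' < d.N := lt_of_lt_of_le h1 (hP.hb.hi.le.trans hP.hb.n2)
      by_cases hrun : d.n1 ≤ m' ∧ m' < d.n2
      · rcases H.run_cases hm'N hrun.1 hrun.2 with h5 | h5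
        · by_cases hj0 : j = 0 ∨ j = d.ln B.o (A.δ n) m'
          · left
            rw [h3]
            refine H.zc m' hrun.1 hrun.2 j hj0 fun hWd => ?_
            have := (H.core.side_win hm'N h2 hWd).1
            omega
          · right
            push Not at hj0
            have hj1 : 0 < j := by omega
            have hj2 : j < d.ln B.o (A.δ n) m' := by omega
            obtain ⟨b1, b2⟩ := SD.side_box' hP.td.ok hP.td.fine hj1 hj2
            have hvV : V v := by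
              rw [hV, h3]
              change box (A.δ n) B.o d.K _ ∈ d.R
              rw [b1]; exact (SD.isSide hP.td.ok m').1
            have hperp := SD.perp_of_flat hP.td.ok hP.td.fine hP.td.free hj1 hj2
              (fun v hv => H.core.fln v (by rw [hv]; exact h5))
            have huv : IsUnit4 (d.pt' B.o (A.δ n) m' j + H75.Perc.dir ((d.sid m').2 - 1) -
                d.pt' B.o (A.δ n) m' j) := by
              rw [add_sub_cancel_left]; exact isUnit4_dir _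
            have hX0 : d.ol B.o (A.δ n) m' j ∈ (X0 A n).E := by
              rw [H.core.ol_eq]
              exact hP.YE (H.lab_V huv (by rw [← h3]; exact hvV)).1
            have hTw := hP.mem_Tw_of (lt_of_lt_of_le hP.td.ok.mark.pos hrun.1) h1 hj1 hj2 hperp hX0
            have hW : d.ol B.o (A.δ n) m' j ∈ W0 := by
              rw [hW0]
              exact mem_union_left _ (mem_union_right _ (mem_union_left _ hTw))
            rw [H.core.ol_eq] at hW
            have := H.W0t huv htN hW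
            rw [h3]
            exact this.mono (subset_union_left.trans subset_union_right)
        · left
          rw [h3]
          exact H.zb m' hm'N h5 j h2
      · rcases Nat.eq_zero_or_pos m' with h0 | h0
        · left
          rw [h3, h0]
          rw [h0] at h2
          exact H.z0 j h2
        · rcases H.zg m' hm'N hrun with h5 | h5
          · left
            rw [h3]
            exact h5 j h2
          · right
            have hmn1 : m' < d.n1 := by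
              by_contra hc
              have h6 := hP.hb.hi
              exact hrun ⟨by omega, by omega⟩
            have hPT := H.tiePT h0 hmn1 h5 hs0 hsc (z := z0) hzN h2
            rw [hz2] at hPT
            have hvA : v ∈ VA := by
              rw [hVA, mem_filter, mem_biUnion]
              exact ⟨⟨m', mem_range.2 hm'N, mem_image.2 ⟨j, mem_range.2 (by omega), h3.symm⟩⟩,
                by rw [h3]; exact hPT⟩
            exact (hOc v hvA).mono (union_subset_union (subset_refl _) subset_union_left)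
    · -- closed labels
      intro u v huv he hu hnT hv
      obtain ⟨m', hm', j, hj, e1, e2, e3, e4⟩ := exists_out hP.td.ok hP.td.fine huv hu hv
      have hmnb : nb ≤ m' := by
        by_contra hc
        exact hnT ((TV_iff hP.hb hP.td.fine).2 ⟨m', by omega, j, hj, e1⟩)
      have heX := (Finset.mem_sdiff.1 (Finset.mem_sdiff.1 he).1)
      by_cases hm2 : m' < d.n2
      · rcases H.run_cases hm' (hP.hb.lo.le.trans hmnb) hm2 with h5 | h5
        · exfalso
          rw [e3] at h5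
          have hvN := H.core.fln v h5
          apply heX.2
          obtain ⟨h1, h2⟩ := Pool.Agent.H42.Q1.ends_add huv
          rw [mem_star_iff h1]
          rcases h2 with ⟨k1, k2⟩ | ⟨k1, k2⟩ <;> rw [k1, k2] <;> tauto
        · right
          rw [e1]
          exact H.zb m' hm' h5 j hj
      · have hrun : ¬ (d.n1 ≤ m' ∧ m' < d.n2) := fun h => hm2 h.2
        rcases H.zg m' hm' hrun with h5 | h5
        · right
          rw [e1]
          exact h5 j hj
        · left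
          have hDT := H.tieDT (by omega) hm' h5 hs0 hsc (z := z0) hzN hj huv e2 e3 e4 heX.1
          rw [hz2] at hDT
          exact hLC (mem_filter.2 ⟨he, hDT⟩)
  have hcmp := ring_compareV (S := S) (s := s) (E := X.E \ star N) (W := WW w n X) (N := N)
    (Kp := kp X N) (ξ := ξ) (p := p) (t := t) kp_kap H.kpN htN g
    (a := (1 - δ0) ^ k) (b := (1 - δ0) ^ k) (z := z)
    (ring_open0 hδ0 hpt' hEo (fun e he => H.odd_W0 he) (fun e he => hHbo e (hxiHb he)) h0E h0W h0x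
      (fun u v huv h => H.W0t huv htN h) (by rw [hept]; exact hf) hOE hOT)
    (ring_dual0 hδ0 hpt' hEo (fun e he => H.odd_W0 he) (fun e he => hHbo e (hxiHb he)) h0E h0W h0x
      hEG (by rw [hept]; exact hf) hCE hCT)
    (hz p hpW hpt)
  rw [max_self] at hcmp
  exact hcmp

end CoreZ

end

end Pool.Agent.H76.M7
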