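import Mathlib
import Pool.Agent.H76.M7.RingC

set_option autoImplicit false
open Finset Filter Topology

/-! # Module M7: the state and the polygon are flat near the window point -/

namespace Pool.Agent.H76.M7

open Pool.Agent.H75.Perc Pool.Agent.H75.TwoArm Pool.Agent.H75.Four Pool.Agent.H69.Q1
open Pool.Agent.H49.Q1 Pool.Agent.H47.NC.ArchAux
open Pool.Agent.H52.Q1 hiding Far
open Pool.Agent.H21.Q1 (Sol kp rl rc per kp_kap kp_star perp_notkp)
open Pool.Agent.H81.Q1 (pt DDomain Approx IsJordanDomain IsArcs)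
open Pool.Agent.Q1.M3
open Pool.Agent.Q1.M3.Pg (SD LX)
open Pool.Agent.H82.Q1.M7
open Pool.Agent.Q1.M5 (TV WL EL sV)

section

variable {D : Set ℂ} {a b : ℂ} {A₁ A₂ : Set ℂ} {A : Approx D a b A₁ A₂} {r0 : ℝ} {B : Base A r0}

/-- a lattice ball is in the window -/
lemma dt_win (w : Win B) (n : ℕ) (i : ℤ) {r : ℤ} {c : ℝ} (hr : ((r : ℝ) + 1) * A.δ n ≤ c)
    {u : ℤ × ℤ} (h1 : |dt w.k (u - w.x n i)| ≤ r) (h2 : |dt (w.k + 1) (u - w.x n i)| ≤ r) :
    Wd w n i c u ∧ (0 < tc w n u ↔ 0 ≤ dt (w.k + 1) (u - w.x n i)) := by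
  have hδ := A.pos n
  have hxs := x_sc w n i
  have hxt := x_tc w n i
  have e1 := sc_sub w n u (w.x n i)
  have e2 := tc_sub w n u (w.x n i)
  have g1' : |(dt w.k (u - w.x n i) : ℝ)| ≤ r := by exact_mod_cast h1
  have g2' : |(dt (w.k + 1) (u - w.x n i) : ℝ)| ≤ r := by exact_mod_cast h2
  have k1 : |A.δ n * (dt w.k (u - w.x n i) : ℝ)| ≤ A.δ n * r := by
    rw [abs_mul, abs_of_pos hδ]; exact mul_le_mul_of_nonneg_left g1' hδ.le
  have k2 : |A.δ n * (dt (w.k + 1) (u - w.x n i) : ℝ)| ≤ A.δ n * r := by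
    rw [abs_mul, abs_of_pos hδ]; exact mul_le_mul_of_nonneg_left g2' hδ.le
  rw [← e1] at k1
  rw [← e2] at k2
  unfold Wd
  rw [abs_le] at k1 k2 hxs
  refine ⟨⟨?_, ?_⟩, ?_⟩
  · rw [abs_le]; constructor <;> nlinarith [k1.1, k1.2, hxs.1, hxs.2]
  · rw [abs_le]; constructor <;> nlinarith [k2.1, k2.2, hxt.1, hxt.2]
  · constructor
    · intro h
      by_contra hc
      have h3 : dt (w.k + 1) (u - w.x n i) ≤ -1 := by omega
      have h4 : (dt (w.k + 1) (u - w.x n i) : ℝ) ≤ -1 := by exact_mod_cast h3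
      nlinarith [hxt.1, hxt.2]
    · intro h
      have h3 : (0 : ℝ) ≤ dt (w.k + 1) (u - w.x n i) := by exact_mod_cast h
      nlinarith [hxt.1, hxt.2, mul_nonneg hδ.le h3]

namespace CoreH

variable {w : Win B} {n : ℕ} {l' : ℝ} {d : SD} {nb : ℕ} {X Y : DEnv} {τ A' : Finset (ℤ × ℤ)}
  {p0 : ℕ} {i : ℤ} {c0 : ℝ} (H : CoreH w n l' d nb X Y τ A' p0 i c0)

include H

/-- vertices of the window above the side -/
lemma win_V {u : ℤ × ℤ} (h1 : Wd w n i c0 u) (h2 : 0 < tc w n u) :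
    box (A.δ n) B.o d.K u ∈ d.R := by
  have hδ := A.pos n
  exact H.vwin u (h1.mono (by linarith)) h2

/-- vertices of the window outside the barrier -/
lemma win_N {u : ℤ × ℤ} (h1 : Wd w n i c0 u) : 0 < tc w n u ∨ u ∈ B.N n := by
  have hδ := A.pos n
  have c2 := H.c2
  obtain ⟨h3, h4⟩ := h1.win H.hi.le (l' := l') (by linarith)
  rcases lt_or_gt_of_ne (tc_ne w n u) with h | h
  · exact Or.inr (H.pos.win.bar u h3 h4 h).1
  · exact Or.inl h

lemma mem_G' {e : ℤ × ℤ} (ho : (e.1 + e.2) % 2 = 1) (h1 : box (A.δ n) B.o d.K (eu e) ∈ d.R)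
    (h2 : box (A.δ n) B.o d.K (ev e) ∈ d.R) : e ∈ d.G B.o (A.δ n) :=
  (SD.mem_G H.pos.td.ok H.pos.td.fine ho).2 ⟨h1, h2⟩

variable {R : ℤ} (hR0 : 0 ≤ R) (hR : ((R : ℝ) + 1) * A.δ n ≤ c0)

include hR0 hR

/-- labels of the half box -/
lemma hb_G {e : ℤ × ℤ} (he : e ∈ HB (Sd w.k (w.x n i)) R) : e ∈ d.G B.o (A.δ n) := by
  have ho := (FB_dt (HB_sub_FB _ hR0 he)).1
  obtain ⟨h1, h2⟩ := hb_win w n i hR hR0 he (Or.inl rfl)
  obtain ⟨h3, h4⟩ := hb_win w n i hR hR0 he (Or.inr rfl)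
  exact H.mem_G' ho (H.win_V h1 h2) (H.win_V h3 h4)

/-- no point of the wired arc in the window -/
lemma TV_win {v : ℤ × ℤ} (hv : TV H.pos.hb.T (LX d.K B.o.re (A.δ n)) (LX d.K B.o.im (A.δ n)) v) :
    ¬ Wd w n i c0 v := by
  intro hW
  obtain ⟨m, h1, j, h2, h3⟩ := (TV_iff H.pos.hb H.pos.td.fine).1 hv
  have hm : m < d.N := lt_of_lt_of_le h1 (H.pos.hb.hi.le.trans H.pos.hb.n2)
  rw [h3] at hW
  have := (H.side_win hm h2 hW).1
  omega

/-- **The polygon is flat.** -/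
theorem flat_poly : Flat (Sd w.k (w.x n i))
      (EL H.pos.hb.T (LX d.K B.o.re (A.δ n)) (LX d.K B.o.im (A.δ n)))
      (WL H.pos.hb.T (LX d.K B.o.re (A.δ n)) (LX d.K B.o.im (A.δ n))) R ∧
    ∀ v, TV H.pos.hb.T (LX d.K B.o.re (A.δ n)) (LX d.K B.o.im (A.δ n)) v →
      ¬ VI (Sd w.k (w.x n i)) R v := by
  have hWLn : ∀ e ∈ FB (Sd w.k (w.x n i)) R,
      e ∉ WL H.pos.hb.T (LX d.K B.o.re (A.δ n)) (LX d.K B.o.im (A.δ n)) := by
    intro e he h
    obtain ⟨ho, ⟨g1, g2⟩, g3, g4⟩ := FB_dt he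
    obtain ⟨h1, h2⟩ := Pool.Agent.H42.Q1.eu_ev_step ho
    have h3 := WL_TV H.pos.hb H.pos.td.fine h1 (by rw [h2]; exact h)
    exact H.TV_win hR0 hR h3 (dt_win w n i hR g1 g2).1
  refine ⟨⟨fun e he => ⟨fun hE => ?_, hWLn e he⟩, fun e he => ?_⟩, fun v hv hVI => ?_⟩
  · obtain ⟨ho, ⟨g1, g2⟩, g3, g4⟩ := FB_dt he
    have hG : e ∈ d.G B.o (A.δ n) := (Finset.mem_sdiff.1 hE).1
    obtain ⟨b1, b2⟩ := (SD.mem_G H.pos.td.ok H.pos.td.fine ho).1 hG
    have k1 := dt_win w n i hR g1 g2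
    have k2 := dt_win w n i hR g3 g4
    refine HB_dt he (k1.2.1 ?_) (k2.2.1 ?_)
    · rcases H.win_N k1.1 with h | h
      · exact h
      · exact absurd h (H.notN b1)
    · rcases H.win_N k2.1 with h | h
      · exact h
      · exact absurd h (H.notN b2)
  · exact Finset.mem_sdiff.2 ⟨H.hb_G hR0 hR he, hWLn e (HB_sub_FB _ hR0 he)⟩
  · obtain ⟨h1, h2, h3⟩ := VI_dt hVI
    have h4 : |dt (w.k + 1) (v - w.x n i)| ≤ R := by rw [abs_le]; omega
    exact H.TV_win hR0 hR hv (dt_win w n i hR h1 h4).1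

/-- **The state is flat.** -/
theorem flat_state : Flat (Sd w.k (w.x n i)) (X.E \ star (B.N n)) (WW w n X) R ∧
    ∀ v, v ∈ B.N n → ¬ VI (Sd w.k (w.x n i)) R v := by
  have hδ := A.pos n
  have c1 := H.c1
  have c2 := H.c2
  obtain ⟨hGE, hGst⟩ := H.pos.td.G_nr
  refine ⟨⟨fun e he => ?_, fun e he => ?_⟩, fun v hv hVI => ?_⟩
  · obtain ⟨ho, ⟨g1, g2⟩, g3, g4⟩ := FB_dt he
    have k1 := dt_win w n i hR g1 g2
    have k2 := dt_win w n i hR g3 g4
    obtain ⟨u1, u2⟩ := Pool.Agent.H42.Q1.eu_ev_step ho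
    constructor
    · intro hE
      obtain ⟨hE1, hE2⟩ := Finset.mem_sdiff.1 hE
      rw [mem_star_iff ho, not_or] at hE2
      exact HB_dt he (k1.2.1 ((H.win_N k1.1).resolve_right hE2.1))
        (k2.2.1 ((H.win_N k2.1).resolve_right hE2.2))
    · intro hW
      have hWin1 := k1.1.win H.hi.le (l' := l') (by linarith)
      have hfree : e ∈ (X0 A n).E := H.pos.win.lab _ hWin1.1 hWin1.2
        ((mem_star1_iff ho).2 (Or.inl rfl))
      unfold WW at hW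
      rw [mem_union, mem_union, Finset.mem_sdiff, mem_inter] at hW
      rcases hW with ⟨h1, h2⟩ | h1 | ⟨h1, -⟩
      · rw [mem_star_iff ho, not_or] at h2
        have v1 := H.win_V k1.1 ((H.win_N k1.1).resolve_right h2.1)
        have v2 := H.win_V k2.1 ((H.win_N k2.1).resolve_right h2.2)
        exact (disjoint_left.1 X.disj (hGE (H.mem_G' ho v1 v2))) h1
      · have hp := (H.pos.mem_Tw.1 h1).1
        rw [mem_perp_iff ho] at hp
        rcases hp with ⟨p1, p2⟩ | ⟨p1, p2⟩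
        · obtain ⟨m', g1, g2, -, -, g5, -⟩ := row_of H.pos.win H.hi.le (c := c0) (l' := l')
            (by linarith) (by linarith) p1 p2 u1 k2.1
          rw [u2] at g5
          exact H.pos.rw_notTw g1 g2 (by rw [← g5]; exact h1)
        · obtain ⟨m', g1, g2, -, -, g5, -⟩ := row_of H.pos.win H.hi.le (c := c0) (l' := l')
            (by linarith) (by linarith) p2 p1 (unit4_symm u1) k1.1
          rw [add_comm, u2] at g5
          exact H.pos.rw_notTw g1 g2 (by rw [← g5]; exact h1)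
      · exact (disjoint_left.1 (X0 A n).disj hfree) h1
  · have := H.hb_G hR0 hR he
    exact Finset.mem_sdiff.2 ⟨hGE this, hGst e this⟩
  · obtain ⟨h1, h2, h3⟩ := VI_dt hVI
    have h4 : |dt (w.k + 1) (v - w.x n i)| ≤ R := by rw [abs_le]; omega
    have h5 := dt_win w n i hR h1 h4
    exact H.notN (H.win_V h5.1 (h5.2.2 h2)) hv

end CoreH

end

end Pool.Agent.H76.M7
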