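import Mathlib
import Pool.Agent.H76.M7.FlatP

set_option autoImplicit false
open Finset Filter Topology

/-! # Module M7: arms from the ring to the exceptional vertices of a state -/

namespace Pool.Agent.H76.M7

open Pool.Agent.H75.Perc Pool.Agent.H75.TwoArm Pool.Agent.H75.Four Pool.Agent.H69.Q1
open Pool.Agent.H49.Q1 Pool.Agent.H47.NC.ArchAux
open Pool.Agent.H52.Q1 hiding Far
open Pool.Agent.H21.Q1 (Dcy)
open Pool.Agent.H77.Q1 (Far)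
open Pool.Agent.H81.Q1 (pt DDomain Approx IsJordanDomain IsArcs)
open Pool.Agent.Q1.M3
open Pool.Agent.H82.Q1.M7

/-- the box around a vertex -/
def Bl (c : ℤ × ℤ) (ρ : ℤ) (v : ℤ × ℤ) : Prop := |v.1 - c.1| ≤ ρ ∧ |v.2 - c.2| ≤ ρ

lemma arm_ball {δ0 : ℝ} (hδ : Dcy δ0) {E ξ : Finset (ℤ × ℤ)} {p c : ℤ × ℤ} {ρ R : ℤ} {k : ℕ}
    (hE : ∀ e ∈ E, (e.1 + e.2) % 2 = 1) (h1 : 1 ≤ ρ) (h4 : 4 ^ k * ρ ≤ R) (hp : Far R c p)
    (hξ : ∀ a b : ℤ × ℤ, IsUnit4 (b - a) → a + b ∈ ξ → Far R c a) :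
    Pr E (fun ω => ∃ v, Bl c ρ v ∧ Co (ω ∪ ξ) p v) ≤ (1 - δ0) ^ k := by
  have h := zone_armV (ι := Unit) hδ (E := E) (ξ := ξ) (p := p) (Zo := Bl c ρ) hE {()} (fun _ => c)
    (fun _ => ρ) (fun _ => R) (fun _ => k) (fun _ _ => h1) (fun _ _ => h4)
    (fun v hv => ⟨(), mem_singleton_self _, hv⟩) (fun _ _ => hp) (fun a b hab h _ _ => hξ a b hab h)
  simpa using h

lemma arm_points {δ0 : ℝ} (hδ : Dcy δ0) {E ξ : Finset (ℤ × ℤ)} {p : ℤ × ℤ} {R : ℤ} {k : ℕ}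
    (hE : ∀ e ∈ E, (e.1 + e.2) % 2 = 1) (I : Finset (ℤ × ℤ)) (h4 : (4 : ℤ) ^ k ≤ R)
    (hp : ∀ c ∈ I, Far R c p)
    (hξ : ∀ a b : ℤ × ℤ, IsUnit4 (b - a) → a + b ∈ ξ → ∀ c ∈ I, Far R c a) :
    Pr E (fun ω => ∃ v, v ∈ I ∧ Co (ω ∪ ξ) p v) ≤ I.card * (1 - δ0) ^ k := by
  have h := zone_armV (ι := ℤ × ℤ) hδ (E := E) (ξ := ξ) (p := p) (Zo := fun v => v ∈ I) hE I
    (fun c => c) (fun _ => 1) (fun _ => R) (fun _ => k) (fun _ _ => le_rfl)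
    (fun _ _ => by rw [mul_one]; exact h4)
    (fun v hv => ⟨v, hv, by simp, by simp⟩) hp hξ
  simpa using h

lemma far_of_pt {δ : ℝ} (hδ : 0 < δ) {c p : ℤ × ℤ} {R : ℤ} {x : ℝ} (hx : 2 * (R * δ) ≤ x)
    (h : x ≤ dist (pt δ c) (pt δ p)) : Far R c p := by
  by_contra hF
  unfold Far at hF
  push Not at hF
  obtain ⟨h1, h2⟩ := hF
  have e : pt δ c - pt δ p = ((δ * (c.1 - p.1) : ℝ) : ℂ) + ((δ * (c.2 - p.2) : ℝ) : ℂ) * Complex.I := by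
    unfold pt
    apply Complex.ext <;> simp <;> ring
  have h3 : dist (pt δ c) (pt δ p) ≤ |δ * (c.1 - p.1 : ℝ)| + |δ * (c.2 - p.2 : ℝ)| := by
    rw [dist_eq_norm, e]
    refine (norm_add_le _ _).trans ?_
    rw [norm_mul, Complex.norm_I, mul_one, Complex.norm_real, Complex.norm_real]
    exact le_rfl
  have h1' : |(p.1 : ℝ) - c.1| < R := by exact_mod_cast h1
  have h2' : |(p.2 : ℝ) - c.2| < R := by exact_mod_cast h2
  rw [abs_mul, abs_mul, abs_of_pos hδ, abs_sub_comm, abs_sub_comm (c.2 : ℝ)] at h3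
  nlinarith

section

variable {D : Set ℂ} {a b : ℂ} {A₁ A₂ : Set ℂ} {A : Approx D a b A₁ A₂} {r0 : ℝ} {B : Base A r0}

/-- a point outside the window is far from the points of a smaller window -/
lemma far_of_win (w : Win B) (n : ℕ) (i : ℤ) {c0 c' : ℝ} {c p : ℤ × ℤ} {R : ℤ}
    (hR : c' + R * A.δ n ≤ c0) (hc : ¬ Wd w n i c0 c) (hp : Wd w n i c' p) : Far R c p := by
  by_contra hF
  unfold Far at hF
  push Not at hF
  obtain ⟨h1, h2⟩ := hF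
  apply hc
  have hδ := A.pos n
  have key : |dt w.k (c - p)| ≤ R ∧ |dt (w.k + 1) (c - p)| ≤ R := by
    unfold dt
    rw [abs_lt] at h1 h2
    rcases dir_succ_cases w.k with ⟨-, h3, h4, -⟩ | ⟨-, h3, h4, -⟩ | ⟨-, h3, h4, -⟩ |
      ⟨-, h3, h4, -⟩ <;> rw [h3, h4] <;> simp only [Prod.fst_sub, Prod.snd_sub, abs_le] <;> omega
  have e1 := sc_sub w n c p
  have e2 := tc_sub w n c p
  have g1' : |(dt w.k (c - p) : ℝ)| ≤ R := by exact_mod_cast key.1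
  have g2' : |(dt (w.k + 1) (c - p) : ℝ)| ≤ R := by exact_mod_cast key.2
  have k1 : |A.δ n * (dt w.k (c - p) : ℝ)| ≤ A.δ n * R := by
    rw [abs_mul, abs_of_pos hδ]; exact mul_le_mul_of_nonneg_left g1' hδ.le
  have k2 : |A.δ n * (dt (w.k + 1) (c - p) : ℝ)| ≤ A.δ n * R := by
    rw [abs_mul, abs_of_pos hδ]; exact mul_le_mul_of_nonneg_left g2' hδ.le
  rw [← e1] at k1
  rw [← e2] at k2
  obtain ⟨q1, q2⟩ := hp
  rw [abs_le] at k1 k2 q1 q2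
  refine ⟨?_, ?_⟩
  · rw [abs_le]; constructor <;> linarith [k1.1, k1.2, q1.1, q1.2]
  · rw [abs_le]; constructor <;> linarith [k2.1, k2.2, q2.1, q2.2]

/-- the window is near the window point -/
lemma win_dist {w : Win B} {n : ℕ} {i : ℤ} (hi : 0 ≤ i) {c : ℝ} {p : ℤ × ℤ} (hp : Wd w n i c p) :
    dist (pt (A.δ n) p) w.p ≤ i * mesh (w.k1 + 1) + 2 * c := by
  have h0 : 0 ≤ (i : ℝ) * mesh (w.k1 + 1) := by
    have := mesh_pos (w.k1 + 1)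
    have h6 : (0 : ℝ) ≤ i := by exact_mod_cast hi
    positivity
  have hu : ‖uv w.k‖ = 1 := by
    unfold uv
    rcases dir_succ_cases w.k with ⟨-, h, -⟩ | ⟨-, h, -⟩ | ⟨-, h, -⟩ | ⟨-, h, -⟩ <;> rw [h] <;>
      rw [Complex.norm_def, Complex.normSq_mk] <;> simp
  rw [pt_sc w n p, dist_eq_norm, add_sub_cancel_left, norm_mul, hu, mul_one]
  refine (norm_add_le _ _).trans ?_
  rw [norm_mul, Complex.norm_I, mul_one, Complex.norm_real, Complex.norm_real, Real.norm_eq_abs,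
    Real.norm_eq_abs]
  obtain ⟨h1, h2⟩ := hp
  have h3 : |sc w n p| ≤ i * mesh (w.k1 + 1) + c := by
    rw [abs_le] at h1 ⊢
    constructor <;> linarith [h1.1, h1.2]
  linarith

/-- **Arms to the exceptional vertices.** -/
theorem arms {δ0 : ℝ} (hδ0 : Dcy δ0) {w : Win B} {n : ℕ} {i : ℤ} (hi : 0 < i) {c0 : ℝ} {E : Finset (ℤ × ℤ)}
    (hE : ∀ e ∈ E, (e.1 + e.2) % 2 = 1) {s : ℤ} (hs : 1 ≤ s) {ξ : Finset (ℤ × ℤ)} (hξ : ξ ⊆ AA s)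
    {ct cb : ℤ × ℤ} {ρt Rt ρb Rb Rc : ℤ} {kt kb kc : ℕ} (I : Finset (ℤ × ℤ))
    (t1 : 1 ≤ ρt) (t2 : 4 ^ kt * ρt ≤ Rt) (b1 : 1 ≤ ρb) (b2 : 4 ^ kb * ρb ≤ Rb)
    (c1 : (4 : ℤ) ^ kc ≤ Rc)
    (hct : ∀ p, Wd w n i ((4 * (s : ℝ) + 3) * A.δ n) p → Far Rt ct p)
    (hcb : ∀ p, Wd w n i ((4 * (s : ℝ) + 3) * A.δ n) p → Far Rb cb p)
    (hI : ∀ c ∈ I, ¬ Wd w n i c0 c) (hRc : (4 * (s : ℝ) + 3) * A.δ n + Rc * A.δ n ≤ c0)
    {Zo : ℤ × ℤ → Prop} (hZo : ∀ v, Zo v → Bl ct ρt v ∨ Bl cb ρb v ∨ v ∈ I) :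
    ∀ p, Wd w n i ((4 * (s : ℝ) + 3) * A.δ n) p → 0 < tc w n p →
      Pr E (fun ω => ∃ v, Zo v ∧ Co (ω ∪ ξ.map (Sd w.k (w.x n i)).G) p v) ≤
        (1 - δ0) ^ kt + ((1 - δ0) ^ kb + I.card * (1 - δ0) ^ kc) := by
  intro p hp _
  have hδ := A.pos n
  have hxi : ∀ a b : ℤ × ℤ, IsUnit4 (b - a) → a + b ∈ ξ.map (Sd w.k (w.x n i)).G →
      Wd w n i ((4 * (s : ℝ) + 3) * A.δ n) a := by
    intro a b hab h
    have hH : a + b ∈ HB (Sd w.k (w.x n i)) (4 * s) := by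
      unfold HB
      exact Finset.map_subset_map.2 (hξ.trans Finset.sdiff_subset) h
    have hsc : (((4 * s : ℤ) : ℝ) + 1) * A.δ n ≤ (4 * (s : ℝ) + 3) * A.δ n := by
      push_cast; nlinarith
    have h1 := (hb_win w n i hsc (by omega) hH (Or.inl rfl)).1
    have h2 := (hb_win w n i hsc (by omega) hH (Or.inr rfl)).1
    rcases (Pool.Agent.H42.Q1.ends_add hab).2 with ⟨e1, e2⟩ | ⟨e1, e2⟩
    · rw [e1] at h1; exact h1
    · rw [e2] at h2; exact h2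
  refine (Pr_mono (B := fun ω =>
      (∃ v, Bl ct ρt v ∧ Co (ω ∪ ξ.map (Sd w.k (w.x n i)).G) p v) ∨
      ((∃ v, Bl cb ρb v ∧ Co (ω ∪ ξ.map (Sd w.k (w.x n i)).G) p v) ∨
      ∃ v, v ∈ I ∧ Co (ω ∪ ξ.map (Sd w.k (w.x n i)).G) p v)) ?_).trans ?_
  · rintro ω _ ⟨v, hv, hc⟩
    rcases hZo v hv with h | h | h
    · exact Or.inl ⟨v, h, hc⟩
    · exact Or.inr (Or.inl ⟨v, h, hc⟩)
    · exact Or.inr (Or.inr ⟨v, h, hc⟩)
  · refine (Pr_or_le E _ _).trans (add_le_add ?_ ((Pr_or_le E _ _).trans (add_le_add ?_ ?_)))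
    · exact arm_ball hδ0 hE t1 t2 (hct p hp) (fun a b hab h => hct a (hxi a b hab h))
    · exact arm_ball hδ0 hE b1 b2 (hcb p hp) (fun a b hab h => hcb a (hxi a b hab h))
    · exact arm_points hδ0 hE I c1 (fun c hc => far_of_win w n i hRc (hI c hc) hp)
        (fun a b hab h c hc => far_of_win w n i hRc (hI c hc) (hxi a b hab h))

end

end Pool.Agent.H76.M7
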