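import Mathlib
import Pool.Agent.H76.M7.WinT

set_option autoImplicit false
open Finset Filter Topology

/-! # Module M7: `StUnif` -/

namespace Pool.Agent.H76.M7

open Pool.Agent.H75.Perc Pool.Agent.H75.TwoArm Pool.Agent.H75.Four Pool.Agent.H69.Q1
open Pool.Agent.H49.Q1
open Pool.Agent.H81.Q1 (pt DDomain Approx IsJordanDomain IsArcs)
open Pool.Agent.Q1.M3
open Pool.Agent.Q1.M5 (StPz)
open Pool.Agent.H82.Q1.M7

section

variable {D : Set ℂ} {a b : ℂ} {A₁ A₂ : Set ℂ} {A : Approx D a b A₁ A₂} {r0 : ℝ} {B : Base A r0}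
  (w : Win B)

lemma norm_uv (k : ℤ) : ‖uv k‖ = 1 := by
  have h : ∀ x y : ℝ, x * x + y * y = 1 → ‖(⟨x, y⟩ : ℂ)‖ = 1 := by
    intro x y hxy
    rw [Complex.norm_def, Complex.normSq_apply, hxy, Real.sqrt_one]
  unfold uv
  rcases dir_succ_cases k with ⟨-, h1, -⟩ | ⟨-, h1, -⟩ | ⟨-, h1, -⟩ | ⟨-, h1, -⟩ <;> rw [h1] <;>
    apply h <;> simp

lemma dist_pt (n : ℕ) (u v : ℤ × ℤ) :
    dist (pt (A.δ n) u) (pt (A.δ n) v) ≤ |sc w n u - sc w n v| + |tc w n u - tc w n v| := by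
  rw [dist_eq_norm, pt_sc w n u, pt_sc w n v]
  have e : w.p + ((sc w n u : ℂ) + (tc w n u : ℂ) * Complex.I) * uv w.k -
      (w.p + ((sc w n v : ℂ) + (tc w n v : ℂ) * Complex.I) * uv w.k) =
      (((sc w n u - sc w n v : ℝ) : ℂ) + ((tc w n u - tc w n v : ℝ) : ℂ) * Complex.I) * uv w.k := by
    push_cast
    ring
  rw [e, norm_mul, norm_uv, mul_one]
  refine (norm_add_le _ _).trans ?_
  rw [norm_mul, Complex.norm_I, mul_one, Complex.norm_real, Complex.norm_real, Real.norm_eq_abs,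
    Real.norm_eq_abs]

/-- coordinates of a vertex near the window point -/
lemma near_x {n : ℕ} {l' : ℝ} {i r : ℤ} (hi : 0 < i)
    (hr' : i * mesh (w.k1 + 1) + (r + 2) * A.δ n ≤ l') {v : ℤ × ℤ}
    (h1 : |dt w.k (v - w.x n i)| ≤ r) (h2 : |dt (w.k + 1) (v - w.x n i)| ≤ r) :
    |sc w n v| ≤ l' ∧ |tc w n v| ≤ l' ∧ |sc w n v - sc w n (w.x n i)| ≤ r * A.δ n ∧
      |tc w n v - tc w n (w.x n i)| ≤ r * A.δ n := by
  have hδ := A.pos n
  have hmp := mesh_pos (w.k1 + 1)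
  have hi1 : (1 : ℝ) ≤ i := by exact_mod_cast hi
  have hxs := x_sc w n i
  have hxt := x_tc w n i
  have hr0 : 0 ≤ r := (abs_nonneg _).trans h1
  have e1 := sc_sub w n v (w.x n i)
  have e2 := tc_sub w n v (w.x n i)
  have h1' : |(dt w.k (v - w.x n i) : ℝ)| ≤ r := by exact_mod_cast h1
  have h2' : |(dt (w.k + 1) (v - w.x n i) : ℝ)| ≤ r := by exact_mod_cast h2
  have h3 : |A.δ n * (dt w.k (v - w.x n i) : ℝ)| ≤ A.δ n * r := by
    rw [abs_mul, abs_of_pos hδ]; exact mul_le_mul_of_nonneg_left h1' hδ.le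
  have h4 : |A.δ n * (dt (w.k + 1) (v - w.x n i) : ℝ)| ≤ A.δ n * r := by
    rw [abs_mul, abs_of_pos hδ]; exact mul_le_mul_of_nonneg_left h2' hδ.le
  rw [← e1] at h3
  rw [← e2] at h4
  have hr0' : (0 : ℝ) ≤ r := by exact_mod_cast hr0
  have hmi : mesh (w.k1 + 1) ≤ i * mesh (w.k1 + 1) := by nlinarith
  have h3' := abs_le.1 h3
  have h4' := abs_le.1 h4
  have hxs' := abs_le.1 hxs
  refine ⟨?_, ?_, by linarith, by linarith⟩
  · rw [abs_le]; constructor <;> nlinarith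
  · rw [abs_le]; constructor <;> nlinarith

/-- Labels near the window point are free in fresh states. -/
lemma fresh_near {n : ℕ} {l' ρ : ℝ} (hW : WinN w n l') {i r : ℤ} (hi : 0 < i)
    (hr' : i * mesh (w.k1 + 1) + (r + 2) * A.δ n ≤ l') (hρ : (2 * r + 2) * A.δ n < ρ)
    {X : DEnv} (hX : FreshS B n ρ X) {e : ℤ × ℤ} (he : e ∈ FB (Sd w.k (w.x n i)) r) :
    e ∈ (X0 A n).E ∧ e ∈ X.E := by
  have hδ := A.pos n
  obtain ⟨ho, ⟨hu1, hu2⟩, hv1, hv2⟩ := FB_dt he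
  obtain ⟨u1, u2, u3, u4⟩ := near_x w hi hr' hu1 hu2
  have hr0 : 0 ≤ r := (abs_nonneg _).trans hu1
  have hr0' : (0 : ℝ) ≤ r := by exact_mod_cast hr0
  have hE : e ∈ (X0 A n).E := hW.lab _ u1 u2 ((mem_star1_iff ho).2 (Or.inl rfl))
  refine ⟨hE, ?_⟩
  by_contra hc
  obtain ⟨t1, t2, t3⟩ := t_sc w n i
  have hxs := abs_le.1 (x_sc w n i)
  have hxt := x_tc w n i
  have t1' := abs_le.1 t1
  have hmp := mesh_pos (w.k1 + 1)
  have hi1 : (1 : ℝ) ≤ i := by exact_mod_cast hi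
  have hmi : mesh (w.k1 + 1) ≤ i * mesh (w.k1 + 1) := by nlinarith
  have hts : |sc w n (w.t n i)| ≤ l' := by rw [abs_le]; constructor <;> nlinarith
  have htt : |tc w n (w.t n i)| ≤ l' := by rw [abs_le]; constructor <;> nlinarith
  have hS := (hW.bar _ hts htt t3).2
  have h1 := hX e hE hc _ hS
  have h2 := dist_pt w n (eu e) (w.t n i)
  obtain ⟨a1, a2⟩ := sc_add_succ w n (w.t n i)
  rw [t_add] at a1 a2
  have h3 : |sc w n (eu e) - sc w n (w.t n i)| ≤ r * A.δ n := by rw [← a1]; exact u3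
  have h4 : |tc w n (eu e) - tc w n (w.t n i)| ≤ (r + 1) * A.δ n := by
    have := abs_le.1 u4
    rw [abs_le]
    constructor <;> linarith
  linarith

/-- **Near the window point a fresh state is a half plane.** -/
lemma thin_state {n : ℕ} {l' ρ : ℝ} (hW : WinN w n l') {i r : ℤ} (hi : 0 < i)
    (hr : (r + 2) * A.δ n < i * mesh (w.k1 + 1))
    (hr' : i * mesh (w.k1 + 1) + (r + 2) * A.δ n ≤ l') (hρ : (2 * r + 2) * A.δ n < ρ)
    {X : DEnv} (hX : FreshS B n ρ X) :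
    Thin (Sd w.k (w.x n i)) (X.E \ star (B.N n))
      ((X.W \ star (B.N n)) ∪ (w.Tw n ∪ ((X0 A n).W ∩ star (B.N n)))) r := by
  intro e he
  have hδ := A.pos n
  obtain ⟨hE0, hE⟩ := fresh_near w hW hi hr' hρ hX he
  obtain ⟨ho, ⟨hu1, hu2⟩, hv1, hv2⟩ := FB_dt he
  have hpos : ∀ v : ℤ × ℤ, |dt w.k (v - w.x n i)| ≤ r → |dt (w.k + 1) (v - w.x n i)| ≤ r →
      v ∉ B.N n → 0 ≤ dt (w.k + 1) (v - w.x n i) := by
    intro v h1 h2 h3
    obtain ⟨u1, u2, -, -⟩ := near_x w hi hr' h1 h2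
    have h4 : 0 < tc w n v := by
      by_contra hc
      exact h3 (hW.bar v u1 u2 (lt_of_le_of_ne (not_lt.1 hc) (tc_ne w n v))).1
    have h5 := tc_sub w n v (w.x n i)
    have h6 := (x_tc w n i).2
    have h7 : -A.δ n < A.δ n * (dt (w.k + 1) (v - w.x n i) : ℝ) := by rw [← h5]; linarith
    have h8 : (-1 : ℝ) < dt (w.k + 1) (v - w.x n i) := by
      by_contra hc
      push Not at hc
      nlinarith
    have h9 : -1 < dt (w.k + 1) (v - w.x n i) := by exact_mod_cast h8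
    omega
  constructor
  · intro h
    obtain ⟨h1, h2⟩ := mem_sdiff.1 h
    rw [mem_star_iff ho, not_or] at h2
    exact HB_dt he (hpos _ hu1 hu2 h2.1) (hpos _ hv1 hv2 h2.2)
  · intro h
    rw [Finset.mem_union, Finset.mem_union, Finset.mem_sdiff, Finset.mem_inter] at h
    rcases h with h | h | h
    · exact disjoint_left.1 X.disj hE h.1
    · exact Tw_far w hW hi hr hr' h he
    · exact disjoint_left.1 (X0 A n).disj hE0 h.1

/-- The vertices of the half box are not in the barrier. -/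
lemma VI_notin {n : ℕ} {l' : ℝ} (hW : WinN w n l') {i r : ℤ} (hi : 0 < i)
    (hr' : i * mesh (w.k1 + 1) + (r + 2) * A.δ n ≤ l') {v : ℤ × ℤ} (hv : v ∈ B.N n) :
    ¬ VI (Sd w.k (w.x n i)) r v := by
  intro h
  obtain ⟨h1, h2, h3⟩ := VI_dt h
  have h4 : |dt (w.k + 1) (v - w.x n i)| ≤ r := by rw [abs_of_nonneg h2]; exact h3
  obtain ⟨u1, u2, -, -⟩ := near_x w hi hr' h1 h4
  have h5 := tc_sub w n v (w.x n i)
  have h6 := (x_tc w n i).1
  have h2' : (0 : ℝ) ≤ dt (w.k + 1) (v - w.x n i) := by exact_mod_cast h2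
  have h7 : 0 ≤ A.δ n * (dt (w.k + 1) (v - w.x n i) : ℝ) := mul_nonneg (A.pos n).le h2'
  exact hW.fre v u1 u2 (by linarith) hv

/-- the barrier vertex below the window point -/
lemma t_mem {n : ℕ} {l' : ℝ} (hW : WinN w n l') {i : ℤ} (hi : 0 < i)
    (hr' : i * mesh (w.k1 + 1) + 2 * A.δ n ≤ l') : w.t n i ∈ B.N n := by
  have hδ := A.pos n
  obtain ⟨t1, t2, t3⟩ := t_sc w n i
  have t1' := abs_le.1 t1
  have hmp := mesh_pos (w.k1 + 1)
  have hi1 : (1 : ℝ) ≤ i := by exact_mod_cast hi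
  have hmi : mesh (w.k1 + 1) ≤ i * mesh (w.k1 + 1) := by nlinarith
  have hts : |sc w n (w.t n i)| ≤ l' := by rw [abs_le]; constructor <;> nlinarith
  have htt : |tc w n (w.t n i)| ≤ l' := by rw [abs_le]; constructor <;> nlinarith
  exact (hW.bar _ hts htt t3).1

/-- **The observable as a one-point function.** -/
lemma h_CJ {n : ℕ} {l' : ℝ} (hW : WinN w n l') {i : ℤ} (hi : 0 < i)
    (hr' : i * mesh (w.k1 + 1) + 2 * A.δ n ≤ l') (X : DEnv) :
    w.h n i X = Pr (X.E \ star (B.N n)) (CJ ((X.W \ star (B.N n)) ∪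
      (w.Tw n ∪ ((X0 A n).W ∩ star (B.N n)))) (fun v => v ∈ B.N n) (w.x n i)) := by
  rw [← obs_eq (XE := X.E) (XW := X.W) (N := B.N n) (T := w.Tw n ∪ ((X0 A n).W ∩ star (B.N n)))
    (x := w.x n i) (t := w.t n i) hW.con (t_mem w hW hi hr')]
  unfold Win.h Win.ev Win.Z
  rw [union_assoc]

/-- The radius of the half box. -/
lemma exists_rad {c : ℝ} (hc : 0 < c) (A : Approx D a b A₁ A₂) : ∀ᶠ n in atTop, ∃ r : ℤ,
    1 ≤ r ∧ r * A.δ n ≤ c ∧ c / 2 * (A.δ n)⁻¹ ≤ r := by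
  have e1 : ∀ᶠ n in atTop, A.δ n < c / 2 := A.lim.eventually_lt_const (by positivity)
  filter_upwards [e1] with n h1
  have hδ := A.pos n
  refine ⟨⌊c / A.δ n⌋, ?_, ?_, ?_⟩
  · rw [Int.le_floor, le_div_iff₀ hδ]
    push_cast
    linarith
  · have := Int.floor_le (c / A.δ n)
    rw [le_div_iff₀ hδ] at this
    exact this
  · have h2 := Int.sub_one_lt_floor (c / A.δ n)
    have h3 : 1 ≤ c / 2 / A.δ n := by rw [le_div_iff₀ hδ]; linarith
    have h4 : c / A.δ n = c / 2 / A.δ n + c / 2 / A.δ n := by ring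
    have h5 : c / 2 * (A.δ n)⁻¹ = c / 2 / A.δ n := by ring
    rw [h5]
    linarith

lemma tendsto_inv (A : Approx D a b A₁ A₂) : Tendsto (fun n => (A.δ n)⁻¹) atTop atTop := by
  refine Tendsto.inv_tendsto_nhdsGT_zero ?_
  rw [tendsto_nhdsWithin_iff]
  exact ⟨A.lim, Filter.Eventually.of_forall A.pos⟩

/-- **[UNIF]** -/
theorem stUnif {pz : ℝ → ℝ} (hpz : StPz pz) (hDo : IsOpen D) (hA : A₁ ⊆ frontier D)
    (hne : A₁.Nonempty) (hb : b ∉ D) : StUnif B w pz := by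
  intro ρ hρ i hi hil
  have hmp := mesh_pos (w.k1 + 1)
  have hi1 : (1 : ℝ) ≤ i := by exact_mod_cast hi
  have him : 0 < i * mesh (w.k1 + 1) := by positivity
  set l' := (i * mesh (w.k1 + 1) + w.l) / 2 with hl'
  have hl1 : l' < w.l := by rw [hl']; linarith
  have hl2 : i * mesh (w.k1 + 1) < l' := by rw [hl']; linarith
  set c := min (min (i * mesh (w.k1 + 1) / 2) ((l' - i * mesh (w.k1 + 1)) / 2)) (ρ / 4) with hc
  have c0 : 0 < c := lt_min (lt_min (by positivity) (by linarith)) (by positivity)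
  have c1 : c ≤ i * mesh (w.k1 + 1) / 2 := (min_le_left _ _).trans (min_le_left _ _)
  have c2 : c ≤ (l' - i * mesh (w.k1 + 1)) / 2 := (min_le_left _ _).trans (min_le_right _ _)
  have c3 : c ≤ ρ / 4 := min_le_right _ _
  obtain ⟨C, R0, hC, hU⟩ := obs_unif hpz (c := c / 2) (by positivity)
  obtain ⟨-, c4, C', hc4, -, hp⟩ := hpz
  refine ⟨C, ?_⟩
  have e1 : ∀ᶠ n in atTop, A.δ n < c / 4 := A.lim.eventually_lt_const (by positivity)
  filter_upwards [winN_eventually w hDo hA hne hb hl1, exists_rad c0 A, e1,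
    (tendsto_inv A).eventually_ge_atTop R0, (tendsto_inv A).eventually_ge_atTop 1]
    with n hW hr hδc hR0 hR1
  intro k0 j ω hω hF
  obtain ⟨r, hr1, hr2, hr3⟩ := hr
  have hδ := A.pos n
  have hr1' : (1 : ℝ) ≤ r := by exact_mod_cast hr1
  have g1 : (r + 2) * A.δ n < i * mesh (w.k1 + 1) := by nlinarith
  have g2 : i * mesh (w.k1 + 1) + (r + 2) * A.δ n ≤ l' := by nlinarith
  have g3 : (2 * r + 2) * A.δ n < ρ := by nlinarith
  have g4 : i * mesh (w.k1 + 1) + 2 * A.δ n ≤ l' := by nlinarith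
  have hpos : 0 < pz (A.δ n)⁻¹ :=
    lt_of_lt_of_le (mul_pos hc4 (Real.rpow_pos_of_pos (by linarith) _)) (hp _ hR1).1
  rw [div_le_iff₀ hpos, h_CJ w hW hi g4]
  have hx : (Sd w.k (w.x n i)).g (0, 0) = w.x n i := Sd_g _ _
  have h1 := hU (A.δ n)⁻¹ hR0 r hr3 (Sd w.k (w.x n i)) _ _ (fun v => v ∈ B.N n)
    (thin_state w hW hi g1 g2 g3 hF) (fun v hv => VI_notin w hW hi g2 hv)
  rw [hx] at h1
  exact h1

end

end Pool.Agent.H76.M7
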