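import Mathlib
import Pool.Agent.H76.M7.Arms
import Pool.Agent.H76.M7.Unif
import Pool.Agent.H5.M7.J20
import Pool.Agent.H28.Q1.Dead
import Pool.Agent.H42.Q1.TipE

set_option autoImplicit false
open Finset Filter Topology

/-! # Module M7, 2.5: the states of the chain at the window -/

namespace Pool.Agent.H76.M7

open Pool.Agent.H75.Perc Pool.Agent.H75.TwoArm Pool.Agent.H75.Four Pool.Agent.H69.Q1
open Pool.Agent.H49.Q1 Pool.Agent.H47.NC.ArchAux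
open Pool.Agent.H77.Q1 (Far)
open Pool.Agent.H81.Q1 (pt DDomain Approx IsJordanDomain IsArcs)
open Pool.Agent.Q1.M3
open Pool.Agent.Q1.M3.Pg (SD LX gx NB flat mem_flat mem_verts_iff gx_mono)
open Pool.Agent.H82.Q1.M7
open Pool.Agent.Q1.M4 (nextSide tail head Om rect mem_Om_of_inner)
open Pool.Agent.H5.Q1 (sp sp_zero sp_len gp)
open Pool.Agent.H5.M7 (win_box)

/-! ### Distances -/

lemma abs_of_dist {δ x : ℝ} (hδ : 0 < δ) {u v : ℤ × ℤ} (h : dist (pt δ u) (pt δ v) ≤ x) :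
    |(u.1 : ℝ) - v.1| * δ ≤ x ∧ |(u.2 : ℝ) - v.2| * δ ≤ x := by
  rw [dist_eq_norm] at h
  have h1 := (Complex.abs_re_le_norm _).trans h
  have h2 := (Complex.abs_im_le_norm _).trans h
  have e1 : (pt δ u - pt δ v).re = ((u.1 : ℝ) - v.1) * δ := by unfold pt; simp; ring
  have e2 : (pt δ u - pt δ v).im = ((u.2 : ℝ) - v.2) * δ := by unfold pt; simp; ring
  rw [e1, abs_mul, abs_of_pos hδ] at h1
  rw [e2, abs_mul, abs_of_pos hδ] at h2
  exact ⟨h1, h2⟩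

/-- the box around a vertex by distance -/
lemma bl_of_dist {δ : ℝ} (hδ : 0 < δ) {c v : ℤ × ℤ} {ρ : ℤ} (h : dist (pt δ v) (pt δ c) ≤ ρ * δ) :
    Bl c ρ v := by
  obtain ⟨h1, h2⟩ := abs_of_dist hδ h
  have g1 : |(v.1 : ℝ) - c.1| ≤ ρ := le_of_mul_le_mul_right h1 hδ
  have g2 : |(v.2 : ℝ) - c.2| ≤ ρ := le_of_mul_le_mul_right h2 hδ
  exact ⟨by exact_mod_cast g1, by exact_mod_cast g2⟩

/-- a vertex near a point -/
lemma exists_vertex {δ : ℝ} (hδ : 0 < δ) (z : ℂ) : ∃ c : ℤ × ℤ, dist (pt δ c) z ≤ 2 * δ := by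
  refine ⟨(⌊z.re / δ⌋, ⌊z.im / δ⌋), ?_⟩
  have key : ∀ x : ℝ, |δ * (⌊x / δ⌋ : ℝ) - x| ≤ δ := by
    intro x
    have h1 := Int.floor_le (x / δ)
    have h2 := Int.lt_floor_add_one (x / δ)
    rw [le_div_iff₀ hδ] at h1
    rw [div_lt_iff₀ hδ] at h2
    rw [abs_le]
    constructor <;> nlinarith
  rw [dist_eq_norm]
  refine (Complex.norm_le_abs_re_add_abs_im _).trans ?_
  have e1 : (pt δ (⌊z.re / δ⌋, ⌊z.im / δ⌋) - z).re = δ * (⌊z.re / δ⌋ : ℝ) - z.re := by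
    unfold pt; simp
  have e2 : (pt δ (⌊z.re / δ⌋, ⌊z.im / δ⌋) - z).im = δ * (⌊z.im / δ⌋ : ℝ) - z.im := by
    unfold pt; simp
  rw [e1, e2]
  linarith [key z.re, key z.im]

/-! ### Sides -/

/-- the points of a side are near vertices of the cell of the side -/
lemma side_near {d : SD} {o : ℂ} {δ : ℝ} (hok : d.Ok) (hf : d.Fine o δ) (m : ℕ) {j : ℕ}
    (hj : j ≤ d.ln o δ m) : ∃ v, box δ o d.K v = (d.sid m).1 ∧
      dist (pt δ (d.pt' o δ m j)) (pt δ v) ≤ δ := by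
  have h3 := SD.three_ln hf m
  have key : ∃ j', 0 < j' ∧ j' < d.ln o δ m ∧
      (j' = j ∨ IsUnit4 (d.pt' o δ m j' - d.pt' o δ m j)) := by
    rcases Nat.eq_zero_or_pos j with h | h
    · subst h
      exact ⟨1, one_pos, by omega, Or.inr (Pg.sp_unit _ _ _ _)⟩
    · rcases Nat.lt_or_ge j (d.ln o δ m) with h1 | h1
      · exact ⟨j, h, h1, Or.inl rfl⟩
      · obtain ⟨i, rfl⟩ : ∃ i, j = i + 1 := ⟨j - 1, by omega⟩
        exact ⟨i, by omega, by omega, Or.inr (unit4_symm (Pg.sp_unit _ _ _ _))⟩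
  obtain ⟨j', h1, h2, h4⟩ := key
  refine ⟨_, (SD.side_box' hok hf h1 h2).1, ?_⟩
  rcases h4 with rfl | h4
  · rw [dist_self]; exact hf.hδ.le
  · exact Pool.Agent.H5.M7.dist_unit hf.hδ h4

/-- the centre behind a side -/
noncomputable def sc' (d : SD) (o : ℂ) (δ : ℝ) (m : ℕ) : ℤ × ℤ :=
  d.pt' o δ m 1 + H75.Perc.dir ((d.sid m).2 - 1)

lemma box_sc' {d : SD} {o : ℂ} {δ : ℝ} (hok : d.Ok) (hf : d.Fine o δ) (m : ℕ) :
    box δ o d.K (sc' d o δ m) = d.oc' m :=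
  (SD.side_box' hok hf one_pos (by have := SD.three_ln hf m; omega)).2

lemma side_dist {d : SD} {o : ℂ} {δ : ℝ} (hok : d.Ok) (hf : d.Fine o δ) (m : ℕ) {j : ℕ}
    (hj : j ≤ d.ln o δ m) :
    dist (pt δ (d.pt' o δ m j)) (pt δ (sc' d o δ m)) ≤ δ + 4 * mesh (d.K + 1) := by
  obtain ⟨v, h1, h2⟩ := side_near hok hf m hj
  have h3 : NB 1 (box δ o d.K (sc' d o δ m)) (box δ o d.K v) := by
    rw [box_sc' hok hf, h1]
    exact (NB.of_adj ⟨(d.sid m).2 - 1, rfl⟩).symm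
  have h4 := Pool.Agent.H42.Q1.dist_of_NB hf.gen h3
  push_cast at h4
  have h5 := dist_triangle (pt δ (d.pt' o δ m j)) (pt δ v) (pt δ (sc' d o δ m))
  linarith

/-- sides not in the run -/
lemma side_cases {d : SD} (hok : d.Ok) {m : ℕ} (hm : m < d.N) (hrun : ¬ (d.n1 ≤ m ∧ m < d.n2)) :
    d.oc' m ∈ Pg.fc d.K d.B ∨ d.oc' m ∉ d.P := by
  by_cases hP : d.oc' m ∈ d.P
  · left
    have hs := SD.isSide hok m
    by_cases hH : d.oc' m ∈ d.H2
    · have h4 : d.oc' m ∈ flat d.K d.C ∪ (Pg.fc d.K d.B ∩ d.P) := hH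
      rcases mem_union.1 h4 with h5 | h5
      · exact absurd ((hok.mark.run m hm).1 (hok.flat_sub h5)) hrun
      · exact (mem_inter.1 h5).1
    · exact absurd (Pg.comp_adj hs.1 (mem_sdiff.2 ⟨hP, hH⟩) ⟨_, rfl⟩) hs.2
  · exact Or.inr hP

/-! ### Corners -/

/-- the cells of the region are bounded -/
lemma R_bdd {D : Set ℂ} (hD : Bornology.IsBounded D) (o : ℂ) (K : ℕ) : ∃ G : ℤ, 0 ≤ G ∧
    ∀ R : Finset (ℤ × ℤ), Om R (gx K o.re) (gx K o.im) ⊆ D → ∀ c ∈ R,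
      |c.1| + 1 ≤ G ∧ |c.2| + 1 ≤ G := by
  obtain ⟨M, hM⟩ := hD.subset_closedBall 0
  have hμ := mesh_pos (K + 1)
  refine ⟨max 0 (⌈(M + |o.re| + |o.im|) / mesh (K + 1)⌉ + 2), le_max_left _ _, fun R hR c hc => ?_⟩
  have h1 : (⟨gx K o.re c.1 + mesh (K + 1) / 2, gx K o.im c.2 + mesh (K + 1) / 2⟩ : ℂ) ∈
      Om R (gx K o.re) (gx K o.im) := by
    have e : ∀ (x : ℝ) (N : ℤ), gx K x (N + 1) = gx K x N + mesh (K + 1) := by
      intro x N; unfold gx; push_cast; ring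
    refine mem_Om_of_inner (gx_mono K o.re) (gx_mono K o.im) hc ?_ ?_ ?_ ?_ <;> simp only [e] <;>
      linarith
  have h2 := hM (hR h1)
  rw [Metric.mem_closedBall, dist_zero_right] at h2
  have h3 := (Complex.abs_re_le_norm _).trans h2
  have h4 := (Complex.abs_im_le_norm _).trans h2
  simp only at h3 h4
  have key : ∀ (x : ℝ) (N : ℤ), |x| ≤ |o.re| + |o.im| → |gx K x N + mesh (K + 1) / 2| ≤ M →
      |N| + 1 ≤ ⌈(M + |o.re| + |o.im|) / mesh (K + 1)⌉ + 2 := by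
    intro x N hx h
    have h5 : |(N : ℝ)| * mesh (K + 1) ≤ M + |o.re| + |o.im| + mesh (K + 1) := by
      have e1 : (N : ℝ) * mesh (K + 1) = (gx K x N + mesh (K + 1) / 2) + (-x + -(mesh (K + 1) / 2)) := by
        unfold gx; ring
      have e2 : |(N : ℝ)| * mesh (K + 1) = |(N : ℝ) * mesh (K + 1)| := by
        rw [abs_mul, abs_of_pos hμ]
      rw [e2, e1]
      refine (abs_add_le _ _).trans ?_
      have e3 := abs_add_le (-x) (-(mesh (K + 1) / 2))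
      rw [abs_neg, abs_neg, abs_of_pos (by linarith : 0 < mesh (K + 1) / 2)] at e3
      linarith
    have h6 : |(N : ℝ)| ≤ (M + |o.re| + |o.im|) / mesh (K + 1) + 1 := by
      rw [← sub_le_iff_le_add, le_div_iff₀ hμ]
      linarith
    have h7 := Int.le_ceil ((M + |o.re| + |o.im|) / mesh (K + 1))
    have h8 : ((|N| : ℤ) : ℝ) ≤ ((⌈(M + |o.re| + |o.im|) / mesh (K + 1)⌉ + 1 : ℤ) : ℝ) := by
      push_cast; linarith
    have h9 : |N| ≤ ⌈(M + |o.re| + |o.im|) / mesh (K + 1)⌉ + 1 := by exact_mod_cast h8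
    omega
  have hre := abs_nonneg o.re
  have him := abs_nonneg o.im
  exact ⟨(key o.re c.1 (by linarith) h3).trans (le_max_right _ _),
    (key o.im c.2 (by linarith) h4).trans (le_max_right _ _)⟩

section

variable {D : Set ℂ} {a b : ℂ} {A₁ A₂ : Set ℂ} {A : Approx D a b A₁ A₂} {r0 : ℝ} {B : Base A r0}

open Classical in
/-- the corners of the cells outside the window -/
noncomputable def Crn (w : Win B) (n K : ℕ) (i : ℤ) (c0 : ℝ) (G : ℤ) : Finset (ℤ × ℤ) :=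
  ((Finset.Icc (-G) G ×ˢ Finset.Icc (-G) G).image
    (gp (LX K B.o.re (A.δ n)) (LX K B.o.im (A.δ n)))).filter (fun v => ¬ Wd w n i c0 v)

lemma Crn_card (w : Win B) (n K : ℕ) (i : ℤ) (c0 : ℝ) {G : ℤ} (hG : 0 ≤ G) :
    ((Crn w n K i c0 G).card : ℝ) ≤ (2 * G + 1) ^ 2 := by
  classical
  have h1 : (Crn w n K i c0 G).card ≤ (Finset.Icc (-G) G ×ˢ Finset.Icc (-G) G).card :=
    (card_filter_le _ _).trans card_image_le
  rw [card_product, Int.card_Icc] at h1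
  have h2 : ((G + 1 - -G).toNat : ℝ) = 2 * G + 1 := by
    have : ((G + 1 - -G).toNat : ℤ) = 2 * G + 1 := by omega
    exact_mod_cast this
  have h3 : ((Crn w n K i c0 G).card : ℝ) ≤ ((G + 1 - -G).toNat * (G + 1 - -G).toNat : ℕ) := by
    exact_mod_cast h1
  rw [Nat.cast_mul, h2] at h3
  rw [sq]; exact h3

lemma Crn_out {w : Win B} {n K : ℕ} {i : ℤ} {c0 : ℝ} {G : ℤ} :
    ∀ v ∈ Crn w n K i c0 G, ¬ Wd w n i c0 v := fun v hv => by
  classical
  exact (mem_filter.1 hv).2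

/-- the end points of a side are corners -/
lemma mem_Crn {w : Win B} {n : ℕ} {i : ℤ} {c0 : ℝ} {G : ℤ} {d : SD} (hok : d.Ok)
    (hf : d.Fine B.o (A.δ n)) (hG : ∀ c ∈ d.R, |c.1| + 1 ≤ G ∧ |c.2| + 1 ≤ G) {m j : ℕ}
    (hj : j = 0 ∨ j = d.ln B.o (A.δ n) m) (h : ¬ Wd w n i c0 (d.pt' B.o (A.δ n) m j)) :
    d.pt' B.o (A.δ n) m j ∈ Crn w n d.K i c0 G := by
  classical
  unfold Crn
  refine mem_filter.2 ⟨?_, h⟩
  have hX : StrictMono (LX d.K B.o.re (A.δ n)) := Pg.LX_mono hf.hδ hf.hm3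
  have hY : StrictMono (LX d.K B.o.im (A.δ n)) := Pg.LX_mono hf.hδ hf.hm3
  obtain ⟨g1, g2⟩ := hG _ (SD.isSide hok m).1
  rw [mem_image]
  have key : ∀ x : ℤ × ℤ, (x.1 = (d.sid m).1.1 ∨ x.1 = (d.sid m).1.1 + 1) →
      (x.2 = (d.sid m).1.2 ∨ x.2 = (d.sid m).1.2 + 1) →
      x ∈ Finset.Icc (-G) G ×ˢ Finset.Icc (-G) G := by
    intro x h1 h2
    rw [mem_product, Finset.mem_Icc, Finset.mem_Icc]
    rw [← le_sub_iff_add_le, abs_le] at g1 g2
    omega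
  rcases hj with rfl | rfl
  · refine ⟨tail (d.sid m), ?_, ?_⟩
    · unfold tail
      split_ifs <;> exact key _ (by simp) (by simp)
    · unfold SD.pt'
      rw [sp_zero]
  · refine ⟨head (d.sid m), ?_, ?_⟩
    · unfold head tail
      rcases dir_cases (d.sid m).2 with ⟨h1, h2⟩ | ⟨h1, h2⟩ | ⟨h1, h2⟩ | ⟨h1, h2⟩ <;> rw [h2] <;>
        simp only [h1] <;> refine key _ ?_ ?_ <;> simp
    · unfold SD.pt' SD.ln
      rw [sp_len hX hY]

/-! ### The window -/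

/-- **Vertices of the window above the side are in the region.** -/
lemma vwin_of_geo {w : Win B} {P : Par B} {k0 K n j : ℕ} {ρ : ℝ} {ω : Finset (ℤ × ℤ)}
    (hG : GeoAt B w P k0 K n ρ ω j) {i : ℤ} (hi : 0 ≤ i) {c : ℝ}
    (hc : i * mesh (w.k1 + 1) + 2 * c < w.l) {v : ℤ × ℤ} (hv : Wd w n i c v) (ht : 0 < tc w n v) :
    box (A.δ n) B.o (SDj B P k0 K n j ω).K v ∈ (SDj B P k0 K n j ω).R := by
  by_contra h
  have h1 : pt (A.δ n) v ∉ GX B (SDj B P k0 K n j ω) := Pool.Agent.H53.Q1.pt_notMem_Om h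
  have h2 := win_dist hi hv
  set u : ℂ := (sc w n v : ℂ) + (tc w n v : ℂ) * Complex.I with hu
  have e1 : pt (A.δ n) v = w.p + uv w.k * u := by rw [pt_sc w n v, hu]; ring
  have h3 : ‖u‖ < w.l := by
    have h4 : dist (pt (A.δ n) v) w.p = ‖u‖ := by
      rw [e1, dist_eq_norm, add_sub_cancel_left, norm_mul, norm_uv, one_mul]
    rw [← h4]; linarith
  have h5 : 0 < u.im := by
    have : u.im = tc w n v := by rw [hu]; simp
    rw [this]; exact ht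
  have h6 := (hG.box u h3).2 h5
  unfold nGX at h6
  rw [Set.mem_setOf_eq, ← e1] at h6
  exact h1 h6

/-- `b` is not in the window -/
lemma b_win {w : Win B} (hbD : b ∉ D) {n : ℕ} {l' : ℝ} (hl : l' < w.l) {v : ℤ × ℤ}
    (h1 : |sc w n v| ≤ l') (h2 : |tc w n v| ≤ l') : w.l ≤ dist (pt (A.δ n) v) b := by
  by_contra hc
  rw [not_le] at hc
  apply hbD
  set u : ℂ := (b - w.p) / uv w.k with hu
  have hne : uv w.k ≠ 0 := by
    intro h
    have := norm_uv w.k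
    rw [h, norm_zero] at this
    exact zero_ne_one this
  have e : b - w.p = u * uv w.k := by rw [hu, div_mul_cancel₀ _ hne]
  set u' : ℂ := (sc w n v : ℂ) + (tc w n v : ℂ) * Complex.I with hu'
  have e0 : pt (A.δ n) v - w.p = u' * uv w.k := by rw [pt_sc w n v, ← hu']; ring
  have e1 : pt (A.δ n) v - b = (u' - u) * uv w.k := by
    have : pt (A.δ n) v - b = (pt (A.δ n) v - w.p) - (b - w.p) := by ring
    rw [this, e0, e]; ring
  have h3 : ‖u' - u‖ < w.l := by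
    rw [dist_eq_norm, e1, norm_mul, norm_uv, mul_one] at hc
    exact hc
  have h4 := (Complex.abs_re_le_norm _).trans_lt h3
  have h5 := (Complex.abs_im_le_norm _).trans_lt h3
  have e2 : (u' - u).re = sc w n v - u.re := by rw [hu']; simp
  have e3 : (u' - u).im = tc w n v - u.im := by rw [hu']; simp
  rw [e2, abs_lt] at h4
  rw [e3, abs_lt] at h5
  rw [abs_le] at h1 h2
  have h6 := win_box w u.re u.im
    (by rw [abs_lt]; constructor <;> linarith [h1.1, h1.2, h2.1, h2.2])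
    (by rw [abs_lt]; constructor <;> linarith [h1.1, h1.2, h2.1, h2.2])
  have e4 : w.p + ((u.re : ℂ) + u.im * Complex.I) * uv w.k = b := by
    rw [Complex.re_add_im, ← e]; ring
  rw [e4] at h6
  exact h6

/-- the target at the barrier -/
lemma target_flat (P : Par B) {K : ℕ} (hQK : ∀ q ∈ B.Q P.M, q.1 ≤ K) :
    ∀ᶠ n in atTop, ∀ v, box (A.δ n) B.o K v ∈ flat K (B.Q P.M) → v ∈ B.N n := by
  filter_upwards [B.hN P.M] with n hn v hv
  obtain ⟨N', e1, -⟩ := hn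
  obtain ⟨q, hq, h1⟩ := mem_flat.1 hv
  rw [e1, mem_union]
  exact Or.inl (mem_Vn.2 ⟨q, hq,
    (mem_verts_iff (A.pos n) (Pool.Agent.H53.Q1.Base_gen2 B K n) (hQK q hq)).2 h1⟩)

/-- the box is near `b` -/
lemma box_near_b {P : Par B} {K n : ℕ} (hBK : P.BB.1 ≤ K) {r : ℝ}
    (hr : cfat B.o P.BB ⊆ Metric.ball b r) {v : ℤ × ℤ}
    (hv : box (A.δ n) B.o K v ∈ Pg.fc K P.BB) : dist (pt (A.δ n) v) b < r := by
  have h1 := (mem_verts_iff (A.pos n) (Pool.Agent.H53.Q1.Base_gen2 B K n) hBK).2 hv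
  rw [mem_verts (A.pos n)] at h1
  exact Metric.mem_ball.1 (hr (fat_sub_cfat _ _ h1))

end

end Pool.Agent.H76.M7
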