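import Mathlib
import Pool.Agent.H76.M7.StW

set_option autoImplicit false
open Finset Filter Topology

/-! # Module M7, J21 part B: the boundary of the region follows the line of the window -/

namespace Pool.Agent.H76.M7

open Pool.Agent.H75.Perc Pool.Agent.H75.TwoArm Pool.Agent.H75.Four Pool.Agent.H69.Q1
open Pool.Agent.H49.Q1
open Pool.Agent.H81.Q1 (pt DDomain Approx IsJordanDomain IsArcs)
open Pool.Agent.Q1.M3
open Pool.Agent.Q1.M3.Pg (SD LX gx NB flat gx_mono iter_shift)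
open Pool.Agent.H82.Q1.M7
open Pool.Agent.Q1.M4 (nextSide tail head Om rect mem_Om_of_inner mem_Om PType Eqv)
open Pool.Agent.H5.Q1 (gp)

/-- interior points of the left and right cells of a side -/
lemma cell_lr (o : ℂ) (K : ℕ) (s : (ℤ × ℤ) × ℤ) {k : ℤ} (hk : s.2 % 4 = k % 4) {x y : ℝ}
    (hx : 0 < x) (hx' : x < mesh (K + 1)) (hy : 0 < y) (hy' : y < mesh (K + 1)) :
    (∀ z : ℂ, z = gpt o K (tail s) + ((x : ℂ) + y * Complex.I) * uv k →
      (gx K o.re s.1.1 < z.re ∧ z.re < gx K o.re (s.1.1 + 1)) ∧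
      (gx K o.im s.1.2 < z.im ∧ z.im < gx K o.im (s.1.2 + 1))) ∧
    (∀ z : ℂ, z = gpt o K (tail s) + ((x : ℂ) - y * Complex.I) * uv k →
      (gx K o.re (s.1 + H75.Perc.dir (s.2 - 1)).1 < z.re ∧
        z.re < gx K o.re ((s.1 + H75.Perc.dir (s.2 - 1)).1 + 1)) ∧
      (gx K o.im (s.1 + H75.Perc.dir (s.2 - 1)).2 < z.im ∧
        z.im < gx K o.im ((s.1 + H75.Perc.dir (s.2 - 1)).2 + 1))) := by
  obtain ⟨⟨c1, c2⟩, m⟩ := s
  simp only at hk
  have hg : ∀ g : ℤ × ℤ, gpt o K g = ⟨gx K o.re g.1, gx K o.im g.2⟩ := fun g => rfl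
  rw [hg]
  unfold gx tail uv
  rcases dir_succ_cases k with ⟨h, e, -⟩ | ⟨h, e, -⟩ | ⟨h, e, -⟩ | ⟨h, e, -⟩ <;> rw [e] <;>
    rcases dir_cases (m - 1) with ⟨p, e'⟩ | ⟨p, e'⟩ | ⟨p, e'⟩ | ⟨p, e'⟩ <;>
    first
    | (exfalso; omega)
    | (rw [e']
       simp only [show m % 4 = k % 4 from hk, h]
       constructor <;> rintro z rfl <;> simp <;> constructor <;> constructor <;> linarith)

lemma tail_add (c d : ℤ × ℤ) (k : ℤ) : tail (c + d, k) = tail (c, k) + d := by
  unfold tail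
  simp only
  split_ifs <;> abel

lemma gpt_add (o : ℂ) (K : ℕ) (g : ℤ × ℤ) (m : ℤ) (k : ℤ) :
    gpt o K (g + m • H75.Perc.dir k) = gpt o K g + ((m * mesh (K + 1) : ℝ) : ℂ) * uv k := by
  unfold gpt uv
  obtain ⟨g1, g2⟩ := g
  rcases dir_succ_cases k with ⟨-, e, -⟩ | ⟨-, e, -⟩ | ⟨-, e, -⟩ | ⟨-, e, -⟩ <;> rw [e] <;>
    apply Complex.ext <;> simp <;> ring

section

variable {D : Set ℂ} {a b : ℂ} {A₁ A₂ : Set ℂ} {A : Approx D a b A₁ A₂} {r0 : ℝ} {B : Base A r0}
  {w : Win B} {P : Par B} {k0 K n j : ℕ} {ρ : ℝ} {ω : Finset (ℤ × ℤ)}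

/-- **The boundary of the region follows the line of the window.** -/
theorem side_line (hG : GeoAt B w P k0 K n ρ ω j) (hK : w.k1 ≤ K) {nb : ℕ}
    (hb : IsB B w (SDj B P k0 K n j ω) nb) (m : ℕ) (hm : (m : ℝ) * mesh (K + 1) < w.l) :
    tail ((SDj B P k0 K n j ω).sid (nb + m)) = w.gv K 0 + (m : ℤ) • H75.Perc.dir w.k ∧
      ((SDj B P k0 K n j ω).sid (nb + m)).2 = ((SDj B P k0 K n j ω).sid nb).2 := by
  have hμ := mesh_pos (K + 1)
  set d := SDj B P k0 K n j ω with hd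
  induction m with
  | zero =>
    refine ⟨?_, rfl⟩
    have := hb.tail
    simp only [add_zero, Nat.cast_zero, zero_smul]
    exact this
  | succ m ih =>
    obtain ⟨h1, h2⟩ := ih (by push_cast at hm; linarith)
    have hmod : (d.sid (nb + m)).2 % 4 = w.k % 4 := by rw [h2]; exact hb.dir
    set s := d.sid (nb + m) with hs
    have hside := SD.isSide hb.ok (nb + m)
    -- a small number
    set x := min (mesh (K + 1) / 2) ((w.l - ((m + 1 : ℕ) : ℝ) * mesh (K + 1)) / 4) with hx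
    have hx0 : 0 < x := lt_min (by linarith) (by linarith)
    have hx1 : x < mesh (K + 1) := (min_le_left _ _).trans_lt (by linarith)
    have hx2 : x ≤ (w.l - ((m + 1 : ℕ) : ℝ) * mesh (K + 1)) / 4 := min_le_right _ _
    -- the next side of the line
    set c' := s.1 + H75.Perc.dir s.2 with hc'
    have htail : tail (c', s.2) = w.gv K 0 + ((m + 1 : ℕ) : ℤ) • H75.Perc.dir w.k := by
      rw [hc', tail_add]
      change tail s + _ = _
      rw [h1, show H75.Perc.dir s.2 = H75.Perc.dir w.k from Pg.dir_congr (by omega)]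
      push_cast
      rw [add_smul, one_smul]
      abel
    obtain ⟨k1, k2⟩ := cell_lr B.o K (c', s.2) (k := w.k) hmod hx0 hx1 hx0 hx1
    rw [htail, gpt_add, Pool.Agent.H5.M7.gpt_gv w hK] at k1 k2
    have hnorm : ∀ y : ℝ, |y| ≤ x →
        ‖(((((m + 1 : ℕ) : ℤ) : ℝ) * mesh (K + 1) + x : ℝ) : ℂ) + (y : ℂ) * Complex.I‖ < w.l := by
      intro y hy
      refine (norm_add_le _ _).trans_lt ?_
      rw [norm_mul, Complex.norm_I, mul_one, Complex.norm_real, Complex.norm_real,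
        Real.norm_eq_abs, Real.norm_eq_abs, abs_of_nonneg (by positivity)]
      push_cast at hx2 ⊢
      linarith
    have hpos : c' ∈ d.R := by
      have h3 := (hG.box _ (hnorm x (by rw [abs_of_pos hx0]))).2 (by simp; exact hx0)
      unfold nGX at h3
      rw [Set.mem_setOf_eq] at h3
      obtain ⟨g1, g2⟩ := k1 _ rfl
      have h4 := ((mem_Om (gx_mono K B.o.re) (gx_mono K B.o.im)).1 h3).2 c'
      refine h4 ?_
      have e : w.p + uv w.k * ((((((m + 1 : ℕ) : ℤ) : ℝ) * mesh (K + 1) + x : ℝ) : ℂ) +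
          (x : ℂ) * Complex.I) = w.p + (((((m + 1 : ℕ) : ℤ) : ℝ) * mesh (K + 1) : ℝ) : ℂ) * uv w.k +
          ((x : ℂ) + x * Complex.I) * uv w.k := by
        push_cast; ring
      rw [e]
      exact ⟨⟨g1.1.le, g1.2.le⟩, g2.1.le, g2.2.le⟩
    have hneg : c' + H75.Perc.dir (s.2 - 1) ∉ d.R := by
      intro hcon
      obtain ⟨g1, g2⟩ := k2 _ rfl
      have h3 := mem_Om_of_inner (gx_mono K B.o.re) (gx_mono K B.o.im) hcon g1.1 g1.2 g2.1 g2.2
      have e : w.p + (((((m + 1 : ℕ) : ℤ) : ℝ) * mesh (K + 1) : ℝ) : ℂ) * uv w.k +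
          ((x : ℂ) - x * Complex.I) * uv w.k = w.p + uv w.k *
          ((((((m + 1 : ℕ) : ℤ) : ℝ) * mesh (K + 1) + x : ℝ) : ℂ) + ((-x : ℝ) : ℂ) * Complex.I) := by
        push_cast; ring
      rw [e] at h3
      have h4 := (hG.box _ (hnorm (-x) (by rw [abs_neg, abs_of_pos hx0]))).1 h3
      simp at h4
      linarith
    have hnext : d.sid (nb + (m + 1)) = (c', s.2) := by
      have e1 : d.sid (nb + (m + 1)) = nextSide d.R s := by
        rw [hs]
        change (nextSide d.R)^[nb + (m + 1)] d.s = nextSide d.R ((nextSide d.R)^[nb + m] d.s)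
        rw [← Function.iterate_succ_apply' (nextSide d.R)]
        rfl
      rw [e1]
      unfold nextSide
      rw [if_neg hneg, if_pos hpos]
    rw [hnext]
    exact ⟨htail, h2⟩

end

end Pool.Agent.H76.M7
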