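import Mathlib
import Pool.Agent.H76.M7.StW

set_option autoImplicit false
open Finset Filter Topology

/-! # Module M7, 2.5: the states of the chain satisfy `CoreZ` -/

namespace Pool.Agent.H76.M7

open Pool.Agent.H75.Perc Pool.Agent.H75.TwoArm Pool.Agent.H75.Four Pool.Agent.H69.Q1
open Pool.Agent.H49.Q1 Pool.Agent.H47.NC.ArchAux
open Pool.Agent.H21.Q1 (InvL)
open Pool.Agent.H77.Q1 (Far)
open Pool.Agent.H81.Q1 (pt DDomain Approx IsJordanDomain IsArcs)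
open Pool.Agent.Q1.M3
open Pool.Agent.Q1.M3.Pg (SD LX gx NB flat mem_flat mem_verts_iff gx_mono Vl DeadAt Fr Gen2)
open Pool.Agent.H82.Q1.M7
open Pool.Agent.Q1.M4 (nextSide tail head Om rect mem_Om_of_inner)
open Pool.Agent.H5.Q1 (sp sp_zero sp_len gp)
open Pool.Agent.H42.Q1 (dist_of_NB)

section

variable {D : Set ℂ} {a b : ℂ} {A₁ A₂ : Set ℂ} {A : Approx D a b A₁ A₂} {r0 : ℝ} {B : Base A r0}

/-- Facts on a state. -/
structure StIn (w : Win B) (P : Par B) (k0 K n j : ℕ) (ω : Finset (ℤ × ℤ)) (ρ l' : ℝ) (nb : ℕ)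
    (Y : DEnv) (τ A' : Finset (ℤ × ℤ)) (p0 : ℕ) (vt : ℤ × ℤ) : Prop where
  pos : PosH w n l' (SDj B P k0 K n j ω) nb (B.X k0 n (j + 1) ω) Y τ A' p0
  geo : GeoAt B w P k0 K n ρ ω j
  tipτ : ∀ u, Vl τ u → NB 3 (box (A.δ n) B.o K vt) (box (A.δ n) B.o K u)
  tipA : ∀ e ∈ A', NB 3 (box (A.δ n) B.o K vt) (box (A.δ n) B.o K (eu e)) ∧
    NB 3 (box (A.δ n) B.o K vt) (box (A.δ n) B.o K (ev e))
  tipv : dist (pt (A.δ n) vt) (pt (A.δ n) (vx (B.X k0 n (j + 1) ω).α)) ≤ A.δ n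
  tgt : ∀ v ∈ B.N n, box (A.δ n) B.o K v ∈ flat K (B.Q P.M) ∨ box (A.δ n) B.o K v ∈ Pg.fc K P.BB
  flt : ∀ v, box (A.δ n) B.o K v ∈ flat K (B.Q P.M) → v ∈ B.N n
  WN : ∀ e ∈ (B.X k0 n (j + 1) ω).W, e ∈ star (B.N n) → e ∈ (X0 A n).W
  W0 : (X0 A n).W ⊆ (B.X k0 n (j + 1) ω).W
  TwE : w.Tw n ⊆ (B.X k0 n (j + 1) ω).E
  odd : ∀ e ∈ (B.X k0 n (j + 1) ω).E, (e.1 + e.2) % 2 = 1
  invL : InvL (B.X k0 n (j + 1) ω)
  dead : ∀ m, (SDj B P k0 K n j ω).oc' m ∉ (SDj B P k0 K n j ω).P →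
    DeadAt K B.o (A.δ n) (SDj B P k0 K n j ω).P (B.X k0 n (j + 1) ω).E
      ((SDj B P k0 K n j ω).oc' m)

namespace StIn

variable {w : Win B} {P : Par B} {k0 K n j : ℕ} {ω : Finset (ℤ × ℤ)} {ρ l' : ℝ} {nb : ℕ}
  {Y : DEnv} {τ A' : Finset (ℤ × ℤ)} {p0 : ℕ} {vt : ℤ × ℤ}
  (S : StIn w P k0 K n j ω ρ l' nb Y τ A' p0 vt)

include S

theorem coreH {i : ℤ} (hi : 0 < i) {c0 : ℝ} (c00 : 0 ≤ c0) (c1 : c0 + 8 * A.δ n ≤ i * mesh (w.k1 + 1))
    (c2 : i * mesh (w.k1 + 1) + c0 + 8 * A.δ n ≤ l') (hl : l' < w.l)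
    (c3 : i * mesh (w.k1 + 1) + 2 * (c0 + 2 * A.δ n) < w.l) (hbD : b ∉ D) (hBK : P.BB.1 ≤ K)
    (hBB : cfat B.o P.BB ⊆ Metric.ball b w.l) :
    CoreH w n l' (SDj B P k0 K n j ω) nb (B.X k0 n (j + 1) ω) Y τ A' p0 i c0 :=
  ⟨S.pos, hi, c00, c1, c2, fun v h1 h2 => vwin_of_geo S.geo hi.le c3 h1 h2, S.tgt, S.flt,
    fun v h1 h2 h3 => absurd (b_win hbD hl h1 h2) (not_le.2 (box_near_b hBK hBB h3)), S.WN, S.W0,
    S.TwE⟩

/-- the points of the tip side -/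
lemma tip_side {m : ℕ} (hm : m ≤ (SDj B P k0 K n j ω).ln B.o (A.δ n) 0) :
    dist (pt (A.δ n) ((SDj B P k0 K n j ω).pt' B.o (A.δ n) 0 m))
      (pt (A.δ n) (vx (B.X k0 n (j + 1) ω).α)) ≤ 33 * mesh (K + 1) := by
  have hf := S.pos.td.fine
  have hok := S.pos.td.ok
  obtain ⟨v, h1, h2⟩ := side_near hok hf 0 hm
  have hμ := mesh_pos (K + 1)
  have hδ := hf.hδ
  have hm5 : 5 * A.δ n ≤ mesh (K + 1) := hf.hm
  have h3 := S.geo.tip
  have hmK : mesh K = 3 * mesh (K + 1) := by unfold mesh; rw [pow_succ]; ring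
  have h4 : box (A.δ n) B.o K v = (SDj B P k0 K n j ω).s.1 := h1
  obtain ⟨⟨a1, a2⟩, a3, a4⟩ := Pool.Agent.H5.M7.box_bounds hf.gen v
  change gx K B.o.re (box (A.δ n) B.o K v).1 < _ at a1
  change _ < gx K B.o.re ((box (A.δ n) B.o K v).1 + 1) at a2
  change gx K B.o.im (box (A.δ n) B.o K v).2 < _ at a3
  change _ < gx K B.o.im ((box (A.δ n) B.o K v).2 + 1) at a4
  set s := (SDj B P k0 K n j ω).s with hs
  rw [h4] at a1 a2 a3 a4
  have e : ∀ (x : ℝ) (N : ℤ), gx K x (N + 1) = gx K x N + mesh (K + 1) := by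
    intro x N; unfold gx; push_cast; ring
  have h5 : dist (pt (A.δ n) v) (gpt B.o K (tail s)) ≤ 2 * mesh (K + 1) := by
    have key : ∀ x : ℤ × ℤ, (x.1 = s.1.1 ∨ x.1 = s.1.1 + 1) → (x.2 = s.1.2 ∨ x.2 = s.1.2 + 1) →
        dist (pt (A.δ n) v) (gpt B.o K x) ≤ 2 * mesh (K + 1) := by
      intro x hx hy
      rw [Complex.dist_eq]
      refine (Complex.norm_le_abs_re_add_abs_im _).trans ?_
      have e1 : (gpt B.o K x).re = gx K B.o.re x.1 := rfl
      have e2 : (gpt B.o K x).im = gx K B.o.im x.2 := rfl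
      rw [Complex.sub_re, Complex.sub_im, e1, e2]
      have k1 : |(pt (A.δ n) v).re - gx K B.o.re x.1| ≤ mesh (K + 1) := by
        rw [e] at a2
        rcases hx with hx | hx <;> rw [hx, abs_le]
        · constructor <;> linarith
        · rw [e]; constructor <;> linarith
      have k2 : |(pt (A.δ n) v).im - gx K B.o.im x.2| ≤ mesh (K + 1) := by
        rw [e] at a4
        rcases hy with hy | hy <;> rw [hy, abs_le]
        · constructor <;> linarith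
        · rw [e]; constructor <;> linarith
      linarith
    refine key _ ?_ ?_ <;> unfold tail <;> split_ifs <;> simp
  have h6 := dist_triangle (pt (A.δ n) ((SDj B P k0 K n j ω).pt' B.o (A.δ n) 0 m)) (pt (A.δ n) v)
    (pt (A.δ n) (vx (B.X k0 n (j + 1) ω).α))
  have h7 := dist_triangle (pt (A.δ n) v) (gpt B.o K (tail s))
    (pt (A.δ n) (vx (B.X k0 n (j + 1) ω).α))
  rw [hmK] at h3
  linarith

/-- **The state satisfies `CoreZ`.** -/
theorem coreZ {i : ℤ} (hi : 0 < i) {c0 : ℝ} (c00 : 0 ≤ c0)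
    (c1 : c0 + 8 * A.δ n ≤ i * mesh (w.k1 + 1))
    (c2 : i * mesh (w.k1 + 1) + c0 + 8 * A.δ n ≤ l') (hl : l' < w.l)
    (c3 : i * mesh (w.k1 + 1) + 2 * (c0 + 2 * A.δ n) < w.l) (hbD : b ∉ D) (hBK : P.BB.1 ≤ K)
    {rB rb rt η e1 : ℝ} (hBB : cfat B.o P.BB ⊆ Metric.ball b rB) (hrB : rB ≤ w.l)
    {cb : ℤ × ℤ} {ρt ρb r Dd G : ℤ} (hcb : dist (pt (A.δ n) cb) b ≤ 2 * A.δ n)
    (hb1 : rB ≤ rb / 2) (hb2 : 72 * mesh (K + 1) ≤ rb) (hb3 : rb + 2 * A.δ n ≤ ρb * A.δ n)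
    (ht1 : 80 * mesh (K + 1) ≤ rt) (ht2 : rt ≤ ρt * A.δ n) (hη : 36 * mesh (K + 1) < η)
    (hD1 : 2 * ((Dd + 4 : ℤ) * A.δ n) ≤ η / 2) (hD2 : 2 * ((Dd + 3 : ℤ) * A.δ n) ≤ rt / 2)
    (hD3 : (2 * ((Dd + 1 : ℤ) : ℝ) + 4) * A.δ n < e1) (hDd : 0 ≤ Dd)
    (hr : 20 * mesh (K + 1) + 2 * A.δ n ≤ r * A.δ n)
    (hG : ∀ R : Finset (ℤ × ℤ), Om R (gx K B.o.re) (gx K B.o.im) ⊆ D → ∀ c ∈ R,
      |c.1| + 1 ≤ G ∧ |c.2| + 1 ≤ G)
    (hfar : ∀ v, ¬ star1 v ⊆ (B.X k0 n (j + 1) ω).E → rb / 4 ≤ dist (pt (A.δ n) v) b →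
      (∀ u ∈ B.N n, η ≤ dist (pt (A.δ n) v) (pt (A.δ n) u)) ∧
      ∀ u, Wd w n i c0 u → η ≤ dist (pt (A.δ n) v) (pt (A.δ n) u))
    (hcut : ∀ (c : ℤ × ℤ) (R : ℤ), (2 * (R : ℝ) + 4) * A.δ n < e1 →
      (∀ v ∈ B.N n, Far (R + 2) c v) → Far (R + 1) c (eu (lab (B.X k0 n (j + 1) ω).α)) →
      Far (R + 1) c (ev (lab (B.X k0 n (j + 1) ω).α)) → NoCutC (B.X k0 n (j + 1) ω) c R) :
    CoreZ w n l' (SDj B P k0 K n j ω) nb (B.X k0 n (j + 1) ω) Y τ A' p0 i c0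
      (fun v => Bl (vx (B.X k0 n (j + 1) ω).α) ρt v ∨ Bl cb ρb v ∨ v ∈ Crn w n K i c0 G) r Dd := by
  have hδ := A.pos n
  have hf := S.pos.td.fine
  have hok := S.pos.td.ok
  have hμ := mesh_pos (K + 1)
  have hm5 : 5 * A.δ n ≤ mesh (K + 1) := hf.hm
  have hgen : Gen2 K B.o (A.δ n) := hf.gen
  set d := SDj B P k0 K n j ω with hd
  have hdK : d.K = K := rfl
  set X := B.X k0 n (j + 1) ω with hX
  have htip : ∀ v, dist (pt (A.δ n) v) (pt (A.δ n) (vx X.α)) ≤ rt → Bl (vx X.α) ρt v :=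
    fun v h => bl_of_dist hδ (h.trans ht2)
  have hbb : ∀ v, dist (pt (A.δ n) v) b ≤ rb → Bl cb ρb v := by
    intro v h
    refine bl_of_dist hδ ?_
    have := dist_triangle (pt (A.δ n) v) b (pt (A.δ n) cb)
    rw [dist_comm b] at this
    linarith
  have hside : ∀ m j', j' ≤ d.ln B.o (A.δ n) m →
      dist (pt (A.δ n) (d.pt' B.o (A.δ n) m j')) (pt (A.δ n) (sc' d B.o (A.δ n) m)) ≤
        5 * mesh (K + 1) := by
    intro m j' hj'
    have := side_dist hok hf m hj'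
    rw [hdK] at this
    linarith
  have hbox : ∀ m, box (A.δ n) B.o K (sc' d B.o (A.δ n) m) = d.oc' m := fun m => box_sc' hok hf m
  refine ⟨S.coreH hi c00 c1 c2 hl c3 hbD hBK (hBB.trans (Metric.ball_subset_ball hrB)), S.odd,
    S.invL, ?_, ?_, ?_, ?_, ?_⟩
  · -- the tip path
    intro v hv
    left
    apply htip
    have h1 := dist_of_NB hgen (S.tipτ v hv)
    have h2 := S.tipv
    have h3 := dist_triangle (pt (A.δ n) v) (pt (A.δ n) vt) (pt (A.δ n) (vx X.α))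
    push_cast at h1
    linarith
  · intro j' hj'
    left
    apply htip
    have := S.tip_side hj'
    linarith
  · intro m hm h1 j' hj'
    right; left
    apply hbb
    have h2 := hside m j' hj'
    have h3 : dist (pt (A.δ n) (sc' d B.o (A.δ n) m)) b < rB :=
      box_near_b (P := P) hBK hBB (by rw [hbox m]; exact h1)
    have h4 := dist_triangle (pt (A.δ n) (d.pt' B.o (A.δ n) m j'))
      (pt (A.δ n) (sc' d B.o (A.δ n) m)) b
    linarith
  · intro m h1 h2 j' hj' hW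
    right; right
    exact mem_Crn hok hf (hG _ S.geo.sub) hj' hW
  · intro m hm hrun
    set c := sc' d B.o (A.δ n) m with hc
    by_cases k1 : dist (pt (A.δ n) c) (pt (A.δ n) (vx X.α)) ≤ rt / 2
    · left
      intro j' hj'
      left
      apply htip
      have h2 := hside m j' hj'
      have h4 := dist_triangle (pt (A.δ n) (d.pt' B.o (A.δ n) m j')) (pt (A.δ n) c)
        (pt (A.δ n) (vx X.α))
      linarith
    by_cases k2 : dist (pt (A.δ n) c) b ≤ rb / 2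
    · left
      intro j' hj'
      right; left
      apply hbb
      have h2 := hside m j' hj'
      have h4 := dist_triangle (pt (A.δ n) (d.pt' B.o (A.δ n) m j')) (pt (A.δ n) c) b
      linarith
    right
    rw [not_le] at k1 k2
    have hP : d.oc' m ∉ d.P := by
      rcases side_cases hok hm hrun with h1 | h1
      · exfalso
        have h3 : dist (pt (A.δ n) c) b < rB :=
          box_near_b (P := P) hBK hBB (by rw [hbox m]; exact h1)
        linarith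
      · exact h1
    have hdead := S.dead m hP
    obtain ⟨Z, hZ1, hZ2, z', hz1, v', hv1, hv2⟩ := hdead
    have hnb : NB 8 (d.oc' m) (box (A.δ n) B.o K v') := by
      rw [hv1]
      have : z' ∈ (Z : Set (ℤ × ℤ)) :=
        hz1.induct (P := fun x => x ∈ (Z : Set (ℤ × ℤ))) hZ1 fun x y _ _ hy => hy
      exact (hZ2 z' this).2
    have hdv : dist (pt (A.δ n) v') (pt (A.δ n) c) ≤ 18 * mesh (K + 1) := by
      have := dist_of_NB hgen (v := c) (u := v') (r := 8) (by rw [hbox m]; exact hnb)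
      push_cast at this
      linarith
    obtain ⟨g1, g2⟩ := hfar v' hv2 (by
      have := dist_triangle (pt (A.δ n) c) (pt (A.δ n) v') b
      rw [dist_comm (pt (A.δ n) c) (pt (A.δ n) v')] at this
      linarith)
    have hfarc : ∀ u, η ≤ dist (pt (A.δ n) v') (pt (A.δ n) u) →
        η / 2 ≤ dist (pt (A.δ n) c) (pt (A.δ n) u) := by
      intro u hu
      have := dist_triangle (pt (A.δ n) v') (pt (A.δ n) c) (pt (A.δ n) u)
      linarith
    have hlabα : ∀ u, lab X.α ∈ star1 u → Far (Dd + 1 + 1) c u := by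
      intro u hu
      refine far_of_pt hδ (x := rt / 2 - A.δ n) ?_ ?_
      · push_cast at hD2 ⊢
        linarith
      · have h3 : dist (pt (A.δ n) (vx X.α)) (pt (A.δ n) u) ≤ A.δ n :=
          dist_of_star1 hδ (lab_star1 X.α) hu
        have h4 := dist_triangle (pt (A.δ n) c) (pt (A.δ n) u) (pt (A.δ n) (vx X.α))
        rw [dist_comm (pt (A.δ n) u)] at h4
        linarith
    have hodd : ((lab X.α).1 + (lab X.α).2) % 2 = 1 := odd_star1 (lab_star1 X.α)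
    refine ⟨⟨?_, ?_, ?_, hZ1 |> fun _ => ⟨Z, hZ1, hZ2, z', hz1, v', hv1, hv2⟩⟩, c,
      ?_, fun v hv => ?_, fun v hv => ?_, fun v hv => ?_⟩
    · intro v hv hn
      exfalso
      have h1 := hfarc v (g1 v hv)
      have h2 := dist_of_NB hgen (v := c) (u := v) (r := 8) (by rw [hbox m]; exact hn)
      rw [dist_comm] at h2
      push_cast at h2
      linarith
    · intro v hv hn
      have h1 := S.tipτ v hv
      have h2 : NB 11 (d.oc' m) (box (A.δ n) B.o K vt) := hn.trans h1.symm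
      have h3 := dist_of_NB hgen (v := c) (u := vt) (r := 11) (by rw [hbox m]; exact h2)
      have h4 := S.tipv
      have h5 := dist_triangle (pt (A.δ n) c) (pt (A.δ n) vt) (pt (A.δ n) (vx X.α))
      rw [dist_comm (pt (A.δ n) c) (pt (A.δ n) vt)] at h5
      push_cast at h3
      linarith
    · intro e he
      have key : ∀ v, NB 3 (box (A.δ n) B.o K vt) (box (A.δ n) B.o K v) →
          ¬ NB 8 (d.oc' m) (box (A.δ n) B.o d.K v) := by
        intro v h1 hn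
        have h2 : NB 11 (d.oc' m) (box (A.δ n) B.o K vt) := hn.trans h1.symm
        have h3 := dist_of_NB hgen (v := c) (u := vt) (r := 11) (by rw [hbox m]; exact h2)
        have h4 := S.tipv
        have h5 := dist_triangle (pt (A.δ n) c) (pt (A.δ n) vt) (pt (A.δ n) (vx X.α))
        rw [dist_comm (pt (A.δ n) c) (pt (A.δ n) vt)] at h5
        push_cast at h3
        linarith
      exact ⟨key _ (S.tipA e he).1, key _ (S.tipA e he).2⟩
    · refine hcut c (Dd + 1) hD3 (fun v hv => ?_) (hlabα _ ?_) (hlabα _ ?_)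
      · refine far_of_pt hδ (x := η / 2) ?_ (hfarc v (g1 v hv))
        push_cast at hD1 ⊢
        linarith
      · rw [mem_star1_iff hodd]; exact Or.inl rfl
      · rw [mem_star1_iff hodd]; exact Or.inr rfl
    · exact far_of_pt hδ hD1 (hfarc v (g1 v hv))
    · exact far_of_pt hδ hD1 (hfarc v (g2 v hv))
    · have h2 := dist_of_NB hgen (v := c) (u := v) (r := 9) (by rw [hbox m]; exact hv)
      obtain ⟨h3, h4⟩ := abs_of_dist hδ h2
      push_cast at h3 h4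
      have key : ∀ x y : ℤ, |(x : ℝ) - y| * A.δ n ≤ 2 * (9 + 1) * mesh (K + 1) → |x - y| ≤ r - 2 := by
        intro x y h5
        have h6 : |(x : ℝ) - y| * A.δ n ≤ ((r - 2 : ℤ) : ℝ) * A.δ n := by push_cast; linarith
        have h7 : |(x : ℝ) - y| ≤ ((r - 2 : ℤ) : ℝ) := le_of_mul_le_mul_right h6 hδ
        exact_mod_cast h7
      exact ⟨key _ _ h3, key _ _ h4⟩

end StIn

end

end Pool.Agent.H76.M7
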