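import Mathlib
import Pool.Agent.H76.M7.Unif
import Pool.Agent.H42.Q1.Small

set_option autoImplicit false
open Finset Filter Topology

/-! # Module M7: `StJump` -/

namespace Pool.Agent.H76.M7

open Pool.Agent.H75.Perc Pool.Agent.H75.TwoArm Pool.Agent.H75.Four Pool.Agent.H69.Q1
open Pool.Agent.H49.Q1 Pool.Agent.H21.Q1
open Pool.Agent.H28.Q1 (Inv)
open Pool.Agent.H81.Q1 (pt DDomain Approx IsJordanDomain IsArcs)
open Pool.Agent.Q1.M3
open Pool.Agent.Q1.M5 (StPz)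
open Pool.Agent.H82.Q1.M7

section

variable {D : Set ℂ} {a b : ℂ} {A₁ A₂ : Set ℂ} {A : Approx D a b A₁ A₂} {r0 : ℝ} (B : Base A r0)

lemma Q_mono {M M' : ℕ} (h : M ≤ M') : B.Q M ⊆ B.Q M' := by
  induction M', h using Nat.le_induction with
  | base => exact subset_refl _
  | succ M' _ ih => exact ih.trans (B.mono M')

lemma beta_eq (n : ℕ) : vx (X0 A n).β = (A.X n).β.1 := by
  change vx (A.X n).toDEnv.β = _
  rw [Pool.Agent.H81.Q1.toDEnv_β, vx_cor]

/-- neighbouring vertices are at distance at most the mesh -/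
lemma dist_unit {n : ℕ} {u v : ℤ × ℤ} (h : IsUnit4 (v - u)) :
    dist (pt (A.δ n) u) (pt (A.δ n) v) ≤ A.δ n := by
  obtain ⟨h1, h2⟩ := ends_add h
  refine dist_of_star1 (A.pos n) (e := u + v) ?_ ?_ <;> rw [mem_star1_iff h1] <;>
    rcases h2 with ⟨h3, h4⟩ | ⟨h3, h4⟩ <;> rw [h3, h4] <;> tauto

/-- The barrier accumulates at `b`. -/
lemma exists_near_b {ρ : ℝ} (hρ : 0 < ρ) : ∃ z ∈ Sbar B, dist b z < ρ := by
  obtain ⟨M, hM⟩ := (B.rlim.eventually_lt_const (show (0 : ℝ) < ρ / 4 by positivity)).exists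
  have hm : 0 < mesh (B.qb.1 + 1) := mesh_pos _
  have e1 := (Metric.tendsto_nhds.1 A.limβ) (ρ / 4) (by positivity)
  have e2 : ∀ᶠ n in atTop, A.δ n < min (ρ / 4) (mesh (B.qb.1 + 1)) :=
    A.lim.eventually_lt_const (lt_min (by positivity) hm)
  obtain ⟨n, h1, h2, h3, h4, h5⟩ :=
    (((B.hN M).and (B.conn.and (B.beta.and (e1.and e2)))).exists)
  obtain ⟨N', h6, h7⟩ := h1
  have hδ := A.pos n
  have d1 : A.δ n < ρ / 4 := lt_of_lt_of_le h5 (min_le_left _ _)
  obtain ⟨v0, hv0⟩ := Pool.Agent.H42.Q1.verts_nonempty hδ (o := B.o) (k := B.qb.1)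
    (lt_of_lt_of_le h5 (min_le_right _ _)) (q := B.qb) le_rfl
  have hqb : B.qb ∈ B.Q M := Q_mono B (Nat.zero_le M) B.qb_mem
  have hV0 : v0 ∈ Vn (A.δ n) B.o (B.Q M) := mem_Vn.2 ⟨B.qb, hqb, hv0⟩
  have hN0 : v0 ∈ B.N n := by rw [h6]; exact mem_union_left _ hV0
  have key : ∀ y, Co (kap (B.N n)) v0 y → (∃ z ∈ Vn (A.δ n) B.o (B.Q M),
      dist (pt (A.δ n) z) b < ρ) ∨ y ∈ Vn (A.δ n) B.o (B.Q M) := by
    intro y hy
    induction hy with
    | refl => exact Or.inr hV0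
    | @tail p q _ hpq ih =>
      rcases ih with ih | ih
      · exact Or.inl ih
      · by_cases hq : q ∈ Vn (A.δ n) B.o (B.Q M)
        · exact Or.inr hq
        · left
          refine ⟨p, ih, ?_⟩
          have h8 := (kap_ends hpq.1 hpq.2).2
          rw [h6] at h8
          have h9 := Metric.mem_ball.1 (h7 q ((mem_union.1 h8).resolve_left hq))
          have h10 := dist_unit (A := A) (n := n) hpq.1
          have h11 := dist_triangle (pt (A.δ n) p) (pt (A.δ n) q) b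
          linarith
  have hz : ∃ z ∈ Vn (A.δ n) B.o (B.Q M), dist (pt (A.δ n) z) b < ρ := by
    rcases key _ ((h2 v0 hN0 _ h3).mono inter_subset_left) with h8 | h8
    · exact h8
    · refine ⟨_, h8, ?_⟩
      rw [beta_eq]
      linarith
  obtain ⟨z, hz1, hz2⟩ := hz
  obtain ⟨q, hq, hq'⟩ := mem_Vn.1 hz1
  rw [mem_verts hδ] at hq'
  refine ⟨pt (A.δ n) z, ?_, by rw [dist_comm]; exact hz2⟩
  exact Set.mem_iUnion.2 ⟨M, Set.mem_iUnion₂.2 ⟨q, hq, fat_sub_cfat _ _ hq'⟩⟩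

/-- The barrier is near the cells of the barrier. -/
theorem bar_near {ρ : ℝ} (hρ : 0 < ρ) : ∀ᶠ n in atTop, ∀ v ∈ B.N n, ∃ z ∈ Sbar B,
    dist (pt (A.δ n) v) z < ρ := by
  obtain ⟨z0, hz0, hz0'⟩ := exists_near_b B (show 0 < ρ / 2 by positivity)
  obtain ⟨M, hM⟩ := (B.rlim.eventually_lt_const (show (0 : ℝ) < ρ / 2 by positivity)).exists
  filter_upwards [B.hN M] with n h1 v hv
  obtain ⟨N', h6, h7⟩ := h1
  rw [h6] at hv
  rcases mem_union.1 hv with h2 | h2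
  · obtain ⟨q, hq, hq'⟩ := mem_Vn.1 h2
    rw [mem_verts (A.pos n)] at hq'
    exact ⟨pt (A.δ n) v, Set.mem_iUnion.2 ⟨M, Set.mem_iUnion₂.2 ⟨q, hq, fat_sub_cfat _ _ hq'⟩⟩,
      by rw [dist_self]; exact hρ⟩
  · refine ⟨z0, hz0, ?_⟩
    have h3 := Metric.mem_ball.1 (h7 v h2)
    have h4 := dist_triangle (pt (A.δ n) v) b z0
    linarith

/-- In fresh states no label at the barrier is explored. -/
lemma fresh_star {n : ℕ} {ρ ρ' : ℝ} (hN : ∀ v ∈ B.N n, ∃ z ∈ Sbar B, dist (pt (A.δ n) v) z < ρ')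
    (hρ : ρ' + A.δ n ≤ ρ) {X : DEnv} (hX : FreshS B n ρ X) {e : ℤ × ℤ} (he : e ∈ (X0 A n).E)
    (hs : e ∈ star (B.N n)) : e ∈ X.E := by
  by_contra hc
  obtain ⟨v, hv, h1⟩ := mem_star.1 hs
  obtain ⟨z, hz, h2⟩ := hN v hv
  have h3 := hX e he hc z hz
  have ho := odd_star1 h1
  have h4 := dist_of_star1 (A.pos n) ((mem_star1_iff ho).2 (Or.inl rfl) : e ∈ star1 (eu e)) h1
  have h5 := dist_triangle (pt (A.δ n) (eu e)) (pt (A.δ n) v) z
  linarith

/-! ### Invariants of the states -/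

lemma exists_plab {e : ℤ × ℤ} (ho : (e.1 + e.2) % 2 = 1) : ∃ c, plab c = e := by
  obtain ⟨e1, e2⟩ := e
  simp only at ho
  rcases (by omega : e1 % 2 = 1 ∨ e1 % 2 = 0) with h3 | h3
  · refine ⟨(e1 + 1, e2), ?_⟩
    unfold plab
    simp only
    rw [if_pos (by omega), if_pos (by omega)]
    simp
  · refine ⟨(e1, e2), ?_⟩
    unfold plab
    simp only
    rw [if_neg (by omega), if_pos (by omega)]

lemma inv_st (R : Rules) {X : DEnv} (hX : Inv X) (ω : Finset (ℤ × ℤ)) (j : ℕ) :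
    Inv (R.st j X ω) := by
  induction j generalizing X ω with
  | zero => exact hX
  | succ j ih => exact ih (hX.after (R.ad X) inter_subset_right) _

lemma inv_X (k0 n j : ℕ) (ω : Finset (ℤ × ℤ)) : Inv (B.X k0 n j ω) :=
  inv_st _ (Pool.Agent.H28.Q1.inv_toDEnv _) _ _

/-- The wired labels are joined to the barrier. -/
lemma wj_state {n : ℕ} {X : DEnv} (hI : Inv X) (hβ : vx X.β ∈ B.N n) (w : Win B)
    (hW : X.W ∩ star (B.N n) ⊆ (X0 A n).W) :
    WJ ((X.W \ star (B.N n)) ∪ (w.Tw n ∪ ((X0 A n).W ∩ star (B.N n)))) (fun v => v ∈ B.N n) := by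
  set T := w.Tw n ∪ ((X0 A n).W ∩ star (B.N n)) with hT
  have hTs : T ⊆ star (B.N n) := by
    intro e he
    rcases Finset.mem_union.1 he with h | h
    · unfold Win.Tw at h
      have := (Finset.mem_inter.1 (Finset.mem_inter.1 h).2).1
      unfold perp at this
      exact (Finset.mem_sdiff.1 this).1
    · exact (Finset.mem_inter.1 h).2
  -- a path of wired labels to the barrier
  have key : ∀ u v, Co X.W u v → v ∈ B.N n →
      ∃ j, j ∈ B.N n ∧ Co ((X.W \ star (B.N n)) ∪ T) u j := by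
    intro u v h hv
    induction h using Relation.ReflTransGen.head_induction_on with
    | refl => exact ⟨v, hv, Co.refl _ _⟩
    | @head p q hpq _ ih =>
      by_cases hp : p ∈ B.N n
      · exact ⟨p, hp, Co.refl _ _⟩
      by_cases hs : p + q ∈ star (B.N n)
      · have ho := odd_star hs
        have hq : q ∈ B.N n := by
          obtain ⟨h1, h2⟩ := ends_add hpq.1
          rw [mem_star_iff h1] at hs
          rcases h2 with ⟨h3, h4⟩ | ⟨h3, h4⟩ <;> rw [h3, h4] at hs <;> tauto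
        refine ⟨q, hq, Relation.ReflTransGen.single ⟨hpq.1, ?_⟩⟩
        refine Finset.mem_union_right _ (Finset.mem_union_right _ (Finset.mem_inter.2 ⟨?_, hs⟩))
        exact hW (Finset.mem_inter.2 ⟨hpq.2, hs⟩)
      · obtain ⟨j, hj, h1⟩ := ih
        refine ⟨j, hj, Relation.ReflTransGen.head ⟨hpq.1, ?_⟩ h1⟩
        exact Finset.mem_union_left _ (Finset.mem_sdiff.2 ⟨hpq.2, hs⟩)
  intro u v huv hm
  obtain ⟨h1, h2⟩ := ends_add huv
  by_cases hs : u + v ∈ star (B.N n)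
  · by_cases hu : u ∈ B.N n
    · exact ⟨u, hu, Co.refl _ _⟩
    · have hv : v ∈ B.N n := by
        rw [mem_star_iff h1] at hs
        rcases h2 with ⟨h3, h4⟩ | ⟨h3, h4⟩ <;> rw [h3, h4] at hs <;> tauto
      exact ⟨v, hv, Relation.ReflTransGen.single ⟨huv, hm⟩⟩
  · have hX : u + v ∈ X.W := by
      rcases Finset.mem_union.1 hm with h | h
      · exact (Finset.mem_sdiff.1 h).1
      · exact absurd (hTs h) hs
    -- the wired label is joined to the final vertex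
    obtain ⟨c, hc⟩ := exists_plab h1
    have h3 := hI.co_of_mem (c := c) (by rw [hc]; exact hX)
    have h4 : Co X.W u (vx X.β) := by
      rcases vx_of_plab huv hc with h5 | h5
      · rw [← h5]; exact h3.symm
      · rw [h5] at h3
        exact Relation.ReflTransGen.head ⟨huv, hX⟩ h3.symm
    exact key u _ h4 hβ

/-! ### Distances -/

lemma dist_box {n : ℕ} {u v : ℤ × ℤ} {R : ℤ} (h1 : |u.1 - v.1| ≤ R) (h2 : |u.2 - v.2| ≤ R) :
    dist (pt (A.δ n) u) (pt (A.δ n) v) ≤ 2 * R * A.δ n := by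
  have hδ := A.pos n
  rw [dist_eq_norm]
  refine (Complex.norm_le_abs_re_add_abs_im _).trans ?_
  unfold pt
  simp only [Complex.sub_re, Complex.sub_im]
  have h3 : |((u.1 - v.1 : ℤ) : ℝ)| ≤ R := by exact_mod_cast h1
  have h4 : |((u.2 - v.2 : ℤ) : ℝ)| ≤ R := by exact_mod_cast h2
  have e1 : A.δ n * (u.1 : ℝ) - A.δ n * (v.1 : ℝ) = A.δ n * ((u.1 - v.1 : ℤ) : ℝ) := by
    push_cast; ring
  have e2 : A.δ n * (u.2 : ℝ) - A.δ n * (v.2 : ℝ) = A.δ n * ((u.2 - v.2 : ℤ) : ℝ) := by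
    push_cast; ring
  rw [e1, e2, abs_mul, abs_mul, abs_of_pos hδ]
  have h5 := mul_le_mul_of_nonneg_left h3 hδ.le
  have h6 := mul_le_mul_of_nonneg_left h4 hδ.le
  linarith

lemma coord_of_dist {n : ℕ} {u v : ℤ × ℤ} {e : ℝ}
    (h : dist (pt (A.δ n) u) (pt (A.δ n) v) ≤ e + A.δ n) :
    |u.1 - v.1| ≤ ⌊e / A.δ n⌋ + 2 ∧ |u.2 - v.2| ≤ ⌊e / A.δ n⌋ + 2 := by
  have hδ := A.pos n
  rw [dist_eq_norm] at h
  have key : ∀ a b : ℤ, |A.δ n * (a : ℝ) - A.δ n * (b : ℝ)| ≤ e + A.δ n →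
      |a - b| ≤ ⌊e / A.δ n⌋ + 2 := by
    intro a b hab
    have e1 : A.δ n * (a : ℝ) - A.δ n * (b : ℝ) = A.δ n * ((a - b : ℤ) : ℝ) := by
      push_cast; ring
    rw [e1, abs_mul, abs_of_pos hδ] at hab
    have h1 : |((a - b : ℤ) : ℝ)| ≤ e / A.δ n + 1 := by
      rw [← sub_le_iff_le_add, le_div_iff₀ hδ]
      linarith
    have h2 : ((|a - b| - 1 : ℤ) : ℝ) ≤ e / A.δ n := by push_cast; push_cast at h1; linarith
    have h3 := Int.le_floor.2 h2
    omega
  constructor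
  · refine key _ _ ((Complex.abs_re_le_norm _).trans h |> fun h => ?_)
    simpa [pt] using h
  · refine key _ _ ((Complex.abs_im_le_norm _).trans h |> fun h => ?_)
    simpa [pt] using h

/-- the arm probability in terms of `pz` -/
lemma ph_pz {pz : ℝ → ℝ} (hpz : StPz pz) {c : ℝ} (hc : 0 < c) : ∃ C R0 : ℝ, 0 < C ∧
    ∀ R : ℝ, R0 ≤ R → 0 < pz R ∧ ∀ k : ℤ, c * R ≤ k → ph k ≤ C * pz R := by
  obtain ⟨-, c0, C', hc0, -, hp⟩ := hpz
  obtain ⟨C, hC, hph⟩ := ph_upper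
  refine ⟨C * c ^ (-(1 / 3) : ℝ) / c0, max 1 (1 / c), by positivity, ?_⟩
  intro R hR
  have hR1 : 1 ≤ R := (le_max_left _ _).trans hR
  have hR2 : 1 ≤ c * R := by
    have := (le_max_right _ _).trans hR
    rw [div_le_iff₀ hc] at this
    linarith
  have h2 := (hp R hR1).1
  refine ⟨lt_of_lt_of_le (mul_pos hc0 (Real.rpow_pos_of_pos (by linarith) _)) h2, ?_⟩
  intro k hk
  have hk1 : (1 : ℤ) ≤ k := by
    have : (1 : ℝ) ≤ k := hR2.trans hk
    exact_mod_cast this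
  refine (hph k hk1).trans ?_
  have h1 : ((k : ℤ) : ℝ) ^ (-(1 / 3) : ℝ) ≤ (c * R) ^ (-(1 / 3) : ℝ) :=
    Real.rpow_le_rpow_of_nonpos (by positivity) hk (by norm_num)
  rw [Real.mul_rpow hc.le (by linarith)] at h1
  have hcp : 0 < c ^ (-(1 / 3) : ℝ) := Real.rpow_pos_of_pos hc _
  calc C * (k : ℝ) ^ (-(1 / 3) : ℝ) ≤ C * (c ^ (-(1 / 3) : ℝ) * R ^ (-(1 / 3) : ℝ)) :=
        mul_le_mul_of_nonneg_left h1 (by linarith)
    _ = C * c ^ (-(1 / 3) : ℝ) / c0 * (c0 * R ^ (-(1 / 3) : ℝ)) := by field_simp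
    _ ≤ C * c ^ (-(1 / 3) : ℝ) / c0 * pz R := mul_le_mul_of_nonneg_left h2 (by positivity)

/-- The half box at the window point in terms of distances to the barrier vertex `t`. -/
lemma dist_t (w : Win B) {n : ℕ} {l' : ℝ} {i r : ℤ} (hi : 0 < i)
    (hr' : i * mesh (w.k1 + 1) + (r + 2) * A.δ n ≤ l') {v : ℤ × ℤ}
    (h1 : |dt w.k (v - w.x n i)| ≤ r) (h2 : |dt (w.k + 1) (v - w.x n i)| ≤ r) :
    dist (pt (A.δ n) v) (pt (A.δ n) (w.t n i)) ≤ (2 * r + 1) * A.δ n := by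
  obtain ⟨-, -, u3, u4⟩ := near_x w hi hr' h1 h2
  have h2 := dist_pt w n v (w.t n i)
  obtain ⟨a1, a2⟩ := sc_add_succ w n (w.t n i)
  rw [t_add] at a1 a2
  have h3 : |sc w n v - sc w n (w.t n i)| ≤ r * A.δ n := by rw [← a1]; exact u3
  have h4 : |tc w n v - tc w n (w.t n i)| ≤ (r + 1) * A.δ n := by
    have := abs_le.1 u4
    have hδ := A.pos n
    rw [abs_le]
    constructor <;> linarith
  linarith

/-- the barrier vertex below the window point is in a cell of the barrier -/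
lemma t_Sbar (w : Win B) {n : ℕ} {l' : ℝ} (hW : WinN w n l') {i : ℤ} (hi : 0 < i)
    (hr' : i * mesh (w.k1 + 1) + 2 * A.δ n ≤ l') : pt (A.δ n) (w.t n i) ∈ Sbar B := by
  have hδ := A.pos n
  obtain ⟨t1, t2, t3⟩ := t_sc w n i
  have t1' := abs_le.1 t1
  have hmp := mesh_pos (w.k1 + 1)
  have hi1 : (1 : ℝ) ≤ i := by exact_mod_cast hi
  have hmi : mesh (w.k1 + 1) ≤ i * mesh (w.k1 + 1) := le_mul_of_one_le_left hmp.le hi1
  have hts : |sc w n (w.t n i)| ≤ l' := by rw [abs_le]; constructor <;> linarith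
  have htt : |tc w n (w.t n i)| ≤ l' := by rw [abs_le]; constructor <;> linarith
  exact (hW.bar _ hts htt t3).2

/-- **[JUMP]** -/
theorem stJump (w : Win B) {pz : ℝ → ℝ} (hpz : StPz pz) (hDo : IsOpen D) (hA : A₁ ⊆ frontier D)
    (hne : A₁.Nonempty) (hb : b ∉ D) : StJump B w pz := by
  intro ρ hρ ε hε i hi hil
  have hmp := mesh_pos (w.k1 + 1)
  have hi1 : (1 : ℝ) ≤ i := by exact_mod_cast hi
  have him : 0 < i * mesh (w.k1 + 1) := by positivity
  set l' := (i * mesh (w.k1 + 1) + w.l) / 2 with hl'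
  have hl1 : l' < w.l := by rw [hl']; linarith
  have hl2 : i * mesh (w.k1 + 1) < l' := by rw [hl']; linarith
  set c := min (min (i * mesh (w.k1 + 1) / 2) ((l' - i * mesh (w.k1 + 1)) / 2)) (ρ / 16) with hc
  have c0 : 0 < c := lt_min (lt_min (by positivity) (by linarith)) (by positivity)
  have c1 : c ≤ i * mesh (w.k1 + 1) / 2 := (min_le_left _ _).trans (min_le_left _ _)
  have c2 : c ≤ (l' - i * mesh (w.k1 + 1)) / 2 := (min_le_left _ _).trans (min_le_right _ _)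
  have c3 : c ≤ ρ / 16 := min_le_right _ _
  obtain ⟨C, R0, hC, hU⟩ := ph_pz hpz (c := c / 2) (by positivity)
  obtain ⟨η, hη⟩ := exists_Dcy
  have hη0 : 0 ≤ 1 - η := by linarith [hη.2.1]
  have hη1 : 1 - η < 1 := by linarith [hη.1]
  obtain ⟨m, hm⟩ : ∃ m : ℕ, C * (1 - η) ^ m ≤ ε := by
    obtain ⟨m, hm⟩ := exists_pow_lt_of_lt_one (show 0 < ε / C by positivity) hη1
    exact ⟨m, by rw [lt_div_iff₀ hC] at hm; linarith⟩
  set e0 := ρ / (128 * 4 ^ m) with he0
  have e0p : 0 < e0 := by positivity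
  have e04 : (4 : ℝ) ^ m * e0 = ρ / 128 := by rw [he0]; field_simp
  have e0r : e0 ≤ ρ / 128 := by
    rw [← e04]; exact le_mul_of_one_le_left e0p.le (one_le_pow₀ (by norm_num))
  refine ⟨e0, e0p, ?_⟩
  have e1 : ∀ᶠ n in atTop, A.δ n < min (c / 4) (e0 / 2) :=
    A.lim.eventually_lt_const (lt_min (by positivity) (by positivity))
  filter_upwards [winN_eventually w hDo hA hne hb hl1, exists_rad c0 A,
    exists_rad (show 0 < ρ / 16 by positivity) A, e1, (tendsto_inv A).eventually_ge_atTop R0,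
    bar_near B (show 0 < ρ / 4 by positivity)]
    with n hW hr hRr hδm hR0 hbn
  intro k0 j ω hω hF hdisp
  obtain ⟨r, hr1, hr2, hr3⟩ := hr
  obtain ⟨R, hR1, hR2, hR3⟩ := hRr
  have hδ := A.pos n
  have hδc : A.δ n < c / 4 := lt_of_lt_of_le hδm (min_le_left _ _)
  have hδe : A.δ n < e0 / 2 := lt_of_lt_of_le hδm (min_le_right _ _)
  have g1 : (r + 2) * A.δ n < i * mesh (w.k1 + 1) := by linarith
  have g2 : i * mesh (w.k1 + 1) + (r + 2) * A.δ n ≤ l' := by linarith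
  have g3 : (2 * r + 2) * A.δ n < ρ := by linarith
  have g4 : i * mesh (w.k1 + 1) + 2 * A.δ n ≤ l' := by linarith
  obtain ⟨hpos, hph⟩ := hU _ hR0
  set Ru := B.rules k0 n with hRu
  set X := B.X k0 n j ω with hX
  set X' := B.X k0 n (j + 1) ω with hX'
  have hst : X' = Ru.nenv X (Ru.cf j (X0 A n) ω) := Rules.st_last _ _ _ _
  set Nl := X.exset (Ru.Q X) (Ru.cf j (X0 A n) ω ∩ X.E) with hNl
  set O := Ru.cf j (X0 A n) ω ∩ X.E ∩ Nl with hO
  have hE' : X'.E = X.E \ Nl := by rw [hst, Rules.nenv_E]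
  have hW' : X'.W = X.W ∪ O := by rw [hst, Rules.nenv_W]
  have hNlE : Nl ⊆ X.E := X.exset_sub _
  have hXE0 : X.E ⊆ (X0 A n).E := B.X_E hω j
  have hmem := fun e => Rules.mem_exset_st Ru hω j (e := e)
  have hFX : FreshS B n ρ X := by
    intro e he hne' z hz
    exact hF e he (fun h => hne' (by rw [hE'] at h; exact (Finset.mem_sdiff.1 h).1)) z hz
  have hfr : ∀ Y : DEnv, FreshS B n ρ Y → ∀ e ∈ (X0 A n).E, e ∈ star (B.N n) → e ∈ Y.E :=
    fun Y hY e he hs => fresh_star B hbn (by linarith) hY he hs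
  have hNs : ∀ e ∈ Nl, e ∉ star (B.N n) := by
    intro e he hs
    have h1 := hfr X' hF e (hXE0 (hNlE he)) hs
    rw [hE'] at h1
    exact (Finset.mem_sdiff.1 h1).2 he
  have hWW : X.W ∩ star (B.N n) ⊆ (X0 A n).W := by
    intro e he
    obtain ⟨h1, h2⟩ := Finset.mem_inter.1 he
    have h3 : X.W = (X0 A n).W ∪ (ω ∩ Rules.metE (X0 A n) ω (Ru.tm j (X0 A n) ω)) :=
      Rules.st_W Ru hω j
    rw [h3] at h1
    rcases Finset.mem_union.1 h1 with h4 | h4
    · exact h4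
    · exfalso
      have h5 := (Finset.mem_inter.1 h4).2
      have h6 := hfr X hFX e (Rules.mem_metE.1 h5).1 h2
      have h7 : X.E = (X0 A n).E \ Rules.metE (X0 A n) ω (Ru.tm j (X0 A n) ω) :=
        Rules.st_E Ru hω j
      rw [h7] at h6
      exact (Finset.mem_sdiff.1 h6).2 h5
  rw [h_CJ w hW hi g4 X', h_CJ w hW hi g4 X]
  set T := w.Tw n ∪ ((X0 A n).W ∩ star (B.N n)) with hT
  have eE : X'.E \ star (B.N n) = (X.E \ star (B.N n)) \ Nl := by
    rw [hE']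
    ext e
    simp only [Finset.mem_sdiff]
    tauto
  have eW : (X'.W \ star (B.N n)) ∪ T = ((X.W \ star (B.N n)) ∪ T) ∪ O := by
    rw [hW']
    ext e
    have h1 : e ∈ O → e ∉ star (B.N n) := fun h => hNs e (Finset.mem_inter.1 h).2
    simp only [Finset.mem_union, Finset.mem_sdiff]
    tauto
  rw [eE, eW]
  by_cases hemp : Nl = ∅
  · have hOe : O = ∅ := by rw [hO, hemp, Finset.inter_empty]
    rw [hemp, hOe, Finset.sdiff_empty, Finset.union_empty, sub_self, abs_zero, zero_div]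
    exact hε.le
  · obtain ⟨e1', he1'⟩ := Finset.nonempty_iff_ne_empty.2 hemp
    set z := vx ((X0 A n).cor ω (B.T k0 n j ω)) with hz
    -- distances of the ends of explored labels to `z`
    have hends : ∀ v e, e ∈ Nl → e ∈ star1 v → dist (pt (A.δ n) v) (pt (A.δ n) z) ≤
        e0 + A.δ n := by
      intro v e he hv
      obtain ⟨-, k, hk, hk', hke⟩ := (hmem e).1 he
      have h1 := hdisp k hk hk'.le
      have h2 := dist_of_star1 hδ hv (by rw [← hke]; exact plab_star1 _)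
      have h3 := dist_triangle (pt (A.δ n) v) (pt (A.δ n) (vx ((X0 A n).cor ω k)))
        (pt (A.δ n) z)
      linarith
    have hodd : ∀ e ∈ (X0 A n).E, (e.1 + e.2) % 2 = 1 := Pool.Agent.H28.Q1.odd_toDEnv _
    -- `z` is far from the barrier
    have hzt : ρ / 2 < dist (pt (A.δ n) z) (pt (A.δ n) (w.t n i)) := by
      have ho := hodd _ (hXE0 (hNlE he1'))
      have h1 := hends (eu e1') e1' he1' ((mem_star1_iff ho).2 (Or.inl rfl))
      have h2 := hF e1' (hXE0 (hNlE he1')) (by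
        rw [hE']; exact fun h => (Finset.mem_sdiff.1 h).2 he1') _ (t_Sbar B w hW hi g4)
      have h3 := dist_triangle (pt (A.δ n) (eu e1')) (pt (A.δ n) z) (pt (A.δ n) (w.t n i))
      linarith
    have hfar : ∀ v : ℤ × ℤ, |dt w.k (v - w.x n i)| ≤ r → |dt (w.k + 1) (v - w.x n i)| ≤ r →
        ¬ (|v.1 - z.1| ≤ R ∧ |v.2 - z.2| ≤ R) := by
      rintro v h1 h2 ⟨h3, h4⟩
      have h5 := dist_t B w hi g2 h1 h2
      have h6 := dist_box (A := A) (n := n) h3 h4
      have h7 := dist_triangle (pt (A.δ n) z) (pt (A.δ n) v) (pt (A.δ n) (w.t n i))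
      rw [dist_comm (pt (A.δ n) z) (pt (A.δ n) v)] at h7
      linarith
    have hrn1 : (1 : ℤ) ≤ ⌊e0 / A.δ n⌋ + 2 := by
      have : 0 ≤ ⌊e0 / A.δ n⌋ := Int.floor_nonneg.2 (by positivity)
      omega
    have hrn : 4 ^ m * (⌊e0 / A.δ n⌋ + 2) ≤ R := by
      have h1 := Int.floor_le (e0 / A.δ n)
      have h2 : ((4 ^ m * (⌊e0 / A.δ n⌋ + 2) : ℤ) : ℝ) ≤ R := by
        refine le_trans ?_ hR3
        push_cast
        have h3 : (4 : ℝ) ^ m * ((⌊e0 / A.δ n⌋ : ℝ) + 2) ≤ 4 ^ m * (e0 / A.δ n + 2) :=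
          mul_le_mul_of_nonneg_left (by linarith) (by positivity)
        refine h3.trans ?_
        have h4 : (4 : ℝ) ^ m * (e0 / A.δ n + 2) = (4 ^ m * (e0 + 2 * A.δ n)) * (A.δ n)⁻¹ := by
          field_simp
        rw [h4]
        refine mul_le_mul_of_nonneg_right ?_ (by positivity)
        have h5 : (4 : ℝ) ^ m * (e0 + 2 * A.δ n) ≤ 4 ^ m * (2 * e0) :=
          mul_le_mul_of_nonneg_left (by linarith) (by positivity)
        linarith
      exact_mod_cast h2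
    have hrR : ⌊e0 / A.δ n⌋ + 2 ≤ R := by
      have h1 : (1 : ℤ) ≤ 4 ^ m := one_le_pow₀ (by norm_num)
      have h2 : ⌊e0 / A.δ n⌋ + 2 ≤ 4 ^ m * (⌊e0 / A.δ n⌋ + 2) :=
        le_mul_of_one_le_left (by omega) h1
      omega
    have hx0 : (Sd w.k (w.x n i)).g (0, 0) = w.x n i := Sd_g _ _
    have h0 : ∀ l, dt l (w.x n i - w.x n i) = 0 := by intro l; unfold dt; simp
    have hcmp := s1_compare hη (S := Sd w.k (w.x n i)) (k := r) (by omega)
      (E := X.E \ star (B.N n)) (W := (X.W \ star (B.N n)) ∪ T) (N := Nl) (O := O)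
      (J := fun v => v ∈ B.N n)
      (fun e he => hodd e (hXE0 (Finset.mem_sdiff.1 he).1))
      (thin_state w hW hi g1 g2 g3 hFX)
      (wj_state B (inv_X B k0 n j ω) (by rw [B.X_beta]; exact hW.betN) w hWW)
      (fun e he => Finset.mem_sdiff.2 ⟨hNlE he, hNs e he⟩) Finset.inter_subset_right
      (z := z) (r := ⌊e0 / A.δ n⌋ + 2) (R := R) (m := m) hrn1 hrn
      (by
        intro u v huv hm'
        obtain ⟨h1, h2⟩ := ends_add huv
        have h3 : u + v ∈ star1 u := by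
          rw [mem_star1_iff h1]
          rcases h2 with ⟨h4, h5⟩ | ⟨h4, h5⟩ <;> rw [h4, h5] <;> tauto
        exact coord_of_dist (hends u _ hm' h3))
      (by
        intro e he hHB
        have hFB := HB_sub_FB _ (by omega) hHB
        obtain ⟨ho, ⟨hu1, hu2⟩, -⟩ := FB_dt hFB
        unfold Nr at he
        obtain ⟨-, h1, h2⟩ := Finset.mem_filter.1 he
        refine hfar (eu e) hu1 hu2 ?_
        unfold eu
        rw [abs_le] at h1 h2
        simp only [abs_le]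
        omega)
      (by
        rw [hx0]
        unfold H77.Q1.Far
        by_contra hc
        rw [not_or, not_le, not_le] at hc
        exact hfar (w.x n i) (by rw [h0]; simp; omega) (by rw [h0]; simp; omega)
          ⟨hc.1.le, hc.2.le⟩)
      (by
        intro v h1 h2 h3
        obtain ⟨a1, a2, a3⟩ := VI_dt h3
        exact hfar v a1 (by rw [abs_of_nonneg a2]; exact a3) ⟨h1.trans hrR, h2.trans hrR⟩)
    rw [hx0] at hcmp
    rw [div_le_iff₀ hpos, abs_sub_comm]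
    refine hcmp.trans ?_
    have h1 := hph r hr3
    have h2 : 0 ≤ (1 - η) ^ m := pow_nonneg hη0 _
    calc ph r * (1 - η) ^ m ≤ C * pz (A.δ n)⁻¹ * (1 - η) ^ m := mul_le_mul_of_nonneg_right h1 h2
      _ = C * (1 - η) ^ m * pz (A.δ n)⁻¹ := by ring
      _ ≤ ε * pz (A.δ n)⁻¹ := mul_le_mul_of_nonneg_right hm hpos.le

end

end Pool.Agent.H76.M7
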