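import Mathlib
import Pool.Agent.H76.M7.StZ
import Pool.Agent.H82.Q1.M7.DeadFar

set_option autoImplicit false
open Finset Filter Topology

/-! # Module M7, J21 part A: the observable and the one-point function of the polygon -/

namespace Pool.Agent.H76.M7

open Pool.Agent.H75.Perc Pool.Agent.H75.TwoArm Pool.Agent.H75.Four Pool.Agent.H69.Q1
open Pool.Agent.H49.Q1 Pool.Agent.H47.NC.ArchAux
open Pool.Agent.H52.Q1 hiding Far
open Pool.Agent.H21.Q1 (InvL Dcy exists_Dcy)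
open Pool.Agent.H77.Q1 (Far)
open Pool.Agent.H81.Q1 (pt DDomain Approx IsJordanDomain IsArcs)
open Pool.Agent.Q1.M3
open Pool.Agent.Q1.M3.Pg (SD LX gx NB flat mem_flat mem_verts_iff gx_mono Vl DeadAt Fr Gen2)
open Pool.Agent.H82.Q1.M7
open Pool.Agent.Q1.M4 (nextSide tail head Om rect mem_Om_of_inner)
open Pool.Agent.Q1.M5 (TV WL EL sV StPz)

section

variable {D : Set ℂ} {a b : ℂ} {A₁ A₂ : Set ℂ} {A : Approx D a b A₁ A₂} {r0 : ℝ} {B : Base A r0}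

/-- **The ring probabilities of a state and of its polygon.** -/
theorem CoreZ.rings {w : Win B} {n : ℕ} {l' : ℝ} {d : SD} {nb : ℕ} {X Y : DEnv}
    {τ A' : Finset (ℤ × ℤ)} {p0 : ℕ} {i : ℤ} {c0 : ℝ} {r Dd : ℤ} {ct cb : ℤ × ℤ} {ρt ρb : ℤ}
    {I : Finset (ℤ × ℤ)} {δ0 : ℝ} (hδ0 : Dcy δ0)
    (H : CoreZ w n l' d nb X Y τ A' p0 i c0 (fun v => Bl ct ρt v ∨ Bl cb ρb v ∨ v ∈ I) r Dd)
    {k kc : ℕ} {κ : ℝ} (hr : 1 ≤ r) (hDd : 4 ^ k * r ≤ Dd) (ht1 : 1 ≤ ρt) (hb1 : 1 ≤ ρb)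
    (hI : ∀ c ∈ I, ¬ Wd w n i c0 c)
    (hft : ∀ p, Wd w n i (c0 / 2) p → Far (4 ^ k * ρt) ct p)
    (hfb : ∀ p, Wd w n i (c0 / 2) p → Far (4 ^ k * ρb) cb p)
    (hκ : (1 - δ0) ^ k ≤ κ / 4) (hκc : I.card * (1 - δ0) ^ kc ≤ κ / 4)
    (hkc : (4 : ℝ) ^ kc * A.δ n ≤ c0 / 2) {nn jj : ℕ} (hj1 : 1 ≤ jj)
    (hjj : (4 : ℝ) ^ nn * jj * A.δ n ≤ c0 / 8) (h3 : 3 * A.δ n ≤ c0 / 8) :
    ∀ i' < nn, ∀ ξ, ξ ⊆ AA (4 ^ i' * (jj : ℤ)) → Circ (4 ^ i' * (jj : ℤ)) ξ →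
      |wwS (Sd w.k (w.x n i)) (4 ^ i' * (jj : ℤ)) (X.E \ star (B.N n)) (WW w n X)
          (fun v => v ∈ B.N n) ξ -
        wwS (Sd w.k (w.x n i)) (4 ^ i' * (jj : ℤ))
          (EL H.core.pos.hb.T (LX d.K B.o.re (A.δ n)) (LX d.K B.o.im (A.δ n)))
          (WL H.core.pos.hb.T (LX d.K B.o.re (A.δ n)) (LX d.K B.o.im (A.δ n)))
          (TV H.core.pos.hb.T (LX d.K B.o.re (A.δ n)) (LX d.K B.o.im (A.δ n))) ξ| ≤ κ := by
  intro i' hi' ξ hξ hC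
  have hδ := A.pos n
  have hs1 : (1 : ℤ) ≤ 4 ^ i' * (jj : ℤ) := by
    have h1 : (1 : ℤ) ≤ 4 ^ i' := one_le_pow₀ (by norm_num)
    have h2 : (1 : ℤ) ≤ jj := by exact_mod_cast hj1
    nlinarith
  have hs2 : (4 * ((4 ^ i' * (jj : ℤ) : ℤ) : ℝ)) * A.δ n ≤ c0 / 8 := by
    refine le_trans ?_ hjj
    refine mul_le_mul_of_nonneg_right ?_ hδ.le
    push_cast
    have h1 : (4 : ℝ) ^ (i' + 1) ≤ 4 ^ nn := pow_le_pow_right₀ (by norm_num) hi'
    have h2 : (0 : ℝ) ≤ jj := by positivity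
    rw [pow_succ] at h1
    nlinarith
  have hsc : (4 * ((4 ^ i' * (jj : ℤ) : ℤ) : ℝ) + 3) * A.δ n ≤ c0 / 4 := by nlinarith
  have c00 := H.core.c00
  have hz := arms hδ0 (w := w) (n := n) (i := i) H.core.hi (c0 := c0)
    (E := (X.E \ star (B.N n)) \ HB (Sd w.k (w.x n i)) (4 * (4 ^ i' * (jj : ℤ))))
    (fun e he => H.odd e (Finset.mem_sdiff.1 (Finset.mem_sdiff.1 he).1).1) hs1 hξ
    (ct := ct) (cb := cb) (ρt := ρt) (Rt := 4 ^ k * ρt) (ρb := ρb) (Rb := 4 ^ k * ρb)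
    (Rc := 4 ^ kc) (kt := k) (kb := k) (kc := kc) I ht1 le_rfl hb1 le_rfl le_rfl
    (fun p hp => hft p (hp.mono (by linarith))) (fun p hp => hfb p (hp.mono (by linarith)))
    hI (by push_cast at hsc ⊢; linarith)
    (Zo := fun v => Bl ct ρt v ∨ Bl cb ρb v ∨ v ∈ I) (fun v hv => hv)
  refine (H.ring_cmp hδ0 hr hDd hs1 (by linarith) hξ hC hz).trans ?_
  linarith

/-- **[CMP]** The observable of a state and the one-point function of its polygon. -/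
def StCmp (B : Base A r0) (w : Win B) (pz : ℝ → ℝ) : Prop :=
  IsJordanDomain D → a ≠ b → IsArcs D a b A₁ A₂ → w.Side → ∀ k0, B.qb.1 ≤ k0 → w.q.1 ≤ k0 →
  ∀ ρ > 0, ∀ ε > 0, ∀ i : ℤ, 0 < i → i * mesh (w.k1 + 1) < w.l →
  ∃ r > 0, ∀ P : Par B, cfat B.o P.BB ⊆ Metric.ball b r → w.M0 ≤ P.M →
  ∃ K1, ∀ K, K1 ≤ K → ∀ᶠ n in atTop, ∀ ω, ω ⊆ (X0 A n).E → ∀ j,
    Adm w n ρ k0 (j + 1) ω → ∀ nb (hb : IsB B w (SDj B P k0 K n j ω) nb),
      |w.h n i (B.X k0 n (j + 1) ω) - Pool.Agent.Q1.M5.hh hb.T (LX K B.o.re (A.δ n))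
        (LX K B.o.im (A.δ n)) (w.x n i)| ≤ ε * pz (A.δ n)⁻¹

/-- The inputs on the states. -/
def StInput (B : Base A r0) (w : Win B) : Prop :=
  IsJordanDomain D → a ≠ b → IsArcs D a b A₁ A₂ → w.Side → ∀ k0, B.qb.1 ≤ k0 → w.q.1 ≤ k0 →
  ∀ ρ > 0, ∀ l' : ℝ, 0 < l' → l' < w.l →
  ∃ r > 0, ∀ P : Par B, cfat B.o P.BB ⊆ Metric.ball b r → w.M0 ≤ P.M →
  ∃ K1, ∀ K, K1 ≤ K → ∀ᶠ n in atTop, ∀ ω, ω ⊆ (X0 A n).E → ∀ j,
    Adm w n ρ k0 (j + 1) ω → ∀ nb, IsB B w (SDj B P k0 K n j ω) nb →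
      ∃ Y τ A' p0 vt, StIn w P k0 K n j ω ρ l' nb Y τ A' p0 vt

/-- No cut boxes away from the barrier and the tip. -/
def NoCutWin (B : Base A r0) (w : Win B) : Prop :=
  IsJordanDomain D → a ≠ b → IsArcs D a b A₁ A₂ → ∀ k0, B.qb.1 ≤ k0 → ∀ ρ > 0,
  ∃ e1 > 0, ∀ᶠ n in atTop, ∀ ω, ω ⊆ (X0 A n).E → ∀ j,
    Adm w n ρ k0 (j + 1) ω → ∀ (c : ℤ × ℤ) (R : ℤ), (2 * (R : ℝ) + 4) * A.δ n < e1 →
      (∀ v ∈ B.N n, Far (R + 2) c v) → Far (R + 1) c (eu (lab (B.X k0 n (j + 1) ω).α)) →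
      Far (R + 1) c (ev (lab (B.X k0 n (j + 1) ω).α)) → NoCutC (B.X k0 n (j + 1) ω) c R

/-- a power below a bound -/
lemma exists_pow_dcy {δ0 : ℝ} (hδ0 : Dcy δ0) {x : ℝ} (hx : 0 < x) : ∃ k : ℕ, (1 - δ0) ^ k ≤ x := by
  obtain ⟨k, hk⟩ := exists_pow_lt_of_lt_one hx (show 1 - δ0 < 1 by linarith [hδ0.1])
  exact ⟨k, hk.le⟩

/-- **StCmp from the inputs.** -/
theorem stCmp_of {pz : ℝ → ℝ} (hpz : StPz pz) {w : Win B} (hI : StInput B w)
    (hN : NoCutWin B w) : StCmp B w pz := by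
  intro hJ hab hA hw k0 hk hwk ρ hρ ε hε i hi hil
  have hbD : b ∉ D := (Pool.Agent.H14.NB.not_mem_of_arcs hJ.1 hA).2
  have hDb := hJ.2.2.1
  have hl := w.l0
  have hmp := mesh_pos (w.k1 + 1)
  have hi1 : (1 : ℝ) ≤ i := by exact_mod_cast hi
  have him : 0 < i * mesh (w.k1 + 1) := by positivity
  -- the window
  set g := w.l - i * mesh (w.k1 + 1) with hg
  have hg0 : 0 < g := by rw [hg]; linarith
  set c0 := min (i * mesh (w.k1 + 1) / 2) (g / 8) with hc0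
  have c00 : 0 < c0 := lt_min (by positivity) (by positivity)
  have c01 : c0 ≤ i * mesh (w.k1 + 1) / 2 := min_le_left _ _
  have c02 : c0 ≤ g / 8 := min_le_right _ _
  set l' := i * mesh (w.k1 + 1) + g / 2 with hl'
  have hl'0 : 0 < l' := by rw [hl']; linarith
  have hl'1 : l' < w.l := by rw [hl']; linarith
  obtain ⟨δ0, hδ0⟩ := exists_Dcy
  obtain ⟨nn, κ, R0, hκ, hcmp⟩ := cmp_norm hpz (c := c0 / 8) (by positivity) hε
  obtain ⟨k, hkκ⟩ := exists_pow_dcy hδ0 (show 0 < κ / 4 by positivity)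
  have h4k : (1 : ℝ) ≤ 4 ^ k := one_le_pow₀ (by norm_num)
  have h4k0 : (0 : ℝ) < 4 ^ k := by linarith
  -- radius at `b` and at the tip
  set rb := w.l / (32 * 4 ^ k) with hrb
  have hrb0 : 0 < rb := by positivity
  have hrb1 : 4 ^ k * rb = w.l / 32 := by rw [hrb]; field_simp
  have hrb2 : rb ≤ w.l / 32 := by
    rw [← hrb1]; exact le_mul_of_one_le_left hrb0.le h4k
  obtain ⟨η, hη0, hfar⟩ := dead_far hJ hA w (k0 := k0) (ρ := ρ) hi c00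
    (show i * mesh (w.k1 + 1) + 2 * c0 ≤ w.l by linarith) (rb := rb / 4) (by positivity)
  obtain ⟨e1, he10, hcut⟩ := hN hJ hab hA k0 hk ρ hρ
  obtain ⟨r1, hr1, hIn⟩ := hI hJ hab hA hw k0 hk hwk ρ hρ l' hl'0 hl'1
  refine ⟨min r1 (rb / 2), lt_min hr1 (by positivity), fun P hP hM => ?_⟩
  obtain ⟨K1, hK1⟩ := hIn P (hP.trans (Metric.ball_subset_ball (min_le_left _ _))) hM
  have hPb : cfat B.o P.BB ⊆ Metric.ball b (rb / 2) :=
    hP.trans (Metric.ball_subset_ball (min_le_right _ _))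
  -- the level
  set m0 := min (min (η / 4) (rb / 4)) (e1 / 4) with hm0
  have hm00 : 0 < m0 := lt_min (lt_min (by positivity) (by positivity)) (by positivity)
  have hm1 : m0 ≤ η / 4 := (min_le_left _ _).trans (min_le_left _ _)
  have hm2 : m0 ≤ rb / 4 := (min_le_left _ _).trans (min_le_right _ _)
  have hm3 : m0 ≤ e1 / 4 := min_le_right _ _
  obtain ⟨K2, hK2⟩ := exists_pow_lt_of_lt_one (show 0 < m0 / (54 * 4 ^ k) by positivity)
    (show (1 / 3 : ℝ) < 1 by norm_num)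
  refine ⟨K1 + K2 + P.BB.1, fun K hK => ?_⟩
  have hμ := mesh_pos (K + 1)
  have hμm : 54 * 4 ^ k * mesh (K + 1) ≤ m0 := by
    have h3 : mesh (K + 1) ≤ (1 / 3 : ℝ) ^ K2 := by
      unfold mesh
      exact pow_le_pow_of_le_one (by norm_num) (by norm_num) (by omega)
    have h4 := h3.trans hK2.le
    rw [le_div_iff₀ (by positivity)] at h4
    linarith
  have hμ4 : mesh (K + 1) ≤ 4 ^ k * mesh (K + 1) := le_mul_of_one_le_left hμ.le h4k
  have hμ1 : 54 * mesh (K + 1) ≤ m0 := by linarith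
  obtain ⟨G, hG0, hG⟩ := R_bdd hDb B.o K
  obtain ⟨kc, hkc⟩ := exists_pow_dcy hδ0 (show 0 < κ / 4 / (2 * (G : ℝ) + 1) ^ 2 by
    have : (0 : ℝ) ≤ G := by exact_mod_cast hG0
    positivity)
  have hGp : (0 : ℝ) < (2 * (G : ℝ) + 1) ^ 2 := by
    have : (0 : ℝ) ≤ G := by exact_mod_cast hG0
    positivity
  rw [le_div_iff₀ hGp] at hkc
  -- the mesh
  set x0 := min (min (mesh (K + 1) / 5) (g / 32)) (min (c0 / 32) (c0 / (2 * 4 ^ kc))) with hx0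
  have hx00 : 0 < x0 := lt_min (lt_min (by positivity) (by positivity))
    (lt_min (by positivity) (by positivity))
  have e0 : ∀ᶠ n in atTop, A.δ n < min x0 (w.l / (64 * 4 ^ k)) :=
    A.lim.eventually_lt_const (lt_min hx00 (by positivity))
  filter_upwards [e0, hK1 K (by omega), hfar, hcut, (tendsto_inv A).eventually_ge_atTop R0]
    with n hn0 hIn' hfar' hcut' hR0
  intro ω hω j hAd nb hb
  obtain ⟨Y, τ, A', p0, vt, S⟩ := hIn' ω hω j hAd nb hb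
  have hδ := A.pos n
  have hnx := hn0.trans_le (min_le_left _ _)
  have hnw := hn0.trans_le (min_le_right _ _)
  have d1 : A.δ n ≤ mesh (K + 1) / 5 := (hnx.le.trans (min_le_left _ _)).trans (min_le_left _ _)
  have d2 : A.δ n ≤ g / 32 := (hnx.le.trans (min_le_left _ _)).trans (min_le_right _ _)
  have d3 : A.δ n ≤ c0 / 32 := (hnx.le.trans (min_le_right _ _)).trans (min_le_left _ _)
  have d4 : A.δ n ≤ c0 / (2 * 4 ^ kc) := (hnx.le.trans (min_le_right _ _)).trans (min_le_right _ _)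
  have d5 : 4 ^ k * A.δ n ≤ w.l / 64 := by
    have := hnw.le
    rw [le_div_iff₀ (by positivity)] at this
    linarith
  have d6 : A.δ n ≤ w.l / 64 := (le_mul_of_one_le_left hδ.le h4k).trans d5
  obtain ⟨cb, hcb⟩ := exists_vertex hδ b
  -- the radii
  set ρt : ℤ := ⌈rb / A.δ n⌉ with hρt
  set ρb : ℤ := ⌈(rb + 2 * A.δ n) / A.δ n⌉ with hρb
  set r : ℤ := ⌈(20 * mesh (K + 1) + 2 * A.δ n) / A.δ n⌉ with hr
  have hceil : ∀ x : ℝ, 0 < x → x ≤ (⌈x / A.δ n⌉ : ℝ) * A.δ n ∧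
      (⌈x / A.δ n⌉ : ℝ) * A.δ n ≤ x + A.δ n ∧ 1 ≤ ⌈x / A.δ n⌉ := by
    intro x hx
    have h1 := Int.le_ceil (x / A.δ n)
    have h2 := Int.ceil_lt_add_one (x / A.δ n)
    rw [div_le_iff₀ hδ] at h1
    refine ⟨h1, ?_, ?_⟩
    · have h3 : (⌈x / A.δ n⌉ : ℝ) * A.δ n ≤ (x / A.δ n + 1) * A.δ n :=
        mul_le_mul_of_nonneg_right h2.le hδ.le
      rw [add_mul, div_mul_cancel₀ _ hδ.ne', one_mul] at h3
      exact h3
    · exact Int.one_le_ceil_iff.2 (by positivity)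
  obtain ⟨t1, t2, t3⟩ := hceil rb hrb0
  obtain ⟨b1, b2, b3⟩ := hceil (rb + 2 * A.δ n) (by positivity)
  obtain ⟨r2, r3, r4⟩ := hceil (20 * mesh (K + 1) + 2 * A.δ n) (by positivity)
  rw [← hρt] at t1 t2 t3
  rw [← hρb] at b1 b2 b3
  rw [← hr] at r2 r3 r4
  have hDδ : ((4 ^ k * r : ℤ) : ℝ) * A.δ n ≤ 4 ^ k * (21 * mesh (K + 1)) := by
    push_cast
    rw [mul_assoc]
    refine mul_le_mul_of_nonneg_left (r3.trans ?_) h4k0.le
    linarith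
  have hZ := S.coreZ hi (c0 := c0) c00.le (by linarith) (by linarith) hl'1 (by linarith) hbD
    (by omega) (rB := rb / 2) (rb := rb) (rt := rb) (η := η) (e1 := e1) hPb (by linarith)
    (cb := cb) (ρt := ρt) (ρb := ρb) (r := r) (Dd := 4 ^ k * r) (G := G) hcb le_rfl (by linarith)
    (by linarith) (by linarith) t1 (by linarith)
    (by push_cast at hDδ ⊢; linarith)
    (by push_cast at hDδ ⊢; linarith)
    (by push_cast at hDδ ⊢; linarith)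
    (by positivity) r2 hG
    (fun v h1 h2 => by
      obtain ⟨g1, g2⟩ := hfar' ω hω j hAd v h1 h2
      exact ⟨fun u hu => by rw [dist_comm]; exact g1 u hu,
        fun u hu => by rw [dist_comm]; exact g2 u hu⟩)
    (hcut' ω hω j hAd)
  have hwin2 : ∀ p, Wd w n i (c0 / 2) p → dist (pt (A.δ n) p) w.p ≤ w.l := by
    intro p hp
    have := win_dist hi.le hp
    linarith
  obtain ⟨j1, j2, j3⟩ := hcmp (A.δ n)⁻¹ hR0
  set jj : ℕ := ⌊c0 / 8 * (A.δ n)⁻¹ / 4 ^ nn⌋₊ with hjj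
  have hjδ : (4 : ℝ) ^ nn * jj * A.δ n ≤ c0 / 8 := by
    have h1 := mul_le_mul_of_nonneg_right j2 hδ.le
    rw [mul_assoc (c0 / 8), inv_mul_cancel₀ hδ.ne', mul_one] at h1
    exact h1
  have hrng := hZ.rings hδ0 (k := k) (kc := kc) (κ := κ) r4 le_rfl t3 b3 Crn_out
    (by
      intro p hp
      have h1 := hwin2 p hp
      have h2 := hAd.far (B.T k0 n (j + 1) ω) le_rfl w.p (Pool.Agent.H5.M7.win_p_S w)
      rw [← B.X_α hω] at h2
      refine far_of_pt hδ (x := w.l) ?_ ?_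
      · push_cast
        have h3 : (4 : ℝ) ^ k * (ρt * A.δ n) ≤ 4 ^ k * (rb + A.δ n) :=
          mul_le_mul_of_nonneg_left t2 h4k0.le
        linarith
      · have h3 := dist_triangle (pt (A.δ n) (vx (B.X k0 n (j + 1) ω).α)) (pt (A.δ n) p) w.p
        linarith)
    (by
      intro p hp
      have h1 : |sc w n p| ≤ l' ∧ |tc w n p| ≤ l' := hp.win hi.le (by linarith)
      have h2 := b_win hbD hl'1 h1.1 h1.2
      refine far_of_pt hδ (x := w.l - 2 * A.δ n) ?_ ?_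
      · push_cast
        have h3 : (4 : ℝ) ^ k * (ρb * A.δ n) ≤ 4 ^ k * (rb + 2 * A.δ n + A.δ n) :=
          mul_le_mul_of_nonneg_left b2 h4k0.le
        linarith
      · have h3 := dist_triangle (pt (A.δ n) p) (pt (A.δ n) cb) b
        rw [dist_comm (pt (A.δ n) p) (pt (A.δ n) cb)] at h3
        linarith)
    hkκ
    (by
      have h1 := Crn_card w n K i c0 hG0
      have h2 : (0 : ℝ) ≤ (1 - δ0) ^ kc := pow_nonneg (by linarith [hδ0.2.1]) _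
      have h3 := mul_le_mul_of_nonneg_right h1 h2
      linarith)
    (by
      rw [le_div_iff₀ (by positivity)] at d4
      linarith)
    (nn := nn) (jj := jj) j1 hjδ (by linarith)
  have hR1 : (0 : ℤ) ≤ 4 ^ nn * (jj : ℤ) := by positivity
  have hR2 : (((4 ^ nn * (jj : ℤ) : ℤ) : ℝ) + 1) * A.δ n ≤ c0 := by
    push_cast
    rw [add_mul, one_mul]
    linarith
  obtain ⟨p1, p2⟩ := hZ.core.flat_poly hR1 hR2
  obtain ⟨q1, q2⟩ := hZ.core.flat_state hR1 hR2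
  have hfin := j3 (Sd w.k (w.x n i)) _ _ _ _ (fun v => v ∈ B.N n) _ q1 q2 p1 p2 hrng
  have hx : (Sd w.k (w.x n i)).g (0, 0) = w.x n i := Sd_g _ _
  rw [hx] at hfin
  rw [h_CJ w S.pos.win hi (by linarith)]
  exact hfin

end

end Pool.Agent.H76.M7
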