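import Mathlib
import Pool.Agent.H76.M7.StCmp
import Pool.Agent.H53.Q1.J21.StF

set_option autoImplicit false
open Finset Filter Topology

/-! # Module M7, J21 part A: the inputs on the states -/

namespace Pool.Agent.H76.M7

open Pool.Agent.H75.Perc Pool.Agent.H75.TwoArm Pool.Agent.H75.Four Pool.Agent.H69.Q1
open Pool.Agent.H49.Q1
open Pool.Agent.H81.Q1 (pt DDomain Approx IsJordanDomain IsArcs)
open Pool.Agent.Q1.M3
open Pool.Agent.Q1.M3.Pg (SD LX gx NB flat Vl DeadAt Tied mkSD)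
open Pool.Agent.H82.Q1.M7
open Pool.Agent.Q1.M5 (StPz)
open Pool.Agent.H53.Q1 (Base_N_target stF_adm nocut_win)

section

variable {D : Set ℂ} {a b : ℂ} {A₁ A₂ : Set ℂ} {A : Approx D a b A₁ A₂} {r0 : ℝ} {B : Base A r0}

/-- **[TIED]** The ties of the states. -/
def TiedWin (B : Base A r0) (w : Win B) : Prop :=
  IsJordanDomain D → a ≠ b → IsArcs D a b A₁ A₂ → w.Side → ∀ k0, B.qb.1 ≤ k0 → w.q.1 ≤ k0 →
  ∀ ρ > 0,
  ∃ r > 0, ∀ P : Par B, cfat B.o P.BB ⊆ Metric.ball b r → w.M0 ≤ P.M →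
  ∃ K1, ∀ K, K1 ≤ K → ∀ᶠ n in atTop, ∀ ω, ω ⊆ (X0 A n).E → ∀ j,
    Adm w n ρ k0 (j + 1) ω → (SDj B P k0 K n j ω).Ok →
      ∃ Y τ A' p0 vt, Tied (SDj B P k0 K n j ω) B.o (A.δ n) (B.X k0 n (j + 1) ω) Y (B.N n) τ A' p0 ∧
        (∀ u, Vl τ u → NB 3 (box (A.δ n) B.o K vt) (box (A.δ n) B.o K u)) ∧
        (∀ e ∈ A', NB 3 (box (A.δ n) B.o K vt) (box (A.δ n) B.o K (eu e)) ∧
          NB 3 (box (A.δ n) B.o K vt) (box (A.δ n) B.o K (ev e))) ∧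
        dist (pt (A.δ n) vt) (pt (A.δ n) (vx (B.X k0 n (j + 1) ω).α)) ≤ A.δ n ∧
        Y.E ⊆ (X0 A n).E ∧ (X0 A n).W ⊆ Y.W

lemma SDj_eq (P : Par B) (k0 K n j : ℕ) (ω : Finset (ℤ × ℤ)) :
    SDj B P k0 K n j ω = mkSD B K (A.δ n) (B.X k0 n (j + 1) ω).E ∅ P.M P.BB P.z
      (tside (box (A.δ n) B.o K (tipv (B.F k0 n (B.X k0 n j ω).E) (lab (B.X k0 n (j + 1) ω).α)))
        (tipd (B.F k0 n (B.X k0 n j ω).E) (lab (B.X k0 n (j + 1) ω).α))) := by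
  unfold SDj SDX mkSD
  rw [Finset.empty_union]
  rfl

/-- **The inputs on the states.** -/
theorem stInput_of {w : Win B} (hT : TiedWin B w) : StInput B w := by
  intro hJ hab hA hw k0 hk hwk ρ hρ l' hl'0 hl'1
  obtain ⟨haD, hbD, -, hA1, hne⟩ := Pool.Agent.H5.M7.arcs_facts hJ hA
  obtain ⟨r1, hr1, h1⟩ := Pool.Agent.H5.M7.stGeo B w hJ hab hA hw k0 hk hwk ρ hρ
  obtain ⟨r2, hr2, h2⟩ := hT hJ hab hA hw k0 hk hwk ρ hρ
  refine ⟨min r1 r2, lt_min hr1 hr2, fun P hP hM => ?_⟩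
  obtain ⟨K1, hK1⟩ := h1 P (hP.trans (Metric.ball_subset_ball (min_le_left _ _))) hM
  obtain ⟨K2, hK2⟩ := h2 P (hP.trans (Metric.ball_subset_ball (min_le_right _ _))) hM
  obtain ⟨L, hL⟩ := Pg.exists_lev B P.M
  refine ⟨K1 + K2 + L + P.BB.1 + w.k1 + 1, fun K hK => ?_⟩
  have hQK : ∀ q ∈ B.Q P.M, q.1 < K := fun q hq => by have := hL q hq; omega
  have e1 : ∀ᶠ n in atTop, A.δ n < l' / 8 := A.lim.eventually_lt_const (by positivity)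
  filter_upwards [hK1 K (by omega), hK2 K (by omega), stF_adm hJ hA w k0 ρ,
    Base_N_target B P (fun q hq => (hQK q hq).le) (show P.BB.1 ≤ K by omega),
    target_flat P (fun q hq => (hQK q hq).le), Pool.Agent.H28.Q1.dead_mk hJ A B K P.M hQK,
    Pool.Agent.H53.Q1.fresh_star B hJ.1 hA P.M w.l0, winN_eventually w hJ.1 hA1 hne hbD hl'1, e1]
    with n g1 g2 g3 g4 g5 g6 g7 g8 g9
  intro ω hω j hAd nb hb
  obtain ⟨f1, f2, f3, f4⟩ := g3 ω hω (j + 1) hAd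
  obtain ⟨Y, τ, A', p0, vt, t1, t2, t3, t4, t5, t6⟩ := g2 ω hω j hAd hb.ok
  refine ⟨Y, τ, A', p0, vt, ⟨⟨g8, t1, hb, f1.kpe, f1.beta, ?_, by linarith, t5, t6, f1.inv,
    f1.alphaN⟩, g1 ω hω j hAd, t2, t3, t4, g4, g5, f1.WN, f1.W0, f3, f1.oddE, f1.invL, ?_⟩⟩
  · change w.k1 + 1 ≤ K
    omega
  · have hst := g7 _ f2
    have hok := hb.ok
    rw [SDj_eq] at hok ⊢
    refine g6 _ f1.E0 ∅ (fun q hq => absurd hq (Finset.notMem_empty q)) ?_ P.BB P.z _ hok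
    rw [Finset.empty_union]
    exact hst

/-- **No cut boxes.** -/
theorem noCutWin (B : Base A r0) (w : Win B) : NoCutWin B w := fun hJ _ hA k0 _ ρ _ =>
  nocut_win hJ hA w k0 ρ

/-- **StCmp from the ties.** -/
theorem stCmp_of_tied {pz : ℝ → ℝ} (hpz : StPz pz) {w : Win B} (hT : TiedWin B w) :
    StCmp B w pz := stCmp_of hpz (stInput_of hT) (noCutWin B w)

end

end Pool.Agent.H76.M7
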