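import Mathlib
import Pool.Agent.H76.M7.StIn
import Pool.Agent.H28.Q1.TiedWin

set_option autoImplicit false
open Finset Filter Topology

/-! # Module M7, J21 part A: `StCmp` -/

namespace Pool.Agent.H76.M7

open Pool.Agent.H81.Q1 (pt DDomain Approx IsJordanDomain IsArcs)
open Pool.Agent.Q1.M3
open Pool.Agent.H82.Q1.M7
open Pool.Agent.Q1.M5 (StPz)

section

variable {D : Set ℂ} {a b : ℂ} {A₁ A₂ : Set ℂ} {A : Approx D a b A₁ A₂} {r0 : ℝ}

/-- **[TIED]** -/
theorem tiedWin (B : Base A r0) (w : Win B) : TiedWin B w := by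
  intro hJ hab hA hw k0 hk _ ρ hρ
  obtain ⟨r, hr, h⟩ := Pool.Agent.H28.Q1.tied_win hJ hab hA B w hw hk hρ
  refine ⟨r, hr, fun P hP hM => ?_⟩
  obtain ⟨K1, hK1⟩ := h P hP hM
  refine ⟨K1, fun K hK => ?_⟩
  filter_upwards [hK1 K hK] with n hn ω hω j hAd _
  obtain ⟨Z, v, dd, τ, T, hT, -⟩ := hn ω hω j hAd
  exact ⟨Z, τ, T, 2, v, hT.tied, hT.nearτ, hT.nearT, hT.nearα, hT.ZE, hT.W0⟩

/-- **[CMP]** The observable of a state and the one-point function of its polygon. -/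
theorem stCmp {pz : ℝ → ℝ} (hpz : StPz pz) (B : Base A r0) (w : Win B) : StCmp B w pz :=
  stCmp_of_tied hpz (tiedWin B w)

end

end Pool.Agent.H76.M7
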