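import Mathlib
import Pool.Agent.H76.M7.Line
import Pool.Agent.H76.M7.Tb
import Pool.Agent.H76.M7.StObsA
import Pool.Agent.H29.M7.Exp

set_option autoImplicit false
open Finset Filter Topology

/-! # Module M7, J21 part B: `StObs` -/

namespace Pool.Agent.H76.M7

open Pool.Agent.H75.Perc Pool.Agent.H75.TwoArm Pool.Agent.H75.Four Pool.Agent.H69.Q1
open Pool.Agent.H49.Q1
open Pool.Agent.H81.Q1 (pt DDomain Approx IsJordanDomain IsArcs)
open Pool.Agent.Q1.M3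
open Pool.Agent.Q1.M3.Pg (SD LX gx NB flat gx_mono iter_shift app_LX)
open Pool.Agent.H82.Q1.M7
open Pool.Agent.Q1.M4 (nextSide tail head Om rect mem_Om_of_inner mem_Om PType Eqv udir)
open Pool.Agent.Q1.M5 (hh lv FlatV StPz App)
open Pool.Agent.H29.M7 (Chart BV IsG StExp)
open Pool.Agent.H5.Q1 (gp)

section

variable {D : Set ℂ} {a b : ℂ} {A₁ A₂ : Set ℂ} {A : Approx D a b A₁ A₂} {r0 : ℝ} {B : Base A r0}
  {w : Win B} {P : Par B} {k0 K n j : ℕ} {ρ : ℝ} {ω : Finset (ℤ × ℤ)}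

/-- the index of the window point `i` -/
def ni (w : Win B) (K : ℕ) (i : ℤ) : ℕ := i.toNat * 3 ^ (K - w.k1)

lemma ni_pos {i : ℤ} (hi : 0 < i) : 0 < ni w K i := by
  unfold ni
  have : 0 < i.toNat := by omega
  positivity

lemma mesh_k1 (hK : w.k1 ≤ K) : mesh (w.k1 + 1) = 3 ^ (K - w.k1) * mesh (K + 1) := by
  unfold mesh
  obtain ⟨d, rfl⟩ := Nat.exists_eq_add_of_le hK
  rw [show w.k1 + d - w.k1 = d by omega, show w.k1 + d + 1 = (w.k1 + 1) + d by ring, pow_add _ (w.k1 + 1) d]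
  have : (3 : ℝ) ^ d * (1 / 3) ^ d = 1 := by rw [← mul_pow]; norm_num
  calc (1 / 3 : ℝ) ^ (w.k1 + 1) = (1 / 3 : ℝ) ^ (w.k1 + 1) * ((3 : ℝ) ^ d * (1 / 3) ^ d) := by
        rw [this, mul_one]
    _ = 3 ^ d * ((1 / 3) ^ (w.k1 + 1) * (1 / 3) ^ d) := by ring

lemma ni_mesh (hK : w.k1 ≤ K) {i : ℤ} (hi : 0 < i) :
    (ni w K i : ℝ) * mesh (K + 1) = i * mesh (w.k1 + 1) := by
  unfold ni
  rw [mesh_k1 hK]
  push_cast
  have : ((i.toNat : ℕ) : ℝ) = i := by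
    have h : ((i.toNat : ℕ) : ℤ) = i := by omega
    exact_mod_cast h
  rw [this]
  ring

lemma gv_i (w : Win B) (K : ℕ) {i : ℤ} (hi : 0 < i) :
    w.gv K 0 + (ni w K i : ℤ) • H75.Perc.dir w.k = w.gv K i := by
  unfold Win.gv ni
  have h : ((i.toNat : ℕ) : ℤ) = i := by omega
  push_cast
  rw [h, zero_smul, add_zero, smul_add, smul_smul, mul_comm i]

/-- **The window point is a flat vertex of the type.** -/
theorem flat_i (hG : GeoAt B w P k0 K n ρ ω j) (hK : w.k1 ≤ K) {nb : ℕ}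
    (hb : IsB B w (SDj B P k0 K n j ω) nb) {i : ℤ} (hi : 0 < i)
    (hil : i * mesh (w.k1 + 1) < w.l) :
    FlatV hb.T (ni w K i) ∧ hb.T.vert (ni w K i) = w.gv K i ∧
      (hb.T.side (ni w K i)).2 % 4 = w.k % 4 := by
  have hμ := mesh_pos (K + 1)
  have h1 := hb.hi
  have h2 := hb.n2
  have hn := ni_mesh (w := w) (K := K) hK hi
  have hpos := ni_pos (w := w) (K := K) hi
  have hline : ∀ m, m ≤ ni w K i → tail ((SDj B P k0 K n j ω).sid (nb + m)) = w.gv K 0 + (m : ℤ) • H75.Perc.dir w.k ∧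
      ((SDj B P k0 K n j ω).sid (nb + m)).2 = ((SDj B P k0 K n j ω).sid nb).2 := by
    intro m hm
    refine side_line hG hK hb m ?_
    have h3 : (m : ℝ) * mesh (K + 1) ≤ (ni w K i : ℝ) * mesh (K + 1) :=
      mul_le_mul_of_nonneg_right (by exact_mod_cast hm) hμ.le
    linarith
  have hT : ∀ m, hb.T.side m = (SDj B P k0 K n j ω).sid (nb + m) := by
    intro m
    have := T_side0 hb (m := nb + m) (by omega)
    rwa [show nb + m - nb = m by omega] at this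
  have hlt : nb + ni w K i < (SDj B P k0 K n j ω).N := by
    by_contra hc
    push Not at hc
    obtain ⟨m, hm⟩ := Nat.exists_eq_add_of_le (show nb ≤ (SDj B P k0 K n j ω).N by omega)
    have h3 := (hline m (by omega)).1
    have h4 : (SDj B P k0 K n j ω).sid (nb + m) = ((SDj B P k0 K n j ω).s.1, (SDj B P k0 K n j ω).s.2 + 4) := by
      rw [← hm]
      exact hb.ok.mark.walk.period
    rw [h4] at h3
    have h5 : tail ((SDj B P k0 K n j ω).s.1, (SDj B P k0 K n j ω).s.2 + 4) = tail (SDj B P k0 K n j ω).s := by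
      unfold tail
      have e : ((SDj B P k0 K n j ω).s.2 + 4) % 4 = (SDj B P k0 K n j ω).s.2 % 4 := by omega
      simp only [e]
    rw [h5] at h3
    have h6 := hG.far
    rw [h3, gpt_add, Pool.Agent.H5.M7.gpt_gv w hK, dist_eq_norm, add_sub_cancel_left, norm_mul,
      norm_uv, mul_one, Complex.norm_real, Real.norm_eq_abs, abs_of_nonneg (by positivity)] at h6
    have h7 : (m : ℝ) * mesh (K + 1) ≤ (ni w K i : ℝ) * mesh (K + 1) :=
      mul_le_mul_of_nonneg_right (by exact_mod_cast (by omega : m ≤ ni w K i)) hμ.le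
    push_cast at h6
    linarith
  refine ⟨⟨hpos, ?_, ?_⟩, ?_, ?_⟩
  · change ni w K i < (SDj B P k0 K n j ω).N - nb
    omega
  · rw [hT, hT, (hline _ le_rfl).2, (hline (ni w K i - 1) (by omega)).2]
  · unfold PType.vert
    rw [hT, (hline _ le_rfl).1, gv_i w K hi]
  · rw [hT, (hline _ le_rfl).2]
    exact hb.dir

/-- the directions at the mark -/
lemma dirs_mark {nb : ℕ} {d : SD} (hb : IsB B w d nb) :
    (hb.T.side 0).2 % 4 = w.k % 4 ∧ (hb.T.side (hb.T.N - 1)).2 % 4 = w.k % 4 := by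
  have h0 := hb.lo
  have h1 := hb.hi
  have h2 := hb.n2
  refine ⟨hb.dir, ?_⟩
  have h3 := T_side hb (m := nb - 1)
  have e : hb.T.N - 1 = d.N - nb + (nb - 1) := by
    change d.N - 1 = _
    omega
  rw [e, h3]
  have h4 := hb.dir'
  change ((nextSide d.R)^[nb - 1] d.s).2 % 4 = _ at h4
  change (((nextSide d.R)^[nb - 1] d.s).2 + 4) % 4 = _
  omega

/-! ### The finite set of types -/

lemma ptype_ext {T T' : PType} (h1 : T.Q = T'.Q) (h2 : T.s0 = T'.s0) (h3 : T.N = T'.N)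
    (h4 : T.m = T'.m) : T = T' := by
  obtain ⟨Q, g, s0, N, m, a1, a2, a3, a4, a5, a6⟩ := T
  obtain ⟨Q', g', s0', N', m', b1, b2, b3, b4, b5, b6⟩ := T'
  simp only at h1 h2 h3 h4
  subst h1 h2 h3 h4
  rfl

lemma nextSide_dir (Q : Finset (ℤ × ℤ)) (s : (ℤ × ℤ) × ℤ) : |(nextSide Q s).2 - s.2| ≤ 1 := by
  unfold nextSide
  split_ifs <;> simp

lemma sid_dir (Q : Finset (ℤ × ℤ)) (s : (ℤ × ℤ) × ℤ) (m : ℕ) :
    |((nextSide Q)^[m] s).2 - s.2| ≤ m := by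
  induction m with
  | zero => simp
  | succ m ih =>
    rw [Function.iterate_succ_apply']
    have h := nextSide_dir Q ((nextSide Q)^[m] s)
    rw [abs_le] at h ih ⊢
    push_cast
    constructor <;> omega

lemma walk_card {Q : Finset (ℤ × ℤ)} {s : (ℤ × ℤ) × ℤ} {N : ℕ} (h : Pg.WalkN Q s N)
    (hs : ∀ m, ((nextSide Q)^[m] s).1 ∈ Q) : N ≤ 4 * Q.card := by
  have h1 : (range N).card ≤ (Q ×ˢ range 4).card := by
    refine card_le_card_of_injOn
      (fun m => (((nextSide Q)^[m] s).1, (((nextSide Q)^[m] s).2 % 4).toNat)) ?_ ?_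
    · intro m _
      rw [Finset.mem_coe, mem_product, mem_range]
      exact ⟨hs m, by simp only; omega⟩
    · intro m hm m' hm' he
      rw [Finset.mem_coe, mem_range] at hm hm'
      simp only [Prod.mk.injEq] at he
      exact h.inj m hm m' hm' he.1 (by omega)
  rw [card_range, card_product, card_range] at h1
  omega

/-- The finite set of the data of the types. -/
noncomputable def FT (G M : ℕ) : Finset (Finset (ℤ × ℤ) × ((ℤ × ℤ) × ℤ) × ℕ × ℕ) :=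
  (Finset.Icc (-(G : ℤ)) G ×ˢ Finset.Icc (-(G : ℤ)) G).powerset ×ˢ
    (((Finset.Icc (-(G : ℤ)) G ×ˢ Finset.Icc (-(G : ℤ)) G) ×ˢ Finset.Icc (-(M : ℤ)) M) ×ˢ
      (range (M + 1) ×ˢ range (M + 1)))

/-- **The data of the types are in a finite set.** -/
theorem mem_FT (hDb : Bornology.IsBounded D) (B : Base A r0) (w : Win B) (K : ℕ) : ∃ G M : ℕ,
    ∀ (P : Par B) (k0 n j : ℕ) (ρ : ℝ) (ω : Finset (ℤ × ℤ)) (nb : ℕ),
      GeoAt B w P k0 K n ρ ω j → ∀ hb : IsB B w (SDj B P k0 K n j ω) nb,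
      (hb.T.Q, hb.T.s0, hb.T.N, hb.T.m) ∈ FT G M := by
  obtain ⟨G, hG0, hG⟩ := R_bdd hDb B.o K
  obtain ⟨G', rfl⟩ := Int.eq_ofNat_of_zero_le hG0
  refine ⟨G', 4 * ((2 * G' + 1) * (2 * G' + 1)) + 3, fun P k0 n j ρ ω nb hgeo hb => ?_⟩
  have hR := hG _ hgeo.sub
  have hsub : (SDj B P k0 K n j ω).R ⊆
      Finset.Icc (-(G' : ℤ)) G' ×ˢ Finset.Icc (-(G' : ℤ)) G' := by
    intro c hc
    obtain ⟨h1, h2⟩ := hR c hc
    rw [← le_sub_iff_add_le, abs_le] at h1 h2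
    rw [mem_product, Finset.mem_Icc, Finset.mem_Icc]
    omega
  have hside : ∀ m, ((nextSide (SDj B P k0 K n j ω).R)^[m] (SDj B P k0 K n j ω).s).1 ∈
      (SDj B P k0 K n j ω).R := fun m => (SD.isSide hb.ok m).1
  have hN := walk_card hb.ok.mark.walk hside
  have hc := card_le_card hsub
  rw [card_product, Int.card_Icc, show ((G' : ℤ) + 1 - -(G' : ℤ)).toNat = 2 * G' + 1 by omega] at hc
  have h0 := hb.lo
  have h1 := hb.hi
  have h2 := hb.n2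
  have hd := sid_dir (SDj B P k0 K n j ω).R (SDj B P k0 K n j ω).s nb
  have hs : |(SDj B P k0 K n j ω).s.2| ≤ 3 := by
    unfold SDj SDX tside
    simp only
    split_ifs <;> norm_num
  have hNN : (SDj B P k0 K n j ω).N ≤ 4 * ((2 * G' + 1) * (2 * G' + 1)) := by
    refine hN.trans ?_
    omega
  unfold FT
  refine mem_product.2 ⟨mem_powerset.2 hsub, mem_product.2 ⟨mem_product.2 ⟨hsub (hside nb),
    Finset.mem_Icc.2 ?_⟩, mem_product.2 ⟨mem_range.2 ?_, mem_range.2 ?_⟩⟩⟩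
  · change -((4 * ((2 * G' + 1) * (2 * G' + 1)) + 3 : ℕ) : ℤ) ≤
      ((nextSide (SDj B P k0 K n j ω).R)^[nb] (SDj B P k0 K n j ω).s).2 ∧
      ((nextSide (SDj B P k0 K n j ω).R)^[nb] (SDj B P k0 K n j ω).s).2 ≤
      ((4 * ((2 * G' + 1) * (2 * G' + 1)) + 3 : ℕ) : ℤ)
    rw [abs_le] at hd hs
    have h5 : ((SDj B P k0 K n j ω).N : ℤ) ≤ ((4 * ((2 * G' + 1) * (2 * G' + 1)) : ℕ) : ℤ) := by
      exact_mod_cast hNN
    push_cast at h5 ⊢
    constructor <;> omega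
  · change (SDj B P k0 K n j ω).N < _
    omega
  · change (SDj B P k0 K n j ω).N - nb < _
    omega

/-- **Uniform convergence on a finite set of types.** -/
theorem conv_types {pz : ℝ → ℝ} {k : ℤ} {C : ℝ}
    (hE : ∀ (P : PType) (x y : ℤ → ℝ) (ψ : ℂ → ℂ) (W : ℝ), StrictMono x → StrictMono y →
      (P.side 0).2 % 4 = k % 4 → (P.side (P.N - 1)).2 % 4 = k % 4 → Chart P x y ψ W →
      ∀ n, FlatV P n → ∃ r D : ℝ, r < W ∧ 0 < D ∧ BV P x y ψ n r D ∧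
        IsG pz P x y n (C * (D / (W - r)) ^ (1 / 3 : ℝ)))
    (A : Approx D a b A₁ A₂) (o : ℂ) (K N0 : ℕ) {ε : ℝ} (hε : 0 < ε)
    (F : Finset (Finset (ℤ × ℤ) × ((ℤ × ℤ) × ℤ) × ℕ × ℕ)) :
    ∀ᶠ n in atTop, ∀ T : PType, (T.Q, T.s0, T.N, T.m) ∈ F → (T.side 0).2 % 4 = k % 4 →
      (T.side (T.N - 1)).2 % 4 = k % 4 → FlatV T N0 → ∀ (ψ : ℂ → ℂ) (W v c : ℝ),
      Chart T (gx K o.re) (gx K o.im) ψ W → BV T (gx K o.re) (gx K o.im) ψ N0 v c →
      |hh T (LX K o.re (A.δ n)) (LX K o.im (A.δ n)) (lv T (LX K o.re (A.δ n)) (LX K o.im (A.δ n)) N0) /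
        pz (A.δ n)⁻¹ - C * (c / (W - v)) ^ (1 / 3 : ℝ)| ≤ ε := by
  have hx := gx_mono K o.re
  have hy := gx_mono K o.im
  have key : ∀ e ∈ F, ∀ᶠ n in atTop, ∀ T : PType, (T.Q, T.s0, T.N, T.m) = e →
      (T.side 0).2 % 4 = k % 4 →
      (T.side (T.N - 1)).2 % 4 = k % 4 → FlatV T N0 → ∀ (ψ : ℂ → ℂ) (W v c : ℝ),
      Chart T (gx K o.re) (gx K o.im) ψ W → BV T (gx K o.re) (gx K o.im) ψ N0 v c →
      |hh T (LX K o.re (A.δ n)) (LX K o.im (A.δ n)) (lv T (LX K o.re (A.δ n)) (LX K o.im (A.δ n)) N0) /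
        pz (A.δ n)⁻¹ - C * (c / (W - v)) ^ (1 / 3 : ℝ)| ≤ ε := by
    intro e _
    by_cases hex : ∃ T : PType, (T.Q, T.s0, T.N, T.m) = e ∧ (T.side 0).2 % 4 = k % 4 ∧
      (T.side (T.N - 1)).2 % 4 = k % 4 ∧ FlatV T N0 ∧ ∃ (ψ : ℂ → ℂ) (W : ℝ),
      Chart T (gx K o.re) (gx K o.im) ψ W
    swap
    · refine Eventually.of_forall fun n T h1 h2 h3 h4 ψ W v c h5 _ => ?_
      exact absurd ⟨T, h1, h2, h3, h4, ψ, W, h5⟩ hex
    obtain ⟨T0, t1, t2, t3, t4, ψ0, W0, t5⟩ := hex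
    obtain ⟨r, D0, -, -, -, hG⟩ := hE T0 _ _ ψ0 W0 hx hy t2 t3 t5 N0 t4
    have hlim := hG _ _ _ (app_LX K o A.pos A.lim)
    rw [Metric.tendsto_nhds] at hlim
    filter_upwards [hlim ε hε] with n hn T h1 h2 h3 h4 ψ W v c h5 h6
    rw [← t1] at h1
    simp only [Prod.mk.injEq] at h1
    have hTT := ptype_ext h1.1 h1.2.1 h1.2.2.1 h1.2.2.2
    subst hTT
    obtain ⟨r', D', -, -, hBV, hG'⟩ := hE T _ _ ψ W hx hy h2 h3 h5 N0 h4
    obtain ⟨e1, e2⟩ := hBV.unique hx hy h6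
    subst e1 e2
    have e3 := hG.unique hx hy hG'
    rw [← e3]
    rw [Real.dist_eq] at hn
    exact hn.le
  have h := (Filter.eventually_all_finset F).2 key
  filter_upwards [h] with n hn T hT
  exact hn _ hT T rfl

/-- **[OBS]** -/
theorem stObs_of {pz : ℝ → ℝ} (hpz : StPz pz) {k : ℤ} {C : ℝ}
    (hE : ∀ (P : PType) (x y : ℤ → ℝ) (ψ : ℂ → ℂ) (W : ℝ), StrictMono x → StrictMono y →
      (P.side 0).2 % 4 = k % 4 → (P.side (P.N - 1)).2 % 4 = k % 4 → Chart P x y ψ W →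
      ∀ n, FlatV P n → ∃ r D : ℝ, r < W ∧ 0 < D ∧ BV P x y ψ n r D ∧
        IsG pz P x y n (C * (D / (W - r)) ^ (1 / 3 : ℝ)))
    (B : Base A r0) (w : Win B) (hk : w.k % 4 = k % 4) : StObs B w pz C := by
  intro hJ hab hA hw k0 hk0 hwk ρ hρ ε hε i hi hil
  obtain ⟨r1, hr1, h1⟩ := stCmp hpz B w hJ hab hA hw k0 hk0 hwk ρ hρ (ε / 2) (by linarith) i hi hil
  obtain ⟨r2, hr2, h2⟩ := Pool.Agent.H5.M7.stGeo B w hJ hab hA hw k0 hk0 hwk ρ hρ
  refine ⟨min r1 r2, lt_min hr1 hr2, fun P hP hM => ?_⟩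
  obtain ⟨K1, hK1⟩ := h1 P (hP.trans (Metric.ball_subset_ball (min_le_left _ _))) hM
  obtain ⟨K2, hK2⟩ := h2 P (hP.trans (Metric.ball_subset_ball (min_le_right _ _))) hM
  refine ⟨K1 + K2 + w.k1 + 1, fun K hK => ?_⟩
  obtain ⟨G, M, hF⟩ := mem_FT (A := A) hJ.2.2.1 B w K
  filter_upwards [hK1 K (by omega), hK2 K (by omega),
    conv_types hE A B.o K (ni w K i) (show 0 < ε / 2 by linarith) (FT G M)] with n g1 g2 g3
  intro ω hω j hAd
  have hgeo := g2 ω hω j hAd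
  obtain ⟨nb, hb⟩ := hgeo.nb
  refine ⟨nb, hb, fun ψ W v c hC hv hc => ?_⟩
  have hcmp := g1 ω hω j hAd nb hb
  obtain ⟨f1, f2, f3⟩ := flat_i hgeo (show w.k1 ≤ K by omega) hb hi hil
  obtain ⟨d1, d2⟩ := dirs_mark hb
  have hpt : Pool.Agent.Q1.M4.pt (gx K B.o.re) (gx K B.o.im) (hb.T.vert (ni w K i)) = w.u i := by
    rw [f2]
    change gpt B.o K (w.gv K i) = _
    unfold Win.gv Win.u
    exact Pool.Agent.H5.M7.gpt_fine (show w.k1 ≤ K by omega) _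
  have hBV : BV hb.T (gx K B.o.re) (gx K B.o.im) ψ (ni w K i) v c := by
    refine ⟨?_, ?_⟩
    · rw [hpt]; exact hv
    · rw [hpt]
      have e : udir (hb.T.side (ni w K i)).2 = uv w.k := by
        unfold udir uv
        rw [show H75.Perc.dir (hb.T.side (ni w K i)).2 = H75.Perc.dir w.k from
          Pg.dir_congr (by omega)]
      rw [e]; exact hc
  have hlim := g3 hb.T (hF P k0 n j ρ ω nb hgeo hb) (by omega) (by omega) f1 ψ W v c hC hBV
  have hlv : lv hb.T (LX K B.o.re (A.δ n)) (LX K B.o.im (A.δ n)) (ni w K i) = w.x n i := by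
    unfold lv
    rw [f2]
    exact gp_gv w (show w.k1 + 1 ≤ K by omega) n i
  rw [hlv] at hlim
  have hp := hpz.1 (A.δ n)⁻¹
  set H := w.h n i (B.X k0 n (j + 1) ω) with hH
  set H' := hh hb.T (LX K B.o.re (A.δ n)) (LX K B.o.im (A.δ n)) (w.x n i) with hH'
  have h3 : |H / pz (A.δ n)⁻¹ - H' / pz (A.δ n)⁻¹| ≤ ε / 2 := by
    rw [← sub_div, abs_div, abs_of_pos hp, div_le_iff₀ hp]
    exact hcmp
  have h4 := abs_sub_le (H / pz (A.δ n)⁻¹) (H' / pz (A.δ n)⁻¹) (C * (c / (W - v)) ^ (1 / 3 : ℝ))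
  linarith

end

end Pool.Agent.H76.M7
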