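import Mathlib
import Pool.Agent.H76.M7.ObsB

set_option autoImplicit false
open Finset Filter Topology

/-! # Module M7, J21: `StObs` for all windows from the explicit form of the one-point function -/

namespace Pool.Agent.H76.M7

open Pool.Agent.H81.Q1 (Approx)
open Pool.Agent.Q1.M3
open Pool.Agent.H82.Q1.M7
open Pool.Agent.Q1.M5 (StPz)
open Pool.Agent.H29.M7 (StExp)

/-- **[OBS]** for all windows; the constant depends on the direction of the window only. -/
theorem stObs_all {pz : ℝ → ℝ} (hpz : StPz pz) (hExp : StExp pz) : ∀ k : ℤ, ∃ C0 : ℝ, 0 < C0 ∧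
    ∀ (D : Set ℂ) (a b : ℂ) (A₁ A₂ : Set ℂ) (A : Approx D a b A₁ A₂) (r0 : ℝ)
      (B : Base A r0) (w : Win B), w.k % 4 = k % 4 → StObs B w pz C0 := by
  intro k
  obtain ⟨C, hC, hE⟩ := hExp k
  exact ⟨C, hC, fun D a b A₁ A₂ A r0 B w hk => stObs_of hpz hE B w hk⟩

end Pool.Agent.H76.M7
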