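import Mathlib
import Pool.Agent.H76.M7.Top
import Pool.Agent.Q1.M3.Asm.Q1A

set_option autoImplicit false

/-! # Q1 and convergence to SLE(6) from the two inputs of M6 -/

namespace Pool.Agent.H76.M7

open Pool.Agent.Q1.M4


/-- **Convergence in law of the exploration path to chordal SLE(6)** from `StA` and the data of M4. -/
theorem q1sle_of_stA (hA : Pool.Agent.Q1.M5.StA) (hSeq : Pool.Agent.H29.M7.StSeq) :
    Pool.Agent.H82.Q1.Q1SLE := by
  obtain ⟨pz, hpz, hB2, -⟩ := Pool.Agent.Q1.M5.stC2_of_stA hA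
  exact q1sle_of_exp hpz (Pool.Agent.H29.M7.stExp hpz hB2 hSeq)

end Pool.Agent.H76.M7
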