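import Mathlib
import Pool.Agent.H76.M7.TopN
import Pool.Agent.H29.M7.Seq
import Pool.Agent.Q1.M6c.StAOf

set_option autoImplicit false

/-! # Q1 and convergence to SLE(6) from the holomorphy of the limits, resp. from `N1` -/

namespace Pool.Agent.H76.M7

open Pool.Agent.Q1 Pool.Agent.Q1.M4 Pool.Agent.Q1.M6c

/-- **Convergence to SLE(6)** from the holomorphy of the limits. -/
theorem q1sle_of_holDob (hH : HolDob) : Pool.Agent.H82.Q1.Q1SLE :=
  q1sle_of_stA (stA_of_holDob hH)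
    (Pool.Agent.H29.M7.stSeq_of ap_planeK (fun _ hZ _ _ _ _ _ _ => planeK_freeze hZ _ _)
      planeK_dob hH)

/-- **Q1** from the holomorphy of the limits. -/
theorem q1_of_holDob (hH : HolDob) : Pool.Agent.H81.Q1.Q1 :=
  Pool.Agent.Q1.M3.Asm.Q1_of_stA (stA_of_holDob hH)

/-- Both statements from `N1` for the plane environments. -/
theorem q1_and_sle_of_N1 (hN : N1 PlaneK) : Pool.Agent.H81.Q1.Q1 ∧ Pool.Agent.H82.Q1.Q1SLE :=
  ⟨q1_of_holDob (holDob_of_N1 hN), q1sle_of_holDob (holDob_of_N1 hN)⟩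

end Pool.Agent.H76.M7
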